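import Mathlib

/-! MP_28724c_co: counting homogeneous sequences for a nondegenerate bilinear form over `F_2`. -/

namespace Pool.Agent.R760.BR

open Finset Module

/-- triangular numbers -/
def tri (a : ℕ) : ℕ := a * (a + 1) / 2

lemma two_tri (a : ℕ) : 2 * tri a = a * (a + 1) := by
  unfold tri
  exact Nat.mul_div_cancel' (Nat.even_mul_succ_self a).two_dvd

lemma tri_succ (a : ℕ) : tri (a + 1) = tri a + a + 1 := by
  have h1 := two_tri a
  have h2 := two_tri (a + 1)
  nlinarith

lemma tri_exp (m d : ℕ) : (2 * m - d) + tri (m - (d + 1)) ≤ m + tri (m - d) := by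
  by_cases h : d < m
  · obtain ⟨c, rfl⟩ : ∃ c, m = d + 1 + c := ⟨m - (d + 1), by omega⟩
    have h1 : d + 1 + c - (d + 1) = c := by omega
    have h2 : d + 1 + c - d = c + 1 := by omega
    rw [h1, h2, tri_succ]
    omega
  · have h1 : m - (d + 1) = m - d := by omega
    rw [h1]
    omega

lemma tri_anti (m : ℕ) {d d' : ℕ} (h : d ≤ d') : tri (m - d') ≤ tri (m - d) := by
  have h0 : m - d' ≤ m - d := by omega
  have h1 := two_tri (m - d')
  have h2 := two_tri (m - d)
  have h3 : (m - d') * (m - d' + 1) ≤ (m - d) * (m - d + 1) := Nat.mul_le_mul h0 (by omega)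
  omega

section

variable {V : Type} [AddCommGroup V] [Module (ZMod 2) V] [Fintype V]

open Classical in
/-- sequences `x_1, ..., x_s` with `B (p, x_j) = ε` for all `p ∈ P` and `B (x_i, x_j) = ε`
for `i < j` -/
noncomputable def adm (B : LinearMap.BilinForm (ZMod 2) V) (ε : ZMod 2) (P : Set V) (s : ℕ) :
    Finset (Fin s → V) :=
  univ.filter fun x => (∀ p ∈ P, ∀ j, B p (x j) = ε) ∧ ∀ i j, i < j → B (x i) (x j) = ε

lemma mem_adm {B : LinearMap.BilinForm (ZMod 2) V} {ε : ZMod 2} {P : Set V} {s : ℕ}
    {x : Fin s → V} : x ∈ adm B ε P s ↔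
      (∀ p ∈ P, ∀ j, B p (x j) = ε) ∧ ∀ i j, i < j → B (x i) (x j) = ε := by
  classical
  unfold adm
  simp only [Finset.mem_filter, Finset.mem_univ, true_and]

open Classical in
lemma count_affine (B : LinearMap.BilinForm (ZMod 2) V) (hB : B.Nondegenerate)
    {m : ℕ} (hm : finrank (ZMod 2) V = 2 * m) (ε : ZMod 2) (P : Set V) :
    ((univ : Finset V).filter (fun a => ∀ p ∈ P, B p a = ε)).card
      ≤ 2 ^ (2 * m - finrank (ZMod 2) (Submodule.span (ZMod 2) P)) := by
  rcases Finset.eq_empty_or_nonempty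
    ((univ : Finset V).filter (fun a => ∀ p ∈ P, B p a = ε)) with h | ⟨a₀, ha₀⟩
  · rw [h]; simp
  · rw [Finset.mem_filter] at ha₀
    have h1 : Fintype.card (B.orthogonal (Submodule.span (ZMod 2) P))
        = 2 ^ (2 * m - finrank (ZMod 2) (Submodule.span (ZMod 2) P)) := by
      rw [Module.card_eq_pow_finrank (K := ZMod 2), ZMod.card,
        LinearMap.BilinForm.finrank_orthogonal hB, hm]
    rw [← h1, ← Finset.card_univ]
    have hmem : ∀ a : V, (∀ p ∈ P, B p a = ε) →
        a - a₀ ∈ B.orthogonal (Submodule.span (ZMod 2) P) := by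
      intro a ha
      rw [LinearMap.BilinForm.mem_orthogonal_iff]
      intro w hw
      change B w (a - a₀) = 0
      rw [map_sub]
      refine Submodule.span_induction (p := fun w _ => B w a - B w a₀ = 0) ?_ ?_ ?_ ?_ hw
      · intro p hp
        rw [ha p hp, ha₀.2 p hp, sub_self]
      · simp
      · intro x y _ _ hx hy
        rw [map_add, LinearMap.add_apply, LinearMap.add_apply]
        linear_combination hx + hy
      · intro c x _ hx
        rw [map_smul, LinearMap.smul_apply, LinearMap.smul_apply, ← smul_sub, hx, smul_zero]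
    refine Finset.card_le_card_of_injOn
      (fun a => if h : ∀ p ∈ P, B p a = ε then ⟨a - a₀, hmem a h⟩ else 0) ?_ ?_
    · intro a _; exact Finset.mem_coe.mpr (Finset.mem_univ _)
    · intro a ha b hb hab
      rw [Finset.mem_coe, Finset.mem_filter] at ha hb
      simp only [dif_pos ha.2, dif_pos hb.2, Subtype.mk.injEq] at hab
      exact sub_left_injective hab

open Classical in
lemma count_affine_in (B : LinearMap.BilinForm (ZMod 2) V) (hB : B.Nondegenerate)
    {m : ℕ} (hm : finrank (ZMod 2) V = 2 * m) (ε : ZMod 2) (P : Set V) :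
    (((univ : Finset V).filter (fun a => ∀ p ∈ P, B p a = ε)).filter
      (fun a => a ∈ Submodule.span (ZMod 2) P)).card ≤ 2 ^ m := by
  by_cases h : finrank (ZMod 2) (Submodule.span (ZMod 2) P) ≤ m
  · have h1 : Fintype.card (Submodule.span (ZMod 2) P)
        = 2 ^ (finrank (ZMod 2) (Submodule.span (ZMod 2) P)) := by
      rw [Module.card_eq_pow_finrank (K := ZMod 2), ZMod.card]
    calc _ ≤ ((univ : Finset V).filter (fun a => a ∈ Submodule.span (ZMod 2) P)).card :=
          Finset.card_le_card (Finset.filter_subset_filter _ (Finset.filter_subset _ _))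
      _ = Fintype.card (Submodule.span (ZMod 2) P) := by
          rw [← Fintype.card_subtype]
      _ ≤ 2 ^ m := by rw [h1]; exact Nat.pow_le_pow_right (by norm_num) h
  · calc _ ≤ ((univ : Finset V).filter (fun a => ∀ p ∈ P, B p a = ε)).card :=
          Finset.card_le_card (Finset.filter_subset _ _)
      _ ≤ 2 ^ (2 * m - finrank (ZMod 2) (Submodule.span (ZMod 2) P)) := count_affine B hB hm ε P
      _ ≤ 2 ^ m := Nat.pow_le_pow_right (by norm_num) (by omega)

open Classical in
lemma adm_succ (B : LinearMap.BilinForm (ZMod 2) V) (ε : ZMod 2) (P : Set V) (s : ℕ) :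
    (adm B ε P (s + 1)).card ≤
      ∑ a ∈ (univ : Finset V).filter (fun a => ∀ p ∈ P, B p a = ε),
        (adm B ε (insert a P) s).card := by
  rw [← Finset.card_sigma]
  refine Finset.card_le_card_of_injOn (fun x => ⟨x 0, Fin.tail x⟩) ?_ ?_
  · intro x hx
    rw [Finset.mem_coe, mem_adm] at hx
    rw [Finset.mem_coe, Finset.mem_sigma, Finset.mem_filter, mem_adm]
    refine ⟨⟨Finset.mem_univ _, fun p hp => hx.1 p hp 0⟩, ?_, ?_⟩
    · intro p hp j
      rcases Set.mem_insert_iff.mp hp with h | h
      · rw [h]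
        exact hx.2 0 j.succ (Fin.succ_pos j)
      · exact hx.1 p h j.succ
    · intro i j hij
      exact hx.2 i.succ j.succ (Fin.succ_lt_succ_iff.mpr hij)
  · intro x _ y _ hxy
    simp only [Sigma.mk.injEq, heq_eq_eq] at hxy
    rw [← Fin.cons_self_tail x, ← Fin.cons_self_tail y, hxy.1, hxy.2]

/-- the number of admissible extensions -/
theorem card_adm (B : LinearMap.BilinForm (ZMod 2) V) (hB : B.Nondegenerate)
    {m : ℕ} (hm : finrank (ZMod 2) V = 2 * m) (ε : ZMod 2) (s : ℕ) : ∀ P : Set V,
    (adm B ε P s).card ≤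
      2 ^ (s + m * s + tri (m - finrank (ZMod 2) (Submodule.span (ZMod 2) P))) := by
  classical
  induction s with
  | zero =>
    intro P
    calc (adm B ε P 0).card ≤ (univ : Finset (Fin 0 → V)).card :=
          Finset.card_le_card (Finset.subset_univ _)
      _ = 1 := by simp
      _ ≤ _ := Nat.one_le_two_pow
  | succ s ih =>
    intro P
    set d := finrank (ZMod 2) (Submodule.span (ZMod 2) P) with hd
    refine (adm_succ B ε P s).trans ?_
    rw [← Finset.sum_filter_add_sum_filter_not _ (fun a => a ∈ Submodule.span (ZMod 2) P)]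
    have h1 : ∑ a ∈ ((univ : Finset V).filter (fun a => ∀ p ∈ P, B p a = ε)).filter
        (fun a => a ∈ Submodule.span (ZMod 2) P), (adm B ε (insert a P) s).card
        ≤ 2 ^ m * 2 ^ (s + m * s + tri (m - d)) := by
      refine (Finset.sum_le_card_nsmul _ _ (2 ^ (s + m * s + tri (m - d))) ?_).trans ?_
      · intro a ha
        rw [Finset.mem_filter] at ha
        have h2 := ih (insert a P)
        rwa [Submodule.span_insert_eq_span ha.2] at h2
      · rw [smul_eq_mul]
        exact Nat.mul_le_mul_right _ (count_affine_in B hB hm ε P)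
    have h2 : ∑ a ∈ ((univ : Finset V).filter (fun a => ∀ p ∈ P, B p a = ε)).filter
        (fun a => ¬ a ∈ Submodule.span (ZMod 2) P), (adm B ε (insert a P) s).card
        ≤ 2 ^ (2 * m - d) * 2 ^ (s + m * s + tri (m - (d + 1))) := by
      refine (Finset.sum_le_card_nsmul _ _ (2 ^ (s + m * s + tri (m - (d + 1)))) ?_).trans ?_
      · intro a ha
        rw [Finset.mem_filter] at ha
        refine (ih (insert a P)).trans (Nat.pow_le_pow_right (by norm_num) ?_)
        have h3 : Submodule.span (ZMod 2) P < Submodule.span (ZMod 2) (insert a P) := by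
          refine lt_of_le_of_ne (Submodule.span_mono (Set.subset_insert _ _)) fun h => ha.2 ?_
          rw [h]
          exact Submodule.subset_span (Set.mem_insert _ _)
        have h4 := Submodule.finrank_lt_finrank_of_lt h3
        have h5 := tri_anti m (show d + 1 ≤ _ from h4)
        omega
      · rw [smul_eq_mul]
        refine Nat.mul_le_mul_right _ ?_
        exact (Finset.card_le_card (Finset.filter_subset _ _)).trans (count_affine B hB hm ε P)
    refine (Nat.add_le_add h1 h2).trans ?_
    rw [← pow_add, ← pow_add]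
    have h3 : 2 ^ (2 * m - d + (s + m * s + tri (m - (d + 1))))
        ≤ 2 ^ (m + (s + m * s + tri (m - d))) := by
      refine Nat.pow_le_pow_right (by norm_num) ?_
      have := tri_exp m d
      omega
    have h4 : 2 ^ (s + 1 + m * (s + 1) + tri (m - d))
        = 2 ^ (m + (s + m * s + tri (m - d))) + 2 ^ (m + (s + m * s + tri (m - d))) := by
      rw [← two_mul, ← pow_succ']
      congr 1
      ring
    rw [h4]
    exact Nat.add_le_add_left h3 _

/-- homogeneous sequences -/
theorem card_hom (B : LinearMap.BilinForm (ZMod 2) V) (hB : B.Nondegenerate)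
    {m : ℕ} (hm : finrank (ZMod 2) V = 2 * m) (ε : ZMod 2) (k : ℕ) :
    (adm B ε ∅ k).card ≤ 2 ^ (k + m * k + tri m) := by
  refine (card_adm B hB hm ε k ∅).trans (Nat.pow_le_pow_right (by norm_num) ?_)
  have := tri_anti m (Nat.zero_le (finrank (ZMod 2) (Submodule.span (ZMod 2) (∅ : Set V))))
  rw [Nat.sub_zero] at this
  omega

open Classical in
omit [AddCommGroup V] [Module (ZMod 2) V] in
/-- fibres of the restriction to `k` coordinates -/
lemma card_fibre {n k : ℕ} (e : Fin k ↪ Fin n) (X : Finset (Fin k → V)) :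
    ((univ : Finset (Fin n → V)).filter (fun v => v ∘ e ∈ X)).card
      ≤ X.card * Fintype.card V ^ (n - k) := by
  have h1 : Fintype.card {j : Fin n // ¬ j ∈ Set.range e} = n - k := by
    rw [Fintype.card_subtype_compl, Fintype.card_fin]
    congr 1
    have h2 : Fintype.card (Set.range e) = k := by
      rw [Set.card_range_of_injective e.injective, Fintype.card_fin]
    exact h2
  have h2 : Fintype.card ({j : Fin n // ¬ j ∈ Set.range e} → V) = Fintype.card V ^ (n - k) := by
    rw [Fintype.card_fun, h1]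
  rw [← h2, ← Finset.card_univ, ← Finset.card_product]
  refine Finset.card_le_card_of_injOn (fun v => (v ∘ e, fun j => v j.1)) ?_ ?_
  · intro v hv
    rw [Finset.mem_coe, Finset.mem_filter] at hv
    rw [Finset.mem_coe, Finset.mem_product]
    exact ⟨hv.2, Finset.mem_univ _⟩
  · intro v _ w _ hvw
    simp only [Prod.mk.injEq] at hvw
    funext j
    by_cases hj : j ∈ Set.range e
    · obtain ⟨i, rfl⟩ := hj
      exact congrFun hvw.1 i
    · exact congrFun hvw.2 ⟨j, hj⟩

/-- vectors without homogeneous subsequences -/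
theorem exists_vectors (B : LinearMap.BilinForm (ZMod 2) V) (hB : B.Nondegenerate)
    {m : ℕ} (hm : finrank (ZMod 2) V = 2 * m) {n k : ℕ}
    (h : n ^ k * 2 ^ (k + 1 + tri m) < 2 ^ (m * k)) :
    ∃ v : Fin n → V, ∀ (e : Fin k ↪ Fin n) (ε : ZMod 2), v ∘ e ∉ adm B ε ∅ k := by
  classical
  by_cases hkn : n < k
  · refine ⟨fun _ => 0, fun e => ?_⟩
    exfalso
    have := Fintype.card_le_of_embedding e
    rw [Fintype.card_fin, Fintype.card_fin] at this
    omega
  push Not at hkn
  by_contra hcon
  push Not at hcon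
  have hV : Fintype.card V = 2 ^ (2 * m) := by
    rw [Module.card_eq_pow_finrank (K := ZMod 2), ZMod.card, hm]
  have h1 : (univ : Finset (Fin n → V)) ⊆
      (univ : Finset ((Fin k ↪ Fin n) × ZMod 2)).biUnion
        (fun q => univ.filter (fun v : Fin n → V => v ∘ q.1 ∈ adm B q.2 ∅ k)) := by
    intro v _
    obtain ⟨e, ε, hv⟩ := hcon v
    rw [Finset.mem_biUnion]
    exact ⟨(e, ε), Finset.mem_univ _, Finset.mem_filter.mpr ⟨Finset.mem_univ _, hv⟩⟩
  have h2 := Finset.card_le_card h1
  rw [Finset.card_univ, Fintype.card_fun, Fintype.card_fin, hV] at h2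
  have h3 : ((univ : Finset ((Fin k ↪ Fin n) × ZMod 2)).biUnion
        (fun q => univ.filter (fun v : Fin n → V => v ∘ q.1 ∈ adm B q.2 ∅ k))).card
      ≤ (n ^ k * 2) * (2 ^ (k + m * k + tri m) * (2 ^ (2 * m)) ^ (n - k)) := by
    refine Finset.card_biUnion_le.trans ?_
    refine (Finset.sum_le_card_nsmul _ _
      (2 ^ (k + m * k + tri m) * (2 ^ (2 * m)) ^ (n - k)) ?_).trans ?_
    · intro q _
      refine (card_fibre q.1 _).trans ?_
      rw [hV]
      exact Nat.mul_le_mul_right _ (card_hom B hB hm q.2 k)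
    · rw [smul_eq_mul]
      refine Nat.mul_le_mul_right _ ?_
      rw [Finset.card_univ, Fintype.card_prod, ZMod.card, Fintype.card_embedding_eq,
        Fintype.card_fin, Fintype.card_fin]
      exact Nat.mul_le_mul_right _ (Nat.descFactorial_le_pow n k)
  have h4 := h2.trans h3
  have h5 : ((2 : ℕ) ^ (2 * m)) ^ n = 2 ^ (m * k) * 2 ^ (m * k) * (2 ^ (2 * m)) ^ (n - k) := by
    obtain ⟨c, rfl⟩ : ∃ c, n = k + c := ⟨n - k, by omega⟩
    rw [Nat.add_sub_cancel_left, pow_add, ← pow_add, ← pow_mul]
    ring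
  rw [h5] at h4
  have h6 : (n ^ k * 2) * (2 ^ (k + m * k + tri m) * (2 ^ (2 * m)) ^ (n - k))
      = (n ^ k * 2 ^ (k + 1 + tri m)) * 2 ^ (m * k) * (2 ^ (2 * m)) ^ (n - k) := by
    rw [show k + m * k + tri m = m * k + (k + tri m) by ring,
      show k + 1 + tri m = (k + tri m) + 1 by ring, pow_add, pow_succ]
    ring
  rw [h6] at h4
  have h7 : 0 < ((2 : ℕ) ^ (2 * m)) ^ (n - k) := by positivity
  have h8 := Nat.le_of_mul_le_mul_right h4 h7
  have h9 := Nat.le_of_mul_le_mul_right h8 (show 0 < 2 ^ (m * k) by positivity)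
  omega

end

end Pool.Agent.R760.BR
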