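import Pool.Agent.R760.BR1
import Pool.Agent.R760.BR2

/-! MP_28724c_co: Ramsey graphs of small rank over `F_2`. -/

namespace Pool.Agent.R760.BR

open Matrix Finset Module

/-- the standard symplectic form on `F_2^m × F_2^m` -/
def symp (m : ℕ) : LinearMap.BilinForm (ZMod 2) ((Fin m → ZMod 2) × (Fin m → ZMod 2)) :=
  LinearMap.mk₂ (ZMod 2) (fun x y => x.1 ⬝ᵥ y.2 + x.2 ⬝ᵥ y.1)
    (fun x x' y => by
      simp only [Prod.fst_add, Prod.snd_add, add_dotProduct]; ring)
    (fun c x y => by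
      simp only [Prod.smul_fst, Prod.smul_snd, smul_dotProduct, smul_add])
    (fun x y y' => by
      simp only [Prod.fst_add, Prod.snd_add, dotProduct_add]; ring)
    (fun c x y => by
      simp only [Prod.smul_fst, Prod.smul_snd, dotProduct_smul, smul_add])

lemma symp_apply {m : ℕ} (x y : (Fin m → ZMod 2) × (Fin m → ZMod 2)) :
    symp m x y = x.1 ⬝ᵥ y.2 + x.2 ⬝ᵥ y.1 := rfl

lemma symp_comm {m : ℕ} (x y : (Fin m → ZMod 2) × (Fin m → ZMod 2)) :
    symp m x y = symp m y x := by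
  rw [symp_apply, symp_apply, dotProduct_comm x.1, dotProduct_comm x.2, add_comm]

lemma symp_left {m : ℕ} (x : (Fin m → ZMod 2) × (Fin m → ZMod 2))
    (h : ∀ y, symp m x y = 0) : x = 0 := by
  apply Prod.ext
  · funext i
    have := h (0, Pi.single i 1)
    rw [symp_apply] at this
    simpa using this
  · funext i
    have := h (Pi.single i 1, 0)
    rw [symp_apply] at this
    simpa using this

lemma symp_nondeg (m : ℕ) : (symp m).Nondegenerate :=
  ⟨fun x h => symp_left x h, fun y h => symp_left y fun x => by rw [symp_comm]; exact h x⟩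

lemma symp_finrank (m : ℕ) :
    finrank (ZMod 2) ((Fin m → ZMod 2) × (Fin m → ZMod 2)) = 2 * m := by
  rw [Module.finrank_prod, Module.finrank_fin_fun]
  ring

/-- the Gram matrix has rank at most `2m` -/
lemma gram_rank {n m : ℕ} (v : Fin n → (Fin m → ZMod 2) × (Fin m → ZMod 2)) :
    (Matrix.of fun i j => symp m (v i) (v j)).rank ≤ 2 * m := by
  have h1 : (Matrix.of fun i j => symp m (v i) (v j)) =
      (Matrix.of fun (i : Fin n) (t : Fin m ⊕ Fin m) => Sum.elim (v i).1 (v i).2 t) *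
      (Matrix.of fun (t : Fin m ⊕ Fin m) (j : Fin n) => Sum.elim (v j).2 (v j).1 t) := by
    ext i j
    rw [Matrix.mul_apply]
    simp only [Matrix.of_apply, Fintype.sum_sum_type, Sum.elim_inl, Sum.elim_inr]
    rfl
  rw [h1]
  refine (Matrix.rank_mul_le_left _ _).trans ((Matrix.rank_le_card_width _).trans ?_)
  rw [Fintype.card_sum, Fintype.card_fin]
  omega

/-- the natural number form of the lower bound -/
theorem lower_nat {n m k : ℕ} (h : n ^ k * 2 ^ (k + 1 + tri m) < 2 ^ (m * k)) :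
    ∃ (G : SimpleGraph (Fin n)) (M : Matrix (Fin n) (Fin n) (ZMod 2)),
      G.CliqueFree k ∧ Gᶜ.CliqueFree k ∧ M.IsSymm ∧ M.rank ≤ 2 * m ∧
      ∀ i j, i ≠ j → (M i j = 1 ↔ G.Adj i j) := by
  classical
  obtain ⟨v, hv⟩ := exists_vectors (symp m) (symp_nondeg m) (symp_finrank m) h
  let G : SimpleGraph (Fin n) :=
    { Adj := fun i j => i ≠ j ∧ symp m (v i) (v j) = 1
      symm := ⟨fun i j hij => ⟨hij.1.symm, by rw [symp_comm]; exact hij.2⟩⟩
      loopless := ⟨fun i hi => hi.1 rfl⟩ }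
  have hkey : ∀ (s : Finset (Fin n)) (ε : ZMod 2), s.card = k →
      (∀ i ∈ s, ∀ j ∈ s, i ≠ j → symp m (v i) (v j) = ε) → False := by
    intro s ε hs hall
    let e : Fin k ↪ Fin n := (s.orderEmbOfFin hs).toEmbedding
    apply hv e ε
    rw [mem_adm]
    refine ⟨fun p hp => absurd hp (Set.notMem_empty _), fun i j hij => ?_⟩
    exact hall _ (Finset.orderEmbOfFin_mem s hs i) _ (Finset.orderEmbOfFin_mem s hs j)
      (fun h => (ne_of_lt hij) (e.injective h))
  refine ⟨G, Matrix.of fun i j => symp m (v i) (v j), ?_, ?_, ?_, gram_rank v, ?_⟩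
  · intro s hs
    exact hkey s 1 hs.2 fun i hi j hj hij => (hs.1 hi hj hij).2
  · intro s hs
    refine hkey s 0 hs.2 fun i hi j hj hij => ?_
    have h1 := hs.1 hi hj hij
    rw [SimpleGraph.compl_adj] at h1
    rcases zmod2_cases (symp m (v i) (v j)) with h2 | h2
    · exact h2
    · exact absurd ⟨hij, h2⟩ h1.2
  · ext i j
    simp only [Matrix.transpose_apply, Matrix.of_apply]
    exact symp_comm _ _
  · intro i j hij
    exact ⟨fun h => ⟨hij, h⟩, fun h => h.2⟩

/-- the real form of the lower bound -/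
theorem lower (m k : ℕ) (hk : 2 ≤ k) :
    ∃ (n : ℕ) (G : SimpleGraph (Fin n)) (M : Matrix (Fin n) (Fin n) (ZMod 2)),
      (2 : ℝ) ^ ((m : ℝ) - (m : ℝ) * (m + 1) / (2 * k) - 5 / 2) ≤ n ∧
      G.CliqueFree k ∧ Gᶜ.CliqueFree k ∧ M.IsSymm ∧ M.rank ≤ 2 * m ∧
      ∀ i j, i ≠ j → (M i j = 1 ↔ G.Adj i j) := by
  classical
  have hk0 : (0 : ℝ) < k := by
    have : (0 : ℝ) < 2 := by norm_num
    exact this.trans_le (by exact_mod_cast hk)
  set x : ℝ := (m : ℝ) - (m : ℝ) * (m + 1) / (2 * k) - (k + 1) / k with hx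
  have hxy : (m : ℝ) - (m : ℝ) * (m + 1) / (2 * k) - 5 / 2 ≤ x - 1 := by
    have h1 : ((k : ℝ) + 1) / k ≤ 3 / 2 := by
      rw [div_le_div_iff₀ hk0 (by norm_num)]
      have : (2 : ℝ) ≤ k := by exact_mod_cast hk
      linarith
    rw [hx]; linarith
  have hle : (2 : ℝ) ^ ((m : ℝ) - (m : ℝ) * (m + 1) / (2 * k) - 5 / 2) ≤ (2 : ℝ) ^ (x - 1) :=
    Real.rpow_le_rpow_of_exponent_le (by norm_num) hxy
  by_cases hx1 : x < 1
  · refine ⟨1, ⊥, 0, ?_, ?_, ?_, Matrix.isSymm_zero, ?_, ?_⟩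
    · refine hle.trans ?_
      have : (2 : ℝ) ^ (x - 1) ≤ (2 : ℝ) ^ (0 : ℝ) :=
        Real.rpow_le_rpow_of_exponent_le (by norm_num) (by linarith)
      rw [Real.rpow_zero] at this
      simpa using this
    · intro s hs
      have := s.card_le_univ
      rw [hs.2, Fintype.card_fin] at this
      omega
    · intro s hs
      have := s.card_le_univ
      rw [hs.2, Fintype.card_fin] at this
      omega
    · rw [Matrix.rank_zero]; exact Nat.zero_le _
    · intro i j hij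
      exact absurd (Subsingleton.elim i j) hij
  · push Not at hx1
    set n := ⌈(2 : ℝ) ^ x⌉₊ - 1 with hn
    have h2x : (2 : ℝ) ≤ 2 ^ x := by
      calc (2 : ℝ) = 2 ^ (1 : ℝ) := (Real.rpow_one 2).symm
        _ ≤ 2 ^ x := Real.rpow_le_rpow_of_exponent_le (by norm_num) hx1
    have hceil : (2 : ℝ) ^ x ≤ ⌈(2 : ℝ) ^ x⌉₊ := Nat.le_ceil _
    have hceil2 : (⌈(2 : ℝ) ^ x⌉₊ : ℝ) < 2 ^ x + 1 := Nat.ceil_lt_add_one (by positivity)
    have hge1 : 1 ≤ ⌈(2 : ℝ) ^ x⌉₊ := by
      have : (1 : ℝ) ≤ ⌈(2 : ℝ) ^ x⌉₊ := by linarith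
      exact_mod_cast this
    have hncast : (n : ℝ) = ⌈(2 : ℝ) ^ x⌉₊ - 1 := by
      rw [hn, Nat.cast_sub hge1, Nat.cast_one]
    have hlt : (n : ℝ) < 2 ^ x := by rw [hncast]; linarith
    have hge : (2 : ℝ) ^ (x - 1) ≤ n := by
      rw [hncast, Real.rpow_sub (by norm_num), Real.rpow_one]
      linarith
    have hnat : n ^ k * 2 ^ (k + 1 + tri m) < 2 ^ (m * k) := by
      have h1 : ((n : ℝ)) ^ k < ((2 : ℝ) ^ x) ^ k :=
        pow_lt_pow_left₀ hlt (Nat.cast_nonneg _) (by omega)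
      have h2 : ((2 : ℝ) ^ x) ^ k = (2 : ℝ) ^ (x * k) := by
        rw [← Real.rpow_natCast, ← Real.rpow_mul (by norm_num)]
      have h3 : x * k = (m : ℝ) * k - (tri m + k + 1) := by
        have h4 : (2 : ℝ) * tri m = m * (m + 1) := by exact_mod_cast two_tri m
        rw [hx]
        field_simp
        linarith
      have h5 : ((n : ℝ)) ^ k * 2 ^ (k + 1 + tri m) < 2 ^ (m * k) := by
        calc ((n : ℝ)) ^ k * 2 ^ (k + 1 + tri m)
            < (2 : ℝ) ^ (x * k) * 2 ^ (k + 1 + tri m) := by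
              rw [h2] at h1
              exact mul_lt_mul_of_pos_right h1 (by positivity)
          _ = (2 : ℝ) ^ (x * k) * (2 : ℝ) ^ ((k + 1 + tri m : ℕ) : ℝ) := by
              rw [Real.rpow_natCast]
          _ = (2 : ℝ) ^ ((m * k : ℕ) : ℝ) := by
              rw [← Real.rpow_add (by norm_num), h3]
              congr 1
              push_cast
              ring
          _ = 2 ^ (m * k) := Real.rpow_natCast _ _
      exact_mod_cast h5
    obtain ⟨G, M, h1, h2, h3, h4, h5⟩ := lower_nat hnat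
    exact ⟨n, G, M, hle.trans hge, h1, h2, h3, h4, h5⟩

end Pool.Agent.R760.BR
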