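import Pool.Agent.R59.DA.Stm

set_option autoImplicit false

/-!
DA-CNT (helper760): a `T_r[t]`-free digraph has few copies of `T_r`.
-/

namespace Pool.Agent.R760.DA

open R59.DA Classical

theorem cnt (h : SBOX) : SCNT := by
  intro r t hr ht
  obtain ⟨β, hβ0, hβ1, n₀, hbox⟩ := h r t (by omega) ht
  refine ⟨β, hβ0, hβ1, n₀, ?_⟩
  intro V _ D hirr hno hn
  by_contra hcon
  have hcon := not_le.mp hcon
  obtain ⟨A, hA, hall⟩ := hbox V (TT D r) hn hcon
  have hne : ∀ i, (A i).Nonempty := fun i => by
    rw [← Finset.card_pos, hA i]
    omega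
  have key : ∀ i j : Fin r, i < j → ∀ x ∈ A i, ∀ y ∈ A j, D x y := by
    intro i j hij x hx y hy
    have hf := hall (fun k => if k = i then x else if k = j then y else (hne k).choose) (by
      intro k
      by_cases h1 : k = i
      · subst h1
        simp [hx]
      · by_cases h2 : k = j
        · subst h2
          simp [h1, hy]
        · simp only [h1, h2, if_false]
          exact (hne k).choose_spec)
    have hf2 := (Finset.mem_filter.mp hf).2 i j hij
    have hji : j ≠ i := hij.ne'
    simpa [hji] using hf2
  have hcard : ∀ i, Fintype.card (A i) = Fintype.card (Fin t) := fun i => by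
    rw [Fintype.card_coe, hA i, Fintype.card_fin]
  let e : ∀ i, A i ≃ Fin t := fun i => Fintype.equivOfCardEq (hcard i)
  apply hno
  refine ⟨fun z => (((e z.1).symm z.2 : A z.1) : V), ?_, ?_⟩
  · rintro ⟨i, a⟩ ⟨j, b⟩ hab
    have hab : ((((e i).symm a : A i) : V)) = (((e j).symm b : A j) : V) := hab
    rcases lt_trichotomy i j with hij | hij | hij
    · exfalso
      have := key i j hij _ ((e i).symm a).2 _ ((e j).symm b).2
      rw [hab] at this
      exact hirr _ this
    · subst hij
      have h1 : (e i).symm a = (e i).symm b := Subtype.ext hab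
      have h2 := (e i).symm.injective h1
      rw [h2]
    · exfalso
      have := key j i hij _ ((e j).symm b).2 _ ((e i).symm a).2
      rw [hab] at this
      exact hirr _ this
  · intro i j hij a b
    exact key i j hij _ ((e i).symm a).2 _ ((e j).symm b).2

end Pool.Agent.R760.DA
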