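import Mathlib

/-! MP_28724c_co: graphs of small rank over `F_2` have large independent sets. -/

namespace Pool.Agent.R760.BR

open Matrix Finset

section

variable {ι : Type} [Fintype ι] [DecidableEq ι]

omit [DecidableEq ι] in
/-- alternating forms -/
lemma dot_self (A : Matrix ι ι (ZMod 2)) (hs : A.IsSymm) (hd : ∀ i, A i i = 0)
    (w : ι → ZMod 2) : w ⬝ᵥ (A *ᵥ w) = 0 := by
  have h1 : w ⬝ᵥ (A *ᵥ w) = ∑ p : ι × ι, w p.1 * (A p.1 p.2 * w p.2) := by
    rw [Fintype.sum_prod_type]
    unfold dotProduct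
    refine Finset.sum_congr rfl fun i _ => ?_
    unfold Matrix.mulVec dotProduct
    rw [Finset.mul_sum]
  rw [h1]
  apply Finset.sum_involution (g := fun p _ => (p.2, p.1))
  · rintro ⟨i, j⟩ _
    simp only
    have h2 : A j i = A i j := hs.apply i j
    rw [h2]
    have h3 : w j * (A i j * w i) = w i * (A i j * w j) := by ring
    rw [h3]
    exact CharTwo.add_self_eq_zero _
  · rintro ⟨i, j⟩ _ hne heq
    simp only [Prod.mk.injEq] at heq
    apply hne
    simp only
    rw [heq.1, hd, zero_mul, mul_zero]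
  · intro p _; exact Finset.mem_univ _
  · rintro ⟨i, j⟩ _; rfl

/-- restricting to the zeros of a nonzero combination of the rows lowers the rank by two -/
lemma rank_drop (A : Matrix ι ι (ZMod 2)) (hs : A.IsSymm) (hd : ∀ i, A i i = 0)
    {w : ι → ZMod 2} (hu : A *ᵥ w ≠ 0) :
    (A.submatrix (Subtype.val : {j // (A *ᵥ w) j = 0} → ι)
      (Subtype.val : {j // (A *ᵥ w) j = 0} → ι)).rank + 2 ≤ A.rank := by
  classical
  set u := A *ᵥ w with hu'
  set B := A.submatrix (Subtype.val : {j // u j = 0} → ι) (Subtype.val : {j // u j = 0} → ι) with hB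
  set C : Submodule (ZMod 2) (ι → ZMod 2) := LinearMap.range A.mulVecLin with hC
  let L : (ι → ZMod 2) →ₗ[ZMod 2] ZMod 2 :=
    { toFun := fun y => w ⬝ᵥ y
      map_add' := fun x y => dotProduct_add w x y
      map_smul' := fun c x => by simp [dotProduct_smul] }
  have hL : ∀ y, L y = w ⬝ᵥ y := fun _ => rfl
  set C' : Submodule (ZMod 2) (ι → ZMod 2) := C ⊓ LinearMap.ker L with hC'
  let P : (ι → ZMod 2) →ₗ[ZMod 2] ({j // u j = 0} → ZMod 2) :=
    LinearMap.funLeft (ZMod 2) (ZMod 2) (Subtype.val)
  have hP : ∀ y j, P y j = y j.1 := fun _ _ => rfl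
  have hsym : ∀ x y : ι → ZMod 2, x ⬝ᵥ (A *ᵥ y) = (A *ᵥ x) ⬝ᵥ y := by
    intro x y
    rw [Matrix.dotProduct_mulVec, ← Matrix.mulVec_transpose, hs.eq]
  -- the range of `B`
  have h1 : LinearMap.range B.mulVecLin ≤ Submodule.map P C' := by
    rintro _ ⟨z, rfl⟩
    let e : ι → ZMod 2 := fun j => if h : u j = 0 then z ⟨j, h⟩ else 0
    refine ⟨A *ᵥ e, ⟨⟨e, rfl⟩, ?_⟩, ?_⟩
    · change L (A *ᵥ e) = 0
      rw [hL, hsym, ← hu']
      unfold dotProduct
      apply Finset.sum_eq_zero
      intro j _
      by_cases h : u j = 0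
      · rw [h, zero_mul]
      · simp only [e, h, dif_neg, not_false_eq_true, mul_zero]
    · funext j
      rw [hP]
      change ∑ k, A j.1 k * e k = ∑ k : {j // u j = 0}, A j.1 k.1 * z k
      rw [← Fintype.sum_subtype_add_sum_subtype (fun k => u k = 0) (fun k => A j.1 k * e k)]
      have h2 : ∑ k : {x // ¬ u x = 0}, A j.1 k.1 * e k.1 = 0 := by
        apply Finset.sum_eq_zero
        intro k _
        simp only [e, k.2, dif_neg, not_false_eq_true, mul_zero]
      rw [h2, add_zero]
      refine Finset.sum_congr rfl fun k _ => ?_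
      simp only [e, k.2, dif_pos]
  -- `C'` is smaller than `C`
  have huC : u ∈ C := ⟨w, rfl⟩
  have huC' : u ∈ C' := ⟨huC, by
    change L u = 0
    rw [hL, hu']
    exact dot_self A hs hd w⟩
  have h3 : C' < C := by
    refine lt_of_le_of_ne inf_le_left fun heq => hu ?_
    funext j
    have h4 : A *ᵥ (Pi.single j 1) ∈ C' := by
      rw [heq]; exact ⟨_, rfl⟩
    have h5 : L (A *ᵥ (Pi.single j 1)) = 0 := h4.2
    rw [hL, hsym, dotProduct_single, mul_one, ← hu'] at h5
    exact h5
  have h4 := Submodule.finrank_lt_finrank_of_lt h3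
  -- `P` kills `u`
  have h5 : Module.finrank (ZMod 2) (Submodule.map P C') + 1 ≤ Module.finrank (ZMod 2) C' := by
    have h6 := LinearMap.finrank_range_add_finrank_ker (P.domRestrict C')
    have h7 : LinearMap.range (P.domRestrict C') = Submodule.map P C' := by
      rw [LinearMap.domRestrict, LinearMap.range_comp, Submodule.range_subtype]
    rw [h7] at h6
    have h8 : 1 ≤ Module.finrank (ZMod 2) (LinearMap.ker (P.domRestrict C')) := by
      rw [Nat.one_le_iff_ne_zero]
      intro h9
      have h10 : LinearMap.ker (P.domRestrict C') = ⊥ := Submodule.finrank_eq_zero.mp h9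
      have h11 : (⟨u, huC'⟩ : C') ∈ LinearMap.ker (P.domRestrict C') := by
        rw [LinearMap.mem_ker]
        funext j
        exact j.2
      rw [h10, Submodule.mem_bot] at h11
      exact hu (congrArg Subtype.val h11)
    omega
  have h6 : B.rank ≤ Module.finrank (ZMod 2) (Submodule.map P C') :=
    Submodule.finrank_mono h1
  have h7 : A.rank = Module.finrank (ZMod 2) C := rfl
  omega

/-- averaging over the row space -/
lemma exists_good (A : Matrix ι ι (ZMod 2)) (h0 : 1 ≤ A.rank) :
    ∃ w : ι → ZMod 2, A *ᵥ w ≠ 0 ∧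
      Fintype.card ι * (2 ^ (A.rank - 1) - 1) ≤
        (2 ^ A.rank - 1) * Fintype.card {j // (A *ᵥ w) j = 0} := by
  classical
  set C : Submodule (ZMod 2) (ι → ZMod 2) := LinearMap.range A.mulVecLin with hC
  set ρ := A.rank with hρ
  have hCr : Module.finrank (ZMod 2) C = ρ := rfl
  have hcard : Fintype.card C = 2 ^ ρ := by
    rw [Module.card_eq_pow_finrank (K := ZMod 2), hCr, ZMod.card]
  -- evaluation
  have hev : ∀ j : ι, 2 ^ (ρ - 1) ≤ ((univ : Finset C).filter (fun y => y.1 j = 0)).card := by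
    intro j
    let E : C →ₗ[ZMod 2] ZMod 2 := (LinearMap.proj j).domRestrict C
    have h1 := LinearMap.finrank_range_add_finrank_ker E
    have h2 : Module.finrank (ZMod 2) (LinearMap.range E) ≤ 1 := by
      have := Submodule.finrank_le (LinearMap.range E)
      rwa [Module.finrank_self] at this
    have h3 : ρ - 1 ≤ Module.finrank (ZMod 2) (LinearMap.ker E) := by omega
    have h4 : Fintype.card (LinearMap.ker E) = 2 ^ Module.finrank (ZMod 2) (LinearMap.ker E) := by
      rw [Module.card_eq_pow_finrank (K := ZMod 2), ZMod.card]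
    have h5 : ((univ : Finset C).filter (fun y => y.1 j = 0)).card
        = Fintype.card (LinearMap.ker E) := by
      rw [← Fintype.card_subtype]
      exact Fintype.card_congr (Equiv.subtypeEquivRight fun y => by
        rw [LinearMap.mem_ker]; rfl)
    rw [h5, h4]
    exact Nat.pow_le_pow_right (by norm_num) h3
  -- double counting
  have hdc : ∑ y ∈ (univ : Finset C).erase 0, (Fintype.card {j // y.1 j = 0})
      = ∑ j : ι, (((univ : Finset C).erase 0).filter (fun y => y.1 j = 0)).card := by
    have h1 : ∀ y : C, Fintype.card {j // y.1 j = 0}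
        = ∑ j : ι, (if y.1 j = 0 then 1 else 0) := by
      intro y
      rw [Fintype.card_subtype, Finset.card_filter]
    have h2 : ∀ j : ι, (((univ : Finset C).erase 0).filter (fun y => y.1 j = 0)).card
        = ∑ y ∈ (univ : Finset C).erase 0, (if y.1 j = 0 then 1 else 0) := by
      intro j
      rw [Finset.card_filter]
    simp_rw [h1, h2]
    exact Finset.sum_comm
  have hlow : Fintype.card ι * (2 ^ (ρ - 1) - 1)
      ≤ ∑ y ∈ (univ : Finset C).erase 0, (Fintype.card {j // y.1 j = 0}) := by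
    rw [hdc]
    have h1 : ∀ j : ι, 2 ^ (ρ - 1) - 1 ≤
        (((univ : Finset C).erase 0).filter (fun y => y.1 j = 0)).card := by
      intro j
      have h0 : ((univ : Finset C).erase 0).filter (fun y => y.1 j = 0)
          = ((univ : Finset C).filter (fun y => y.1 j = 0)).erase 0 := by
        ext y
        simp only [Finset.mem_filter, Finset.mem_erase, Finset.mem_univ]
        tauto
      rw [h0]
      have h2 := Finset.pred_card_le_card_erase
        (s := (univ : Finset C).filter (fun y => y.1 j = 0)) (a := (0 : C))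
      have := hev j
      omega
    calc Fintype.card ι * (2 ^ (ρ - 1) - 1) = ∑ j : ι, (2 ^ (ρ - 1) - 1) := by
          rw [Finset.sum_const, Finset.card_univ, smul_eq_mul]
      _ ≤ _ := Finset.sum_le_sum fun j _ => h1 j
  have hce : ((univ : Finset C).erase 0).card = 2 ^ ρ - 1 := by
    rw [Finset.card_erase_of_mem (Finset.mem_univ _), Finset.card_univ, hcard]
  have hp : 0 < 2 ^ ρ - 1 := by
    have : 2 ^ 1 ≤ 2 ^ ρ := Nat.pow_le_pow_right (by norm_num) h0
    omega
  by_contra hcon
  push Not at hcon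
  have hall : ∀ y ∈ (univ : Finset C).erase 0,
      (2 ^ ρ - 1) * Fintype.card {j // y.1 j = 0} + 1 ≤ Fintype.card ι * (2 ^ (ρ - 1) - 1) := by
    rintro ⟨y, ⟨w, rfl⟩⟩ hy
    have hne : A *ᵥ w ≠ 0 := by
      intro h
      apply Finset.ne_of_mem_erase hy
      apply Subtype.ext
      exact h
    exact hcon w hne
  have h2 := Finset.sum_le_sum hall
  rw [Finset.sum_add_distrib, ← Finset.mul_sum, Finset.sum_const, Finset.sum_const, hce,
    smul_eq_mul, smul_eq_mul, mul_one] at h2
  have h3 : (2 ^ ρ - 1) * (Fintype.card ι * (2 ^ (ρ - 1) - 1))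
      ≤ (2 ^ ρ - 1) * ∑ y ∈ (univ : Finset C).erase 0, (Fintype.card {j // y.1 j = 0}) :=
    Nat.mul_le_mul_left _ hlow
  omega

end

/-- a graph of rank `r` over `F_2` has an independent set of density `1/(2^(r/2+1) - 1)` -/
theorem indep (r : ℕ) : ∀ (ι : Type) [Fintype ι] [DecidableEq ι] (A : Matrix ι ι (ZMod 2)),
    A.IsSymm → (∀ i, A i i = 0) → A.rank ≤ r →
    ∃ S : Finset ι, (∀ i ∈ S, ∀ j ∈ S, A i j = 0) ∧
      Fintype.card ι ≤ (2 ^ (r / 2 + 1) - 1) * S.card := by
  induction r using Nat.strong_induction_on with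
  | _ r ih =>
    intro ι _ _ A hs hd hr
    by_cases hA : A.rank = 0
    · have h1 : A = 0 := by
        have h2 : LinearMap.range A.mulVecLin = ⊥ := Submodule.finrank_eq_zero.mp hA
        ext i j
        have h3 : A *ᵥ (Pi.single j 1) ∈ LinearMap.range A.mulVecLin := ⟨_, rfl⟩
        rw [h2, Submodule.mem_bot] at h3
        have h4 := congrFun h3 i
        simpa using h4
      refine ⟨univ, fun i _ j _ => by rw [h1]; rfl, ?_⟩
      rw [Finset.card_univ]
      have h2 : 2 ^ 1 ≤ 2 ^ (r / 2 + 1) := Nat.pow_le_pow_right (by norm_num) (by omega)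
      have h3 : 1 ≤ 2 ^ (r / 2 + 1) - 1 := by omega
      nlinarith
    · obtain ⟨w, hw, hcard⟩ := exists_good A (Nat.one_le_iff_ne_zero.mpr hA)
      have hdrop := rank_drop A hs hd hw
      set ρ := A.rank with hρ
      obtain ⟨S, hS, hScard⟩ := ih (ρ - 2) (by omega) {j // (A *ᵥ w) j = 0}
        (A.submatrix Subtype.val Subtype.val) (by
          ext i j; simp only [Matrix.transpose_apply, Matrix.submatrix_apply]
          exact hs.apply _ _) (fun i => hd i.1) (by omega)
      refine ⟨S.map (Function.Embedding.subtype _), ?_, ?_⟩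
      · intro i hi j hj
        rw [Finset.mem_map] at hi hj
        obtain ⟨i', hi', rfl⟩ := hi
        obtain ⟨j', hj', rfl⟩ := hj
        exact hS i' hi' j' hj'
      · rw [Finset.card_map]
        have hr2 : (ρ - 2) / 2 + 1 = ρ / 2 := by omega
        rw [hr2] at hScard
        -- numerical step
        have hq : 2 ^ (ρ / 2) ≤ 2 ^ (ρ - 1) := Nat.pow_le_pow_right (by norm_num) (by omega)
        have hq1 : 2 ^ 1 ≤ 2 ^ (ρ / 2) := Nat.pow_le_pow_right (by norm_num) (by omega)
        have hp2 : 2 ^ ρ = 2 * 2 ^ (ρ - 1) := by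
          rw [← pow_succ']; congr 1; omega
        have hmono : 2 ^ (ρ / 2 + 1) ≤ 2 ^ (r / 2 + 1) :=
          Nat.pow_le_pow_right (by norm_num) (by omega)
        have hps : 2 ^ (ρ / 2 + 1) = 2 * 2 ^ (ρ / 2) := pow_succ' _ _
        obtain ⟨p, hp⟩ : ∃ p, 2 ^ (ρ - 1) = p + 1 := ⟨2 ^ (ρ - 1) - 1, by omega⟩
        obtain ⟨q, hq'⟩ : ∃ q, 2 ^ (ρ / 2) = q + 1 := ⟨2 ^ (ρ / 2) - 1, by omega⟩
        have hpq : q ≤ p := by omega
        have hp1 : 1 ≤ p := by omega
        have e1 : 2 ^ ρ - 1 = 2 * p + 1 := by omega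
        have e2 : 2 ^ (ρ - 1) - 1 = p := by omega
        have e3 : 2 ^ (ρ / 2) - 1 = q := by omega
        have e4 : 2 * q + 1 ≤ 2 ^ (r / 2 + 1) - 1 := by omega
        rw [e1, e2] at hcard
        rw [e3] at hScard
        set N := Fintype.card ι
        set N' := Fintype.card {j // (A *ᵥ w) j = 0}
        set s := S.card
        have h1 : N * p ≤ (2 * p + 1) * (q * s) :=
          hcard.trans (Nat.mul_le_mul_left _ hScard)
        have h2 : (2 * p + 1) * (q * s) ≤ ((2 * q + 1) * s) * p := by nlinarith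
        have h3 : N ≤ (2 * q + 1) * s := Nat.le_of_mul_le_mul_right (h1.trans h2) (by omega)
        exact h3.trans (Nat.mul_le_mul_right _ e4)

lemma rank_add_le {ι : Type} [Fintype ι] (A B : Matrix ι ι (ZMod 2)) :
    (A + B).rank ≤ A.rank + B.rank := by
  classical
  have h1 : LinearMap.range (A + B).mulVecLin
      ≤ LinearMap.range A.mulVecLin ⊔ LinearMap.range B.mulVecLin := by
    rintro _ ⟨z, rfl⟩
    rw [Matrix.mulVecLin_add, LinearMap.add_apply]
    exact Submodule.add_mem_sup ⟨z, rfl⟩ ⟨z, rfl⟩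
  exact (Submodule.finrank_mono h1).trans (Submodule.finrank_add_le_finrank_add_finrank _ _)

lemma zmod2_cases (a : ZMod 2) : a = 0 ∨ a = 1 := by
  revert a; decide

/-- A `{0,1}`-matrix `M` over `F_2` agreeing with a graph off the diagonal: if the graph has no
clique and no independent set of `k` vertices and `M` has rank at most `2m`, the graph has at most
`(2^(m+2) - 2) (k-1)` vertices. -/
theorem upper (n m k : ℕ) (G : SimpleGraph (Fin n)) (M : Matrix (Fin n) (Fin n) (ZMod 2))
    (hs : M.IsSymm) (hr : M.rank ≤ 2 * m) (hM : ∀ i j, i ≠ j → (M i j = 1 ↔ G.Adj i j))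
    (hc : G.CliqueFree k) (hi : Gᶜ.CliqueFree k) :
    n ≤ (2 ^ (m + 2) - 2) * (k - 1) := by
  classical
  -- the vertices with diagonal entry zero
  obtain ⟨S, hS, hScard⟩ := indep (2 * m) {i : Fin n // M i i = 0}
    (M.submatrix Subtype.val Subtype.val)
    (by ext i j; simp only [Matrix.transpose_apply, Matrix.submatrix_apply]; exact hs.apply _ _)
    (fun i => i.2) ((Matrix.rank_submatrix_le _ _ _).trans hr)
  have hrT : ((Matrix.of fun _ _ => (1 : ZMod 2) :
      Matrix {i : Fin n // ¬ M i i = 0} {i : Fin n // ¬ M i i = 0} (ZMod 2)) +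
      M.submatrix (Subtype.val : {i : Fin n // ¬ M i i = 0} → Fin n)
        (Subtype.val : {i : Fin n // ¬ M i i = 0} → Fin n)).rank
        ≤ 2 * m + 1 := by
    refine (rank_add_le _ _).trans ?_
    have h1 : (Matrix.of fun (_ _ : {i : Fin n // ¬ M i i = 0}) => (1 : ZMod 2)).rank ≤ 1 := by
      have h2 : (Matrix.of fun (_ _ : {i : Fin n // ¬ M i i = 0}) => (1 : ZMod 2))
          = Matrix.vecMulVec (fun _ => 1) (fun _ => 1) := by
        ext i j; simp [Matrix.vecMulVec_apply]
      rw [h2]
      exact Matrix.rank_vecMulVec_le _ _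
    have h2 := Matrix.rank_submatrix_le M
      (Subtype.val : {i : Fin n // ¬ M i i = 0} → Fin n)
      (Subtype.val : {i : Fin n // ¬ M i i = 0} → Fin n)
    omega
  obtain ⟨T, hT, hTcard⟩ := indep (2 * m + 1) {i : Fin n // ¬ M i i = 0}
    ((Matrix.of fun _ _ => (1 : ZMod 2)) + M.submatrix Subtype.val Subtype.val)
    (by
      ext i j
      simp only [Matrix.transpose_apply, Matrix.submatrix_apply, Matrix.add_apply, Matrix.of_apply]
      rw [hs.apply])
    (fun i => by
      simp only [Matrix.submatrix_apply, Matrix.add_apply, Matrix.of_apply]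
      rw [(zmod2_cases (M i.1 i.1)).resolve_left i.2]
      decide) hrT
  have e1 : (2 * m) / 2 + 1 = m + 1 := by omega
  have e2 : (2 * m + 1) / 2 + 1 = m + 1 := by omega
  rw [e1] at hScard
  rw [e2] at hTcard
  -- sizes
  have hSk : S.card ≤ k - 1 := by
    by_contra hcon
    push Not at hcon
    obtain ⟨S', hS', hcard⟩ := Finset.exists_subset_card_eq (show k ≤ S.card by omega)
    apply hi (S'.map (Function.Embedding.subtype _))
    refine ⟨?_, by rw [Finset.card_map, hcard]⟩
    intro x hx y hy hxy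
    simp only [Finset.coe_map, Set.mem_image, Finset.mem_coe] at hx hy
    obtain ⟨x', hx', rfl⟩ := hx
    obtain ⟨y', hy', rfl⟩ := hy
    refine ⟨hxy, fun hadj => ?_⟩
    have h1 := (hM _ _ hxy).mpr hadj
    have h2 := hS x' (hS' hx') y' (hS' hy')
    simp only [Matrix.submatrix_apply] at h2
    simp only [Function.Embedding.subtype_apply] at h1
    rw [h2] at h1
    exact absurd h1 (by decide)
  have hTk : T.card ≤ k - 1 := by
    by_contra hcon
    push Not at hcon
    obtain ⟨T', hT', hcard⟩ := Finset.exists_subset_card_eq (show k ≤ T.card by omega)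
    apply hc (T'.map (Function.Embedding.subtype _))
    refine ⟨?_, by rw [Finset.card_map, hcard]⟩
    intro x hx y hy hxy
    simp only [Finset.coe_map, Set.mem_image, Finset.mem_coe] at hx hy
    obtain ⟨x', hx', rfl⟩ := hx
    obtain ⟨y', hy', rfl⟩ := hy
    rw [← hM _ _ hxy]
    have h2 := hT x' (hT' hx') y' (hT' hy')
    simp only [Matrix.submatrix_apply, Matrix.add_apply, Matrix.of_apply] at h2
    simp only [Function.Embedding.subtype_apply]
    rcases zmod2_cases (M x'.1 y'.1) with h | h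
    · rw [h] at h2; exact absurd h2 (by decide)
    · exact h
  have hn : n = Fintype.card {i : Fin n // M i i = 0} + Fintype.card {i : Fin n // ¬ M i i = 0} := by
    rw [Fintype.card_subtype_compl, Fintype.card_fin]
    have := Fintype.card_subtype_le (fun i : Fin n => M i i = 0)
    rw [Fintype.card_fin] at this
    omega
  have h3 : 2 ^ (m + 2) - 2 = (2 ^ (m + 1) - 1) + (2 ^ (m + 1) - 1) := by
    have : 2 ^ (m + 2) = 2 * 2 ^ (m + 1) := by ring
    omega
  rw [h3, Nat.add_mul]
  calc n = Fintype.card {i : Fin n // M i i = 0} + Fintype.card {i : Fin n // ¬ M i i = 0} := hn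
    _ ≤ (2 ^ (m + 1) - 1) * S.card + (2 ^ (m + 1) - 1) * T.card := Nat.add_le_add hScard hTcard
    _ ≤ _ := Nat.add_le_add (Nat.mul_le_mul_left _ hSk) (Nat.mul_le_mul_left _ hTk)

end Pool.Agent.R760.BR
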