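import Pool.Agent.R760.BR3

/-!
# MP_28724c_co: Ramsey colourings of small rank over `F_2`

A red/blue colouring of the edges of `K_n` is encoded by the graph `G` of its red edges. Its
colour matrix is a symmetric matrix `M` over `F_2` whose off-diagonal entry `(i, j)` is `1` exactly
if the edge `ij` is red; the diagonal may be chosen freely, so that exchanging the two colours
changes the least possible rank by at most one.
-/

namespace Pool.Agent.Results.MP_28724c_co.BinaryRank

/-- There is a colouring of the edges of `K_n` with two colours without a monochromatic `K_k`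
whose colour matrix (with some choice of the diagonal) has rank at most `r` over `F_2`. -/
def RankColouring (n k r : ℕ) : Prop :=
  ∃ (G : SimpleGraph (Fin n)) (M : Matrix (Fin n) (Fin n) (ZMod 2)),
    G.CliqueFree k ∧ Gᶜ.CliqueFree k ∧ M.IsSymm ∧ M.rank ≤ r ∧
      ∀ i j, i ≠ j → (M i j = 1 ↔ G.Adj i j)

/-- For colourings of rank at most `2m` over `F_2` the largest number of vertices without a
monochromatic `K_k` lies between `2^(m - m(m+1)/(2k) - 5/2)` and `(2^(m+2) - 2)(k-1)`. -/
theorem result :
    (∀ n m k : ℕ, RankColouring n k (2 * m) → n ≤ (2 ^ (m + 2) - 2) * (k - 1)) ∧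
    (∀ m k : ℕ, 2 ≤ k → ∃ n : ℕ, RankColouring n k (2 * m) ∧
      (2 : ℝ) ^ ((m : ℝ) - (m : ℝ) * (m + 1) / (2 * k) - 5 / 2) ≤ n) := by
  refine ⟨?_, ?_⟩
  · rintro n m k ⟨G, M, h1, h2, h3, h4, h5⟩
    exact R760.BR.upper n m k G M h3 h4 h5 h1 h2
  · intro m k hk
    obtain ⟨n, G, M, h0, h1, h2, h3, h4, h5⟩ := R760.BR.lower m k hk
    exact ⟨n, ⟨G, M, h1, h2, h3, h4, h5⟩, h0⟩

end Pool.Agent.Results.MP_28724c_co.BinaryRank
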