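import Mathlib

/-! Hyperbolic 3-space in the hyperboloid model: Lorentz boosts and the triangle inequality for
balls of a common radius. A point is given by its space coordinates `x`, its time coordinate is
`tm x = √(1 + ‖x‖²)`, and `ch x y = tm x * tm y - ⟪x, y⟫` is `cosh` of the distance. -/

set_option autoImplicit false

namespace Pool.Agent.R760.HB

open Real

abbrev E3 := EuclideanSpace ℝ (Fin 3)

noncomputable def tm (x : E3) : ℝ := √(1 + ‖x‖ ^ 2)

noncomputable def ch (x y : E3) : ℝ := tm x * tm y - inner ℝ x y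

lemma tm_sq (x : E3) : tm x ^ 2 = 1 + ‖x‖ ^ 2 := by
  unfold tm
  exact Real.sq_sqrt (by positivity)

lemma tm_pos (x : E3) : 0 < tm x := by
  unfold tm
  exact Real.sqrt_pos.2 (by positivity)

lemma one_le_tm (x : E3) : 1 ≤ tm x := by
  have h := tm_sq x
  nlinarith [tm_pos x, sq_nonneg ‖x‖]

lemma ch_comm (x y : E3) : ch x y = ch y x := by
  unfold ch
  rw [mul_comm, real_inner_comm]

lemma ch_zero (x : E3) : ch 0 x = tm x := by
  unfold ch tm
  simp

/-- the boost which moves `c` to the origin -/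
noncomputable def boost (c x : E3) : E3 := x + (inner ℝ x c / (1 + tm c) - tm x) • c

lemma inner_boost (c x y : E3) : inner ℝ (boost c x) (boost c y) =
    inner ℝ x y + (inner ℝ y c / (1 + tm c) - tm y) * inner ℝ x c +
      (inner ℝ x c / (1 + tm c) - tm x) * inner ℝ y c +
      (inner ℝ x c / (1 + tm c) - tm x) * (inner ℝ y c / (1 + tm c) - tm y) * (tm c ^ 2 - 1) := by
  have hc : inner ℝ c c = tm c ^ 2 - 1 := by
    rw [real_inner_self_eq_norm_sq, tm_sq]; ring
  have hcy : inner ℝ c y = inner ℝ y c := real_inner_comm _ _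
  unfold boost
  rw [inner_add_left, inner_add_right, inner_add_right, real_inner_smul_left,
    real_inner_smul_right, real_inner_smul_left, real_inner_smul_right, hc, hcy]
  ring

lemma form_boost (c x y : E3) :
    (tm c * tm x - inner ℝ x c) * (tm c * tm y - inner ℝ y c) -
      inner ℝ (boost c x) (boost c y) = tm x * tm y - inner ℝ x y := by
  rw [inner_boost]
  have h1 : (1 + tm c) ≠ 0 := by have := tm_pos c; positivity
  field_simp
  ring

lemma tm_boost (c x : E3) : tm (boost c x) = tm c * tm x - inner ℝ x c := by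
  have h1 := form_boost c x x
  rw [real_inner_self_eq_norm_sq, real_inner_self_eq_norm_sq] at h1
  have h2 := tm_sq x
  have h3 : 0 ≤ tm c * tm x - inner ℝ x c := by
    have h4 : inner ℝ x c ≤ ‖x‖ * ‖c‖ := real_inner_le_norm _ _
    have h5 : ‖x‖ ≤ tm x := by
      have := tm_sq x
      nlinarith [tm_pos x, norm_nonneg x]
    have h6 : ‖c‖ ≤ tm c := by
      have := tm_sq c
      nlinarith [tm_pos c, norm_nonneg c]
    have h7 : ‖x‖ * ‖c‖ ≤ tm x * tm c := mul_le_mul h5 h6 (norm_nonneg _) (tm_pos x).le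
    linarith
  have h8 : (tm c * tm x - inner ℝ x c) ^ 2 = 1 + ‖boost c x‖ ^ 2 := by
    linarith [h1, h2]
  unfold tm at h8 h3 ⊢
  rw [← h8, Real.sqrt_sq h3]

lemma ch_boost (c x y : E3) : ch (boost c x) (boost c y) = ch x y := by
  unfold ch
  rw [tm_boost, tm_boost]
  exact form_boost c x y

lemma tm_boost' (c x : E3) : tm (boost c x) = ch c x := by
  rw [tm_boost]
  unfold ch
  rw [real_inner_comm]

/-- two open balls of radius `r` whose centres have distance at least `2 r` are disjoint -/
lemma disj (r : ℝ) (hr : 0 ≤ r) (x y z : E3) (h1 : ch z x < cosh r) (h2 : ch z y < cosh r) :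
    ch x y < cosh (2 * r) := by
  rw [← ch_boost z x y]
  have e1 := tm_boost' z x
  have e2 := tm_boost' z y
  set a := boost z x
  set b := boost z y
  have ha := tm_sq a
  have hb := tm_sq b
  have hc := Real.cosh_sq r
  have h3 : -(‖a‖ * ‖b‖) ≤ inner ℝ a b := by
    have := abs_real_inner_le_norm a b
    exact (abs_le.1 this).1
  have hta : tm a < cosh r := by rw [e1]; exact h1
  have htb : tm b < cosh r := by rw [e2]; exact h2
  have hs : 0 ≤ sinh r := Real.sinh_nonneg_iff.2 hr
  have hna : ‖a‖ < sinh r ∨ (‖a‖ ≤ sinh r) := by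
    right
    nlinarith [norm_nonneg a, tm_pos a, Real.cosh_pos r]
  have hna' : ‖a‖ ≤ sinh r := by
    rcases hna with h | h <;> linarith
  have hnb' : ‖b‖ ≤ sinh r := by
    nlinarith [norm_nonneg b, tm_pos b, Real.cosh_pos r]
  unfold ch
  rw [Real.cosh_two_mul]
  have h4 : tm a * tm b < cosh r ^ 2 := by
    nlinarith [tm_pos a, tm_pos b, Real.cosh_pos r]
  have h5 : ‖a‖ * ‖b‖ ≤ sinh r ^ 2 := by
    nlinarith [norm_nonneg a, norm_nonneg b]
  linarith

end Pool.Agent.R760.HB
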