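import Pool.Agent.R760.HB1

/-! The total size of disjoint caps on the unit sphere of `ℝ³`. -/

set_option autoImplicit false

namespace Pool.Agent.R760.HB

open Real MeasureTheory Metric

lemma area (a : ℝ) (ha : 0 ≤ a) :
    volume {w : Fin 2 → ℝ | w 0 ^ 2 + w 1 ^ 2 < a} = ENNReal.ofReal (π * a) := by
  have h1 := (PiLp.volume_preserving_ofLp (Fin 2)).measure_preimage
    (s := {w : Fin 2 → ℝ | w 0 ^ 2 + w 1 ^ 2 < a}) (by
      apply MeasurableSet.nullMeasurableSet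
      apply measurableSet_lt
      · fun_prop
      · fun_prop)
  rw [← h1]
  have h2 : (WithLp.ofLp ⁻¹' {w : Fin 2 → ℝ | w 0 ^ 2 + w 1 ^ 2 < a} :
      Set (EuclideanSpace ℝ (Fin 2))) = ball 0 (√a) := by
    ext x
    simp only [Set.mem_preimage, Set.mem_ofPred_eq, mem_ball, dist_zero_right]
    rw [EuclideanSpace.norm_eq]
    simp only [Fin.sum_univ_two, Real.norm_eq_abs, sq_abs]
    rw [Real.sqrt_lt_sqrt_iff (by positivity)]
  rw [h2, EuclideanSpace.volume_ball_fin_two]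
  rw [← ENNReal.ofReal_pow (Real.sqrt_nonneg _), Real.sq_sqrt ha]
  rw [ENNReal.ofReal_mul Real.pi_pos.le]
  rw [mul_comm]

/-- sector about the first coordinate axis -/
def sec0 (c : ℝ) : Set (Fin 3 → ℝ) :=
  {x | x 0 ^ 2 + x 1 ^ 2 + x 2 ^ 2 < 1 ∧ c * √(x 0 ^ 2 + x 1 ^ 2 + x 2 ^ 2) < x 0}

lemma meas_sec0 (c : ℝ) : MeasurableSet (sec0 c) := by
  have h1 : MeasurableSet {x : Fin 3 → ℝ | x 0 ^ 2 + x 1 ^ 2 + x 2 ^ 2 < 1} :=
    measurableSet_lt (by fun_prop) (by fun_prop)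
  have h2 : MeasurableSet {x : Fin 3 → ℝ | c * √(x 0 ^ 2 + x 1 ^ 2 + x 2 ^ 2) < x 0} :=
    measurableSet_lt (by fun_prop) (by fun_prop)
  exact h1.inter h2

noncomputable def gfun (c z : ℝ) : ℝ := if z ≤ c then π * (z ^ 2 * (1 - c ^ 2) / c ^ 2) else π * (1 - z ^ 2)

lemma slice_ge {c z : ℝ} (hc0 : 0 < c) (hc1 : c < 1) (hz0 : 0 < z) (hz1 : z ≤ 1) :
    ENNReal.ofReal (gfun c z) ≤
      volume {w : Fin 2 → ℝ | z ^ 2 + w 0 ^ 2 + w 1 ^ 2 < 1 ∧ c * √(z ^ 2 + w 0 ^ 2 + w 1 ^ 2) < z} := by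
  have hcc : 0 < 1 - c ^ 2 := by nlinarith
  have key : ∀ a : ℝ, a ≤ 1 - z ^ 2 → a * c ^ 2 ≤ z ^ 2 * (1 - c ^ 2) →
      {w : Fin 2 → ℝ | w 0 ^ 2 + w 1 ^ 2 < a} ⊆
      {w : Fin 2 → ℝ | z ^ 2 + w 0 ^ 2 + w 1 ^ 2 < 1 ∧ c * √(z ^ 2 + w 0 ^ 2 + w 1 ^ 2) < z} := by
    intro a h1 h2 w hw
    simp only [Set.mem_ofPred_eq] at hw ⊢
    refine ⟨by linarith, ?_⟩
    have h3 : (c * √(z ^ 2 + w 0 ^ 2 + w 1 ^ 2)) ^ 2 < z ^ 2 := by
      rw [mul_pow, Real.sq_sqrt (by positivity)]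
      nlinarith [mul_lt_mul_of_pos_right hw (pow_pos hc0 2)]
    exact lt_of_pow_lt_pow_left₀ 2 hz0.le h3
  unfold gfun
  split_ifs with h
  · rw [← area _ (by positivity)]
    apply measure_mono
    apply key
    · rw [div_le_iff₀ (by positivity)]
      nlinarith
    · rw [div_mul_cancel₀ _ (by positivity)]
  · push Not at h
    rw [← area _ (by nlinarith)]
    apply measure_mono
    apply key _ le_rfl
    nlinarith

lemma int_gfun {c : ℝ} (hc0 : 0 < c) (hc1 : c < 1) :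
    ∫ z in Set.Ioc (0:ℝ) 1, gfun c z = 2 * π / 3 * (1 - c) ∧
      IntegrableOn (gfun c) (Set.Ioc (0:ℝ) 1) := by
  have hsplit : Set.Ioc (0:ℝ) 1 = Set.Ioc 0 c ∪ Set.Ioc c 1 :=
    (Set.Ioc_union_Ioc_eq_Ioc hc0.le hc1.le).symm
  have i1 : IntegrableOn (gfun c) (Set.Ioc (0:ℝ) c) := by
    have : IntegrableOn (fun z : ℝ => π * (z ^ 2 * (1 - c ^ 2) / c ^ 2)) (Set.Ioc (0:ℝ) c) :=
      (Continuous.integrableOn_Icc (by fun_prop)).mono_set Set.Ioc_subset_Icc_self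
    refine this.congr_fun ?_ measurableSet_Ioc
    intro z hz
    simp only [gfun, if_pos hz.2]
  have i2 : IntegrableOn (gfun c) (Set.Ioc c (1:ℝ)) := by
    have : IntegrableOn (fun z : ℝ => π * (1 - z ^ 2)) (Set.Ioc c (1:ℝ)) :=
      (Continuous.integrableOn_Icc (by fun_prop)).mono_set Set.Ioc_subset_Icc_self
    refine this.congr_fun ?_ measurableSet_Ioc
    intro z hz
    simp only [gfun, if_neg (not_le.2 hz.1)]
  refine ⟨?_, ?_⟩
  · rw [hsplit, setIntegral_union (by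
      rw [Set.disjoint_left]
      rintro z ⟨_, h1⟩ ⟨h2, _⟩
      linarith) measurableSet_Ioc i1 i2]
    have e1 : ∫ z in Set.Ioc (0:ℝ) c, gfun c z = ∫ z in (0:ℝ)..c, π * (z ^ 2 * (1 - c ^ 2) / c ^ 2) := by
      rw [intervalIntegral.integral_of_le hc0.le]
      refine setIntegral_congr_fun measurableSet_Ioc fun z hz => ?_
      simp only [gfun, if_pos hz.2]
    have e2 : ∫ z in Set.Ioc c (1:ℝ), gfun c z = ∫ z in c..(1:ℝ), π * (1 - z ^ 2) := by
      rw [intervalIntegral.integral_of_le hc1.le]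
      refine setIntegral_congr_fun measurableSet_Ioc fun z hz => ?_
      simp only [gfun, if_neg (not_le.2 hz.1)]
    rw [e1, e2]
    have d1 : ∫ z in (0:ℝ)..c, π * (z ^ 2 * (1 - c ^ 2) / c ^ 2) =
        π * ((1 - c ^ 2) / c ^ 2) * (c ^ 3 / 3) := by
      have : ∀ z : ℝ, π * (z ^ 2 * (1 - c ^ 2) / c ^ 2) = (π * ((1 - c ^ 2) / c ^ 2)) * z ^ 2 := by
        intro z; ring
      simp only [this]
      rw [intervalIntegral.integral_const_mul, integral_pow]
      norm_num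
    have d2 : ∫ z in c..(1:ℝ), π * (1 - z ^ 2) = π * ((1 - c) - (1 - c ^ 3) / 3) := by
      rw [intervalIntegral.integral_const_mul, intervalIntegral.integral_sub (by simp) (by
        exact Continuous.intervalIntegrable (by fun_prop) _ _), integral_pow]
      simp
      norm_num
    rw [d1, d2]
    field_simp
    ring
  · rw [hsplit]
    exact i1.union i2

lemma vol_sec0 {c : ℝ} (hc0 : 0 < c) (hc1 : c < 1) :
    ENNReal.ofReal (2 * π / 3 * (1 - c)) ≤ volume (sec0 c) := by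
  have hmp := volume_preserving_piFinSuccAbove (fun _ : Fin 3 => ℝ) 0
  have h1 := hmp.symm.measure_preimage (s := sec0 c) (meas_sec0 c).nullMeasurableSet
  rw [← h1, Measure.volume_eq_prod, Measure.prod_apply (hmp.symm.measurable (meas_sec0 c))]
  obtain ⟨hint, hio⟩ := int_gfun hc0 hc1
  rw [← hint, ofReal_integral_eq_lintegral_ofReal hio (by
    refine (ae_restrict_iff' measurableSet_Ioc).2 (Filter.Eventually.of_forall fun z hz => ?_)
    show (0:ℝ) ≤ gfun c z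
    unfold gfun
    have : 0 < 1 - c ^ 2 := by nlinarith
    split_ifs with h
    · positivity
    · have : 0 ≤ 1 - z ^ 2 := by nlinarith [hz.1, hz.2]
      positivity)]
  refine le_trans ?_ (setLIntegral_le_lintegral (Set.Ioc (0:ℝ) 1) _)
  refine setLIntegral_mono' measurableSet_Ioc fun z hz => ?_
  refine (slice_ge hc0 hc1 hz.1 hz.2).trans ?_
  apply measure_mono
  intro w hw
  simp only [Set.mem_ofPred_eq] at hw
  simp only [Set.mem_preimage, sec0, Set.mem_ofPred_eq, MeasurableEquiv.piFinSuccAbove_symm_apply]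
  have e0 : (Fin.insertNthEquiv (fun _ : Fin 3 => ℝ) 0 (z, w)) 0 = z := by simp
  have e1 : (Fin.insertNthEquiv (fun _ : Fin 3 => ℝ) 0 (z, w)) 1 = w 0 := by
    simp
  have e2 : (Fin.insertNthEquiv (fun _ : Fin 3 => ℝ) 0 (z, w)) 2 = w 1 := rfl
  rw [e0, e1, e2]
  exact hw

end Pool.Agent.R760.HB
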