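import Pool.Agent.R760.HB2

/-! Disjoint caps on the unit sphere of `ℝ³`: the sum of `1 - c_i` is at most `2`. -/

set_option autoImplicit false

namespace Pool.Agent.R760.HB

open Real MeasureTheory Metric

/-- sector of the unit ball about the direction `u` -/
def sec (u : E3) (c : ℝ) : Set E3 := {x | ‖x‖ < 1 ∧ c * ‖x‖ < inner ℝ u x}

lemma meas_sec (u : E3) (c : ℝ) : MeasurableSet (sec u c) := by
  have h1 : IsOpen {x : E3 | ‖x‖ < 1} := isOpen_lt (by fun_prop) (by fun_prop)
  have h2 : IsOpen {x : E3 | c * ‖x‖ < inner ℝ u x} := isOpen_lt (by fun_prop) (by fun_prop)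
  exact (h1.inter h2).measurableSet

noncomputable def e0 : E3 := EuclideanSpace.single 0 1

lemma norm_e0 : ‖e0‖ = 1 := by simp [e0]

lemma vol_sec_e0 (c : ℝ) : volume (sec e0 c) = volume (sec0 c) := by
  have h1 := (PiLp.volume_preserving_ofLp (Fin 3)).measure_preimage
    (s := sec0 c) (meas_sec0 c).nullMeasurableSet
  rw [← h1]
  congr 1
  ext x
  have hn : ‖x‖ = √(x 0 ^ 2 + x 1 ^ 2 + x 2 ^ 2) := by
    rw [EuclideanSpace.norm_eq]
    simp only [Fin.sum_univ_three, Real.norm_eq_abs, sq_abs]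
  have hi : inner ℝ e0 x = x 0 := by
    simp [e0, EuclideanSpace.inner_single_left]
  simp only [sec, sec0, Set.mem_preimage, Set.mem_ofPred_eq]
  rw [hi, hn]
  constructor
  · rintro ⟨h1, h2⟩
    refine ⟨?_, h2⟩
    rw [Real.sqrt_lt' one_pos] at h1
    simpa using h1
  · rintro ⟨h1, h2⟩
    refine ⟨?_, h2⟩
    rw [Real.sqrt_lt' one_pos]
    simpa using h1

lemma vol_sec {u : E3} (hu : ‖u‖ = 1) (c : ℝ) : volume (sec u c) = volume (sec0 c) := by
  rw [← vol_sec_e0]
  obtain ⟨φ, hφ⟩ : ∃ φ : E3 ≃ₗᵢ[ℝ] E3, φ e0 = u := by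
    refine ⟨(ℝ ∙ (e0 - u))ᗮ.reflection, ?_⟩
    exact Submodule.reflection_sub (by rw [hu, norm_e0])
  have h1 := φ.measurePreserving.measure_preimage (s := sec u c) (meas_sec u c).nullMeasurableSet
  rw [← h1]
  congr 1
  ext x
  simp only [sec, Set.mem_preimage, Set.mem_ofPred_eq, LinearIsometryEquiv.norm_map]
  rw [← hφ, LinearIsometryEquiv.inner_map_map]

/-- The sum of `1 - c_i` over pairwise disjoint caps `{v : ⟪u_i, v⟫ > c_i}` is at most `2`. -/
lemma caps {ι : Type*} (s : Finset ι) (u : ι → E3) (c : ι → ℝ)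
    (hu : ∀ i ∈ s, ‖u i‖ = 1) (hc0 : ∀ i ∈ s, 0 < c i) (hc1 : ∀ i ∈ s, c i < 1)
    (hd : ∀ i ∈ s, ∀ j ∈ s, i ≠ j → ∀ v : E3, ‖v‖ = 1 → c i < inner ℝ (u i) v →
      c j < inner ℝ (u j) v → False) :
    ∑ i ∈ s, (1 - c i) ≤ 2 := by
  classical
  have h1 : ∑ i ∈ s, ENNReal.ofReal (2 * π / 3 * (1 - c i)) ≤ ENNReal.ofReal (4 * π / 3) := by
    calc ∑ i ∈ s, ENNReal.ofReal (2 * π / 3 * (1 - c i)) ≤ ∑ i ∈ s, volume (sec (u i) (c i)) := by
          apply Finset.sum_le_sum
          intro i hi
          rw [vol_sec (hu i hi)]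
          exact vol_sec0 (hc0 i hi) (hc1 i hi)
      _ = volume (⋃ i ∈ s, sec (u i) (c i)) := by
          rw [measure_biUnion_finset]
          · intro i hi j hj hij
            refine Set.disjoint_left.2 ?_
            rintro x ⟨hx1, hx2⟩ ⟨_, hx3⟩
            have hx0 : 0 < ‖x‖ := by
              rcases eq_or_ne x 0 with h | h
              · subst h
                simp at hx2
              · exact norm_pos_iff.2 h
            refine hd i hi j hj hij (‖x‖⁻¹ • x) ?_ ?_ ?_
            · rw [norm_smul, norm_inv, norm_norm, inv_mul_cancel₀ hx0.ne']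
            · rw [real_inner_smul_right, ← div_eq_inv_mul, lt_div_iff₀ hx0]
              exact hx2
            · rw [real_inner_smul_right, ← div_eq_inv_mul, lt_div_iff₀ hx0]
              exact hx3
          · intro i _
            exact meas_sec _ _
      _ ≤ volume (ball (0 : E3) 1) := by
          apply measure_mono
          intro x hx
          simp only [Set.mem_iUnion] at hx
          obtain ⟨i, hi, hx1, hx2⟩ := hx
          simpa using hx1
      _ = ENNReal.ofReal (4 * π / 3) := by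
          rw [EuclideanSpace.volume_ball_fin_three]
          simp
          ring_nf
  rw [← ENNReal.ofReal_sum_of_nonneg] at h1
  · rw [ENNReal.ofReal_le_ofReal_iff (by positivity)] at h1
    rw [← Finset.mul_sum] at h1
    have := Real.pi_pos
    by_contra hcon
    push Not at hcon
    nlinarith [mul_lt_mul_of_pos_left hcon (by positivity : 0 < 2 * π / 3)]
  · intro i hi
    have := hc1 i hi
    have : 0 < 1 - c i := by linarith
    positivity

end Pool.Agent.R760.HB
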