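import Pool.Agent.R760.HB3

/-! The levels of a packing in hyperbolic space: on the sphere of radius `ρ` about the origin the
packed balls cut out disjoint caps. -/

set_option autoImplicit false

namespace Pool.Agent.R760.HB

open Real MeasureTheory Metric

/-- hyperbolic distance to the origin -/
noncomputable def rad (x : E3) : ℝ := arsinh ‖x‖

lemma sinh_rad (x : E3) : sinh (rad x) = ‖x‖ := Real.sinh_arsinh _

lemma cosh_rad (x : E3) : cosh (rad x) = tm x := by
  unfold rad tm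
  exact Real.cosh_arsinh _

/-- `sinh ρ` times the height `1 - cos` of the cap cut out by the ball of radius `r` about `x`
on the sphere of radius `ρ` -/
noncomputable def G (r : ℝ) (x : E3) (ρ : ℝ) : ℝ := max 0 (cosh r - cosh (ρ - rad x)) / ‖x‖

lemma G_nonneg (r : ℝ) (x : E3) (ρ : ℝ) : 0 ≤ G r x ρ := by
  unfold G
  exact div_nonneg (le_max_left _ _) (norm_nonneg _)

lemma G_cont (r : ℝ) (x : E3) : Continuous (G r x) := by
  unfold G
  fun_prop

lemma cap_iff {r ρ : ℝ} {x v : E3} (hx : 0 < ‖x‖) (hρ : 0 < ρ) (hv : ‖v‖ = 1) :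
    (cosh ρ * cosh (rad x) - cosh r) / (sinh ρ * ‖x‖) < inner ℝ (‖x‖⁻¹ • x) v ↔
      ch (sinh ρ • v) x < cosh r := by
  have hs : 0 < sinh ρ := Real.sinh_pos_iff.2 hρ
  have ht : tm (sinh ρ • v) = cosh ρ := by
    unfold tm
    rw [norm_smul, hv, mul_one, Real.norm_eq_abs, abs_of_pos hs, ← Real.cosh_sq',
      Real.sqrt_sq (Real.cosh_pos ρ).le]
  unfold ch
  rw [ht, ← cosh_rad, real_inner_smul_left, real_inner_smul_left, div_lt_iff₀ (by positivity),
    real_inner_comm x v]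
  have : ‖x‖⁻¹ * inner ℝ v x * (sinh ρ * ‖x‖) = sinh ρ * inner ℝ v x := by
    field_simp
  rw [real_inner_comm x v] at *
  rw [this]
  constructor <;> intro h <;> linarith

lemma G_pos_eq {r ρ : ℝ} {x : E3} (hx : 0 < ‖x‖) (hρ : 0 < ρ)
    (h : cosh (ρ - rad x) < cosh r) :
    G r x ρ = sinh ρ * (1 - (cosh ρ * cosh (rad x) - cosh r) / (sinh ρ * ‖x‖)) := by
  have hs : 0 < sinh ρ := Real.sinh_pos_iff.2 hρ
  unfold G
  rw [max_eq_right (by linarith), Real.cosh_sub, sinh_rad]
  field_simp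
  ring

lemma G_zero {r ρ : ℝ} {x : E3} (h : ¬ cosh (ρ - rad x) < cosh r) : G r x ρ = 0 := by
  unfold G
  rw [max_eq_left (by linarith), zero_div]

lemma rad_pos_norm {r : ℝ} (hr : 0 < r) {x : E3} (h : r ≤ rad x) : 0 < ‖x‖ := by
  rw [← sinh_rad]
  exact Real.sinh_pos_iff.2 (by linarith)

lemma level1 {ι : Type*} (s : Finset ι) (x : ι → E3) {r ρ : ℝ} (hr : 0 < r) (hρ : 0 < ρ)
    (hx : ∀ i ∈ s, r ≤ rad (x i))
    (hsep : ∀ i ∈ s, ∀ j ∈ s, i ≠ j → cosh (2 * r) ≤ ch (x i) (x j)) :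
    ∑ i ∈ s, G r (x i) ρ ≤ 2 * sinh ρ := by
  classical
  have hs : 0 < sinh ρ := Real.sinh_pos_iff.2 hρ
  set A := s.filter (fun i => cosh (ρ - rad (x i)) < cosh r) with hA
  have h1 : ∑ i ∈ s, G r (x i) ρ = ∑ i ∈ A, G r (x i) ρ := by
    rw [hA, Finset.sum_filter]
    apply Finset.sum_congr rfl
    intro i _
    split_ifs with h
    · rfl
    · exact G_zero h
  have hxp : ∀ i ∈ s, 0 < ‖x i‖ := fun i hi => rad_pos_norm hr (hx i hi)
  have h2 := caps A (fun i => ‖x i‖⁻¹ • x i)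
    (fun i => (cosh ρ * cosh (rad (x i)) - cosh r) / (sinh ρ * ‖x i‖)) ?_ ?_ ?_ ?_
  · rw [h1]
    calc ∑ i ∈ A, G r (x i) ρ = ∑ i ∈ A, sinh ρ *
          (1 - (cosh ρ * cosh (rad (x i)) - cosh r) / (sinh ρ * ‖x i‖)) := by
          apply Finset.sum_congr rfl
          intro i hi
          rw [hA, Finset.mem_filter] at hi
          exact G_pos_eq (hxp i hi.1) hρ hi.2
      _ ≤ 2 * sinh ρ := by
          rw [← Finset.mul_sum]
          nlinarith
  · intro i hi
    rw [hA, Finset.mem_filter] at hi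
    have := hxp i hi.1
    rw [norm_smul, norm_inv, norm_norm, inv_mul_cancel₀ this.ne']
  · intro i hi
    rw [hA, Finset.mem_filter] at hi
    have := hxp i hi.1
    have h3 : cosh r ≤ cosh (rad (x i)) := by
      rw [Real.cosh_le_cosh, abs_of_pos hr]
      exact (hx i hi.1).trans (le_abs_self _)
    have h4 : 1 < cosh ρ := Real.one_lt_cosh.2 hρ.ne'
    have h5 := Real.cosh_pos r
    apply div_pos _ (by positivity)
    nlinarith
  · intro i hi
    rw [hA, Finset.mem_filter] at hi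
    have h6 := hxp i hi.1
    rw [div_lt_one (by positivity)]
    have := hi.2
    rw [Real.cosh_sub, sinh_rad] at this
    linarith
  · intro i hi j hj hij v hv h3 h4
    rw [hA, Finset.mem_filter] at hi hj
    rw [cap_iff (hxp i hi.1) hρ hv] at h3
    rw [cap_iff (hxp j hj.1) hρ hv] at h4
    have := disj r hr.le (x i) (x j) _ h3 h4
    have := hsep i hi.1 j hj.1 hij
    linarith

end Pool.Agent.R760.HB
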