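import Pool.Agent.R760.HB4

/-! The outer levels: near the boundary of the container few balls are active and their caps are
small. -/

set_option autoImplicit false

namespace Pool.Agent.R760.HB

open Real MeasureTheory Metric

lemma inner_le_of_sep {r t a : ℝ} {x y : E3} (hr : 0 < r) (hx : r ≤ rad x) (hy : r ≤ rad y)
    (hxa : rad x ≤ a) (hya : rad y ≤ a) (hxy : |rad x - rad y| ≤ t) (ht : t ≤ 2 * r)
    (hsep : cosh (2 * r) ≤ ch x y) :
    inner ℝ (‖x‖⁻¹ • x) (‖y‖⁻¹ • y) ≤ 1 - (cosh (2 * r) - cosh t) / sinh a ^ 2 := by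
  have hxp := rad_pos_norm hr hx
  have hyp := rad_pos_norm hr hy
  have ht0 : 0 ≤ t := (abs_nonneg _).trans hxy
  have ha : 0 < sinh a := Real.sinh_pos_iff.2 (by linarith)
  have h1 : cosh (rad x - rad y) ≤ cosh t := by
    rw [Real.cosh_le_cosh, abs_of_nonneg ht0]
    exact hxy
  have h2 : cosh t ≤ cosh (2 * r) := by
    rw [Real.cosh_le_cosh, abs_of_nonneg ht0, abs_of_pos (by linarith)]
    exact ht
  have h3 : ‖x‖ ≤ sinh a := by
    rw [← sinh_rad, Real.sinh_le_sinh]; exact hxa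
  have h4 : ‖y‖ ≤ sinh a := by
    rw [← sinh_rad, Real.sinh_le_sinh]; exact hya
  rw [Real.cosh_sub, sinh_rad, sinh_rad, cosh_rad, cosh_rad] at h1
  unfold ch at hsep
  rw [real_inner_smul_left, real_inner_smul_right]
  have h5 : ‖x‖⁻¹ * (‖y‖⁻¹ * inner ℝ x y) = inner ℝ x y / (‖x‖ * ‖y‖) := by
    field_simp
  rw [h5]
  have h6 : inner ℝ x y ≤ ‖x‖ * ‖y‖ - (cosh (2 * r) - cosh t) := by linarith
  have h7 : inner ℝ x y / (‖x‖ * ‖y‖) ≤ 1 - (cosh (2 * r) - cosh t) / (‖x‖ * ‖y‖) := by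
    rw [div_le_iff₀ (by positivity), sub_mul, div_mul_cancel₀ _ (by positivity)]
    linarith
  refine h7.trans ?_
  have h8 : (cosh (2 * r) - cosh t) / sinh a ^ 2 ≤ (cosh (2 * r) - cosh t) / (‖x‖ * ‖y‖) := by
    apply div_le_div_of_nonneg_left (by linarith) (by positivity)
    rw [sq]
    exact mul_le_mul h3 h4 hyp.le ha.le
  linarith

/-- unit vectors with pairwise inner products at most `1 - κ`: there are at most `8 / κ` -/
lemma card_le {ι : Type*} (A : Finset ι) (u : ι → E3) {κ : ℝ} (hκ0 : 0 < κ) (hκ2 : κ < 2)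
    (hu : ∀ i ∈ A, ‖u i‖ = 1)
    (hin : ∀ i ∈ A, ∀ j ∈ A, i ≠ j → inner ℝ (u i) (u j) ≤ 1 - κ) :
    (A.card : ℝ) * κ ≤ 8 := by
  have hpos : 0 < 1 - κ / 2 := by linarith
  have hsq := Real.sq_sqrt hpos.le
  have hc0 : 0 < √(1 - κ / 2) := Real.sqrt_pos.2 hpos
  have hc1 : √(1 - κ / 2) ≤ 1 - κ / 4 := by
    apply Real.sqrt_le_iff.2
    constructor <;> nlinarith [sq_nonneg κ]
  have h := caps A u (fun _ => √(1 - κ / 2)) hu (fun _ _ => hc0) (fun _ _ => by linarith) ?_
  · rw [Finset.sum_const, nsmul_eq_mul] at h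
    have : (A.card : ℝ) * (κ / 4) ≤ A.card * (1 - √(1 - κ / 2)) :=
      mul_le_mul_of_nonneg_left (by linarith) (Nat.cast_nonneg _)
    linarith
  · intro i hi j hj hij v hv h1 h2
    have h3 : inner ℝ (u i + u j) v ≤ ‖u i + u j‖ * ‖v‖ := real_inner_le_norm _ _
    rw [hv, mul_one, inner_add_left] at h3
    have h4 : ‖u i + u j‖ ^ 2 ≤ 4 * (1 - κ / 2) := by
      rw [norm_add_sq_real, hu i hi, hu j hj]
      have := hin i hi j hj hij
      linarith
    have h5 : 2 * √(1 - κ / 2) < ‖u i + u j‖ := by linarith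
    nlinarith [norm_nonneg (u i + u j)]

/-- near the boundary the cap of a ball is largest when the ball touches the boundary -/
lemma cap_mono {r t a s : ℝ} (_hr : 0 < r) (hs0 : 0 ≤ s) (hsa : s < a)
    (hkey : cosh r * cosh a ≤ cosh (a + (r - t))) :
    (cosh r - cosh (r - t + s)) / sinh (a - s) ≤ (cosh r - cosh (r - t)) / sinh a := by
  have ha : 0 < sinh a := Real.sinh_pos_iff.2 (by linarith)
  have has : 0 < sinh (a - s) := Real.sinh_pos_iff.2 (by linarith)
  rw [div_le_div_iff₀ has ha]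
  have id1 : cosh (r - t + s) * sinh a - cosh (r - t) * sinh (a - s) =
      cosh (a + (r - t)) * sinh s := by
    rw [Real.cosh_add (r - t) s, Real.sinh_sub a s, Real.cosh_add a (r - t)]
    ring
  have id2 : sinh a - sinh (a - s) = 2 * cosh (a - s / 2) * sinh (s / 2) := by
    have e1 : a = (a - s / 2) + s / 2 := by ring
    have e2 : a - s = (a - s / 2) - s / 2 := by ring
    have h1 := Real.sinh_add (a - s / 2) (s / 2)
    have h2 := Real.sinh_sub (a - s / 2) (s / 2)
    rw [← e1] at h1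
    rw [← e2] at h2
    linarith
  have id3 : sinh s = 2 * sinh (s / 2) * cosh (s / 2) := by
    have := Real.sinh_two_mul (s / 2)
    rw [show 2 * (s / 2) = s by ring] at this
    exact this
  have h1 : cosh (a - s / 2) ≤ cosh a := by
    rw [Real.cosh_le_cosh, abs_of_pos (by linarith), abs_of_pos (by linarith)]
    linarith
  have h2 : 1 ≤ cosh (s / 2) := Real.one_le_cosh _
  have h3 : 0 ≤ sinh (s / 2) := Real.sinh_nonneg_iff.2 (by linarith)
  have h4 : cosh r * cosh (a - s / 2) ≤ cosh (a + (r - t)) * cosh (s / 2) := by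
    calc cosh r * cosh (a - s / 2) ≤ cosh r * cosh a :=
          mul_le_mul_of_nonneg_left h1 (Real.cosh_pos r).le
      _ ≤ cosh (a + (r - t)) := hkey
      _ = cosh (a + (r - t)) * 1 := (mul_one _).symm
      _ ≤ _ := mul_le_mul_of_nonneg_left h2 (Real.cosh_pos _).le
  have h5 : cosh r * (sinh a - sinh (a - s)) ≤ cosh (a + (r - t)) * sinh s := by
    rw [id2, id3]
    nlinarith [mul_le_mul_of_nonneg_left h4 h3]
  linarith

lemma level2 {ι : Type*} (s : Finset ι) (x : ι → E3) {r R t : ℝ} (hr : 0 < r) (ht0 : 0 < t)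
    (ht : t < 2 * r) (htR : t < R - r) (hR : cosh (2 * r) < 2 * sinh (R - r) ^ 2)
    (hkey : cosh r * cosh (R - r) ≤ cosh (R - t))
    (hx : ∀ i ∈ s, r ≤ rad (x i)) (hxR : ∀ i ∈ s, rad (x i) ≤ R - r)
    (hsep : ∀ i ∈ s, ∀ j ∈ s, i ≠ j → cosh (2 * r) ≤ ch (x i) (x j)) :
    (∑ i ∈ s, G r (x i) (R - t)) * (cosh (2 * r) - cosh t) ≤
      8 * sinh (R - r) * (cosh r - cosh (r - t)) := by
  classical
  have hS : 0 < sinh (R - r) := Real.sinh_pos_iff.2 (by linarith)
  set A := s.filter (fun i => cosh (R - t - rad (x i)) < cosh r) with hA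
  have h1 : ∑ i ∈ s, G r (x i) (R - t) = ∑ i ∈ A, G r (x i) (R - t) := by
    rw [hA, Finset.sum_filter]
    apply Finset.sum_congr rfl
    intro i _
    split_ifs with h
    · rfl
    · exact G_zero h
  have hact : ∀ i ∈ A, R - r - t < rad (x i) := by
    intro i hi
    rw [hA, Finset.mem_filter, Real.cosh_lt_cosh, abs_of_pos hr] at hi
    have := (abs_lt.1 hi.2).2
    linarith
  have hc : cosh t < cosh (2 * r) := by
    rw [Real.cosh_lt_cosh, abs_of_pos ht0, abs_of_pos (by linarith)]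
    exact ht
  have hg : ∀ i ∈ A, G r (x i) (R - t) ≤ (cosh r - cosh (r - t)) / sinh (R - r) := by
    intro i hi
    have h2 := hact i hi
    have hi' := hi
    rw [hA, Finset.mem_filter] at hi'
    have h3 := hxR i hi'.1
    have h4 := cap_mono (r := r) (t := t) (a := R - r) (s := R - r - rad (x i)) hr
      (by linarith) (by have := hx i hi'.1; linarith)
      (by rw [show R - r + (r - t) = R - t by ring]; exact hkey)
    unfold G
    rw [max_eq_right (by linarith [hi'.2])]
    rw [show r - t + (R - r - rad (x i)) = R - t - rad (x i) by ring,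
      show R - r - (R - r - rad (x i)) = rad (x i) by ring, sinh_rad] at h4
    exact h4
  set κ := (cosh (2 * r) - cosh t) / sinh (R - r) ^ 2 with hκ
  have hκ0 : 0 < κ := by
    rw [hκ]
    have : 0 < cosh (2 * r) - cosh t := by linarith
    positivity
  have hκ2 : κ < 2 := by
    rw [hκ, div_lt_iff₀ (by positivity)]
    have := Real.cosh_pos t
    linarith
  have hcard := card_le A (fun i => ‖x i‖⁻¹ • x i) hκ0 hκ2 ?_ ?_
  · have hm0 : 0 ≤ (cosh r - cosh (r - t)) / sinh (R - r) := by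
      apply div_nonneg _ hS.le
      have : cosh (r - t) ≤ cosh r := by
        rw [Real.cosh_le_cosh, abs_of_pos hr, abs_le]
        constructor <;> linarith
      linarith
    have h5 : ∑ i ∈ A, G r (x i) (R - t) ≤ A.card * ((cosh r - cosh (r - t)) / sinh (R - r)) := by
      have := Finset.sum_le_sum hg
      rwa [Finset.sum_const, nsmul_eq_mul] at this
    rw [h1]
    have h6 : cosh (2 * r) - cosh t = κ * sinh (R - r) ^ 2 := by
      rw [hκ]; field_simp
    rw [h6]
    calc (∑ i ∈ A, G r (x i) (R - t)) * (κ * sinh (R - r) ^ 2)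
        ≤ (A.card * ((cosh r - cosh (r - t)) / sinh (R - r))) * (κ * sinh (R - r) ^ 2) :=
          mul_le_mul_of_nonneg_right h5 (by positivity)
      _ = (A.card * κ) * (((cosh r - cosh (r - t)) / sinh (R - r)) * sinh (R - r) ^ 2) := by ring
      _ ≤ 8 * (((cosh r - cosh (r - t)) / sinh (R - r)) * sinh (R - r) ^ 2) :=
          mul_le_mul_of_nonneg_right hcard (by positivity)
      _ = 8 * sinh (R - r) * (cosh r - cosh (r - t)) := by field_simp
  · intro i hi
    rw [hA, Finset.mem_filter] at hi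
    have := rad_pos_norm hr (hx i hi.1)
    rw [norm_smul, norm_inv, norm_norm, inv_mul_cancel₀ this.ne']
  · intro i hi j hj hij
    have hi2 := hact i hi
    have hj2 := hact j hj
    rw [hA, Finset.mem_filter] at hi hj
    have hi3 := hxR i hi.1
    have hj3 := hxR j hj.1
    exact inner_le_of_sep hr (hx i hi.1) (hx j hj.1) hi3 hj3
      (by rw [abs_le]; constructor <;> linarith) ht.le (hsep i hi.1 j hj.1 hij)

/-- the outer level bound in exponential form -/
lemma level3 {ι : Type*} (s : Finset ι) (x : ι → E3) {r R t : ℝ} (hr : 0 < r) (ht0 : 0 < t)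
    (ht : t < 2 * r) (htR : t < R - r) (hR : cosh (2 * r) < 2 * sinh (R - r) ^ 2)
    (hkey : cosh r * cosh (R - r) ≤ cosh (R - t))
    (hx : ∀ i ∈ s, r ≤ rad (x i)) (hxR : ∀ i ∈ s, rad (x i) ≤ R - r)
    (hsep : ∀ i ∈ s, ∀ j ∈ s, i ≠ j → cosh (2 * r) ≤ ch (x i) (x j)) :
    (∑ i ∈ s, G r (x i) (R - t)) * (exp (2 * r) - 1) ≤ 4 * (exp R - exp (R - t)) := by
  have h := level2 s x hr ht0 ht htR hR hkey hx hxR hsep
  set S := ∑ i ∈ s, G r (x i) (R - t) with hS
  have hS0 : 0 ≤ S := Finset.sum_nonneg fun i _ => G_nonneg _ _ _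
  -- write everything in terms of a = exp r, w = exp t, E = exp R
  set a := exp r with ha
  set w := exp t with hw
  set E := exp R with hE
  have ha0 : 0 < a := Real.exp_pos _
  have hw0 : 0 < w := Real.exp_pos _
  have hE0 : 0 < E := Real.exp_pos _
  have hw1 : 1 < w := Real.one_lt_exp_iff.2 ht0
  have haw : w < a ^ 2 := by
    rw [ha, hw, ← Real.exp_nat_mul]
    exact Real.exp_lt_exp.2 (by push_cast; linarith)
  have e2 : exp (2 * r) = a ^ 2 := by
    rw [ha, ← Real.exp_nat_mul]; norm_num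
  have c1 : cosh (2 * r) - cosh t = (a ^ 2 - w) * (a ^ 2 * w - 1) / (2 * (a ^ 2 * w)) := by
    rw [Real.cosh_eq, Real.cosh_eq, Real.exp_neg, Real.exp_neg, e2, ← hw]
    field_simp
    ring
  have c2 : cosh r - cosh (r - t) = (w - 1) * (a ^ 2 - w) / (2 * (a * w)) := by
    rw [Real.cosh_eq, Real.cosh_eq, Real.exp_neg, Real.exp_neg, Real.exp_sub, ← ha, ← hw]
    field_simp
    ring
  have c3 : sinh (R - r) ≤ E / (2 * a) := by
    rw [Real.sinh_eq, Real.exp_sub, ← ha, ← hE]
    have := Real.exp_pos (-(R - r))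
    have h9 : E / (2 * a) = E / a / 2 := by field_simp
    rw [h9]
    linarith
  have c4 : exp (R - t) = E / w := by rw [Real.exp_sub]
  rw [c1, c2] at h
  rw [e2, c4]
  have p1 : 0 < a ^ 2 - w := by linarith
  have p2 : 0 < a ^ 2 * w - 1 := by nlinarith
  have p3 : 0 < w - 1 := by linarith
  have h2 : S * ((a ^ 2 - w) * (a ^ 2 * w - 1) / (2 * (a ^ 2 * w))) ≤
      8 * (E / (2 * a)) * ((w - 1) * (a ^ 2 - w) / (2 * (a * w))) := by
    refine h.trans ?_
    apply mul_le_mul_of_nonneg_right (by linarith) (by positivity)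
  have h3 : S * (a ^ 2 * w - 1) ≤ 4 * E * (w - 1) := by
    have h4 : S * ((a ^ 2 - w) * (a ^ 2 * w - 1) / (2 * (a ^ 2 * w))) =
        (S * (a ^ 2 * w - 1)) * ((a ^ 2 - w) / (2 * (a ^ 2 * w))) := by ring
    have h5 : 8 * (E / (2 * a)) * ((w - 1) * (a ^ 2 - w) / (2 * (a * w))) =
        (4 * E * (w - 1)) * ((a ^ 2 - w) / (2 * (a ^ 2 * w))) := by
      field_simp
      ring
    rw [h4, h5] at h2
    exact le_of_mul_le_mul_right h2 (by positivity)
  have h6 : S * (a ^ 2 - 1) * w ≤ 4 * (E - E / w) * w := by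
    have : 4 * (E - E / w) * w = 4 * E * (w - 1) := by field_simp
    rw [this]
    nlinarith
  exact le_of_mul_le_mul_right h6 hw0

end Pool.Agent.R760.HB
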