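import Pool.Agent.R760.HB5

/-! Integration over the levels. -/

set_option autoImplicit false

namespace Pool.Agent.R760.HB

open Real MeasureTheory Metric

lemma ball_int {r R : ℝ} {x : E3} (hr : 0 < r) (hx : r ≤ rad x) (hxR : rad x ≤ R - r) :
    sinh (2 * r) - 2 * r ≤ ∫ ρ in (0:ℝ)..R, 2 * sinh ρ * G r x ρ := by
  have hxp := rad_pos_norm hr hx
  set p := rad x with hp
  have hsp : sinh p = ‖x‖ := sinh_rad x
  have hder : ∀ ρ ∈ Set.uIcc (p - r) (p + r), HasDerivAt
      (fun ρ => (2 * cosh r * cosh ρ - cosh (2 * ρ - p) / 2 - ρ * sinh p) / ‖x‖)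
      ((2 * cosh r * sinh ρ - sinh (2 * ρ - p) - sinh p) / ‖x‖) ρ := by
    intro ρ _
    have h1 : HasDerivAt (fun ρ : ℝ => 2 * ρ - p) 2 ρ := by
      simpa using ((hasDerivAt_id ρ).const_mul 2).sub_const p
    have h2 := h1.cosh
    have h3 := ((Real.hasDerivAt_cosh ρ).const_mul (2 * cosh r))
    have h4 := (hasDerivAt_id ρ).mul_const (sinh p)
    have h5 := ((h3.sub (h2.div_const 2)).sub h4).div_const ‖x‖
    refine h5.congr_deriv ?_
    ring
  have hI : ∫ ρ in (p - r)..(p + r), (2 * cosh r * sinh ρ - sinh (2 * ρ - p) - sinh p) / ‖x‖ =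
      sinh (2 * r) - 2 * r := by
    rw [intervalIntegral.integral_eq_sub_of_hasDerivAt hder
      (Continuous.intervalIntegrable (by fun_prop) _ _)]
    have e1 : 2 * (p + r) - p = p + 2 * r := by ring
    have e2 : 2 * (p - r) - p = p - 2 * r := by ring
    rw [e1, e2, Real.cosh_add p r, Real.cosh_sub p r, Real.cosh_add p (2 * r),
      Real.cosh_sub p (2 * r), hsp]
    have e3 := Real.sinh_two_mul r
    field_simp
    rw [e3]
    ring
  rw [← hI]
  have hle1 : ∫ ρ in (p - r)..(p + r), (2 * cosh r * sinh ρ - sinh (2 * ρ - p) - sinh p) / ‖x‖ ≤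
      ∫ ρ in (p - r)..(p + r), 2 * sinh ρ * G r x ρ := by
    apply intervalIntegral.integral_mono_on (by linarith)
      (Continuous.intervalIntegrable (by fun_prop) _ _)
      (Continuous.intervalIntegrable (by have := G_cont r x; fun_prop) _ _)
    intro ρ hρ
    have h0 : 0 ≤ sinh ρ := Real.sinh_nonneg_iff.2 (by linarith [hρ.1])
    have h6 : 2 * cosh r * sinh ρ - sinh (2 * ρ - p) - sinh p =
        2 * sinh ρ * (cosh r - cosh (ρ - p)) := by
      have e4 : 2 * ρ - p = ρ + (ρ - p) := by ring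
      have e5 : p = ρ - (ρ - p) := by ring
      have e6 : sinh (2 * ρ - p) + sinh p = 2 * sinh ρ * cosh (ρ - p) := by
        rw [e4, Real.sinh_add]
        nth_rewrite 3 [e5]
        rw [Real.sinh_sub ρ (ρ - p)]
        ring
      linarith
    rw [h6]
    unfold G
    rw [mul_div_assoc]
    apply mul_le_mul_of_nonneg_left _ (by positivity)
    apply div_le_div_of_nonneg_right (le_max_right _ _) hxp.le
  refine hle1.trans ?_
  apply intervalIntegral.integral_mono_interval (by linarith) (by linarith) (by linarith)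
  · refine (ae_restrict_iff' measurableSet_Ioc).2 (Filter.Eventually.of_forall fun ρ hρ => ?_)
    show (0:ℝ) ≤ 2 * sinh ρ * G r x ρ
    have h0 : 0 ≤ sinh ρ := Real.sinh_nonneg_iff.2 hρ.1.le
    have := G_nonneg r x ρ
    positivity
  · exact Continuous.intervalIntegrable (by have := G_cont r x; fun_prop) _ _

lemma int_sinh_sq (a : ℝ) : ∫ ρ in (0:ℝ)..a, 2 * sinh ρ * (2 * sinh ρ) =
    sinh (2 * a) - 2 * a := by
  have hder : ∀ ρ ∈ Set.uIcc 0 a, HasDerivAt (fun ρ => sinh (2 * ρ) - 2 * ρ)
      (2 * sinh ρ * (2 * sinh ρ)) ρ := by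
    intro ρ _
    have h1 : HasDerivAt (fun ρ : ℝ => 2 * ρ) 2 ρ := by
      simpa using (hasDerivAt_id ρ).const_mul 2
    have h2 := h1.sinh.sub h1
    refine h2.congr_deriv ?_
    rw [Real.cosh_two_mul, Real.cosh_sq']
    ring
  rw [intervalIntegral.integral_eq_sub_of_hasDerivAt hder
    (Continuous.intervalIntegrable (by fun_prop) _ _)]
  simp

lemma int_outer (R a k : ℝ) : ∫ ρ in a..R, exp ρ * (k * (exp R - exp ρ)) =
    k * (exp R - exp a) ^ 2 / 2 := by
  have hder : ∀ ρ ∈ Set.uIcc a R, HasDerivAt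
      (fun ρ => -(k * (exp R - exp ρ) ^ 2 / 2))
      (exp ρ * (k * (exp R - exp ρ))) ρ := by
    intro ρ _
    have h1 := ((((Real.hasDerivAt_exp ρ).const_sub (exp R)).pow 2).const_mul k).div_const 2
    have h2 := h1.neg
    refine h2.congr_deriv ?_
    norm_num
    ring
  rw [intervalIntegral.integral_eq_sub_of_hasDerivAt hder
    (Continuous.intervalIntegrable (by fun_prop) _ _)]
  ring

/-- the trivial bound -/
lemma total1 {ι : Type*} (s : Finset ι) (x : ι → E3) {r R : ℝ} (hr : 0 < r) (hR : 0 < R)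
    (hx : ∀ i ∈ s, r ≤ rad (x i)) (hxR : ∀ i ∈ s, rad (x i) ≤ R - r)
    (hsep : ∀ i ∈ s, ∀ j ∈ s, i ≠ j → cosh (2 * r) ≤ ch (x i) (x j)) :
    (s.card : ℝ) * (sinh (2 * r) - 2 * r) ≤ sinh (2 * R) - 2 * R := by
  have hint : ∀ i, ∀ a b : ℝ, IntervalIntegrable (fun ρ => 2 * sinh ρ * G r (x i) ρ) volume a b := by
    intro i a b
    exact Continuous.intervalIntegrable (by have := G_cont r (x i); fun_prop) _ _
  calc (s.card : ℝ) * (sinh (2 * r) - 2 * r) = ∑ _i ∈ s, (sinh (2 * r) - 2 * r) := by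
        rw [Finset.sum_const, nsmul_eq_mul]
    _ ≤ ∑ i ∈ s, ∫ ρ in (0:ℝ)..R, 2 * sinh ρ * G r (x i) ρ :=
        Finset.sum_le_sum fun i hi => ball_int hr (hx i hi) (hxR i hi)
    _ = ∫ ρ in (0:ℝ)..R, ∑ i ∈ s, 2 * sinh ρ * G r (x i) ρ := by
        rw [intervalIntegral.integral_finsetSum]
        intro i _
        exact hint i 0 R
    _ ≤ ∫ ρ in (0:ℝ)..R, 2 * sinh ρ * (2 * sinh ρ) := by
        apply intervalIntegral.integral_mono_on_of_le_Ioo hR.le
        · apply Continuous.intervalIntegrable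
          apply continuous_finsetSum
          intro i _
          have := G_cont r (x i)
          fun_prop
        · exact Continuous.intervalIntegrable (by fun_prop) _ _
        · intro ρ hρ
          rw [← Finset.mul_sum]
          have h0 : 0 < sinh ρ := Real.sinh_pos_iff.2 hρ.1
          apply mul_le_mul_of_nonneg_left (level1 s x hr hρ.1 hx hsep) (by positivity)
    _ = sinh (2 * R) - 2 * R := int_sinh_sq R

/-- the bound with the outer levels -/
lemma total2 {ι : Type*} (s : Finset ι) (x : ι → E3) {r R T : ℝ} (hr : 0 < r) (hT : 0 < T)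
    (hT2 : T < 2 * r) (hTR : T < R - r) (hR : cosh (2 * r) < 2 * sinh (R - r) ^ 2)
    (hkey : cosh r * cosh (R - r) ≤ cosh (R - T))
    (hx : ∀ i ∈ s, r ≤ rad (x i)) (hxR : ∀ i ∈ s, rad (x i) ≤ R - r)
    (hsep : ∀ i ∈ s, ∀ j ∈ s, i ≠ j → cosh (2 * r) ≤ ch (x i) (x j)) :
    (s.card : ℝ) * (sinh (2 * r) - 2 * r) ≤ sinh (2 * (R - T)) - 2 * (R - T) +
      4 / (exp (2 * r) - 1) * (exp R - exp (R - T)) ^ 2 / 2 := by
  have hint : ∀ i, ∀ a b : ℝ, IntervalIntegrable (fun ρ => 2 * sinh ρ * G r (x i) ρ) volume a b := by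
    intro i a b
    exact Continuous.intervalIntegrable (by have := G_cont r (x i); fun_prop) _ _
  have hcont : Continuous fun ρ => ∑ i ∈ s, 2 * sinh ρ * G r (x i) ρ := by
    apply continuous_finsetSum
    intro i _
    have := G_cont r (x i)
    fun_prop
  have hE : 0 < exp (2 * r) - 1 := by
    have := Real.one_lt_exp_iff.2 (by linarith : 0 < 2 * r)
    linarith
  calc (s.card : ℝ) * (sinh (2 * r) - 2 * r) = ∑ _i ∈ s, (sinh (2 * r) - 2 * r) := by
        rw [Finset.sum_const, nsmul_eq_mul]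
    _ ≤ ∑ i ∈ s, ∫ ρ in (0:ℝ)..R, 2 * sinh ρ * G r (x i) ρ :=
        Finset.sum_le_sum fun i hi => ball_int hr (hx i hi) (hxR i hi)
    _ = ∫ ρ in (0:ℝ)..R, ∑ i ∈ s, 2 * sinh ρ * G r (x i) ρ := by
        rw [intervalIntegral.integral_finsetSum]
        intro i _
        exact hint i 0 R
    _ = (∫ ρ in (0:ℝ)..(R - T), ∑ i ∈ s, 2 * sinh ρ * G r (x i) ρ) +
        ∫ ρ in (R - T)..R, ∑ i ∈ s, 2 * sinh ρ * G r (x i) ρ := by
        rw [intervalIntegral.integral_add_adjacent_intervals] <;>
        exact hcont.intervalIntegrable _ _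
    _ ≤ (∫ ρ in (0:ℝ)..(R - T), 2 * sinh ρ * (2 * sinh ρ)) +
        ∫ ρ in (R - T)..R, exp ρ * (4 / (exp (2 * r) - 1) * (exp R - exp ρ)) := by
        apply add_le_add
        · apply intervalIntegral.integral_mono_on_of_le_Ioo (by linarith)
          · exact hcont.intervalIntegrable _ _
          · exact Continuous.intervalIntegrable (by fun_prop) _ _
          · intro ρ hρ
            rw [← Finset.mul_sum]
            have h0 : 0 < sinh ρ := Real.sinh_pos_iff.2 hρ.1
            apply mul_le_mul_of_nonneg_left (level1 s x hr hρ.1 hx hsep) (by positivity)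
        · apply intervalIntegral.integral_mono_on_of_le_Ioo (by linarith)
          · exact hcont.intervalIntegrable _ _
          · exact Continuous.intervalIntegrable (by fun_prop) _ _
          · intro ρ hρ
            rw [← Finset.mul_sum]
            have hρ0 : 0 < ρ := by linarith [hρ.1]
            have h0 : 0 < sinh ρ := Real.sinh_pos_iff.2 hρ0
            have h1 : 2 * sinh ρ ≤ exp ρ := by
              rw [Real.sinh_eq]
              have := Real.exp_pos (-ρ)
              linarith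
            have h2 := level3 s x (t := R - ρ) hr (by linarith [hρ.2]) (by linarith [hρ.1])
              (by linarith [hρ.1]) hR (by
                refine hkey.trans ?_
                rw [Real.cosh_le_cosh, abs_of_pos (by linarith), abs_of_pos (by linarith)]
                linarith [hρ.1]) hx hxR hsep
            rw [show R - (R - ρ) = ρ by ring] at h2
            have h3 : ∑ i ∈ s, G r (x i) ρ ≤ 4 / (exp (2 * r) - 1) * (exp R - exp ρ) := by
              rw [div_mul_eq_mul_div, le_div_iff₀ hE]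
              exact h2
            have h4 : 0 ≤ ∑ i ∈ s, G r (x i) ρ := Finset.sum_nonneg fun i _ => G_nonneg _ _ _
            exact mul_le_mul h1 h3 h4 (Real.exp_pos _).le
    _ = _ := by
        rw [int_sinh_sq, int_outer]

end Pool.Agent.R760.HB
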