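import Pool.Agent.R760.HB6

/-! Coupling of the levels. The function `u ↦ cosh r - cosh u` is log-concave on `[-r, r]`, so the
caps on an outer level are controlled by the caps on a level further in. -/

set_option autoImplicit false

namespace Pool.Agent.R760.HB

open Real MeasureTheory Metric

lemma tp {r A B s : ℝ} (hs0 : 0 ≤ s) (hs : s ≤ B - A) (hA : -r ≤ A) (hB : B ≤ r) :
    (cosh r - cosh A) * (cosh r - cosh B) ≤ (cosh r - cosh (A + s)) * (cosh r - cosh (B - s)) := by
  obtain ⟨m, hm⟩ : ∃ m, m = (A + B) / 2 := ⟨_, rfl⟩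
  obtain ⟨d, hd⟩ : ∃ d, d = (B - A) / 2 := ⟨_, rfl⟩
  have e1 : A = m - d := by rw [hm, hd]; ring
  have e2 : B = m + d := by rw [hm, hd]; ring
  have e3 : A + s = m - (d - s) := by rw [e1]; ring
  have e4 : B - s = m + (d - s) := by rw [e2]; ring
  have hd0 : 0 ≤ d := by rw [hd]; linarith
  have hdr : d ≤ r := by rw [hd]; linarith
  have hr : 0 ≤ r := hd0.trans hdr
  have h1 : cosh (d - s) ≤ cosh d := by
    rw [Real.cosh_le_cosh, abs_of_nonneg hd0, abs_le]
    constructor <;> linarith
  have h2 : cosh d ≤ cosh r := by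
    rw [Real.cosh_le_cosh, abs_of_nonneg hd0, abs_of_nonneg hr]
    exact hdr
  have h3 : 1 ≤ cosh m := Real.one_le_cosh _
  have h4 : cosh r ≤ cosh r * cosh m := by nlinarith [Real.cosh_pos r]
  rw [e3, e4, e1, e2, Real.cosh_sub m d, Real.cosh_add m d, Real.cosh_sub m (d - s),
    Real.cosh_add m (d - s)]
  have h5 := Real.cosh_sq m
  have h6 := Real.cosh_sq d
  have h7 := Real.cosh_sq (d - s)
  have key : (cosh r - (cosh m * cosh (d - s) - sinh m * sinh (d - s))) *
      (cosh r - (cosh m * cosh (d - s) + sinh m * sinh (d - s))) -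
      (cosh r - (cosh m * cosh d - sinh m * sinh d)) *
      (cosh r - (cosh m * cosh d + sinh m * sinh d)) =
      (cosh d - cosh (d - s)) * (2 * (cosh r * cosh m) - cosh d - cosh (d - s)) := by
    have h8 : sinh m ^ 2 = cosh m ^ 2 - 1 := by linarith
    have h9 : sinh d ^ 2 = cosh d ^ 2 - 1 := by linarith
    have h10 : sinh (d - s) ^ 2 = cosh (d - s) ^ 2 - 1 := by linarith
    have h11 : (cosh r - (cosh m * cosh (d - s) - sinh m * sinh (d - s))) *
      (cosh r - (cosh m * cosh (d - s) + sinh m * sinh (d - s))) =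
      (cosh r - cosh m * cosh (d - s)) ^ 2 - sinh m ^ 2 * sinh (d - s) ^ 2 := by ring
    have h12 : (cosh r - (cosh m * cosh d - sinh m * sinh d)) *
      (cosh r - (cosh m * cosh d + sinh m * sinh d)) =
      (cosh r - cosh m * cosh d) ^ 2 - sinh m ^ 2 * sinh d ^ 2 := by ring
    rw [h11, h12, h8, h9, h10]
    ring
  have h13 : 0 ≤ (cosh d - cosh (d - s)) * (2 * (cosh r * cosh m) - cosh d - cosh (d - s)) :=
    mul_nonneg (by linarith) (by linarith)
  linarith

/-- termwise comparison of the caps on two levels -/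
lemma G_couple {r a ρ ρs : ℝ} {x : E3} (hr : 0 < r) (hx : r ≤ rad x) (hxa : rad x ≤ a)
    (h1 : a - r ≤ ρs) (h2 : ρs ≤ ρ) (h3 : ρ ≤ a + r) :
    G r x ρ * (cosh r - cosh (ρs - a)) ≤ G r x ρs * (cosh r - cosh (ρ - a)) := by
  have hxp := rad_pos_norm hr hx
  unfold G
  rw [div_mul_eq_mul_div, div_mul_eq_mul_div]
  apply div_le_div_of_nonneg_right _ hxp.le
  have h4 : 0 ≤ cosh r - cosh (ρ - a) := by
    have : cosh (ρ - a) ≤ cosh r := by
      rw [Real.cosh_le_cosh, abs_of_pos hr, abs_le]
      constructor <;> linarith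
    linarith
  rcases le_or_gt (cosh r - cosh (ρ - rad x)) 0 with h | h
  · rw [max_eq_left h, zero_mul]
    exact mul_nonneg (le_max_left _ _) h4
  · rw [max_eq_right h.le]
    have h5 : cosh (ρ - rad x) < cosh r := by linarith
    rw [Real.cosh_lt_cosh, abs_of_pos hr, abs_lt] at h5
    have h6 := tp (r := r) (A := ρs - a) (B := ρ - rad x) (s := a - rad x) (by linarith)
      (by linarith) (by linarith) (by linarith)
    rw [show ρs - a + (a - rad x) = ρs - rad x by ring,
      show ρ - rad x - (a - rad x) = ρ - a by ring] at h6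
    calc (cosh r - cosh (ρ - rad x)) * (cosh r - cosh (ρs - a)) =
        (cosh r - cosh (ρs - a)) * (cosh r - cosh (ρ - rad x)) := by ring
      _ ≤ _ := h6
      _ ≤ _ := mul_le_mul_of_nonneg_right (le_max_right _ _) h4

lemma level4 {ι : Type*} (s : Finset ι) (x : ι → E3) {r a ρ ρs : ℝ} (hr : 0 < r) (hρs : 0 < ρs)
    (h1 : a - r < ρs) (h2 : ρs ≤ ρ) (h3 : ρ ≤ a + r) (h1' : ρs < a + r)
    (hx : ∀ i ∈ s, r ≤ rad (x i)) (hxa : ∀ i ∈ s, rad (x i) ≤ a)
    (hsep : ∀ i ∈ s, ∀ j ∈ s, i ≠ j → cosh (2 * r) ≤ ch (x i) (x j)) :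
    ∑ i ∈ s, G r (x i) ρ ≤ 2 * sinh ρs / (cosh r - cosh (ρs - a)) * (cosh r - cosh (ρ - a)) := by
  have hl := level1 s x hr hρs hx hsep
  have h4 : 0 ≤ cosh r - cosh (ρ - a) := by
    have : cosh (ρ - a) ≤ cosh r := by
      rw [Real.cosh_le_cosh, abs_of_pos hr, abs_le]
      constructor <;> linarith
    linarith
  have h5 : 0 < cosh r - cosh (ρs - a) := by
    have : cosh (ρs - a) < cosh r := by
      rw [Real.cosh_lt_cosh, abs_of_pos hr, abs_lt]
      constructor <;> linarith
    linarith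
  rw [div_mul_eq_mul_div, le_div_iff₀ h5]
  calc (∑ i ∈ s, G r (x i) ρ) * (cosh r - cosh (ρs - a)) =
      ∑ i ∈ s, G r (x i) ρ * (cosh r - cosh (ρs - a)) := Finset.sum_mul _ _ _
    _ ≤ ∑ i ∈ s, G r (x i) ρs * (cosh r - cosh (ρ - a)) :=
        Finset.sum_le_sum fun i hi => G_couple hr (hx i hi) (hxa i hi) h1.le h2 h3
    _ = (∑ i ∈ s, G r (x i) ρs) * (cosh r - cosh (ρ - a)) := (Finset.sum_mul _ _ _).symm
    _ ≤ 2 * sinh ρs * (cosh r - cosh (ρ - a)) := mul_le_mul_of_nonneg_right hl h4

lemma int_outer2 (r R T : ℝ) :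
    ∫ ρ in (R - T)..R, exp ρ * (cosh r - cosh (ρ - (R - r))) =
    exp R * (cosh r * (1 - exp (-T)) - exp r * (1 - exp (-T) ^ 2) / 4 - T * exp (-r) / 2) := by
  have hder : ∀ ρ ∈ Set.uIcc (R - T) R, HasDerivAt
      (fun ρ => exp ρ * cosh r - exp (2 * ρ - (R - r)) / 4 - ρ * exp (R - r) / 2)
      (exp ρ * (cosh r - cosh (ρ - (R - r)))) ρ := by
    intro ρ _
    have h0 : HasDerivAt (fun ρ : ℝ => 2 * ρ - (R - r)) 2 ρ := by
      simpa using ((hasDerivAt_id ρ).const_mul 2).sub_const (R - r)
    have h1 := (Real.hasDerivAt_exp ρ).mul_const (cosh r)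
    have h2 := h0.exp.div_const 4
    have h3 := ((hasDerivAt_id ρ).mul_const (exp (R - r))).div_const 2
    have h4 := (h1.sub h2).sub h3
    refine h4.congr_deriv ?_
    rw [Real.cosh_eq (ρ - (R - r))]
    have e1 : exp (2 * ρ - (R - r)) = exp ρ * exp (ρ - (R - r)) := by
      rw [← Real.exp_add]; ring_nf
    have e2 : exp (R - r) = exp ρ * exp (-(ρ - (R - r))) := by
      rw [← Real.exp_add]; ring_nf
    rw [e1, e2]
    ring
  rw [intervalIntegral.integral_eq_sub_of_hasDerivAt hder
    (Continuous.intervalIntegrable (by fun_prop) _ _)]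
  have e1 : exp (2 * R - (R - r)) = exp R * exp r := by rw [← Real.exp_add]; ring_nf
  have e2 : exp (R - T) = exp R * exp (-T) := by rw [← Real.exp_add]; ring_nf
  have e3 : exp (2 * (R - T) - (R - r)) = exp R * exp r * exp (-T) ^ 2 := by
    rw [← Real.exp_add, ← Real.exp_nat_mul, ← Real.exp_add]; ring_nf
  have e4 : exp (R - r) = exp R * exp (-r) := by rw [← Real.exp_add]; ring_nf
  rw [e1, e2, e3, e4]
  ring

/-- the asymptotic density bound -/
noncomputable def beta (r T : ℝ) : ℝ :=
  exp (-T) ^ 2 + 2 * exp (-T) *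
    (cosh r * (1 - exp (-T)) - exp r * (1 - exp (-T) ^ 2) / 4 - T * exp (-r) / 2) /
    (cosh r - cosh (r - T))

/-- all balls except possibly one, level by level -/
lemma total3 {ι : Type*} (s : Finset ι) (x : ι → E3) {r R T : ℝ} (hr : 0 < r) (hT : 0 < T)
    (hT2 : T < 2 * r) (hTR : T < R)
    (hx : ∀ i ∈ s, r ≤ rad (x i)) (hxR : ∀ i ∈ s, rad (x i) ≤ R - r)
    (hsep : ∀ i ∈ s, ∀ j ∈ s, i ≠ j → cosh (2 * r) ≤ ch (x i) (x j)) :
    (s.card : ℝ) * (sinh (2 * r) - 2 * r) ≤ exp (2 * R) / 2 * beta r T := by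
  have hint : ∀ i, ∀ a b : ℝ, IntervalIntegrable (fun ρ => 2 * sinh ρ * G r (x i) ρ) volume a b := by
    intro i a b
    exact Continuous.intervalIntegrable (by have := G_cont r (x i); fun_prop) _ _
  have hcont : Continuous fun ρ => ∑ i ∈ s, 2 * sinh ρ * G r (x i) ρ := by
    apply continuous_finsetSum
    intro i _
    have := G_cont r (x i)
    fun_prop
  have hf : 0 < cosh r - cosh (r - T) := by
    have : cosh (r - T) < cosh r := by
      rw [Real.cosh_lt_cosh, abs_of_pos hr, abs_lt]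
      constructor <;> linarith
    linarith
  have hS : 0 < sinh (R - T) := Real.sinh_pos_iff.2 (by linarith)
  set c := 2 * sinh (R - T) / (cosh r - cosh (r - T)) with hc
  have hc0 : 0 < c := by positivity
  have hc1 : c ≤ exp R * exp (-T) / (cosh r - cosh (r - T)) := by
    rw [hc]
    apply div_le_div_of_nonneg_right _ hf.le
    rw [Real.sinh_eq, ← Real.exp_add, ← sub_eq_add_neg]
    have := Real.exp_pos (-(R - T))
    linarith
  have hK : 0 ≤ exp R * (cosh r * (1 - exp (-T)) - exp r * (1 - exp (-T) ^ 2) / 4 -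
      T * exp (-r) / 2) := by
    rw [← int_outer2]
    apply intervalIntegral.integral_nonneg (by linarith)
    intro ρ hρ
    have : cosh (ρ - (R - r)) ≤ cosh r := by
      rw [Real.cosh_le_cosh, abs_of_pos hr, abs_le]
      constructor <;> linarith [hρ.1, hρ.2]
    exact mul_nonneg (Real.exp_pos _).le (by linarith)
  calc (s.card : ℝ) * (sinh (2 * r) - 2 * r) = ∑ _i ∈ s, (sinh (2 * r) - 2 * r) := by
        rw [Finset.sum_const, nsmul_eq_mul]
    _ ≤ ∑ i ∈ s, ∫ ρ in (0:ℝ)..R, 2 * sinh ρ * G r (x i) ρ :=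
        Finset.sum_le_sum fun i hi => ball_int hr (hx i hi) (hxR i hi)
    _ = ∫ ρ in (0:ℝ)..R, ∑ i ∈ s, 2 * sinh ρ * G r (x i) ρ := by
        rw [intervalIntegral.integral_finsetSum]
        intro i _
        exact hint i 0 R
    _ = (∫ ρ in (0:ℝ)..(R - T), ∑ i ∈ s, 2 * sinh ρ * G r (x i) ρ) +
        ∫ ρ in (R - T)..R, ∑ i ∈ s, 2 * sinh ρ * G r (x i) ρ := by
        rw [intervalIntegral.integral_add_adjacent_intervals] <;>
        exact hcont.intervalIntegrable _ _
    _ ≤ (∫ ρ in (0:ℝ)..(R - T), 2 * sinh ρ * (2 * sinh ρ)) +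
        ∫ ρ in (R - T)..R, c * (exp ρ * (cosh r - cosh (ρ - (R - r)))) := by
        apply add_le_add
        · apply intervalIntegral.integral_mono_on_of_le_Ioo (by linarith)
          · exact hcont.intervalIntegrable _ _
          · exact Continuous.intervalIntegrable (by fun_prop) _ _
          · intro ρ hρ
            rw [← Finset.mul_sum]
            have h0 : 0 < sinh ρ := Real.sinh_pos_iff.2 hρ.1
            apply mul_le_mul_of_nonneg_left (level1 s x hr hρ.1 hx hsep) (by positivity)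
        · apply intervalIntegral.integral_mono_on_of_le_Ioo (by linarith)
          · exact hcont.intervalIntegrable _ _
          · exact Continuous.intervalIntegrable (by fun_prop) _ _
          · intro ρ hρ
            rw [← Finset.mul_sum]
            have hρ0 : 0 < ρ := by linarith [hρ.1]
            have h0 : 0 < sinh ρ := Real.sinh_pos_iff.2 hρ0
            have h1 : 2 * sinh ρ ≤ exp ρ := by
              rw [Real.sinh_eq]
              have := Real.exp_pos (-ρ)
              linarith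
            have h2 := level4 s x (r := r) (a := R - r) (ρ := ρ) (ρs := R - T) hr (by linarith)
              (by linarith) hρ.1.le (by linarith [hρ.2]) (by linarith) hx hxR hsep
            rw [show R - T - (R - r) = r - T by ring, ← hc] at h2
            have h4 : 0 ≤ ∑ i ∈ s, G r (x i) ρ := Finset.sum_nonneg fun i _ => G_nonneg _ _ _
            calc 2 * sinh ρ * ∑ i ∈ s, G r (x i) ρ ≤
                exp ρ * (c * (cosh r - cosh (ρ - (R - r)))) :=
                  mul_le_mul h1 h2 h4 (Real.exp_pos _).le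
              _ = _ := by ring
    _ = sinh (2 * (R - T)) - 2 * (R - T) + c * (exp R * (cosh r * (1 - exp (-T)) -
          exp r * (1 - exp (-T) ^ 2) / 4 - T * exp (-r) / 2)) := by
        rw [int_sinh_sq, intervalIntegral.integral_const_mul, int_outer2]
    _ ≤ exp (2 * R) * exp (-T) ^ 2 / 2 + exp R * exp (-T) / (cosh r - cosh (r - T)) *
        (exp R * (cosh r * (1 - exp (-T)) -
          exp r * (1 - exp (-T) ^ 2) / 4 - T * exp (-r) / 2)) := by
        apply add_le_add
        · rw [Real.sinh_eq]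
          have e1 : exp (2 * (R - T)) = exp (2 * R) * exp (-T) ^ 2 := by
            rw [← Real.exp_nat_mul, ← Real.exp_add]; ring_nf
          rw [← e1]
          have := Real.exp_pos (-(2 * (R - T)))
          linarith
        · exact mul_le_mul_of_nonneg_right hc1 hK
    _ = _ := by
        have e1 : exp (2 * R) = exp R * exp R := by rw [← Real.exp_add]; ring_nf
        unfold beta
        rw [e1]
        field_simp

end Pool.Agent.R760.HB
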