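import Pool.Agent.R760.HB7

/-! From the level estimates to the density of large packings. -/

set_option autoImplicit false

namespace Pool.Agent.R760.HB

open Real MeasureTheory Metric

/-- For all sufficiently large `n`, every packing of `n` balls of radius `r` in a ball has density
less than `δ`. -/
def DensityBelow (r δ : ℝ) : Prop :=
  ∃ N : ℕ, 0 < N ∧
    ∀ (R : ℝ) (n : ℕ) (c : EuclideanSpace ℝ (Fin 3)) (x : Fin n → EuclideanSpace ℝ (Fin 3)),
      r ≤ R → N ≤ n →
      (∀ i j : Fin n, i ≠ j →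
        Real.cosh (2 * r) ≤
          Real.sqrt (1 + ‖x i‖ ^ 2) * Real.sqrt (1 + ‖x j‖ ^ 2) - inner ℝ (x i) (x j)) →
      (∀ i : Fin n,
        Real.sqrt (1 + ‖c‖ ^ 2) * Real.sqrt (1 + ‖x i‖ ^ 2) - inner ℝ c (x i)
          ≤ Real.cosh (R - r)) →
      (n : ℝ) * (Real.sinh (2 * r) - 2 * r) < δ * (Real.sinh (2 * R) - 2 * R)

lemma V_pos {r : ℝ} (hr : 0 < r) : 0 < sinh (2 * r) - 2 * r := by
  have : 2 * r < sinh (2 * r) := Real.self_lt_sinh_iff.2 (by linarith)
  linarith

/-- boosting the centre of the container to the origin and dropping at most one ball -/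
lemma reduce {r R : ℝ} (hr : 0 < r) (hrR : r ≤ R) {n : ℕ} (c : E3) (x : Fin n → E3)
    (h1 : ∀ i j : Fin n, i ≠ j → cosh (2 * r) ≤ ch (x i) (x j))
    (h2 : ∀ i : Fin n, ch c (x i) ≤ cosh (R - r)) :
    ∃ (s : Finset (Fin n)) (y : Fin n → E3), (n : ℝ) ≤ s.card + 1 ∧
      (∀ i ∈ s, r ≤ rad (y i)) ∧ (∀ i, rad (y i) ≤ R - r) ∧
      (∀ i j : Fin n, i ≠ j → cosh (2 * r) ≤ ch (y i) (y j)) := by
  classical
  have hsep : ∀ i j : Fin n, i ≠ j → cosh (2 * r) ≤ ch (boost c (x i)) (boost c (x j)) := by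
    intro i j hij
    rw [ch_boost]
    exact h1 i j hij
  refine ⟨Finset.univ.filter (fun i => r ≤ rad (boost c (x i))), fun i => boost c (x i), ?_, ?_, ?_,
    hsep⟩
  · have h3 := Finset.card_filter_add_card_filter_not (s := (Finset.univ : Finset (Fin n)))
      (p := fun i => r ≤ rad (boost c (x i)))
    have h4 : (Finset.univ.filter (fun i : Fin n => ¬ r ≤ rad (boost c (x i)))).card ≤ 1 := by
      rw [Finset.card_le_one]
      intro i hi j hj
      rw [Finset.mem_filter] at hi hj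
      by_contra hij
      have hk : ∀ k : Fin n, ¬ r ≤ rad (boost c (x k)) → ch 0 (boost c (x k)) < cosh r := by
        intro k hk
        rw [ch_zero, ← cosh_rad, Real.cosh_lt_cosh, abs_of_pos hr, abs_of_nonneg]
        · linarith
        · exact Real.arsinh_nonneg_iff.2 (norm_nonneg _)
      have := disj r hr.le _ _ 0 (hk i hi.2) (hk j hj.2)
      have := hsep i j hij
      linarith
    have h5 : n = Fintype.card (Fin n) := (Fintype.card_fin n).symm
    rw [Finset.card_univ, Fintype.card_fin] at h3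
    have h6 : n ≤ (Finset.univ.filter (fun i : Fin n => r ≤ rad (boost c (x i)))).card + 1 := by
      omega
    exact_mod_cast h6
  · intro i hi
    rw [Finset.mem_filter] at hi
    exact hi.2
  · intro i
    have h3 := h2 i
    rw [← tm_boost', ← cosh_rad, Real.cosh_le_cosh, abs_of_nonneg, abs_of_nonneg (by linarith)] at h3
    · exact h3
    · exact Real.arsinh_nonneg_iff.2 (norm_nonneg _)

/-- If for large containers the total volume of the balls is at most `β e^{2R}/2 + C`, then the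
density is less than `δ` for every `δ > β`, once the number of balls is large. -/
lemma finish {r β δ C R0 : ℝ} (hr : 0 < r) (hβ : β < δ) (hC : 0 ≤ C)
    (h : ∀ (R : ℝ) (n : ℕ) (c : E3) (x : Fin n → E3), r ≤ R → R0 ≤ R →
      (∀ i j : Fin n, i ≠ j → cosh (2 * r) ≤ ch (x i) (x j)) →
      (∀ i : Fin n, ch c (x i) ≤ cosh (R - r)) →
      (n : ℝ) * (sinh (2 * r) - 2 * r) ≤ exp (2 * R) / 2 * β + C) :
    DensityBelow r δ := by
  have hV := V_pos hr
  set V := sinh (2 * r) - 2 * r with hVd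
  set K := C + 2 * |δ| with hK
  have hK0 : 0 ≤ K := by positivity
  set ε := (δ - β) / 2 with hε
  have hε0 : 0 < ε := by rw [hε]; linarith
  set R1 := K / ε + |R0| + 1 with hR1
  have hR1p : 0 < R1 := by positivity
  refine ⟨⌈sinh (2 * R1) / V⌉₊ + 2, by omega, ?_⟩
  intro R n c x hrR hn h1 h2
  have h1' : ∀ i j : Fin n, i ≠ j → cosh (2 * r) ≤ ch (x i) (x j) := h1
  have h2' : ∀ i : Fin n, ch c (x i) ≤ cosh (R - r) := h2
  have hR0 : 0 < R := by linarith
  have hR : R1 ≤ R := by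
    by_contra hcon
    push Not at hcon
    obtain ⟨s, y, hs, hy1, hy2, hy3⟩ := reduce hr hrR c x h1' h2'
    have h3 := total1 s y hr hR0 hy1 (fun i _ => hy2 i) (fun i _ j _ hij => hy3 i j hij)
    rw [← hVd] at h3
    have h4 : sinh (2 * R) ≤ sinh (2 * R1) := Real.sinh_le_sinh.2 (by linarith)
    have h5 : ((n : ℝ) - 1) * V ≤ sinh (2 * R1) := by
      calc ((n : ℝ) - 1) * V ≤ s.card * V := mul_le_mul_of_nonneg_right (by linarith) hV.le
        _ ≤ sinh (2 * R) - 2 * R := h3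
        _ ≤ sinh (2 * R1) := by linarith
    have h6 : (n : ℝ) - 1 ≤ sinh (2 * R1) / V := by
      rw [le_div_iff₀ hV]; exact h5
    have h7 := Nat.le_ceil (sinh (2 * R1) / V)
    have h8 : ((⌈sinh (2 * R1) / V⌉₊ + 2 : ℕ) : ℝ) ≤ n := by exact_mod_cast hn
    push_cast at h8
    linarith
  have hRR0 : R0 ≤ R := by
    have := le_abs_self R0
    have : 0 ≤ K / ε := by positivity
    linarith
  have hmain := h R n c x hrR hRR0 h1' h2'
  rw [← hVd]
  refine lt_of_le_of_lt hmain ?_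
  have hexp : (1 + R) ^ 2 ≤ exp (2 * R) := by
    have h3 : 1 + R ≤ exp R := by linarith [Real.add_one_le_exp R]
    have h4 : exp (2 * R) = exp R ^ 2 := by rw [← Real.exp_nat_mul]; norm_num
    rw [h4]
    exact pow_le_pow_left₀ (by linarith) h3 2
  have hbig : K < ε * (1 + R) := by
    have h3 : K / ε < 1 + R := by
      have := abs_nonneg R0
      linarith
    rw [div_lt_iff₀ hε0] at h3
    linarith
  have h9 : K * (1 + R) < ε * exp (2 * R) := by
    calc K * (1 + R) < (ε * (1 + R)) * (1 + R) := mul_lt_mul_of_pos_right hbig (by linarith)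
      _ = ε * (1 + R) ^ 2 := by ring
      _ ≤ ε * exp (2 * R) := mul_le_mul_of_nonneg_left hexp hε0.le
  have h10 : exp (-(2 * R)) ≤ 1 := Real.exp_le_one_iff.2 (by linarith)
  have h11 : 0 < exp (-(2 * R)) := Real.exp_pos _
  have h12 : δ * (exp (-(2 * R)) / 2 + 2 * R) ≤ |δ| * (2 * (1 + R)) := by
    calc δ * (exp (-(2 * R)) / 2 + 2 * R) ≤ |δ| * (exp (-(2 * R)) / 2 + 2 * R) :=
          mul_le_mul_of_nonneg_right (le_abs_self δ) (by positivity)
      _ ≤ |δ| * (2 * (1 + R)) := mul_le_mul_of_nonneg_left (by linarith) (abs_nonneg δ)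
  have h13 : C ≤ C * (1 + R) := by nlinarith
  rw [Real.sinh_eq]
  have h14 : K * (1 + R) = C * (1 + R) + |δ| * (2 * (1 + R)) := by rw [hK]; ring
  have h15 : ε * exp (2 * R) = δ * exp (2 * R) / 2 - exp (2 * R) / 2 * β := by rw [hε]; ring
  have h16 : δ * ((exp (2 * R) - exp (-(2 * R))) / 2 - 2 * R) =
      δ * exp (2 * R) / 2 - δ * (exp (-(2 * R)) / 2 + 2 * R) := by ring
  rw [h16]
  linarith

/-- the density bound `beta r T` -/
theorem densityBelow_of_beta {r T δ : ℝ} (hr : 0 < r) (hT : 0 < T) (hT2 : T < 2 * r)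
    (hδ : beta r T < δ) : DensityBelow r δ := by
  have hV := V_pos hr
  apply finish (C := sinh (2 * r) - 2 * r) (R0 := T + 1) hr hδ hV.le
  intro R n c x hrR hR h1 h2
  obtain ⟨s, y, hs, hy1, hy2, hy3⟩ := reduce hr hrR c x h1 h2
  have h3 := total3 s y hr hT hT2 (by linarith) hy1 (fun i _ => hy2 i)
    (fun i _ j _ hij => hy3 i j hij)
  calc (n : ℝ) * (sinh (2 * r) - 2 * r) ≤ (s.card + 1) * (sinh (2 * r) - 2 * r) :=
        mul_le_mul_of_nonneg_right hs hV.le
    _ = s.card * (sinh (2 * r) - 2 * r) + (sinh (2 * r) - 2 * r) := by ring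
    _ ≤ _ := by linarith

/-- algebraic form of `beta` -/
lemma beta_eq {r T : ℝ} (hT : 0 < T) (hT2 : T < 2 * r) :
    beta r T = exp (-T) ^ 2 + exp (-T) ^ 2 *
      (exp (2 * r) * (1 - exp (-T)) ^ 2 + 2 * (1 - exp (-T)) - 2 * T) /
      ((1 - exp (-T)) * (exp (2 * r) * exp (-T) - 1)) := by
  unfold beta
  have ha : 0 < exp r := Real.exp_pos r
  have hv : 0 < exp (-T) := Real.exp_pos _
  have hv1 : exp (-T) < 1 := Real.exp_lt_one_iff.2 (by linarith)
  have e1 : exp (2 * r) = exp r ^ 2 := by rw [← Real.exp_nat_mul]; norm_num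
  have hWv : 1 < exp r ^ 2 * exp (-T) := by
    rw [← e1, ← Real.exp_add]
    exact Real.one_lt_exp_iff.2 (by linarith)
  have e2 : cosh r = (exp r + (exp r)⁻¹) / 2 := by rw [Real.cosh_eq, Real.exp_neg]
  have e3 : cosh (r - T) = (exp r * exp (-T) + (exp r * exp (-T))⁻¹) / 2 := by
    rw [Real.cosh_eq, ← Real.exp_add, ← Real.exp_neg, ← sub_eq_add_neg]
  have e4 : exp (-r) = (exp r)⁻¹ := Real.exp_neg r
  rw [e2, e3, e4, e1]
  generalize exp r = a at *
  generalize exp (-T) = v at *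
  have h1 : (a + a⁻¹) / 2 - (a * v + (a * v)⁻¹) / 2 = (1 - v) * (a ^ 2 * v - 1) / (2 * a * v) := by
    field_simp
    ring
  have h2 : (a + a⁻¹) / 2 * (1 - v) - a * (1 - v ^ 2) / 4 - T * a⁻¹ / 2 =
      (a ^ 2 * (1 - v) ^ 2 + 2 * (1 - v) - 2 * T) / (4 * a) := by
    field_simp
    ring
  rw [h1, h2]
  have h3 : 0 < 1 - v := by linarith
  have h4 : 0 < a ^ 2 * v - 1 := by linarith
  field_simp
  ring

lemma pi_div_gt : (0.74045 : ℝ) < π / √18 := by
  have h1 : √18 < 4.24265 := by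
    rw [Real.sqrt_lt' (by norm_num)]
    norm_num
  have h2 : 0 < √18 := Real.sqrt_pos.2 (by norm_num)
  rw [lt_div_iff₀ h2]
  have h3 := Real.pi_gt_d4
  nlinarith

/-- the problem for all radii `r ≥ 0.37` -/
theorem large_radii {r : ℝ} (hr : 37 / 100 ≤ r) : DensityBelow r (π / √18) := by
  set T := Real.log (20 / 13) with hTd
  have hT0 : 0.4307 < T := by
    rw [hTd, Real.lt_log_iff_exp_lt (by norm_num)]
    have h1 := Real.exp_bound' (x := (0.4307 : ℝ)) (by norm_num) (by norm_num) (n := 7) (by norm_num)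
    refine lt_of_le_of_lt h1 ?_
    norm_num [Finset.sum_range_succ, Nat.factorial]
  have hT1 : T < 0.5 := by
    rw [hTd, Real.log_lt_iff_lt_exp (by norm_num)]
    have h1 := Real.sum_le_exp_of_nonneg (x := (0.5 : ℝ)) (by norm_num) 4
    refine lt_of_lt_of_le ?_ h1
    norm_num [Finset.sum_range_succ, Nat.factorial]
  have hexp : exp (-T) = 13 / 20 := by
    rw [hTd, Real.exp_neg, Real.exp_log (by norm_num)]
    norm_num
  have hW : 2.0955 < exp (2 * r) := by
    have h1 := Real.sum_le_exp_of_nonneg (x := (0.74 : ℝ)) (by norm_num) 6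
    have h2 : exp 0.74 ≤ exp (2 * r) := Real.exp_le_exp.2 (by linarith)
    refine lt_of_lt_of_le ?_ (h1.trans h2)
    norm_num [Finset.sum_range_succ, Nat.factorial]
  apply densityBelow_of_beta (T := T) (by linarith) (by linarith) (by linarith)
  refine lt_trans ?_ pi_div_gt
  rw [beta_eq (by linarith) (by linarith), hexp]
  generalize exp (2 * r) = W at *
  have h3 : (0:ℝ) < (1 - 13 / 20) * (W * (13 / 20) - 1) := by nlinarith
  have h4 : (13 / 20 : ℝ) ^ 2 * (W * (1 - 13 / 20) ^ 2 + 2 * (1 - 13 / 20) - 2 * T) /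
      ((1 - 13 / 20) * (W * (13 / 20) - 1)) < 0.74045 - (13 / 20) ^ 2 := by
    rw [div_lt_iff₀ h3]
    nlinarith
  linarith

end Pool.Agent.R760.HB
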