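import Pool.Agent.R760.KN5
import Pool.Agent.H818R2.Kiss4

/-! MP_b5f63d_co: replacement, spherical codes of different angles. -/

set_option autoImplicit false

open MeasureTheory Metric Set Filter Topology

open scoped RealInnerProductSpace ENNReal

namespace Pool.Agent.R760.KC

open Pool.Agent.R760.KN Pool.Agent.H818R2

variable {n : ℕ}

/-- The points of the sphere that are at angular distance less than `θ` from `I`. -/
def near (θ : ℝ) (I : Finset (E n)) : Set (E n) := {z | ∃ x ∈ I, Real.cos θ < ⟪z, x⟫}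

lemma near_eq (θ : ℝ) (I : Finset (E n)) : near θ I = ⋃ x ∈ I, {z : E n | Real.cos θ < ⟪z, x⟫} := by
  ext z
  simp [near]

lemma near_meas (θ : ℝ) (I : Finset (E n)) : MeasurableSet (near θ I) := by
  rw [near_eq]
  exact (isOpen_biUnion fun x _ => isOpen_lt continuous_const (by fun_prop)).measurableSet

lemma exists_code [NeZero n] {θ : ℝ} (hs : 0 < Real.sin (θ / 2)) :
    ∃ P : Finset (E n), IsSphCode n θ P ∧ P.card = sphMax n θ :=
  Nat.sSup_mem (sph_nonempty n θ) (sph_bdd hs)

lemma code_image [DecidableEq (E n)] {θ : ℝ} {P : Finset (E n)} (h : IsSphCode n θ P)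
    (g : E n ≃ₗᵢ[ℝ] E n) : IsSphCode n θ (P.image g) := by
  constructor
  · intro x hx
    obtain ⟨y, hy, rfl⟩ := Finset.mem_image.1 hx
    rw [g.norm_map]; exact h.1 y hy
  · intro x hx y hy hxy
    obtain ⟨x', hx', rfl⟩ := Finset.mem_image.1 hx
    obtain ⟨y', hy', rfl⟩ := Finset.mem_image.1 hy
    rw [g.inner_map_map]
    exact h.2 x' hx' y' hy' (fun h => hxy (by rw [h]))

/-- **Replacement**: `|I| ≤ A(n, θ) μ(N(I))` for every code `I`. -/
theorem replace (hn : 0 < n) {θ : ℝ} (hs : 0 < Real.sin (θ / 2)) {I : Finset (E n)}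
    (hI : IsSphCode n θ I) : (I.card : ℝ) ≤ sphMax n θ * (unif n).real (near θ I) := by
  classical
  have : NeZero n := ⟨hn.ne'⟩
  obtain ⟨X, hX, hXc⟩ := exists_code (n := n) hs
  have hcos : Real.cos θ < 1 := by
    have := Pool.Agent.H818R2.cos_eq θ
    rw [this]
    nlinarith [mul_pos hs hs]
  have hmeas := near_meas θ I
  have key := avg hn (f := fun z => (near θ I).indicator (fun _ => (-1 : ℝ)) z)
    ((integrable_const _).indicator hmeas) hX.1 (c := -I.card) (fun g => by
      have h1 : ∑ x ∈ X, (near θ I).indicator (fun _ => (-1 : ℝ)) (iso g x) =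
          -((X.filter (fun x => iso g x ∈ near θ I)).card : ℝ) := by
        simp only [indicator]
        rw [← Finset.sum_filter, Finset.sum_const, nsmul_eq_mul, mul_neg_one]
      rw [h1]
      -- the new code
      set Y : Finset (E n) := (X.filter (fun x => iso g x ∉ near θ I)).image (iso g) with hY
      have hdisj : Disjoint Y I := by
        rw [Finset.disjoint_left]
        intro z hz hzI
        obtain ⟨x, hx, rfl⟩ := Finset.mem_image.1 hz
        apply (Finset.mem_filter.1 hx).2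
        refine ⟨iso g x, hzI, ?_⟩
        rw [real_inner_self_eq_norm_sq, hI.1 _ hzI]
        simpa using hcos
      have hcode : IsSphCode n θ (Y ∪ I) := by
        have hYc : IsSphCode n θ Y := code_image (P := X.filter (fun x => iso g x ∉ near θ I))
          ⟨fun x hx => hX.1 x (Finset.mem_filter.1 hx).1, fun x hx y hy =>
            hX.2 x (Finset.mem_filter.1 hx).1 y (Finset.mem_filter.1 hy).1⟩ (iso g)
        have hfar : ∀ y ∈ Y, ∀ x ∈ I, ⟪y, x⟫ ≤ Real.cos θ := by
          intro y hy x hx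
          obtain ⟨z, hz, rfl⟩ := Finset.mem_image.1 hy
          by_contra hcon
          exact (Finset.mem_filter.1 hz).2 ⟨x, hx, not_le.1 hcon⟩
        constructor
        · intro x hx
          rcases Finset.mem_union.1 hx with h | h
          · exact hYc.1 x h
          · exact hI.1 x h
        · intro x hx y hy hxy
          rcases Finset.mem_union.1 hx with h | h <;> rcases Finset.mem_union.1 hy with h' | h'
          · exact hYc.2 x h y h' hxy
          · exact hfar x h y h'
          · rw [real_inner_comm]; exact hfar y h' x h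
          · exact hI.2 x h y h' hxy
      have h2 := le_sphMax hs hcode
      rw [← hXc, Finset.card_union_of_disjoint hdisj, hY,
        Finset.card_image_of_injective _ (iso g).injective] at h2
      have h3 := Finset.card_filter_add_card_filter_not (s := X) (fun x => iso g x ∈ near θ I)
      have h4 : I.card ≤ (X.filter (fun x => iso g x ∈ near θ I)).card := by omega
      have h5 : (I.card : ℝ) ≤ ((X.filter (fun x => iso g x ∈ near θ I)).card : ℝ) := by
        exact_mod_cast h4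
      linarith)
  rw [integral_indicator_const _ hmeas, smul_eq_mul, hXc] at key
  linarith

/-- lifting the part of a code in a cap -/
lemma lift_card (hn : 0 < n) {θ φ c ρ : ℝ} (hφ : 0 < Real.sin (φ / 2)) (hc : 0 ≤ c) (hρ : 0 < ρ)
    (hcρ : c ^ 2 + ρ ^ 2 = 1) (hsin : Real.sin (φ / 2) * ρ ≤ Real.sin (θ / 2)) {p : E n}
    (hp : ‖p‖ = 1) {P : Finset (E n)} (hP : IsSphCode n θ P) (hPc : ∀ x ∈ P, c ≤ ⟪x, p⟫) :
    P.card ≤ sphMax (n + 1) φ := by
  classical
  have : NeZero n := ⟨hn.ne'⟩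
  set g : WithLp 2 (E n × ℝ) ≃ₗᵢ[ℝ] E (n + 1) :=
    ((stdOrthonormalBasis ℝ (WithLp 2 (E n × ℝ))).reindex (finCongr (by
      rw [finrank_withLp, finrank_euclideanSpace_fin, Module.finrank_self]))).repr with hg
  set v : E n → E n := fun x => ρ⁻¹ • (x - c • p) with hv
  set lift : E n → E (n + 1) := fun x => g (WithLp.toLp 2 (v x, √(1 - ‖v x‖ ^ 2))) with hlift
  have hv1 : ∀ x ∈ P, ‖v x‖ ^ 2 ≤ 1 := by
    intro x hx
    have h1 : ‖x - c • p‖ ^ 2 ≤ ρ ^ 2 := by
      rw [norm_sub_sq_real, norm_smul, hp, hP.1 x hx, inner_smul_right, Real.norm_eq_abs,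
        mul_one, sq_abs]
      nlinarith [mul_le_mul_of_nonneg_left (hPc x hx) hc]
    rw [hv]
    simp only [norm_smul, mul_pow, norm_inv, Real.norm_eq_abs, inv_pow, sq_abs]
    rw [inv_mul_le_iff₀ (by positivity), mul_one]
    exact h1
  have hvd : ∀ x y, ‖v x - v y‖ ^ 2 = ‖x - y‖ ^ 2 / ρ ^ 2 := by
    intro x y
    have h1 : v x - v y = ρ⁻¹ • (x - y) := by
      rw [hv]
      simp only
      rw [← smul_sub]
      congr 1
      abel
    rw [h1, norm_smul, mul_pow, norm_inv, Real.norm_eq_abs, inv_pow, sq_abs]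
    ring
  have hinj : Function.Injective lift := by
    intro x y hxy
    have h1 := g.injective hxy
    have h2 : v x = v y := congrArg (fun p => p.fst) h1
    have h3 := hvd x y
    rw [h2, sub_self, norm_zero] at h3
    have h4 : ‖x - y‖ ^ 2 = 0 := by
      have : (0 : ℝ) = ‖x - y‖ ^ 2 / ρ ^ 2 := by simpa using h3
      rw [eq_comm, div_eq_zero_iff] at this
      rcases this with h | h
      · exact h
      · exact absurd h (by positivity)
    have h5 : ‖x - y‖ = 0 := by simpa using h4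
    exact sub_eq_zero.1 (norm_eq_zero.1 h5)
  have hunit : ∀ x ∈ P, ‖lift x‖ = 1 := by
    intro x hx
    have h2 : 0 ≤ 1 - ‖v x‖ ^ 2 := by linarith [hv1 x hx]
    rw [hlift]
    simp only [LinearIsometryEquiv.norm_map]
    have h4 : ‖WithLp.toLp 2 (v x, √(1 - ‖v x‖ ^ 2))‖ ^ 2 =
        ‖v x‖ ^ 2 + ‖√(1 - ‖v x‖ ^ 2)‖ ^ 2 :=
      WithLp.prod_norm_sq_eq_of_L2 (WithLp.toLp 2 (v x, √(1 - ‖v x‖ ^ 2)))
    rw [Real.norm_eq_abs, sq_abs, Real.sq_sqrt h2] at h4
    have h5 : ‖WithLp.toLp 2 (v x, √(1 - ‖v x‖ ^ 2))‖ ^ 2 = 1 := by rw [h4]; ring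
    nlinarith [norm_nonneg (WithLp.toLp 2 (v x, √(1 - ‖v x‖ ^ 2)))]
  have hcode : IsSphCode (n + 1) φ (P.image lift) := by
    constructor
    · intro u hu
      obtain ⟨x, hx, rfl⟩ := Finset.mem_image.1 hu
      exact hunit x hx
    · intro u hu w hw huw
      obtain ⟨x, hx, rfl⟩ := Finset.mem_image.1 hu
      obtain ⟨y, hy, rfl⟩ := Finset.mem_image.1 hw
      have hxy : x ≠ y := fun h => huw (by rw [h])
      have h1 := norm_sub_sq_real (lift x) (lift y)
      rw [hunit x hx, hunit y hy, ← dist_eq_norm, hlift] at h1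
      simp only [LinearIsometryEquiv.dist_map] at h1
      have h2 : dist (WithLp.toLp 2 (v x, √(1 - ‖v x‖ ^ 2)))
          (WithLp.toLp 2 (v y, √(1 - ‖v y‖ ^ 2))) ^ 2 =
          dist (v x) (v y) ^ 2 + dist (√(1 - ‖v x‖ ^ 2)) (√(1 - ‖v y‖ ^ 2)) ^ 2 :=
        dist_sq (WithLp.toLp 2 (v x, √(1 - ‖v x‖ ^ 2)))
          (WithLp.toLp 2 (v y, √(1 - ‖v y‖ ^ 2)))
      have h3 := hvd x y
      rw [← dist_eq_norm] at h3
      have h4 : 4 * Real.sin (θ / 2) ^ 2 ≤ ‖x - y‖ ^ 2 := by
        have h5 := hP.2 x hx y hy hxy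
        rw [Pool.Agent.H818R2.cos_eq] at h5
        rw [norm_sub_sq_real, hP.1 x hx, hP.1 y hy]
        nlinarith
      have h5 : 4 * Real.sin (φ / 2) ^ 2 ≤ ‖x - y‖ ^ 2 / ρ ^ 2 := by
        rw [le_div_iff₀ (by positivity)]
        have h6 := pow_le_pow_left₀ (by positivity) hsin 2
        rw [mul_pow] at h6
        linarith
      rw [Pool.Agent.H818R2.cos_eq]
      rw [h2, h3] at h1
      change ⟪g _, g _⟫ ≤ _
      nlinarith [sq_nonneg (dist (√(1 - ‖v x‖ ^ 2)) (√(1 - ‖v y‖ ^ 2)))]
  have h1 := le_sphMax hφ hcode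
  rwa [Finset.card_image_of_injective _ hinj] at h1

/-- averaging over caps -/
theorem angle_le (hn : 0 < n) {θ φ c ρ : ℝ} (hθ : 0 < Real.sin (θ / 2))
    (hφ : 0 < Real.sin (φ / 2)) (hc : 0 ≤ c) (hρ : 0 < ρ)
    (hcρ : c ^ 2 + ρ ^ 2 = 1) (hsin : Real.sin (φ / 2) * ρ ≤ Real.sin (θ / 2)) {p : E n}
    (hp : ‖p‖ = 1) :
    sphMax n θ * (unif n).real {x : E n | c ≤ ⟪x, p⟫} ≤ sphMax (n + 1) φ := by
  classical
  have : NeZero n := ⟨hn.ne'⟩
  obtain ⟨X, hX, hXc⟩ := exists_code (n := n) hθ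
  have key := avg hn (f := fun z => ({x : E n | c ≤ ⟪x, p⟫}).indicator (fun _ => (1 : ℝ)) z)
    ((integrable_const _).indicator (cap_meas c p)) hX.1 (c := sphMax (n + 1) φ) (fun g => by
      have h1 : ∑ x ∈ X, ({x : E n | c ≤ ⟪x, p⟫}).indicator (fun _ => (1 : ℝ)) (iso g x) =
          ((X.filter (fun x => c ≤ ⟪iso g x, p⟫)).card : ℝ) := by
        simp only [indicator, mem_ofPred_eq]
        rw [← Finset.sum_filter, Finset.sum_const, nsmul_eq_mul, mul_one]
      rw [h1]
      have h2 : IsSphCode n θ ((X.filter (fun x => c ≤ ⟪iso g x, p⟫)).image (iso g)) :=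
        code_image ⟨fun x hx => hX.1 x (Finset.mem_filter.1 hx).1, fun x hx y hy =>
            hX.2 x (Finset.mem_filter.1 hx).1 y (Finset.mem_filter.1 hy).1⟩ (iso g)
      have h3 := lift_card hn hφ hc hρ hcρ hsin hp h2 (fun x hx => by
        obtain ⟨y, hy, rfl⟩ := Finset.mem_image.1 hx
        exact (Finset.mem_filter.1 hy).2)
      rw [Finset.card_image_of_injective _ (iso g).injective] at h3
      exact_mod_cast h3)
  rw [integral_indicator_const _ (cap_meas c p), smul_eq_mul, hXc, mul_one] at key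
  exact key

end Pool.Agent.R760.KC
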