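import Pool.Agent.R760.KC1

/-! MP_b5f63d_co: the exclusion region of a spherical code on a small sphere. -/

set_option autoImplicit false

open MeasureTheory Metric Set Filter Topology

open scoped RealInnerProductSpace ENNReal

namespace Pool.Agent.R760.KC

open Pool.Agent.R760.KN Pool.Agent.H818R2

variable {n : ℕ}

/-- the point of the small sphere at height `h` with direction `y` -/
noncomputable def emb (h r : ℝ) (y : E n) : E (n + 1) :=
  WithLp.toLp 2 (Fin.cons h (fun i => r * y i))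

lemma inner_emb (h r h' r' : ℝ) (x y : E n) :
    ⟪emb h r x, emb h' r' y⟫ = h * h' + r * r' * ⟪x, y⟫ := by
  unfold emb
  rw [PiLp.inner_apply, Fin.sum_univ_succ, PiLp.inner_apply, Finset.mul_sum]
  simp only [Fin.cons_zero, Fin.cons_succ, RCLike.inner_apply, conj_trivial]
  rw [mul_comm h' h]
  congr 1
  refine Finset.sum_congr rfl fun i _ => ?_
  ring

lemma norm_emb {h r : ℝ} (hhr : h ^ 2 + r ^ 2 = 1) {y : E n} (hy : ‖y‖ = 1) :
    ‖emb h r y‖ = 1 := by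
  have h1 : ‖emb h r y‖ ^ 2 = 1 := by
    rw [← real_inner_self_eq_norm_sq, inner_emb, real_inner_self_eq_norm_sq, hy]
    linarith
  nlinarith [norm_nonneg (emb h r y)]

/-- the pole -/
noncomputable def pole (n : ℕ) : E (n + 1) := emb 1 0 0

lemma inner_pole (h r : ℝ) (y : E n) : ⟪emb h r y, pole n⟫ = h := by
  unfold pole
  rw [inner_emb]
  ring

lemma norm_pole (n : ℕ) : ‖pole n‖ = 1 := by
  have h1 : ‖pole n‖ ^ 2 = 1 := by
    unfold pole
    rw [← real_inner_self_eq_norm_sq, inner_emb]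
    ring
  nlinarith [norm_nonneg (pole n)]

lemma emb_inj {h r : ℝ} (hr : 0 < r) : Function.Injective (emb h r : E n → E (n + 1)) := by
  intro x y hxy
  ext i
  have h1 := congrArg (fun z : E (n + 1) => z i.succ) hxy
  unfold emb at h1
  simp only [Fin.cons_succ] at h1
  exact mul_left_cancel₀ hr.ne' h1

open Classical in
/-- codes of angle `t` on the small sphere are kissing configurations -/
lemma code_emb {t h r : ℝ} (hr : 0 < r) (hhr : h ^ 2 + r ^ 2 = 1)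
    (hrs : r * Real.sin (t / 2) = 1 / 2) {C : Finset (E n)} (hC : IsSphCode n t C) :
    IsSphCode (n + 1) (Real.pi / 3) (C.image (emb h r)) := by
  constructor
  · intro x hx
    obtain ⟨y, hy, rfl⟩ := Finset.mem_image.1 hx
    exact norm_emb hhr (hC.1 y hy)
  · intro x hx x' hx' hxx
    obtain ⟨y, hy, rfl⟩ := Finset.mem_image.1 hx
    obtain ⟨y', hy', rfl⟩ := Finset.mem_image.1 hx'
    have h1 := hC.2 y hy y' hy' (fun h => hxx (by rw [h]))
    rw [Pool.Agent.H818R2.cos_eq] at h1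
    rw [inner_emb, Real.cos_pi_div_three]
    have h2 : (r * Real.sin (t / 2)) ^ 2 = 1 / 4 := by rw [hrs]; norm_num
    nlinarith [mul_le_mul_of_nonneg_left h1 (sq_nonneg r)]

open Classical in
/-- the exclusion region -/
lemma near_sub {h r Y : ℝ} (hh : 0 ≤ h) (hh1 : h ≤ 1) (hY0 : 0 ≤ Y) (hY : Y ≤ h / 2)
    (C : Finset (E n)) : near (Real.pi / 3) (C.image (emb h r)) ⊆
      {z : E (n + 1) | Y ≤ ⟪z, pole n⟫} ∪ ⋃ x ∈ C, {z : E (n + 1) | 1 / 4 + Y ^ 2 - h * Y ≤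
        ⟪z, (1 / 2 - h * Y) • emb h r x - (h / 2 - Y) • pole n⟫} := by
  rintro z ⟨x, hx, hzx⟩
  obtain ⟨y, hy, rfl⟩ := Finset.mem_image.1 hx
  rw [Real.cos_pi_div_three] at hzx
  by_cases hz : Y ≤ ⟪z, pole n⟫
  · exact Or.inl hz
  · right
    rw [not_le] at hz
    simp only [mem_iUnion]
    refine ⟨y, hy, ?_⟩
    rw [mem_ofPred_eq, inner_sub_right, real_inner_smul_right, real_inner_smul_right]
    have h1 : 0 ≤ 1 / 2 - h * Y := by nlinarith
    have h2 : 0 ≤ h / 2 - Y := by linarith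
    nlinarith [mul_le_mul_of_nonneg_left hzx.le h1, mul_le_mul_of_nonneg_left hz.le h2]

open Classical in
/-- the measure of the exclusion region -/
lemma near_vol {h r Y : ℝ} (hh : 0 ≤ h) (hr : 0 < r) (hhr : h ^ 2 + r ^ 2 = 1) (hY0 : 0 ≤ Y)
    (hY : Y ≤ h / 2) (hB : 1 / 2 ≤ 1 - (1 / 4 + Y ^ 2 - h * Y) / r ^ 2)
    {C : Finset (E n)} (hC : ∀ x ∈ C, ‖x‖ = 1) :
    (unif (n + 1)).real (near (Real.pi / 3) (C.image (emb h r))) ≤
      √(1 - Y ^ 2) ^ (n + 1) + C.card * √(1 - (1 / 4 + Y ^ 2 - h * Y) / r ^ 2) ^ (n + 1) := by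
  have hn : 0 < n + 1 := Nat.succ_pos n
  have hh1 : h ≤ 1 := by nlinarith
  set Q : ℝ := 1 / 4 + Y ^ 2 - h * Y with hQ
  have hQ0 : 0 < Q := by
    have : Q = (Y - h / 2) ^ 2 + r ^ 2 / 4 := by rw [hQ]; nlinarith
    rw [this]; positivity
  refine (measureReal_mono (near_sub hh hh1 hY0 hY C) (measure_lt_top _ _).ne).trans ?_
  refine (measureReal_union_le _ _).trans ?_
  refine add_le_add ?_ ?_
  · have hY12 : Y ^ 2 ≤ 1 / 2 := by nlinarith
    apply cap_upper hn (norm_pole n) hY0 hY12 (Real.sqrt_nonneg _)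
    rw [Real.sq_sqrt (by linarith)]
  · refine (measureReal_biUnion_finset_le _ _).trans ?_
    rw [← nsmul_eq_mul]
    apply Finset.sum_le_card_nsmul
    intro x hx
    set w : E (n + 1) := (1 / 2 - h * Y) • emb h r x - (h / 2 - Y) • pole n with hw
    have hw2 : ‖w‖ ^ 2 = r ^ 2 * Q := by
      rw [hw, norm_sub_sq_real, norm_smul, norm_smul, norm_emb hhr (hC x hx), norm_pole,
        real_inner_smul_left, real_inner_smul_right, inner_pole, Real.norm_eq_abs,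
        Real.norm_eq_abs, mul_one, mul_one, sq_abs, sq_abs, hQ]
      have : r ^ 2 = 1 - h ^ 2 := by linarith
      rw [this]
      ring
    have hwpos : 0 < ‖w‖ := by
      rcases (norm_nonneg w).eq_or_lt with h0 | h0
      · rw [← h0] at hw2
        have : 0 < r ^ 2 * Q := by positivity
        rw [← hw2] at this
        simp at this
      · exact h0
    have hc2 : (Q / ‖w‖) ^ 2 = Q / r ^ 2 := by
      rw [div_pow, hw2]
      field_simp
    have hsub : {z : E (n + 1) | Q ≤ ⟪z, w⟫} ⊆ {z : E (n + 1) | Q / ‖w‖ ≤ ⟪z, ‖w‖⁻¹ • w⟫} := by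
      intro z hz
      rw [mem_ofPred_eq] at hz ⊢
      rw [real_inner_smul_right, inv_mul_eq_div]
      exact div_le_div_of_nonneg_right hz hwpos.le
    refine (measureReal_mono hsub (measure_lt_top _ _).ne).trans ?_
    have hnw : ‖(‖w‖⁻¹ • w)‖ = 1 := by
      rw [norm_smul, norm_inv, norm_norm, inv_mul_cancel₀ hwpos.ne']
    apply cap_upper hn hnw (by positivity) _ (Real.sqrt_nonneg _)
    · rw [Real.sq_sqrt (by linarith), hc2]
    · rw [hc2]; linarith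

/-- from codes of angle `t` to kissing configurations -/
theorem kiss_of_code {t h r Y q : ℝ} (hn : 0 < n) (hh : 0 ≤ h) (hr : 0 < r)
    (hhr : h ^ 2 + r ^ 2 = 1)
    (hrs : r * Real.sin (t / 2) = 1 / 2) (hY0 : 0 ≤ Y)
    (hY : Y ≤ h / 2) (hB : 1 / 2 ≤ 1 - (1 / 4 + Y ^ 2 - h * Y) / r ^ 2) (hq : 0 < q)
    (hqB : q ^ 2 * (1 - (1 / 4 + Y ^ 2 - h * Y) / r ^ 2) = 1 - Y ^ 2)
    (hA : q ^ n ≤ sphMax n t) : (q / √(1 - Y ^ 2)) ^ n ≤ 2 * sphMax (n + 1) (Real.pi / 3) := by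
  classical
  have : NeZero n := ⟨hn.ne'⟩
  have hst : 0 < Real.sin (t / 2) := by
    by_contra hcon
    rw [not_lt] at hcon
    nlinarith
  obtain ⟨C, hC, hCc⟩ := exists_code (n := n) hst
  have hcode := code_emb (h := h) hr hhr hrs hC
  have h1 := replace (n := n + 1) (Nat.succ_pos n)
    (Real.sin_pos_of_pos_of_lt_pi (by positivity) (by linarith [Real.pi_pos])) hcode
  rw [Finset.card_image_of_injective _ (emb_inj hr)] at h1
  have h2 := near_vol hh hr hhr hY0 hY hB hC.1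
  set B : ℝ := 1 - (1 / 4 + Y ^ 2 - h * Y) / r ^ 2 with hBdef
  set τ : ℝ := (sphMax (n + 1) (Real.pi / 3) : ℝ) with hτ
  have hτ0 : 0 ≤ τ := Nat.cast_nonneg _
  have h3 : (C.card : ℝ) ≤ τ * (√(1 - Y ^ 2) ^ (n + 1) + C.card * √B ^ (n + 1)) :=
    h1.trans (mul_le_mul_of_nonneg_left h2 hτ0)
  rw [← hCc] at hA
  have hYlt : Y ^ 2 < 1 := by
    have hh1 : h ≤ 1 := by nlinarith
    nlinarith
  set y : ℝ := √(1 - Y ^ 2) with hy
  have hy0 : 0 < y := Real.sqrt_pos.2 (by linarith)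
  have hy1 : y ≤ 1 := Real.sqrt_le_one.2 (by nlinarith)
  have hqB' : q * √B = y := by
    rw [hy, ← hqB, Real.sqrt_mul (sq_nonneg q), Real.sqrt_sq hq.le]
  have hB1 : √B ≤ 1 := by
    apply Real.sqrt_le_one.2
    have : 0 ≤ (1 / 4 + Y ^ 2 - h * Y) / r ^ 2 := by
      have : (1 / 4 + Y ^ 2 - h * Y) = (Y - h / 2) ^ 2 + r ^ 2 / 4 := by nlinarith
      rw [this]; positivity
    linarith
  have h4 : q ^ n ≤ τ * (y ^ (n + 1) + q ^ n * √B ^ (n + 1)) := by
    rcases le_total 1 (τ * √B ^ (n + 1)) with h5 | h5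
    · have h6 : q ^ n * 1 ≤ q ^ n * (τ * √B ^ (n + 1)) :=
        mul_le_mul_of_nonneg_left h5 (by positivity)
      have h7 : 0 ≤ τ * y ^ (n + 1) := by positivity
      nlinarith
    · have h6 := mul_le_mul_of_nonneg_right hA (sub_nonneg.2 h5)
      nlinarith
  have h5 : y ^ (n + 1) ≤ y ^ n := pow_le_pow_of_le_one hy0.le hy1 (Nat.le_succ n)
  have h6 : q ^ n * √B ^ (n + 1) ≤ y ^ n := by
    calc q ^ n * √B ^ (n + 1) = (q * √B) ^ n * √B := by rw [mul_pow, pow_succ]; ring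
      _ = y ^ n * √B := by rw [hqB']
      _ ≤ y ^ n * 1 := mul_le_mul_of_nonneg_left hB1 (by positivity)
      _ = y ^ n := mul_one _
  rw [div_pow, div_le_iff₀ (by positivity)]
  nlinarith [mul_le_mul_of_nonneg_left (add_le_add h5 h6) hτ0]

/-- the algebra of the optimal height -/
lemma alg {s q : ℝ} (hs1 : 1 / 2 < s) (hq : 1 + 1 / (12 * s ^ 2) ≤ q ^ 2)
    (hq1 : q ^ 2 * (1 - s ^ 2) ≤ 1) {a b d D Y : ℝ} (ha : a = √(4 * s ^ 2 - 1))
    (hb : b = √(3 * s ^ 2 * q ^ 2 - 1)) (hd : d = √(q ^ 2 - 1)) (hD : D = 4 * s ^ 2 * q ^ 2 - 1)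
    (hY : Y = (s * a * q ^ 2 - b * d) / D) :
    0 < D ∧ 0 < a * b + s * d ∧ 0 ≤ Y ∧ Y ≤ a / (4 * s) ∧
      1 - Y ^ 2 = (q * (a * b + s * d) / D) ^ 2 ∧
      q ^ 2 * (1 - s ^ 2 - 4 * s ^ 2 * Y ^ 2 + 2 * s * a * Y) = 1 - Y ^ 2 ∧
      (1 + 1 / (12 * s ^ 2) < q ^ 2 → Y < a / (4 * s)) := by
  have hs0 : 0 < s := by linarith
  have hs2 : 1 / 4 < s ^ 2 := by nlinarith
  have hx : 1 ≤ 12 * s ^ 2 * (q ^ 2 - 1) := by
    have h1 : 1 / (12 * s ^ 2) ≤ q ^ 2 - 1 := by linarith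
    rw [div_le_iff₀ (by positivity)] at h1
    linarith
  have hq2 : 1 < q ^ 2 := by
    have : 0 < 1 / (12 * s ^ 2) := by positivity
    linarith
  have ha2 : a ^ 2 = 4 * s ^ 2 - 1 := by rw [ha]; exact Real.sq_sqrt (by linarith)
  have ha0 : 0 < a := by rw [ha]; exact Real.sqrt_pos.2 (by linarith)
  have hb2' : 0 < 3 * s ^ 2 * q ^ 2 - 1 := by nlinarith
  have hb2 : b ^ 2 = 3 * s ^ 2 * q ^ 2 - 1 := by rw [hb]; exact Real.sq_sqrt hb2'.le
  have hb0 : 0 < b := by rw [hb]; exact Real.sqrt_pos.2 hb2'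
  have hd2 : d ^ 2 = q ^ 2 - 1 := by rw [hd]; exact Real.sq_sqrt (by linarith)
  have hd0 : 0 < d := by rw [hd]; exact Real.sqrt_pos.2 (by linarith)
  have hD0 : 0 < D := by rw [hD]; nlinarith
  have hDY : D * Y = s * a * q ^ 2 - b * d := by rw [hY]; field_simp
  have hbd : (b * d) ^ 2 = (3 * s ^ 2 * q ^ 2 - 1) * (q ^ 2 - 1) := by rw [mul_pow, hb2, hd2]
  have hsa : (s * a * q ^ 2) ^ 2 = s ^ 2 * (4 * s ^ 2 - 1) * (q ^ 2) ^ 2 := by
    rw [mul_pow, mul_pow, ha2]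
  have hY0 : 0 ≤ Y := by
    rw [hY]
    apply div_nonneg _ hD0.le
    rw [sub_nonneg]
    apply le_of_sq_le_sq _ (by positivity)
    rw [hbd, hsa]
    have h1 : s ^ 2 * (4 * s ^ 2 - 1) * (q ^ 2) ^ 2 - (3 * s ^ 2 * q ^ 2 - 1) * (q ^ 2 - 1) =
        D * (1 - q ^ 2 * (1 - s ^ 2)) := by rw [hD]; ring
    have h2 : 0 ≤ D * (1 - q ^ 2 * (1 - s ^ 2)) := mul_nonneg hD0.le (by linarith)
    linarith
  have hfac : (4 * s * (b * d)) ^ 2 - a ^ 2 = (12 * s ^ 2 * (q ^ 2 - 1) - 1) *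
      (4 * s ^ 2 * (q ^ 2 - 1) + (4 * s ^ 2 - 1)) := by
    rw [mul_pow, hbd, ha2]; ring
  have hfac0 : 0 < 4 * s ^ 2 * (q ^ 2 - 1) + (4 * s ^ 2 - 1) := by nlinarith
  have hle : Y ≤ a / (4 * s) := by
    rw [le_div_iff₀ (by positivity)]
    have h1 : a ≤ 4 * s * (b * d) := by
      apply le_of_sq_le_sq _ (by positivity)
      have := mul_nonneg (sub_nonneg.2 hx) hfac0.le
      linarith
    have h2 : D * (Y * (4 * s)) ≤ D * a := by
      calc D * (Y * (4 * s)) = 4 * s * (D * Y) := by ring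
        _ = 4 * s * (s * a * q ^ 2 - b * d) := by rw [hDY]
        _ ≤ D * a := by rw [hD]; nlinarith
    exact le_of_mul_le_mul_left h2 hD0
  refine ⟨hD0, by positivity, hY0, hle, ?_, ?_, ?_⟩
  · have h1 : D ^ 2 * (1 - Y ^ 2) = (q * (a * b + s * d)) ^ 2 := by
      calc D ^ 2 * (1 - Y ^ 2) = D ^ 2 - (D * Y) ^ 2 := by ring
        _ = D ^ 2 - (s * a * q ^ 2 - b * d) ^ 2 := by rw [hDY]
        _ = D ^ 2 - (s * a * q ^ 2) ^ 2 - (b * d) ^ 2 + 2 * (s * a * q ^ 2) * (b * d) := by ring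
        _ = q ^ 2 * (a ^ 2 * b ^ 2 + s ^ 2 * d ^ 2) + 2 * (s * a * q ^ 2) * (b * d) := by
          rw [hbd, hsa, ha2, hb2, hd2, hD]; ring
        _ = _ := by ring
    rw [div_pow, eq_div_iff (by positivity), ← h1]
    ring
  · have h1 : D * (q ^ 2 * (1 - s ^ 2 - 4 * s ^ 2 * Y ^ 2 + 2 * s * a * Y) - (1 - Y ^ 2)) = 0 := by
      have h2 : D * (q ^ 2 * (1 - s ^ 2 - 4 * s ^ 2 * Y ^ 2 + 2 * s * a * Y) - (1 - Y ^ 2)) =
          D * (q ^ 2 * (1 - s ^ 2) - 1) - (D * Y) ^ 2 + 2 * s * a * q ^ 2 * (D * Y) := by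
        rw [hD]; ring
      rw [h2, hDY]
      have h3 : D * (q ^ 2 * (1 - s ^ 2) - 1) - (s * a * q ^ 2 - b * d) ^ 2 +
          2 * s * a * q ^ 2 * (s * a * q ^ 2 - b * d) =
          D * (q ^ 2 * (1 - s ^ 2) - 1) + (s * a * q ^ 2) ^ 2 - (b * d) ^ 2 := by ring
      rw [h3, hbd, hsa, hD]
      ring
    have h2 := (mul_eq_zero.1 h1).resolve_left hD0.ne'
    linarith
  · intro hlt
    have hx' : 1 < 12 * s ^ 2 * (q ^ 2 - 1) := by
      have h1 : 1 / (12 * s ^ 2) < q ^ 2 - 1 := by linarith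
      rw [div_lt_iff₀ (by positivity)] at h1
      linarith
    rw [lt_div_iff₀ (by positivity)]
    have h1 : a < 4 * s * (b * d) := by
      apply lt_of_pow_lt_pow_left₀ 2 (by positivity)
      have := mul_pos (sub_pos.2 hx') hfac0
      linarith
    have h2 : D * (Y * (4 * s)) < D * a := by
      calc D * (Y * (4 * s)) = 4 * s * (D * Y) := by ring
        _ = 4 * s * (s * a * q ^ 2 - b * d) := by rw [hDY]
        _ < D * a := by rw [hD]; nlinarith
    exact lt_of_mul_lt_mul_left h2 hD0.le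

end Pool.Agent.R760.KC
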