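import Pool.Agent.R760.KC2

/-! MP_b5f63d_co: kissing numbers and spherical codes of larger angle. -/

set_option autoImplicit false

open MeasureTheory Metric Set Filter Topology

open scoped RealInnerProductSpace ENNReal

namespace Pool.Agent.R760.KC

open Pool.Agent.R760.KN Pool.Agent.H818R2

/-- the base of the lower bound for the kissing numbers -/
noncomputable def kap (s q : ℝ) : ℝ :=
  (4 * s ^ 2 * q ^ 2 - 1) / (√((4 * s ^ 2 - 1) * (3 * s ^ 2 * q ^ 2 - 1)) + s * √(q ^ 2 - 1))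

lemma sin_gt {t : ℝ} (ht : Real.pi / 3 < t) (ht' : t < Real.pi) :
    1 / 2 < Real.sin (t / 2) ∧ Real.sin (t / 2) < 1 := by
  have hpi := Real.pi_pos
  constructor
  · rw [← Real.sin_pi_div_six]
    exact Real.sin_lt_sin_of_lt_of_le_pi_div_two (by linarith) (by linarith) (by linarith)
  · rw [← Real.sin_pi_div_two]
    exact Real.sin_lt_sin_of_lt_of_le_pi_div_two (by linarith) le_rfl (by linarith)

theorem kiss_code {n : ℕ} (hn : 0 < n) {t q : ℝ} (ht : Real.pi / 3 < t) (ht' : t < Real.pi)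
    (hq0 : 0 < q) (hq : 1 + 1 / (12 * Real.sin (t / 2) ^ 2) ≤ q ^ 2)
    (hq1 : q ^ 2 * (1 - Real.sin (t / 2) ^ 2) ≤ 1) (hq2 : q ^ 2 ≤ 3 / 2)
    (hA : q ^ n ≤ sphMax n t) :
    kap (Real.sin (t / 2)) q ^ n ≤ 2 * sphMax (n + 1) (Real.pi / 3) := by
  obtain ⟨hs1, hs1'⟩ := sin_gt ht ht'
  set s := Real.sin (t / 2) with hs
  have hs0 : 0 < s := by linarith
  have hs2 : 1 / 4 < s ^ 2 := by nlinarith
  obtain ⟨a, ha⟩ : ∃ a, a = √(4 * s ^ 2 - 1) := ⟨_, rfl⟩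
  obtain ⟨b, hb⟩ : ∃ b, b = √(3 * s ^ 2 * q ^ 2 - 1) := ⟨_, rfl⟩
  obtain ⟨d, hd⟩ : ∃ d, d = √(q ^ 2 - 1) := ⟨_, rfl⟩
  obtain ⟨D, hD⟩ : ∃ D, D = 4 * s ^ 2 * q ^ 2 - 1 := ⟨_, rfl⟩
  obtain ⟨Y, hY⟩ : ∃ Y, Y = (s * a * q ^ 2 - b * d) / D := ⟨_, rfl⟩
  obtain ⟨h1, h2, h3, h4, h5, h6, -⟩ := alg hs1 hq hq1 ha hb hd hD hY
  have ha2 : a ^ 2 = 4 * s ^ 2 - 1 := by rw [ha]; exact Real.sq_sqrt (by linarith)
  have ha0 : 0 ≤ a := by rw [ha]; exact Real.sqrt_nonneg _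
  have hhr : (a / (2 * s)) ^ 2 + (1 / (2 * s)) ^ 2 = 1 := by
    rw [div_pow, div_pow, ha2]
    field_simp
    ring
  have hQ : 1 - (1 / 4 + Y ^ 2 - a / (2 * s) * Y) / (1 / (2 * s)) ^ 2 =
      1 - s ^ 2 - 4 * s ^ 2 * Y ^ 2 + 2 * s * a * Y := by
    field_simp
    ring
  have hq20 : 0 < q ^ 2 := by positivity
  have hkap : kap s q = q / √(1 - Y ^ 2) := by
    rw [h5, Real.sqrt_sq (by positivity)]
    unfold kap
    rw [Real.sqrt_mul (by linarith), ← ha, ← hb, ← hd, ← hD]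
    field_simp
  rw [hkap]
  apply kiss_of_code (h := a / (2 * s)) (r := 1 / (2 * s)) (Y := Y) (t := t) hn (by positivity)
    (by positivity) hhr (by rw [← hs]; field_simp) h3 (by
      refine h4.trans (le_of_eq ?_)
      field_simp
      norm_num) _ hq0 (by rw [hQ]; exact h6) hA
  rw [hQ]
  have h7 : Y ^ 2 ≤ 3 / 16 := by
    have h8 := pow_le_pow_left₀ h3 h4 2
    rw [div_pow, ha2] at h8
    refine h8.trans ?_
    rw [div_le_iff₀ (by positivity)]
    nlinarith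
  by_contra hcon
  rw [not_le] at hcon
  nlinarith

theorem kap_gt {t q : ℝ} (ht : Real.pi / 3 < t) (ht' : t < Real.pi)
    (hq : 1 + 1 / (12 * Real.sin (t / 2) ^ 2) < q ^ 2) (hq0 : 0 < q)
    (hq1 : q ^ 2 * (1 - Real.sin (t / 2) ^ 2) ≤ 1) :
    2 / √3 < kap (Real.sin (t / 2)) q := by
  obtain ⟨hs1, hs1'⟩ := sin_gt ht ht'
  set s := Real.sin (t / 2) with hs
  have hs0 : 0 < s := by linarith
  have hs2 : 1 / 4 < s ^ 2 := by nlinarith
  obtain ⟨a, ha⟩ : ∃ a, a = √(4 * s ^ 2 - 1) := ⟨_, rfl⟩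
  obtain ⟨b, hb⟩ : ∃ b, b = √(3 * s ^ 2 * q ^ 2 - 1) := ⟨_, rfl⟩
  obtain ⟨d, hd⟩ : ∃ d, d = √(q ^ 2 - 1) := ⟨_, rfl⟩
  obtain ⟨D, hD⟩ : ∃ D, D = 4 * s ^ 2 * q ^ 2 - 1 := ⟨_, rfl⟩
  obtain ⟨Y, hY⟩ : ∃ Y, Y = (s * a * q ^ 2 - b * d) / D := ⟨_, rfl⟩
  obtain ⟨h1, h2, h3, h4, h5, h6, h7⟩ := alg hs1 hq.le hq1 ha hb hd hD hY
  have h8 := h7 hq
  have ha2 : a ^ 2 = 4 * s ^ 2 - 1 := by rw [ha]; exact Real.sq_sqrt (by linarith)
  have hkap : kap s q = D / (a * b + s * d) := by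
    unfold kap
    rw [Real.sqrt_mul (by linarith), ← ha, ← hb, ← hd, ← hD]
  have hk0 : 0 < kap s q := by rw [hkap]; positivity
  have hB : 1 - s ^ 2 - 4 * s ^ 2 * Y ^ 2 + 2 * s * a * Y < 3 / 4 := by
    have h9 : 1 - s ^ 2 - 4 * s ^ 2 * Y ^ 2 + 2 * s * a * Y =
        3 / 4 - 4 * s ^ 2 * (a / (4 * s) - Y) ^ 2 := by
      field_simp
      linear_combination ha2
    rw [h9]
    have : 0 < a / (4 * s) - Y := by linarith
    have : 0 < 4 * s ^ 2 * (a / (4 * s) - Y) ^ 2 := by positivity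
    linarith
  have hkB : kap s q ^ 2 * (1 - s ^ 2 - 4 * s ^ 2 * Y ^ 2 + 2 * s * a * Y) = 1 := by
    have h9 : q ^ 2 * (kap s q ^ 2 * (1 - s ^ 2 - 4 * s ^ 2 * Y ^ 2 + 2 * s * a * Y)) =
        q ^ 2 * 1 := by
      calc q ^ 2 * (kap s q ^ 2 * (1 - s ^ 2 - 4 * s ^ 2 * Y ^ 2 + 2 * s * a * Y)) =
            kap s q ^ 2 * (q ^ 2 * (1 - s ^ 2 - 4 * s ^ 2 * Y ^ 2 + 2 * s * a * Y)) := by ring
        _ = (D / (a * b + s * d)) ^ 2 * (q * (a * b + s * d) / D) ^ 2 := by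
            rw [h6, h5, hkap]
        _ = q ^ 2 * 1 := by field_simp
    exact mul_left_cancel₀ (by positivity) h9
  apply lt_of_pow_lt_pow_left₀ 2 hk0.le
  rw [div_pow, Real.sq_sqrt (by norm_num)]
  have hk2 : 0 < kap s q ^ 2 := by positivity
  nlinarith

lemma two_div_sqrt_sq : ((2 : ℝ) / √3) ^ 2 = 4 / 3 := by
  rw [div_pow, Real.sq_sqrt (by norm_num)]; norm_num

/-- a smaller exponent with all the conditions -/
lemma exists_q {t q : ℝ} (ht : Real.pi / 3 < t) (ht' : t < Real.pi)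
    (hq : √(1 + 1 / (12 * Real.sin (t / 2) ^ 2)) < q) :
    ∃ q' : ℝ, 0 < q' ∧ q' ≤ q ∧ 1 + 1 / (12 * Real.sin (t / 2) ^ 2) < q' ^ 2 ∧
      q' ^ 2 * (1 - Real.sin (t / 2) ^ 2) ≤ 1 ∧ q' ^ 2 ≤ 3 / 2 := by
  obtain ⟨hs1, hs1'⟩ := sin_gt ht ht'
  set s := Real.sin (t / 2) with hs
  have hs0 : 0 < s := by linarith
  have hs2 : 1 / 4 < s ^ 2 := by nlinarith
  have hs3 : s ^ 2 < 1 := by nlinarith
  set x : ℝ := 1 + 1 / (12 * s ^ 2) with hx
  have hx0 : 0 < x := by positivity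
  have hx1 : x < 4 / 3 := by
    have : 1 / (12 * s ^ 2) < 1 / 3 := one_div_lt_one_div_of_lt (by norm_num) (by linarith)
    linarith
  have hx2 : x < 1 / (1 - s ^ 2) := by
    rw [lt_div_iff₀ (by linarith), hx]
    have : (1 + 1 / (12 * s ^ 2)) * (1 - s ^ 2) = (12 * s ^ 2 + 1) * (1 - s ^ 2) / (12 * s ^ 2) := by
      field_simp
    rw [this, div_lt_one (by positivity)]
    nlinarith
  have hxq : x < q ^ 2 := by
    have h1 := pow_lt_pow_left₀ hq (Real.sqrt_nonneg _) (n := 2) (by norm_num)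
    rwa [Real.sq_sqrt hx0.le] at h1
  have hq0 : 0 < q := (Real.sqrt_nonneg _).trans_lt hq
  obtain ⟨z, hz1, hz2⟩ := exists_between (lt_min hxq (lt_min (show x < 3 / 2 by linarith) hx2))
  have hz0 : 0 < z := hx0.trans hz1
  have hzs : √z ^ 2 = z := Real.sq_sqrt hz0.le
  refine ⟨√z, Real.sqrt_pos.2 hz0, ?_, by rw [hzs]; exact hz1, ?_, ?_⟩
  · apply Real.sqrt_le_iff.2
    exact ⟨hq0.le, (hz2.le.trans (min_le_left _ _))⟩
  · rw [hzs]
    have h1 := hz2.le.trans ((min_le_right _ _).trans (min_le_right _ _))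
    rwa [le_div_iff₀ (by linarith)] at h1
  · rw [hzs]
    exact hz2.le.trans ((min_le_right _ _).trans (min_le_left _ _))

lemma rate_le {n : ℕ} (hn : 0 < n) {M : ℝ} (h : (2 : ℝ) ^ (M * n) ≤ sphMax n (Real.pi / 3)) :
    M ≤ codeRate (Real.pi / 3) n := by
  have hn' : (0 : ℝ) < n := by exact_mod_cast hn
  unfold codeRate
  rw [le_div_iff₀ hn']
  have h0 : (0 : ℝ) < (2 : ℝ) ^ (M * n) := by positivity
  have h1 := Real.logb_le_logb_of_le (b := 2) (by norm_num) h0 h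
  rwa [Real.logb_rpow (by norm_num) (by norm_num)] at h1

lemma le_of_rate {n : ℕ} (hn : 0 < n) {M : ℝ} (h : M ≤ codeRate (Real.pi / 3) n) :
    ((2 : ℝ) ^ M) ^ n ≤ sphMax n (Real.pi / 3) := by
  have hn' : (0 : ℝ) < n := by exact_mod_cast hn
  unfold codeRate at h
  rw [le_div_iff₀ hn'] at h
  have h0 : (0 : ℝ) < sphMax n (Real.pi / 3) := by
    have : NeZero n := ⟨hn.ne'⟩
    obtain ⟨x, hx⟩ := exists_pole hn
    have h1 : IsSphCode n (Real.pi / 3) ({x} : Finset (E n)) := by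
      refine ⟨by simpa using hx, fun a ha b hb hab => ?_⟩
      rw [Finset.mem_singleton] at ha hb
      exact absurd (ha.trans hb.symm) hab
    have h2 := le_sphMax (Real.sin_pos_of_pos_of_lt_pi (by positivity)
      (by linarith [Real.pi_pos])) h1
    rw [Finset.card_singleton] at h2
    exact_mod_cast h2
  rw [← Real.rpow_natCast, ← Real.rpow_mul (by norm_num)]
  rwa [Real.le_logb_iff_rpow_le (by norm_num) h0] at h

lemma ev_large {k M : ℝ} (hk : 0 < k) (hM : (2 : ℝ) ^ M < k) :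
    ∀ᶠ n : ℕ in atTop, 2 * (2 : ℝ) ^ (M * ((n + 1 : ℕ) : ℝ)) ≤ k ^ n := by
  set m : ℝ := (2 : ℝ) ^ M with hm
  have hm0 : 0 < m := by positivity
  have h1 : Tendsto (fun n : ℕ => 2 * m * (m / k) ^ n) atTop (𝓝 (2 * m * 0)) := by
    apply Tendsto.const_mul
    apply tendsto_pow_atTop_nhds_zero_of_lt_one (by positivity)
    rw [div_lt_one hk]
    exact hM
  rw [mul_zero] at h1
  filter_upwards [h1.eventually (gt_mem_nhds one_pos)] with n hn
  rw [div_pow, mul_div_assoc', div_lt_one (by positivity)] at hn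
  have h2 : (2 : ℝ) ^ (M * ((n + 1 : ℕ) : ℝ)) = m ^ (n + 1) := by
    rw [hm, ← Real.rpow_natCast, ← Real.rpow_mul (by norm_num)]
  rw [h2, pow_succ]
  linarith

/-- from kissing configurations to codes of larger angle -/
lemma code_of_kiss {M : ℝ} (hM : (2 / √3) < (2 : ℝ) ^ M) : ∃ t ∈ Ioo (Real.pi / 3) Real.pi,
    ∃ q > √(1 + 1 / (12 * Real.sin (t / 2) ^ 2)), ∀ᶠ n : ℕ in atTop,
      ((2 : ℝ) ^ M) ^ n ≤ sphMax n (Real.pi / 3) → q ^ (n + 1) ≤ sphMax (n + 1) t := by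
  have hpi := Real.pi_pos
  set k : ℝ := (2 : ℝ) ^ M with hk
  have hk0 : 0 < k := by positivity
  have hs30 : 0 < √(3 : ℝ) := Real.sqrt_pos.2 (by norm_num)
  have hk2 : 4 / 3 < k ^ 2 := by
    rw [← two_div_sqrt_sq]
    exact pow_lt_pow_left₀ hM (by positivity) (by norm_num)
  obtain ⟨x, hx1, hx2⟩ := exists_between (lt_min (show (1 : ℝ) / 4 < 1 / 2 by norm_num)
    (show (1 : ℝ) / 4 < (k ^ 2 - 1 / 3) / 4 by linarith))
  have hx3 : x < 1 / 2 := hx2.trans_le (min_le_left _ _)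
  have hx4 : 4 * x + 1 / 3 < k ^ 2 := by
    have := hx2.trans_le (min_le_right _ _)
    linarith
  have hx0 : 0 < x := by linarith
  set s : ℝ := √x with hs
  have hs2 : s ^ 2 = x := Real.sq_sqrt hx0.le
  have hs0 : 0 < s := Real.sqrt_pos.2 hx0
  have hs1 : 1 / 2 < s := by nlinarith
  have hs1' : s < 1 := by nlinarith
  obtain ⟨t, ht⟩ : ∃ t, t = 2 * Real.arcsin s := ⟨_, rfl⟩
  have hst : Real.sin (t / 2) = s := by
    rw [ht, mul_div_cancel_left₀ _ (by norm_num)]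
    exact Real.sin_arcsin (by linarith) hs1'.le
  have ht1 : Real.pi / 3 < t := by
    have h1 : Real.arcsin (1 / 2) < Real.arcsin s :=
      Real.arcsin_lt_arcsin (by norm_num) hs1 hs1'.le
    have h2 : Real.arcsin (1 / 2) = Real.pi / 6 := by
      rw [← Real.sin_pi_div_six]
      exact Real.arcsin_sin (by linarith) (by linarith)
    rw [ht]
    linarith
  have ht2 : t < Real.pi := by
    have h1 : Real.arcsin s < Real.pi / 2 := Real.arcsin_lt_pi_div_two.2 hs1'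
    rw [ht]
    linarith
  refine ⟨t, ⟨ht1, ht2⟩, ?_⟩
  rw [hst]
  set ρ : ℝ := 1 / (2 * s) with hρ
  have hρ0 : 0 < ρ := by positivity
  have hρ1 : ρ < 1 := by rw [hρ, div_lt_one (by positivity)]; linarith
  set c : ℝ := √(1 - ρ ^ 2) with hc
  have hc2 : c ^ 2 = 1 - ρ ^ 2 := Real.sq_sqrt (by nlinarith)
  have hc0 : 0 ≤ c := Real.sqrt_nonneg _
  have hkey : √(1 + 1 / (12 * s ^ 2)) < k * ρ := by
    rw [Real.sqrt_lt' (by positivity)]
    have h1 : (k * ρ) ^ 2 = k ^ 2 / (4 * s ^ 2) := by rw [hρ]; field_simp; norm_num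
    rw [h1, lt_div_iff₀ (by positivity), hs2]
    have h2 : (1 + 1 / (12 * x)) * (4 * x) = 4 * x + 1 / 3 := by field_simp; ring
    rw [h2]
    exact hx4
  obtain ⟨q, hq1, hq2⟩ := exists_between hkey
  obtain ⟨q', hq3, hq4⟩ := exists_between hq2
  have hq0 : 0 < q := (Real.sqrt_nonneg _).trans_lt hq1
  have hq0' : 0 < q' := hq0.trans hq3
  refine ⟨q, hq1, ?_⟩
  -- the constant lam
  set lam : ℝ := c / ρ with hlam
  have hlam0 : 0 ≤ lam := by positivity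
  have hlim1 : Tendsto (fun n : ℕ => k * (ρ * (1 - lam / n))) atTop (𝓝 (k * (ρ * (1 - 0)))) := by
    apply Tendsto.const_mul
    apply Tendsto.const_mul
    exact tendsto_const_nhds.sub (tendsto_const_div_atTop_nhds_zero_nat _)
  rw [sub_zero, mul_one] at hlim1
  have hlim2 : Tendsto (fun n : ℕ => 2 * q * ((n : ℝ) * (q / q') ^ n)) atTop (𝓝 (2 * q * 0)) := by
    apply Tendsto.const_mul
    apply tendsto_self_mul_const_pow_of_lt_one (by positivity)
    rw [div_lt_one hq0']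
    exact hq3
  rw [mul_zero] at hlim2
  filter_upwards [hlim1.eventually (lt_mem_nhds hq4), hlim2.eventually (gt_mem_nhds one_pos),
    eventually_gt_atTop 0, (tendsto_natCast_atTop_atTop (R := ℝ)).eventually
      (eventually_gt_atTop lam)] with n h1 h2 h3 h4 h5
  have hn' : (0 : ℝ) < n := by exact_mod_cast h3
  obtain ⟨p, hp⟩ := exists_pole h3
  have hsin6 : Real.sin (Real.pi / 3 / 2) = 1 / 2 := by
    rw [show Real.pi / 3 / 2 = Real.pi / 6 by ring, Real.sin_pi_div_six]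
  have h6 := angle_le h3 (θ := Real.pi / 3) (φ := t) (c := c) (ρ := ρ)
    (by rw [hsin6]; norm_num) (by rw [hst]; exact hs0) hc0 hρ0 (by rw [hc2]; ring)
    (by rw [hst, hsin6, hρ]; apply le_of_eq; field_simp) hp
  have h7 := cap_lower h3 hp (c := c) (s := ρ) (lam := lam) hc0 hρ0 (by rw [hc2]; ring)
    (by rw [hlam]; apply le_of_eq; field_simp) h4
  refine le_trans ?_ h6
  have h8 : k ^ n * ((ρ * (1 - lam / n)) ^ n / (2 * n)) ≤
      sphMax n (Real.pi / 3) * (unif n).real {x : E n | c ≤ ⟪x, p⟫} := by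
    apply mul_le_mul h5 h7 _ (Nat.cast_nonneg _)
    have : 0 < 1 - lam / n := by rw [sub_pos, div_lt_one hn']; exact h4
    positivity
  refine le_trans ?_ h8
  have h9 : k ^ n * ((ρ * (1 - lam / n)) ^ n / (2 * n)) =
      (k * (ρ * (1 - lam / n))) ^ n / (2 * n) := by rw [mul_pow k]; ring
  rw [h9]
  have h10 : q' ^ n / (2 * n) ≤ (k * (ρ * (1 - lam / n))) ^ n / (2 * n) :=
    div_le_div_of_nonneg_right (pow_le_pow_left₀ hq0'.le h1.le n) (by positivity)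
  refine le_trans ?_ h10
  rw [le_div_iff₀ (by positivity)]
  rw [div_pow, mul_div_assoc', mul_div_assoc', div_lt_one (by positivity)] at h2
  calc q ^ (n + 1) * (2 * n) = 2 * q * ((n : ℝ) * q ^ n) := by rw [pow_succ]; ring
    _ ≤ q' ^ n := h2.le

lemma sin_third : 0 < Real.sin (Real.pi / 3 / 2) :=
  Real.sin_pos_of_pos_of_lt_pi (by positivity) (by linarith [Real.pi_pos])

lemma rate_bdd_above : IsBoundedUnder (· ≤ ·) atTop (codeRate (Real.pi / 3)) :=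
  ⟨_, eventually_map.2 (Eventually.of_forall fun d => codeRate_le sin_third d)⟩

lemma rate_bdd_below : IsBoundedUnder (· ≥ ·) atTop (codeRate (Real.pi / 3)) :=
  ⟨0, eventually_map.2 (Eventually.of_forall fun d => codeRate_nonneg _ d)⟩

lemma wyner_pos : (0 : ℝ) < 2 / √3 := by positivity

theorem liminf_iff : Real.logb 2 (2 / √3) < liminf (codeRate (Real.pi / 3)) atTop ↔
    ∃ t ∈ Ioo (Real.pi / 3) Real.pi, ∃ q > √(1 + 1 / (12 * Real.sin (t / 2) ^ 2)),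
      ∀ᶠ n : ℕ in atTop, q ^ n ≤ sphMax n t := by
  constructor
  · intro h
    obtain ⟨M, hM1, hM2⟩ := exists_between h
    rw [Real.logb_lt_iff_lt_rpow (by norm_num) wyner_pos] at hM1
    obtain ⟨t, ht, q, hq, hA⟩ := code_of_kiss hM1
    refine ⟨t, ht, q, hq, ?_⟩
    have h2 : ∀ᶠ d in atTop, M < codeRate (Real.pi / 3) d := eventually_lt_of_lt_liminf hM2
      rate_bdd_below
    have h4 : ∀ᶠ d : ℕ in atTop, q ^ (d + 1) ≤ sphMax (d + 1) t := by
      filter_upwards [h2, hA, eventually_gt_atTop 0] with d h5 h6 h7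
      exact h6 (le_of_rate h7 h5.le)
    obtain ⟨D, hD⟩ := eventually_atTop.1 h4
    rw [eventually_atTop]
    refine ⟨D + 1, fun d hd => ?_⟩
    obtain ⟨e, rfl⟩ : ∃ e, d = e + 1 := ⟨d - 1, by omega⟩
    exact hD e (by omega)
  · rintro ⟨t, ht, q, hq, hA⟩
    obtain ⟨q', hq1, hq2, hq3, hq4, hq5⟩ := exists_q ht.1 ht.2 hq
    have hk := kap_gt ht.1 ht.2 hq3 hq1 hq4
    have hk0 := wyner_pos.trans hk
    obtain ⟨k, hk1, hk2⟩ := exists_between hk
    have hk10 : 0 < k := wyner_pos.trans hk1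
    refine lt_of_lt_of_le (Real.logb_lt_logb (by norm_num) wyner_pos hk1) ?_
    have hkM : (2 : ℝ) ^ (Real.logb 2 k) = k := Real.rpow_logb (by norm_num) (by norm_num) hk10
    apply le_liminf_of_le rate_bdd_above.isCoboundedUnder_ge
    have h1 : ∀ᶠ n : ℕ in atTop, Real.logb 2 k ≤ codeRate (Real.pi / 3) (n + 1) := by
      filter_upwards [hA, ev_large hk0 (hkM ▸ hk2), eventually_gt_atTop 0] with n h1 h2 h3
      apply rate_le (Nat.succ_pos n)
      have h4 := kiss_code h3 ht.1 ht.2 hq1 hq3.le hq4 hq5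
        ((pow_le_pow_left₀ hq1.le hq2 n).trans h1)
      linarith
    obtain ⟨D, hD⟩ := eventually_atTop.1 h1
    rw [eventually_atTop]
    refine ⟨D + 1, fun d hd => ?_⟩
    obtain ⟨e, rfl⟩ : ∃ e, d = e + 1 := ⟨d - 1, by omega⟩
    exact hD e (by omega)

theorem limsup_iff : Real.logb 2 (2 / √3) < limsup (codeRate (Real.pi / 3)) atTop ↔
    ∃ t ∈ Ioo (Real.pi / 3) Real.pi, ∃ q > √(1 + 1 / (12 * Real.sin (t / 2) ^ 2)),
      ∃ᶠ n : ℕ in atTop, q ^ n ≤ sphMax n t := by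
  constructor
  · intro h
    obtain ⟨M, hM1, hM2⟩ := exists_between h
    rw [Real.logb_lt_iff_lt_rpow (by norm_num) wyner_pos] at hM1
    obtain ⟨t, ht, q, hq, hA⟩ := code_of_kiss hM1
    refine ⟨t, ht, q, hq, ?_⟩
    have h2 : ∃ᶠ d in atTop, M < codeRate (Real.pi / 3) d := frequently_lt_of_lt_limsup
      rate_bdd_below.isCoboundedUnder_le hM2
    have h4 : ∃ᶠ d : ℕ in atTop, q ^ (d + 1) ≤ sphMax (d + 1) t := by
      refine (h2.and_eventually (hA.and (eventually_gt_atTop 0))).mono ?_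
      rintro d ⟨h5, h6, h7⟩
      exact h6 (le_of_rate h7 h5.le)
    exact (tendsto_add_atTop_nat 1).frequently h4
  · rintro ⟨t, ht, q, hq, hA⟩
    obtain ⟨q', hq1, hq2, hq3, hq4, hq5⟩ := exists_q ht.1 ht.2 hq
    have hk := kap_gt ht.1 ht.2 hq3 hq1 hq4
    have hk0 := wyner_pos.trans hk
    obtain ⟨k, hk1, hk2⟩ := exists_between hk
    have hk10 : 0 < k := wyner_pos.trans hk1
    refine lt_of_lt_of_le (Real.logb_lt_logb (by norm_num) wyner_pos hk1) ?_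
    have hkM : (2 : ℝ) ^ (Real.logb 2 k) = k := Real.rpow_logb (by norm_num) (by norm_num) hk10
    apply le_limsup_of_frequently_le _ rate_bdd_above
    have h1 : ∃ᶠ n : ℕ in atTop, Real.logb 2 k ≤ codeRate (Real.pi / 3) (n + 1) := by
      refine (hA.and_eventually ((ev_large hk0 (hkM ▸ hk2)).and (eventually_gt_atTop 0))).mono ?_
      rintro n ⟨h1, h2, h3⟩
      apply rate_le (Nat.succ_pos n)
      have h4 := kiss_code h3 ht.1 ht.2 hq1 hq3.le hq4 hq5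
        ((pow_le_pow_left₀ hq1.le hq2 n).trans h1)
      linarith
    exact (tendsto_add_atTop_nat 1).frequently h1

end Pool.Agent.R760.KC
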