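import Mathlib

/-! MP_b5f63d_co: the uniform measure on the sphere and averages over all rotations. -/

set_option autoImplicit false

open MeasureTheory Metric Set Filter Topology

open scoped RealInnerProductSpace ENNReal

namespace Pool.Agent.R760.KN

/-- Euclidean space -/
abbrev E (n : ℕ) : Type := EuclideanSpace ℝ (Fin n)

/-- The uniform probability measure on the unit sphere of `ℝ^n`: the distribution of the direction
`z / ‖z‖` of a random point `z` of the unit ball. -/
noncomputable def unif (n : ℕ) : Measure (E n) :=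
  (volume (ball (0 : E n) 1))⁻¹ • ((volume.restrict (ball (0 : E n) 1)).map fun z => ‖z‖⁻¹ • z)

instance contStar (n : ℕ) : ContinuousStar (E n →L[ℝ] E n) :=
  ⟨(ContinuousLinearMap.adjoint (𝕜 := ℝ) (E := E n) (F := E n)).continuous⟩

/-- the orthogonal group -/
noncomputable abbrev G (n : ℕ) : Type := unitary (E n →L[ℝ] E n)

noncomputable instance measG (n : ℕ) : MeasurableSpace (G n) := borel _

instance borelG (n : ℕ) : BorelSpace (G n) := ⟨rfl⟩

variable {n : ℕ}

/-- the isometry given by an element of the group -/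
noncomputable def iso (g : G n) : E n ≃ₗᵢ[ℝ] E n := Unitary.linearIsometryEquiv g

lemma iso_apply (g : G n) (z : E n) : iso g z = (g : E n →L[ℝ] E n) z := rfl

lemma iso_mul (g h : G n) (z : E n) : iso (g * h) z = iso g (iso h z) := rfl

instance compactG (n : ℕ) : CompactSpace (G n) := by
  refine isCompact_iff_compactSpace.1 ?_
  refine IsCompact.of_isClosed_subset (isCompact_closedBall (0 : E n →L[ℝ] E n) 1)
    (isClosed_unitary (R := E n →L[ℝ] E n)) ?_
  intro u hu
  rw [mem_closedBall_zero_iff]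
  refine ContinuousLinearMap.opNorm_le_bound _ zero_le_one fun z => ?_
  rw [one_mul]
  exact ((iso ⟨u, hu⟩).norm_map z).le

/-- the Haar probability measure -/
noncomputable def haarG (n : ℕ) : Measure (G n) := Measure.haarMeasure ⊤

instance (n : ℕ) : (haarG n).IsHaarMeasure := by unfold haarG; infer_instance

instance (n : ℕ) : IsProbabilityMeasure (haarG n) := ⟨by
  unfold haarG
  exact Measure.haarMeasure_self⟩

lemma map_right (g₀ : G n) : Measure.map (fun g => g * g₀) (haarG n) = haarG n := by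
  have : IsProbabilityMeasure (Measure.map (fun g => g * g₀) (haarG n)) :=
    Measure.isProbabilityMeasure_map (by fun_prop)
  exact Measure.isHaarMeasure_eq_of_isProbabilityMeasure _ _

lemma exists_iso {x y : E n} (h : ‖x‖ = ‖y‖) : ∃ g : G n, iso g x = y := by
  obtain ⟨T, hT⟩ : ∃ T : E n ≃ₗᵢ[ℝ] E n, T x = y := ⟨_, Submodule.reflection_sub h⟩
  refine ⟨Unitary.linearIsometryEquiv.symm T, ?_⟩
  unfold iso
  rw [MulEquiv.apply_symm_apply, hT]

lemma cont_act : Continuous (fun p : G n × E n => iso p.1 p.2) := by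
  have : (fun p : G n × E n => iso p.1 p.2) = fun p => (p.1 : E n →L[ℝ] E n) p.2 := rfl
  rw [this]
  exact (continuous_subtype_val.comp continuous_fst).clm_apply continuous_snd

lemma dir_meas : Measurable (fun z : E n => ‖z‖⁻¹ • z) :=
  (measurable_norm.inv).smul measurable_id

/-- the pushforward of the Haar measure under `g ↦ g x` is the uniform measure -/
theorem map_orbit (hn : 0 < n) {x : E n} (hx : ‖x‖ = 1) :
    (haarG n).map (fun g => iso g x) = unif n := by
  have : NeZero n := ⟨hn.ne'⟩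
  have hB0 : volume (ball (0 : E n) 1) ≠ 0 := (measure_ball_pos _ _ one_pos).ne'
  have hBt : volume (ball (0 : E n) 1) ≠ ∞ := measure_ball_lt_top.ne
  have hmx : ∀ y : E n, Measurable (fun g : G n => iso g y) := fun y =>
    (cont_act.comp (continuous_id.prodMk continuous_const)).measurable
  ext S hS
  rw [Measure.map_apply (hmx x) hS]
  -- independence of the point
  have h1 : ∀ y : E n, ‖y‖ = 1 → haarG n ((fun g => iso g y) ⁻¹' S) =
      haarG n ((fun g => iso g x) ⁻¹' S) := by
    intro y hy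
    obtain ⟨h, hh⟩ := exists_iso (n := n) (x := x) (y := y) (hx.trans hy.symm)
    conv_rhs => rw [← map_right h, Measure.map_apply (by fun_prop) (hmx x hS)]
    have h2 : (fun g : G n => g * h) ⁻¹' ((fun g => iso g x) ⁻¹' S) =
        (fun g => iso g y) ⁻¹' S := by
      ext g
      simp only [mem_preimage]
      rw [iso_mul, hh]
    rw [h2]
  -- the double integral
  have hd : Measurable (fun z : E n => ‖z‖⁻¹ • z) := dir_meas
  have hF : Measurable (fun p : E n × G n => S.indicator (fun _ => (1 : ℝ≥0∞))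
      (iso p.2 (‖p.1‖⁻¹ • p.1))) := by
    refine (measurable_const.indicator hS).comp ?_
    exact cont_act.measurable.comp (measurable_snd.prodMk (hd.comp measurable_fst))
  have h3 : ∫⁻ z in ball (0 : E n) 1, (∫⁻ g, S.indicator (fun _ => (1 : ℝ≥0∞))
      (iso g (‖z‖⁻¹ • z)) ∂(haarG n)) = ∫⁻ g, (∫⁻ z in ball (0 : E n) 1,
        S.indicator (fun _ => (1 : ℝ≥0∞)) (iso g (‖z‖⁻¹ • z))) ∂(haarG n) :=
    lintegral_lintegral_swap hF.aemeasurable
  have h4 : ∀ g : G n, ∫⁻ z in ball (0 : E n) 1,
      S.indicator (fun _ => (1 : ℝ≥0∞)) (iso g (‖z‖⁻¹ • z)) =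
      ∫⁻ z in ball (0 : E n) 1, S.indicator (fun _ => (1 : ℝ≥0∞)) (‖z‖⁻¹ • z) := by
    intro g
    have h5 := (iso g).measurePreserving.setLIntegral_comp_preimage_emb
      ((iso g).toHomeomorph.measurableEmbedding)
      (fun z => S.indicator (fun _ => (1 : ℝ≥0∞)) (‖z‖⁻¹ • z)) (ball 0 1)
    have h6 : (iso g) ⁻¹' ball (0 : E n) 1 = ball 0 1 := by
      ext z
      simp
    rw [h6] at h5
    rw [← h5]
    refine lintegral_congr fun z => ?_
    rw [(iso g).norm_map, map_smul]
  have h7 : ∀ᵐ z ∂(volume.restrict (ball (0 : E n) 1)), (∫⁻ g, S.indicator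
      (fun _ => (1 : ℝ≥0∞)) (iso g (‖z‖⁻¹ • z)) ∂(haarG n)) =
      haarG n ((fun g => iso g x) ⁻¹' S) := by
    have h8 : ∀ᵐ z ∂(volume.restrict (ball (0 : E n) 1)), z ≠ 0 := by
      refine ae_restrict_of_ae ?_
      rw [ae_iff]
      simp
    filter_upwards [h8] with z hz
    have hz1 : ‖(‖z‖⁻¹ • z)‖ = 1 := by
      rw [norm_smul, norm_inv, norm_norm, inv_mul_cancel₀ (norm_ne_zero_iff.2 hz)]
    rw [← h1 _ hz1, ← lintegral_indicator_one (hmx _ hS)]
    rfl
  rw [lintegral_congr_ae h7, lintegral_const, lintegral_congr fun g => h4 g, lintegral_const,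
    measure_univ (μ := haarG n), mul_one, Measure.restrict_apply_univ] at h3
  have h9 : ∫⁻ z in ball (0 : E n) 1, S.indicator (fun _ => (1 : ℝ≥0∞)) (‖z‖⁻¹ • z) =
      ((volume.restrict (ball (0 : E n) 1)).map fun z => ‖z‖⁻¹ • z) S := by
    rw [Measure.map_apply hd hS, ← lintegral_indicator_one (hd hS)]
    rfl
  rw [h9] at h3
  unfold unif
  rw [Measure.smul_apply, smul_eq_mul, ← h3, mul_comm, mul_assoc, ENNReal.mul_inv_cancel hB0 hBt,
    mul_one]

end Pool.Agent.R760.KN
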