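import Pool.Agent.R760.KN1

/-! MP_b5f63d_co: measures of caps. -/

set_option autoImplicit false

open MeasureTheory Metric Set Filter Topology

open scoped RealInnerProductSpace ENNReal

namespace Pool.Agent.R760.KN

variable {n : ℕ}

/-- the volume of the unit ball -/
noncomputable def vb (n : ℕ) : ℝ := volume.real (ball (0 : E n) 1)

lemma vb_pos (hn : 0 < n) : 0 < vb n := by
  have : NeZero n := ⟨hn.ne'⟩
  exact ENNReal.toReal_pos (measure_ball_pos _ _ one_pos).ne' measure_ball_lt_top.ne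

lemma vol_cb (hn : 0 < n) (c : E n) {r : ℝ} (hr : 0 ≤ r) :
    volume.real (closedBall c r) = r ^ n * vb n := by
  have : NeZero n := ⟨hn.ne'⟩
  unfold vb
  rw [measureReal_def, measureReal_def, Measure.addHaar_closedBall _ _ hr, ENNReal.toReal_mul,
    finrank_euclideanSpace_fin, ENNReal.toReal_ofReal (by positivity)]

instance unif_prob [NeZero n] : IsProbabilityMeasure (unif n) := by
  have hn : 0 < n := Nat.pos_of_ne_zero (NeZero.ne n)
  constructor
  unfold unif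
  rw [Measure.smul_apply, Measure.map_apply dir_meas MeasurableSet.univ, preimage_univ,
    Measure.restrict_apply_univ, smul_eq_mul]
  exact ENNReal.inv_mul_cancel (measure_ball_pos _ _ one_pos).ne' measure_ball_lt_top.ne

lemma unif_real (hn : 0 < n) {S : Set (E n)} (hS : MeasurableSet S) :
    (unif n).real S = volume.real ({z : E n | ‖z‖⁻¹ • z ∈ S} ∩ ball 0 1) / vb n := by
  have : NeZero n := ⟨hn.ne'⟩
  unfold unif vb
  rw [measureReal_def, Measure.smul_apply, Measure.map_apply dir_meas hS,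
    Measure.restrict_apply (dir_meas hS), smul_eq_mul, ENNReal.toReal_mul, ENNReal.toReal_inv,
    measureReal_def, measureReal_def, div_eq_inv_mul]
  rfl

lemma unif_ae (n : ℕ) : ∀ᵐ x ∂(unif n), ‖x‖ = 1 ∨ n = 0 := by
  rcases Nat.eq_zero_or_pos n with h | hn
  · exact Eventually.of_forall fun x => Or.inr h
  have : NeZero n := ⟨hn.ne'⟩
  unfold unif
  refine Measure.ae_smul_measure ?_ _
  refine (ae_map_iff dir_meas.aemeasurable ?_).2 ?_
  · exact (measurableSet_eq_fun measurable_norm measurable_const).union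
      (MeasurableSet.const _)
  · refine ae_restrict_of_ae ?_
    have h8 : ∀ᵐ z ∂(volume : Measure (E n)), z ≠ 0 := by
      rw [ae_iff]
      simp
    filter_upwards [h8] with z hz
    left
    rw [norm_smul, norm_inv, norm_norm, inv_mul_cancel₀ (norm_ne_zero_iff.2 hz)]

lemma unif_ae' (hn : 0 < n) : ∀ᵐ x ∂(unif n), ‖x‖ = 1 := by
  filter_upwards [unif_ae n] with x hx
  rcases hx with h | h
  · exact h
  · omega

lemma cap_closed (c : ℝ) (w : E n) : IsClosed {x : E n | c ≤ ⟪x, w⟫} :=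
  isClosed_le continuous_const (by fun_prop)

lemma cap_meas (c : ℝ) (w : E n) : MeasurableSet {x : E n | c ≤ ⟪x, w⟫} :=
  (cap_closed c w).measurableSet

lemma dir_inner {z w : E n} {c : ℝ} (hz : z ≠ 0) :
    c ≤ ⟪‖z‖⁻¹ • z, w⟫ ↔ c * ‖z‖ ≤ ⟪z, w⟫ := by
  have h : 0 < ‖z‖ := norm_pos_iff.2 hz
  rw [real_inner_smul_left, inv_mul_eq_div, le_div_iff₀ h]

/-- measures of caps: upper bound -/
lemma cap_upper (hn : 0 < n) {w : E n} (hw : ‖w‖ = 1) {c T : ℝ} (hc : 0 ≤ c) (hc2 : c ^ 2 ≤ 1 / 2)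
    (hT : 0 ≤ T) (hT2 : 1 - c ^ 2 ≤ T ^ 2) : (unif n).real {x : E n | c ≤ ⟪x, w⟫} ≤ T ^ n := by
  have : NeZero n := ⟨hn.ne'⟩
  rw [unif_real hn (cap_meas c w), div_le_iff₀ (vb_pos hn), ← vol_cb hn (c • w) hT]
  refine measureReal_mono ?_ (isCompact_closedBall _ _).measure_lt_top.ne
  rintro z ⟨hz, hz1⟩
  rw [mem_ball_zero_iff] at hz1
  rw [mem_closedBall, dist_eq_norm]
  have h0 : c * ‖z‖ ≤ ⟪z, w⟫ := by
    rcases eq_or_ne z 0 with h | h
    · rw [h]; simp
    · exact (dir_inner h).1 hz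
  have h2 : ‖z - c • w‖ ^ 2 ≤ T ^ 2 := by
    rw [norm_sub_sq_real, norm_smul, hw, inner_smul_right, Real.norm_eq_abs, mul_one, sq_abs]
    refine le_trans ?_ hT2
    have h3 : c * (c * ‖z‖) ≤ c * ⟪z, w⟫ := mul_le_mul_of_nonneg_left h0 hc
    have h4 : 0 ≤ ‖z‖ := norm_nonneg z
    nlinarith [mul_nonneg h4 (sub_nonneg.2 hz1.le),
      mul_nonneg (sub_nonneg.2 hc2) (sub_nonneg.2 hz1.le)]
  exact (pow_le_pow_iff_left₀ (norm_nonneg _) hT (by norm_num)).1 h2

/-- slabs of a half ball -/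
lemma slab_lower (hn : 0 < n) {p : E n} (hp : ‖p‖ = 1) {ρ : ℝ} (hρ : 0 < ρ) {N : ℕ}
    (hN : 0 < N) : ρ ^ n * vb n / (2 * N) ≤
      volume.real ({y : E n | 0 ≤ ⟪y, p⟫ ∧ ⟪y, p⟫ ≤ ρ / N} ∩ closedBall 0 ρ) := by
  have : NeZero n := ⟨hn.ne'⟩
  have hN' : (0 : ℝ) < N := by exact_mod_cast hN
  set δ : ℝ := ρ / N with hδ
  have hδ0 : 0 < δ := by positivity
  have hfin : ∀ S : Set (E n), volume (S ∩ closedBall 0 ρ) ≠ ∞ := fun S =>
    ((measure_mono inter_subset_right).trans_lt (isCompact_closedBall _ _).measure_lt_top).ne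
  set S : ℕ → Set (E n) := fun j => {y : E n | j * δ ≤ ⟪y, p⟫ ∧ ⟪y, p⟫ ≤ (j + 1) * δ} ∩
    closedBall 0 ρ with hS
  have hS0 : S 0 = {y : E n | 0 ≤ ⟪y, p⟫ ∧ ⟪y, p⟫ ≤ ρ / N} ∩ closedBall 0 ρ := by
    simp [hS, hδ]
  rw [← hS0]
  -- each slab is smaller than the first one
  have h1 : ∀ j, volume.real (S j) ≤ volume.real (S 0) := by
    intro j
    have h2 : S j ⊆ (fun y => -((j * δ) • p) + y) ⁻¹' S 0 := by
      rintro y ⟨⟨h3, h4⟩, h5⟩
      rw [mem_closedBall_zero_iff] at h5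
      have h6 : ⟪-((j * δ) • p) + y, p⟫ = ⟪y, p⟫ - j * δ := by
        rw [inner_add_left, inner_neg_left, real_inner_smul_left, real_inner_self_eq_norm_sq, hp]
        ring
      have hj : (0 : ℝ) ≤ j := Nat.cast_nonneg j
      refine ⟨⟨?_, ?_⟩, ?_⟩
      · rw [h6]; push_cast; linarith
      · rw [h6]; push_cast; linarith
      · rw [mem_closedBall_zero_iff]
        refine (pow_le_pow_iff_left₀ (norm_nonneg _) hρ.le (by norm_num : (2 : ℕ) ≠ 0)).1 ?_
        have h7 : ‖-((j * δ) • p) + y‖ ^ 2 = ‖y‖ ^ 2 - 2 * (j * δ) * ⟪y, p⟫ + (j * δ) ^ 2 := by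
          rw [neg_add_eq_sub, norm_sub_sq_real, norm_smul, hp, inner_smul_right,
            Real.norm_eq_abs, mul_one, sq_abs]
          ring
        rw [h7]
        have h8 := pow_le_pow_left₀ (norm_nonneg _) h5 2
        have h9 : 0 ≤ j * δ := by positivity
        nlinarith [mul_nonneg h9 h9, mul_le_mul_of_nonneg_left h3 h9]
    refine (measureReal_mono h2 ?_).trans (le_of_eq ?_)
    · rw [measure_preimage_add]
      exact hfin _
    · rw [measureReal_def, measureReal_def, measure_preimage_add]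
  -- the half ball
  have h2 : ({y : E n | 0 ≤ ⟪y, p⟫} ∩ closedBall 0 ρ) ⊆ ⋃ j ∈ Finset.range N, S j := by
    rintro y ⟨h3, h4⟩
    rw [mem_closedBall_zero_iff] at h4
    rw [mem_ofPred_eq] at h3
    have h5 : ⟪y, p⟫ ≤ ρ := by
      have := real_inner_le_norm y p
      rw [hp, mul_one] at this
      exact this.trans h4
    have h6 : ⟪y, p⟫ ≤ N * δ := by rw [hδ]; field_simp; exact h5
    simp only [mem_iUnion, Finset.mem_range]
    by_cases h7 : ⟪y, p⟫ / δ < N
    · refine ⟨⌊⟪y, p⟫ / δ⌋₊, ?_, ⟨?_, ?_⟩, by rwa [mem_closedBall_zero_iff]⟩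
      · exact (Nat.floor_lt (by positivity)).2 h7
      · have := Nat.floor_le (show 0 ≤ ⟪y, p⟫ / δ by positivity)
        rwa [le_div_iff₀ hδ0] at this
      · have := (Nat.lt_floor_add_one (⟪y, p⟫ / δ)).le
        rwa [div_le_iff₀ hδ0] at this
    · rw [not_lt, le_div_iff₀ hδ0] at h7
      have h8 : ((N - 1 : ℕ) : ℝ) = N - 1 := by
        rw [Nat.cast_sub hN]; simp
      refine ⟨N - 1, by omega, ⟨?_, ?_⟩, by rwa [mem_closedBall_zero_iff]⟩
      · rw [h8]; nlinarith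
      · rw [h8]; linarith
  have h3 : volume.real ({y : E n | 0 ≤ ⟪y, p⟫} ∩ closedBall 0 ρ) ≤ N * volume.real (S 0) := by
    refine (measureReal_mono h2 ?_).trans ?_
    · refine ((measure_mono (t := closedBall 0 ρ) ?_).trans_lt
        (isCompact_closedBall _ _).measure_lt_top).ne
      exact iUnion₂_subset fun j _ => inter_subset_right
    · refine (measureReal_biUnion_finset_le _ _).trans ?_
      refine (Finset.sum_le_sum fun j _ => h1 j).trans ?_
      rw [Finset.sum_const, Finset.card_range, nsmul_eq_mul]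
  have h4 : ρ ^ n * vb n ≤ 2 * volume.real ({y : E n | 0 ≤ ⟪y, p⟫} ∩ closedBall 0 ρ) := by
    rw [← vol_cb hn 0 hρ.le]
    have h5 : closedBall (0 : E n) ρ ⊆ ({y : E n | 0 ≤ ⟪y, p⟫} ∩ closedBall 0 ρ) ∪
        (fun y => -y) ⁻¹' ({y : E n | 0 ≤ ⟪y, p⟫} ∩ closedBall 0 ρ) := by
      intro y hy
      rcases le_total 0 ⟪y, p⟫ with h | h
      · exact Or.inl ⟨h, hy⟩
      · refine Or.inr ⟨?_, ?_⟩
        · rw [mem_ofPred_eq, inner_neg_left]; linarith
        · rw [mem_closedBall_zero_iff, norm_neg]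
          exact mem_closedBall_zero_iff.1 hy
    have h6 : volume ((fun y : E n => -y) ⁻¹' ({y : E n | 0 ≤ ⟪y, p⟫} ∩ closedBall 0 ρ)) =
        volume ({y : E n | 0 ≤ ⟪y, p⟫} ∩ closedBall 0 ρ) :=
      Measure.measure_preimage_neg _ _
    have h7 : volume.real ((fun y : E n => -y) ⁻¹' ({y : E n | 0 ≤ ⟪y, p⟫} ∩ closedBall 0 ρ)) =
        volume.real ({y : E n | 0 ≤ ⟪y, p⟫} ∩ closedBall 0 ρ) := by
      rw [measureReal_def, h6, measureReal_def]
    refine (measureReal_mono h5 ?_).trans ?_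
    · refine (measure_union_lt_top (hfin _).lt_top ?_).ne
      rw [h6]
      exact (hfin _).lt_top
    · refine (measureReal_union_le _ _).trans ?_
      rw [h7]
      linarith
  rw [div_le_iff₀ (by positivity)]
  nlinarith

/-- measures of caps: lower bound -/
lemma cap_lower (hn : 0 < n) {p : E n} (hp : ‖p‖ = 1) {c s lam : ℝ} (hc : 0 ≤ c) (hs : 0 < s)
    (hcs : c ^ 2 + s ^ 2 = 1) (hlam : c ≤ lam * s) (hlam1 : lam < n) :
    (s * (1 - lam / n)) ^ n / (2 * n) ≤ (unif n).real {x : E n | c ≤ ⟪x, p⟫} := by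
  have : NeZero n := ⟨hn.ne'⟩
  have hn' : (0 : ℝ) < n := by exact_mod_cast hn
  set ρ : ℝ := s * (1 - lam / n) with hρ
  have h1 : 0 < 1 - lam / n := by
    rw [sub_pos, div_lt_one hn']; exact hlam1
  have hρ0 : 0 < ρ := by positivity
  rw [unif_real hn (cap_meas c p), le_div_iff₀ (vb_pos hn)]
  have h2 := slab_lower hn hp hρ0 hn
  have h3 : (fun z => -(c • p) + z) ⁻¹' ({y : E n | 0 ≤ ⟪y, p⟫ ∧ ⟪y, p⟫ ≤ ρ / n} ∩
      closedBall 0 ρ) ⊆ closedBall 0 1 ∩ {z : E n | ‖z‖⁻¹ • z ∈ {x : E n | c ≤ ⟪x, p⟫}} := by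
    rintro z ⟨⟨h4, h5⟩, h6⟩
    have h7 : ⟪-(c • p) + z, p⟫ = ⟪z, p⟫ - c := by
      rw [inner_add_left, inner_neg_left, real_inner_smul_left, real_inner_self_eq_norm_sq, hp]
      ring
    rw [h7] at h4 h5
    have h8 : ‖-(c • p) + z‖ ^ 2 = ‖z‖ ^ 2 - 2 * c * ⟪z, p⟫ + c ^ 2 := by
      rw [neg_add_eq_sub, norm_sub_sq_real, norm_smul, hp, inner_smul_right,
        Real.norm_eq_abs, mul_one, sq_abs]
      ring
    rw [mem_closedBall_zero_iff] at h6
    have h9 := pow_le_pow_left₀ (norm_nonneg _) h6 2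
    rw [h8] at h9
    have h10 : ‖z‖ ^ 2 ≤ 1 := by
      have h11 : 2 * c * (ρ / n) ≤ 2 * (lam * s) * (ρ / n) := by
        have : 0 ≤ ρ / n := by positivity
        nlinarith
      have h12 : ρ ^ 2 + 2 * (lam * s) * (ρ / n) ≤ s ^ 2 := by
        have h13 : ρ ^ 2 + 2 * (lam * s) * (ρ / n) = s ^ 2 * (1 - (lam / n) ^ 2) := by
          rw [hρ]; ring
        rw [h13]
        nlinarith [sq_nonneg (lam / n), sq_nonneg s, mul_nonneg (sq_nonneg s) (sq_nonneg (lam / n))]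
      nlinarith
    have h11 : ‖z‖ ≤ 1 := by
      have := norm_nonneg z
      nlinarith
    refine ⟨mem_closedBall_zero_iff.2 h11, ?_⟩
    rw [mem_ofPred_eq, mem_ofPred_eq]
    rcases eq_or_ne z 0 with hz | hz
    · rw [hz, inner_zero_left] at h4
      rw [hz, smul_zero, inner_zero_left]
      linarith
    · rw [dir_inner hz]
      nlinarith [norm_nonneg z]
  have h4 : volume.real ((fun z => -(c • p) + z) ⁻¹' ({y : E n | 0 ≤ ⟪y, p⟫ ∧
      ⟪y, p⟫ ≤ ρ / n} ∩ closedBall 0 ρ)) =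
      volume.real ({y : E n | 0 ≤ ⟪y, p⟫ ∧ ⟪y, p⟫ ≤ ρ / n} ∩ closedBall 0 ρ) := by
    rw [measureReal_def, measureReal_def, measure_preimage_add]
  rw [← h4] at h2
  have h5 : closedBall 0 1 ∩ {z : E n | ‖z‖⁻¹ • z ∈ {x : E n | c ≤ ⟪x, p⟫}} ⊆
      ({z : E n | ‖z‖⁻¹ • z ∈ {x : E n | c ≤ ⟪x, p⟫}} ∩ ball 0 1) ∪ sphere 0 1 := by
    rintro z ⟨h6, h7⟩
    rcases (mem_closedBall.1 h6).lt_or_eq with h | h
    · exact Or.inl ⟨h7, mem_ball.2 h⟩
    · exact Or.inr (mem_sphere.2 h)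
  have hfin : volume ({z : E n | ‖z‖⁻¹ • z ∈ {x : E n | c ≤ ⟪x, p⟫}} ∩ ball 0 1) < ∞ :=
    (measure_mono inter_subset_right).trans_lt measure_ball_lt_top
  have hsph : volume (sphere (0 : E n) 1) = 0 := Measure.addHaar_sphere _ _ _
  have h6 : volume.real ((fun z => -(c • p) + z) ⁻¹' ({y : E n | 0 ≤ ⟪y, p⟫ ∧
      ⟪y, p⟫ ≤ ρ / n} ∩ closedBall 0 ρ)) ≤
      volume.real ({z : E n | ‖z‖⁻¹ • z ∈ {x : E n | c ≤ ⟪x, p⟫}} ∩ ball 0 1) := by
    refine (measureReal_mono (h3.trans h5) ?_).trans ?_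
    · refine (measure_union_lt_top hfin ?_).ne
      rw [hsph]; exact ENNReal.zero_lt_top
    · refine (measureReal_union_le _ _).trans ?_
      rw [measureReal_def (s := sphere (0 : E n) 1), hsph]
      simp
  calc ρ ^ n / (2 * n) * vb n = ρ ^ n * vb n / (2 * n) := by ring
    _ ≤ _ := h2.trans h6

/-- averages over all rotations: if the values of `f` on all rotated copies of `X` have sum at
most `c` then `|X|` times the mean of `f` is at most `c` -/
theorem avg (hn : 0 < n) {f : E n → ℝ} (hf : Integrable f (unif n)) {X : Finset (E n)}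
    (hX : ∀ x ∈ X, ‖x‖ = 1) {c : ℝ} (h : ∀ g : G n, ∑ x ∈ X, f (iso g x) ≤ c) :
    X.card * ∫ x, f x ∂(unif n) ≤ c := by
  have hmx : ∀ y : E n, Measurable (fun g : G n => iso g y) := fun y =>
    (cont_act.comp (continuous_id.prodMk continuous_const)).measurable
  have h1 : ∀ x ∈ X, Integrable (fun g : G n => f (iso g x)) (haarG n) := by
    intro x hx
    have h2 := map_orbit hn (hX x hx)
    rw [← h2] at hf
    exact (integrable_map_measure hf.aestronglyMeasurable (hmx x).aemeasurable).1 hf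
  have h3 : ∀ x ∈ X, ∫ g, f (iso g x) ∂(haarG n) = ∫ x, f x ∂(unif n) := by
    intro x hx
    have h2 := map_orbit hn (hX x hx)
    rw [← h2] at hf ⊢
    exact (integral_map (hmx x).aemeasurable hf.aestronglyMeasurable).symm
  have h4 : ∫ g, ∑ x ∈ X, f (iso g x) ∂(haarG n) = X.card * ∫ x, f x ∂(unif n) := by
    rw [integral_finsetSum _ h1, Finset.sum_congr rfl h3, Finset.sum_const, nsmul_eq_mul]
  rw [← h4]
  have h5 : ∫ g, ∑ x ∈ X, f (iso g x) ∂(haarG n) ≤ ∫ _g, c ∂(haarG n) :=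
    integral_mono (integrable_finsetSum _ h1) (integrable_const _) h
  simpa using h5

end Pool.Agent.R760.KN
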