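import Pool.Agent.R760.VC2
import Pool.Agent.W48.KS.Final

/-! MP_dbfdb2_gt: volumes of Voronoi cells and kissing numbers. -/

open MeasureTheory Metric Filter Set
open scoped Topology InnerProductSpace

set_option linter.unusedSectionVars false

namespace Pool.Agent.R760.VC
open Pool.Agent.H818R2

/-- the kissing number of the unit ball of `ℝ^d`: the largest number of unit vectors with mutual
distances at least one -/
noncomputable def kiss (d : ℕ) : ℕ :=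
  sSup {k | ∃ C : Finset (EuclideanSpace ℝ (Fin d)), (∀ x ∈ C, ‖x‖ = 1) ∧
    (∀ x ∈ C, ∀ y ∈ C, x ≠ y → 1 ≤ dist x y) ∧ C.card = k}

lemma kiss_bdd (d : ℕ) : BddAbove {k | ∃ C : Finset (EuclideanSpace ℝ (Fin d)),
    (∀ x ∈ C, ‖x‖ = 1) ∧ (∀ x ∈ C, ∀ y ∈ C, x ≠ y → 1 ≤ dist x y) ∧ C.card = k} := by
  classical
  refine ⟨3 ^ d, ?_⟩
  rintro k ⟨C, h1, h2, rfl⟩
  have hinj : Function.Injective (fun x : EuclideanSpace ℝ (Fin d) => (2 : ℝ) • x) :=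
    smul_right_injective _ (by norm_num)
  have h3 := card_le (P := C.image fun x => (2 : ℝ) • x) (c := 0) (R := 2) (by
    intro x hx y hy hxy
    obtain ⟨u, hu, rfl⟩ := Finset.mem_image.1 hx
    obtain ⟨v, hv, rfl⟩ := Finset.mem_image.1 hy
    rw [dist_smul₀, Real.norm_of_nonneg (by norm_num)]
    have := h2 u hu v hv (fun h => hxy (by rw [h]))
    linarith) (by norm_num) (by
    intro x hx
    obtain ⟨u, hu, rfl⟩ := Finset.mem_image.1 hx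
    rw [dist_zero_right, norm_smul, Real.norm_of_nonneg (by norm_num), h1 u hu]
    norm_num)
  rw [Finset.card_image_of_injective _ hinj, finrank_euclideanSpace_fin] at h3
  have h4 : ((2 : ℝ) + 1) ^ d = ((3 ^ d : ℕ) : ℝ) := by push_cast; norm_num
  rw [h4] at h3
  exact_mod_cast h3

lemma le_kiss {d : ℕ} {C : Finset (EuclideanSpace ℝ (Fin d))} (h1 : ∀ x ∈ C, ‖x‖ = 1)
    (h2 : ∀ x ∈ C, ∀ y ∈ C, x ≠ y → 1 ≤ dist x y) : C.card ≤ kiss d :=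
  le_csSup (kiss_bdd d) ⟨C, h1, h2, rfl⟩

lemma kiss_le {d : ℕ} {b : ℝ}
    (h : ∀ C : Finset (EuclideanSpace ℝ (Fin d)), (∀ x ∈ C, ‖x‖ = 1) →
      (∀ x ∈ C, ∀ y ∈ C, x ≠ y → 1 ≤ dist x y) → (C.card : ℝ) ≤ b) : (kiss d : ℝ) ≤ b := by
  obtain ⟨C, h1, h2, h3⟩ := Nat.sSup_mem (s := {k | ∃ C : Finset (EuclideanSpace ℝ (Fin d)),
    (∀ x ∈ C, ‖x‖ = 1) ∧ (∀ x ∈ C, ∀ y ∈ C, x ≠ y → 1 ≤ dist x y) ∧ C.card = k})
    ⟨0, ∅, by simp, by simp, by simp⟩ (kiss_bdd d)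
  unfold kiss
  rw [← h3]
  exact h C h1 h2

/-- lifting a separated set in a ball of radius two to a kissing configuration -/
lemma lift_card {n : ℕ} (y : EuclideanSpace ℝ (Fin n)) (Q : Finset (EuclideanSpace ℝ (Fin n)))
    (hQ : Sep 2 Q) (hy : ∀ q ∈ Q, dist q y ≤ 2) : Q.card ≤ kiss (n + 1) := by
  classical
  set g : WithLp 2 (EuclideanSpace ℝ (Fin n) × ℝ) ≃ₗᵢ[ℝ] EuclideanSpace ℝ (Fin (n + 1)) :=
    ((stdOrthonormalBasis ℝ (WithLp 2 (EuclideanSpace ℝ (Fin n) × ℝ))).reindex (finCongr (by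
      rw [finrank_withLp, finrank_euclideanSpace_fin, Module.finrank_self]))).repr with hg
  set lift : EuclideanSpace ℝ (Fin n) → EuclideanSpace ℝ (Fin (n + 1)) :=
    fun x => g (WithLp.toLp 2 ((1 / 2 : ℝ) • (x - y), √(1 - ‖(1 / 2 : ℝ) • (x - y)‖ ^ 2))) with hlift
  have hinj : Function.Injective lift := by
    intro x z hxz
    have h1 := g.injective hxz
    have h2 : (1 / 2 : ℝ) • (x - y) = (1 / 2 : ℝ) • (z - y) := congrArg (fun p => p.fst) h1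
    exact sub_left_injective (smul_right_injective _ (by norm_num : (1 / 2 : ℝ) ≠ 0) h2)
  rw [← Finset.card_image_of_injective Q hinj]
  apply le_kiss
  · intro u hu
    obtain ⟨x, hx, rfl⟩ := Finset.mem_image.1 hu
    have h1 : ‖(1 / 2 : ℝ) • (x - y)‖ ≤ 1 := by
      rw [norm_smul, Real.norm_of_nonneg (by norm_num), ← dist_eq_norm]
      linarith [hy x hx]
    have h2 : 0 ≤ 1 - ‖(1 / 2 : ℝ) • (x - y)‖ ^ 2 := by
      nlinarith [norm_nonneg ((1 / 2 : ℝ) • (x - y))]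
    rw [hlift]
    simp only [LinearIsometryEquiv.norm_map]
    have h4 : ‖WithLp.toLp 2 ((1 / 2 : ℝ) • (x - y), √(1 - ‖(1 / 2 : ℝ) • (x - y)‖ ^ 2))‖ ^ 2 =
        ‖(1 / 2 : ℝ) • (x - y)‖ ^ 2 + ‖√(1 - ‖(1 / 2 : ℝ) • (x - y)‖ ^ 2)‖ ^ 2 :=
      WithLp.prod_norm_sq_eq_of_L2 _
    rw [Real.norm_eq_abs, sq_abs, Real.sq_sqrt h2] at h4
    have h5 : ‖WithLp.toLp 2 ((1 / 2 : ℝ) • (x - y),
        √(1 - ‖(1 / 2 : ℝ) • (x - y)‖ ^ 2))‖ ^ 2 = 1 := by rw [h4]; ring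
    exact (pow_eq_one_iff_of_nonneg (norm_nonneg _) (by norm_num)).1 h5
  · intro u hu v hv huv
    obtain ⟨x, hx, rfl⟩ := Finset.mem_image.1 hu
    obtain ⟨z, hz, rfl⟩ := Finset.mem_image.1 hv
    have hxz : x ≠ z := fun h => huv (by rw [h])
    rw [hlift]
    simp only [LinearIsometryEquiv.dist_map]
    have h2 : dist (WithLp.toLp 2 ((1 / 2 : ℝ) • (x - y), √(1 - ‖(1 / 2 : ℝ) • (x - y)‖ ^ 2)))
        (WithLp.toLp 2 ((1 / 2 : ℝ) • (z - y), √(1 - ‖(1 / 2 : ℝ) • (z - y)‖ ^ 2))) ^ 2 =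
        dist ((1 / 2 : ℝ) • (x - y)) ((1 / 2 : ℝ) • (z - y)) ^ 2 +
        dist (√(1 - ‖(1 / 2 : ℝ) • (x - y)‖ ^ 2)) (√(1 - ‖(1 / 2 : ℝ) • (z - y)‖ ^ 2)) ^ 2 :=
      dist_sq _ _
    have h3 : dist ((1 / 2 : ℝ) • (x - y)) ((1 / 2 : ℝ) • (z - y)) = 1 / 2 * dist x z := by
      rw [dist_smul₀, Real.norm_of_nonneg (by norm_num), dist_sub_right]
    have h4 := hQ x hx z hz hxz
    apply le_of_sq_le_sq _ dist_nonneg
    rw [h2, h3]
    nlinarith [sq_nonneg (dist (√(1 - ‖(1 / 2 : ℝ) • (x - y)‖ ^ 2))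
      (√(1 - ‖(1 / 2 : ℝ) • (z - y)‖ ^ 2)))]

theorem cell_kiss {n : ℕ} (hn : 10 ≤ n) {X : Set (EuclideanSpace ℝ (Fin n))}
    (hX : IsPacking X 1) {x : EuclideanSpace ℝ (Fin n)} (hx : x ∈ X) :
    ENNReal.ofReal (2 ^ n / (147456 * (n : ℝ) ^ 3 * kiss (n + 1))) *
      volume (ball (0 : EuclideanSpace ℝ (Fin n)) 1) ≤ volume (cell X x) :=
  cell_vol finrank_euclideanSpace_fin hn (fun y Q hQ hy => lift_card y Q hQ hy) hX hx

theorem cell_num : ∀ᶠ n : ℕ in atTop, ∀ X : Set (EuclideanSpace ℝ (Fin n)), IsPacking X 1 →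
    ∀ x ∈ X, ENNReal.ofReal ((2 : ℝ) ^ (6033 / 10000 * n : ℝ)) *
      volume (ball (0 : EuclideanSpace ℝ (Fin n)) 1) ≤ volume (cell X x) := by
  have h1 := (tendsto_add_atTop_nat 1).eventually Pool.Agent.W48.KS.codes_kiss
  have h2 : ∀ᶠ n : ℕ in atTop, (147456 * 2 : ℝ) * (n : ℝ) ^ 3 ≤ ((2 : ℝ) ^ (7 / 100000 : ℝ)) ^ n := by
    have h3 := tendsto_pow_const_div_const_pow_of_one_lt 3
      (Real.one_lt_rpow (x := 2) (z := 7 / 100000) (by norm_num) (by norm_num))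
    have h4 := h3.eventually (gt_mem_nhds (show (0 : ℝ) < 1 / (147456 * 2) by norm_num))
    filter_upwards [h4] with n hn
    rw [div_lt_iff₀ (by positivity)] at hn
    linarith
  filter_upwards [h1, h2, eventually_ge_atTop 10] with n hn1 hn2 hn3 X hX x hx
  refine le_trans ?_ (cell_kiss hn3 hX hx)
  apply mul_le_mul_left
  apply ENNReal.ofReal_le_ofReal
  have hk := kiss_le hn1
  have hn' : (10 : ℝ) ≤ n := by exact_mod_cast hn3
  have hk1 : (1 : ℝ) ≤ kiss (n + 1) := by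
    have := lift_card (0 : EuclideanSpace ℝ (Fin n)) {0} (by
      intro x hx y hy hxy; simp at hx hy; rw [hx, hy] at hxy; exact absurd rfl hxy) (by simp)
    rw [Finset.card_singleton] at this
    exact_mod_cast this
  have hn0 : (0 : ℝ) < (n : ℝ) ^ 3 := by positivity
  rw [le_div_iff₀ (by positivity)]
  have e1 : (2 : ℝ) ^ ((39663 / 100000 : ℝ) * ((n + 1 : ℕ) : ℝ)) ≤
      2 * (2 : ℝ) ^ ((39663 / 100000 : ℝ) * n) := by
    have e2 : (39663 / 100000 : ℝ) * ((n + 1 : ℕ) : ℝ) = 39663 / 100000 * n + 39663 / 100000 := by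
      push_cast; ring
    rw [e2, Real.rpow_add (by norm_num), mul_comm]
    apply mul_le_mul_of_nonneg_right _ (by positivity)
    calc (2 : ℝ) ^ (39663 / 100000 : ℝ) ≤ 2 ^ (1 : ℝ) :=
          Real.rpow_le_rpow_of_exponent_le (by norm_num) (by norm_num)
      _ = 2 := Real.rpow_one 2
  have e3 : ((2 : ℝ) ^ (7 / 100000 : ℝ)) ^ n = (2 : ℝ) ^ ((7 / 100000 : ℝ) * n) := by
    rw [← Real.rpow_natCast, ← Real.rpow_mul (by norm_num)]
  rw [e3] at hn2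
  calc (2 : ℝ) ^ (6033 / 10000 * n : ℝ) * (147456 * (n : ℝ) ^ 3 * kiss (n + 1))
      ≤ (2 : ℝ) ^ (6033 / 10000 * n : ℝ) * (147456 * (n : ℝ) ^ 3 *
        (2 * (2 : ℝ) ^ ((39663 / 100000 : ℝ) * n))) := by
        apply mul_le_mul_of_nonneg_left _ (by positivity)
        apply mul_le_mul_of_nonneg_left (hk.trans e1) (by positivity)
    _ = (2 : ℝ) ^ (6033 / 10000 * n : ℝ) * (2 : ℝ) ^ ((39663 / 100000 : ℝ) * n) *
        ((147456 * 2 : ℝ) * (n : ℝ) ^ 3) := by ring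
    _ ≤ (2 : ℝ) ^ (6033 / 10000 * n : ℝ) * (2 : ℝ) ^ ((39663 / 100000 : ℝ) * n) *
        (2 : ℝ) ^ ((7 / 100000 : ℝ) * n) := mul_le_mul_of_nonneg_left hn2 (by positivity)
    _ = (2 : ℝ) ^ (n : ℝ) := by
        rw [← Real.rpow_add (by norm_num), ← Real.rpow_add (by norm_num)]
        congr 1
        ring
    _ = 2 ^ n := Real.rpow_natCast 2 n

lemma three_le : (3 : ℝ) ≤ (2 : ℝ) ^ (317 / 200 : ℝ) := by
  have h1 : ((3 : ℝ)) ^ (200 : ℕ) ≤ ((2 : ℝ) ^ (317 / 200 : ℝ)) ^ (200 : ℕ) := by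
    rw [← Real.rpow_natCast ((2 : ℝ) ^ (317 / 200 : ℝ)), ← Real.rpow_mul (by norm_num)]
    have : (317 / 200 : ℝ) * ((200 : ℕ) : ℝ) = ((317 : ℕ) : ℝ) := by norm_num
    rw [this, Real.rpow_natCast, show (317 : ℕ) = 200 + 117 by norm_num, pow_add]
    norm_num
  exact le_of_pow_le_pow_left₀ (by norm_num) (by positivity) h1

lemma sqrt_num : √(27 / 8) ≤ (2 : ℝ) ^ (8775 / 10000 : ℝ) := by
  apply Real.sqrt_le_iff.2 ⟨by positivity, ?_⟩
  have h1 : ((2 : ℝ) ^ (8775 / 10000 : ℝ)) ^ 2 * 8 = ((2 : ℝ) ^ (317 / 200 : ℝ)) ^ 3 := by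
    rw [← Real.rpow_natCast, ← Real.rpow_natCast, ← Real.rpow_mul (by norm_num),
      ← Real.rpow_mul (by norm_num), show (8 : ℝ) = (2 : ℝ) ^ (3 : ℝ) by
        rw [show (3 : ℝ) = ((3 : ℕ) : ℝ) by norm_num, Real.rpow_natCast]; norm_num,
      ← Real.rpow_add (by norm_num)]
    norm_num
  have h2 := pow_le_pow_left₀ (by norm_num) three_le 3
  linarith

theorem small {n : ℕ} (hn : 0 < n) : ∃ F : Finset (EuclideanSpace ℝ (Fin n)),
    (0 : EuclideanSpace ℝ (Fin n)) ∈ F ∧ IsPacking (F : Set (EuclideanSpace ℝ (Fin n))) 1 ∧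
    ∀ X : Set (EuclideanSpace ℝ (Fin n)), ↑F ⊆ X →
      volume (cell X 0) ≤ ENNReal.ofReal ((2 : ℝ) ^ (8775 / 10000 * n : ℝ)) *
        volume (ball (0 : EuclideanSpace ℝ (Fin n)) 1) := by
  have : NeZero n := ⟨hn.ne'⟩
  obtain ⟨F, h0, hF, hc⟩ := small_cell (E := EuclideanSpace ℝ (Fin n))
  refine ⟨F, h0, ⟨one_pos, fun x hx y hy hxy => disj_of_sep (hF x hx y hy hxy)⟩, fun X hX => ?_⟩
  have h1 : cell X 0 ⊆ ball 0 (√(27 / 8)) := fun z hz => hc fun y hy => hz y (hX hy)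
  refine (measure_mono h1).trans ?_
  rw [Measure.addHaar_ball_of_pos _ _ (Real.sqrt_pos.2 (by norm_num)), finrank_euclideanSpace_fin]
  apply mul_le_mul_left
  apply ENNReal.ofReal_le_ofReal
  have h2 := pow_le_pow_left₀ (Real.sqrt_nonneg _) sqrt_num n
  refine h2.trans (le_of_eq ?_)
  rw [← Real.rpow_natCast, ← Real.rpow_mul (by norm_num)]

end Pool.Agent.R760.VC
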