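import Pool.Agent.R760.KN2
import Pool.Agent.R760.VC3

/-! MP_b5f63d_co: kissing configurations and density functions supported in caps. -/

set_option autoImplicit false

open MeasureTheory Metric Set Filter Topology

open scoped RealInnerProductSpace ENNReal

namespace Pool.Agent.R760.KN

variable {n : ℕ}

/-- `C` is a kissing configuration of `ℝ^n`: unit vectors, any two distinct ones at angular
distance at least `π / 3`. -/
def IsKissing (C : Finset (E n)) : Prop :=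
  (∀ x ∈ C, ‖x‖ = 1) ∧ ∀ x ∈ C, ∀ y ∈ C, x ≠ y → ⟪x, y⟫ ≤ 1 / 2

/-- The kissing number `τ(n)`. -/
noncomputable def tau (n : ℕ) : ℕ := sSup {k | ∃ C : Finset (E n), IsKissing C ∧ C.card = k}

lemma IsKissing.dist {C : Finset (E n)} (h : IsKissing C) : ∀ x ∈ C, ∀ y ∈ C, x ≠ y →
    1 ≤ dist x y := by
  intro x hx y hy hxy
  rw [dist_eq_norm]
  have h1 : ‖x - y‖ ^ 2 = 2 - 2 * ⟪x, y⟫ := by
    rw [norm_sub_sq_real, h.1 x hx, h.1 y hy]; ring
  have h2 := h.2 x hx y hy hxy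
  nlinarith [norm_nonneg (x - y)]

lemma IsKissing.subset {C D : Finset (E n)} (h : IsKissing C) (hD : D ⊆ C) : IsKissing D :=
  ⟨fun x hx => h.1 x (hD hx), fun x hx y hy => h.2 x (hD hx) y (hD hy)⟩

lemma isKissing_empty : IsKissing (∅ : Finset (E n)) := ⟨by simp, by simp⟩

lemma isKissing_singleton {x : E n} (hx : ‖x‖ = 1) : IsKissing {x} := by
  refine ⟨by simpa using hx, fun a ha b hb hab => ?_⟩
  rw [Finset.mem_singleton] at ha hb
  exact absurd (ha.trans hb.symm) hab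

lemma exists_bdd (n : ℕ) : ∃ N : ℕ, ∀ C : Finset (E n), IsKissing C → C.card ≤ N := by
  obtain ⟨N, hN⟩ := VC.kiss_bdd n
  exact ⟨N, fun C hC => hN ⟨C, hC.1, hC.dist, rfl⟩⟩

lemma tau_bdd (n : ℕ) : BddAbove {k | ∃ C : Finset (E n), IsKissing C ∧ C.card = k} := by
  obtain ⟨N, hN⟩ := exists_bdd n
  refine ⟨N, ?_⟩
  rintro _ ⟨C, hC, rfl⟩
  exact hN C hC

lemma le_tau {C : Finset (E n)} (h : IsKissing C) : C.card ≤ tau n :=
  le_csSup (tau_bdd n) ⟨C, h, rfl⟩

lemma exists_tau (n : ℕ) : ∃ C : Finset (E n), IsKissing C ∧ C.card = tau n :=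
  Nat.sSup_mem (s := {k | ∃ C : Finset (E n), IsKissing C ∧ C.card = k})
    ⟨0, ∅, isKissing_empty, rfl⟩ (tau_bdd n)

lemma isKissing_image {C : Finset (E n)} [DecidableEq (E n)] (h : IsKissing C)
    (g : E n ≃ₗᵢ[ℝ] E n) : IsKissing (C.image g) := by
  constructor
  · intro x hx
    obtain ⟨y, hy, rfl⟩ := Finset.mem_image.1 hx
    rw [g.norm_map]; exact h.1 y hy
  · intro x hx y hy hxy
    obtain ⟨x', hx', rfl⟩ := Finset.mem_image.1 hx
    obtain ⟨y', hy', rfl⟩ := Finset.mem_image.1 hy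
    rw [g.inner_map_map]
    exact h.2 x' hx' y' hy' (fun h => hxy (by rw [h]))

/-- A density function of angular radius `R` about the pole `p`: a function `f` on the sphere which
is integrable, vanishes at the points at angular distance more than `R` from `p`, and satisfies
`∑_{x ∈ X} f x ≤ 1` for all kissing configurations `X`. -/
structure IsLocal (R : ℝ) (p : E n) (f : E n → ℝ) : Prop where
  int : Integrable f (unif n)
  supp : ∀ x, ‖x‖ = 1 → ⟪x, p⟫ < Real.cos R → f x = 0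
  sum_le : ∀ X : Finset (E n), IsKissing X → ∑ x ∈ X, f x ≤ 1

/-- the greedy estimate -/
lemma greedy (hn : 0 < n) {f : E n → ℝ} (hf : Integrable f (unif n)) {W ε : ℝ} (hW : 0 ≤ W)
    (hε : 0 < ε) : ∀ (N : ℕ) (S : Set (E n)) (c : ℝ), MeasurableSet S → (∀ x ∈ S, ‖x‖ = 1) →
      (∀ x ∈ S, (unif n).real ({y | 1 / 2 < ⟪y, x⟫} ∩ S) ≤ W) →
      (∀ X : Finset (E n), IsKissing X → (X : Set (E n)) ⊆ S → X.card ≤ N) →
      (∀ X : Finset (E n), IsKissing X → (X : Set (E n)) ⊆ S → ∑ x ∈ X, f x ≤ c) →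
      ∫ x in S, max (f x) 0 ∂(unif n) ≤ (c + N * ε) * W := by
  classical
  have : NeZero n := ⟨hn.ne'⟩
  have hg : Integrable (fun x => max (f x) 0) (unif n) := hf.pos_part
  intro N
  induction N with
  | zero =>
    intro S c hS hS1 hWS hN hc
    have hem : S = ∅ := by
      by_contra hne
      obtain ⟨x, hx⟩ := Set.nonempty_iff_ne_empty.2 hne
      have := hN {x} (isKissing_singleton (hS1 x hx)) (by simpa using hx)
      simp at this
    have hc0 : 0 ≤ c := by simpa using hc ∅ isKissing_empty (by simp)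
    rw [hem]
    simp only [Measure.restrict_empty, integral_zero_measure]
    positivity
  | succ N ih =>
    intro S c hS hS1 hWS hN hc
    have hc0 : 0 ≤ c := by simpa using hc ∅ isKissing_empty (by simp)
    rcases S.eq_empty_or_nonempty with hem | hne
    · rw [hem]
      simp only [Measure.restrict_empty, integral_zero_measure]
      positivity
    -- the supremum
    have hle : ∀ x ∈ S, max (f x) 0 ≤ c := by
      intro x hx
      apply max_le _ hc0
      have := hc {x} (isKissing_singleton (hS1 x hx)) (by simpa using hx)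
      simpa using this
    set m : ℝ := sSup ((fun x => max (f x) 0) '' S) with hm
    have hbd : BddAbove ((fun x => max (f x) 0) '' S) := by
      refine ⟨c, ?_⟩
      rintro _ ⟨x, hx, rfl⟩
      exact hle x hx
    obtain ⟨_, ⟨x0, hx0, rfl⟩, hx0m⟩ := exists_lt_of_lt_csSup (hne.image _)
      (show m - ε < sSup ((fun x => max (f x) 0) '' S) by rw [← hm]; linarith)
    have hmle : ∀ x ∈ S, max (f x) 0 ≤ m := fun x hx => le_csSup hbd ⟨x, hx, rfl⟩
    have hm0 : 0 ≤ m := (le_max_right _ _).trans (hmle x0 hx0)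
    have hcap : MeasurableSet {y : E n | 1 / 2 < ⟪y, x0⟫} :=
      (isOpen_lt continuous_const (by fun_prop)).measurableSet
    set S' : Set (E n) := S \ {y : E n | 1 / 2 < ⟪y, x0⟫} with hS'
    have hS'm : MeasurableSet S' := hS.diff hcap
    have hS'sub : S' ⊆ S := sdiff_subset
    have hx01 : ‖x0‖ = 1 := hS1 x0 hx0
    have hins : ∀ X : Finset (E n), IsKissing X → (X : Set (E n)) ⊆ S' →
        x0 ∉ X ∧ IsKissing (insert x0 X) ∧ ((insert x0 X : Finset (E n)) : Set (E n)) ⊆ S := by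
      intro X hX hXS
      have hfar : ∀ x ∈ X, ⟪x, x0⟫ ≤ 1 / 2 := by
        intro x hx
        have := (hXS hx).2
        rw [mem_ofPred_eq, not_lt] at this
        exact this
      refine ⟨fun h => ?_, ⟨?_, ?_⟩, ?_⟩
      · have := hfar x0 h
        rw [real_inner_self_eq_norm_sq, hx01] at this; norm_num at this
      · intro a ha
        rw [Finset.mem_insert] at ha
        rcases ha with rfl | ha
        · exact hx01
        · exact hX.1 a ha
      · intro a ha b hb hab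
        rw [Finset.mem_insert] at ha hb
        rcases ha with rfl | ha <;> rcases hb with rfl | hb
        · exact absurd rfl hab
        · rw [real_inner_comm]; exact hfar b hb
        · exact hfar a ha
        · exact hX.2 a ha b hb hab
      · rw [Finset.coe_insert]
        exact insert_subset hx0 (hXS.trans hS'sub)
    have h1 := ih S' (c - max (f x0) 0) hS'm (fun x hx => hS1 x (hS'sub hx))
      (fun x hx => (measureReal_mono (inter_subset_inter_right _ hS'sub)
        (measure_lt_top _ _).ne).trans (hWS x (hS'sub hx)))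
      (fun X hX hXS => by
        obtain ⟨h2, h3, h4⟩ := hins X hX hXS
        have h5 := hN _ h3 h4
        rw [Finset.card_insert_of_notMem h2] at h5
        omega)
      (fun X hX hXS => by
        obtain ⟨h2, h3, h4⟩ := hins X hX hXS
        rcases le_total (f x0) 0 with h | h
        · rw [max_eq_right h, sub_zero]
          exact hc X hX (hXS.trans hS'sub)
        · rw [max_eq_left h]
          have h5 := hc _ h3 h4
          rw [Finset.sum_insert h2] at h5
          linarith)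
    have hsplit : ∫ x in S, max (f x) 0 ∂(unif n) =
        (∫ x in S ∩ {y : E n | 1 / 2 < ⟪y, x0⟫}, max (f x) 0 ∂(unif n)) +
          ∫ x in S', max (f x) 0 ∂(unif n) :=
      (integral_inter_add_sdiff hcap hg.integrableOn).symm
    have h2 : ∫ x in S ∩ {y : E n | 1 / 2 < ⟪y, x0⟫}, max (f x) 0 ∂(unif n) ≤ m * W := by
      have h3 : ∫ x in S ∩ {y : E n | 1 / 2 < ⟪y, x0⟫}, max (f x) 0 ∂(unif n) ≤
          ∫ _x in S ∩ {y : E n | 1 / 2 < ⟪y, x0⟫}, m ∂(unif n) := by
        apply setIntegral_mono_on hg.integrableOn _ (hS.inter hcap)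
          (fun x hx => hmle x hx.1)
        exact integrableOn_const (measure_lt_top _ _).ne
      rw [setIntegral_const, smul_eq_mul] at h3
      have h4 := hWS x0 hx0
      rw [inter_comm] at h4
      calc _ ≤ _ := h3
        _ = m * (unif n).real (S ∩ {y : E n | 1 / 2 < ⟪y, x0⟫}) := mul_comm _ _
        _ ≤ m * W := mul_le_mul_of_nonneg_left h4 hm0
    rw [hsplit]
    push_cast
    have h5 : m ≤ max (f x0) 0 + ε := by linarith
    have h6 : m * W ≤ (max (f x0) 0 + ε) * W := mul_le_mul_of_nonneg_right h5 hW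
    calc _ ≤ (max (f x0) 0 + ε) * W + (c - max (f x0) 0 + N * ε) * W := by linarith
      _ = _ := by ring

lemma greedy' (hn : 0 < n) {f : E n → ℝ} (hf : Integrable f (unif n))
    (hsum : ∀ X : Finset (E n), IsKissing X → ∑ x ∈ X, f x ≤ 1) {W : ℝ} (hW : 0 ≤ W)
    {S : Set (E n)} (hS : MeasurableSet S) (hS1 : ∀ x ∈ S, ‖x‖ = 1)
    (hWS : ∀ x ∈ S, (unif n).real ({y | 1 / 2 < ⟪y, x⟫} ∩ S) ≤ W) :
    ∫ x in S, max (f x) 0 ∂(unif n) ≤ W := by
  obtain ⟨N, hN⟩ := exists_bdd n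
  have key : ∀ ε : ℝ, 0 < ε → ∫ x in S, max (f x) 0 ∂(unif n) ≤ (1 + N * ε) * W := by
    intro ε hε
    exact greedy hn hf hW hε N S 1 hS hS1 hWS (fun X hX _ => hN X hX) (fun X hX _ => hsum X hX)
  apply le_of_forall_pos_le_add
  intro ε hε
  have h1 := key (ε / (N * W + 1)) (by positivity)
  refine h1.trans ?_
  have h2 : (N : ℝ) * (ε / (N * W + 1)) * W ≤ ε := by
    rw [mul_div_assoc', div_mul_eq_mul_div, div_le_iff₀ (by positivity)]
    nlinarith [mul_nonneg (Nat.cast_nonneg N : (0 : ℝ) ≤ N) hW]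
  linarith

/-- the lens: the points of a cap about `p` near a point `x` of its boundary -/
lemma lens (hn : 0 < n) {p x : E n} (hp : ‖p‖ = 1) (hx : ‖x‖ = 1) {u r : ℝ} (hu : 0 ≤ u)
    (hur : u ^ 2 + r ^ 2 = 1) (hr0 : 0 < r) (hr : 1 / 2 ≤ r ^ 2) (hxu : u ≤ ⟪x, p⟫)
    (hxu' : ⟪x, p⟫ ^ 2 - u ^ 2 ≤ 2 * r ^ 2 / n) {S : Set (E n)} (hS : ∀ y ∈ S, u ≤ ⟪y, p⟫) :
    (unif n).real ({y | 1 / 2 < ⟪y, x⟫} ∩ S) ≤ √(1 - 1 / (4 * r ^ 2) + 1 / n) ^ n := by
  have : NeZero n := ⟨hn.ne'⟩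
  have hn' : (0 : ℝ) < n := by exact_mod_cast hn
  set w : E n := (r ^ 2 - 1 / 2) • x + (u / 2) • p with hw
  set t : ℝ := ⟪x, p⟫ with ht
  have hα : 0 ≤ r ^ 2 - 1 / 2 := by linarith
  have hw2 : ‖w‖ ^ 2 = (r ^ 2 - 1 / 2) ^ 2 + (u / 2) ^ 2 + (r ^ 2 - 1 / 2) * u * t := by
    rw [hw, norm_add_sq_real, norm_smul, norm_smul, hx, hp, real_inner_smul_left,
      real_inner_smul_right, ← ht, Real.norm_of_nonneg hα, Real.norm_of_nonneg (by positivity)]
    ring
  have hw2le : ‖w‖ ^ 2 ≤ r ^ 2 / 4 * (1 + 2 / n) := by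
    rw [hw2]
    have h1 : u * (t - u) ≤ (t ^ 2 - u ^ 2) / 2 := by nlinarith [sq_nonneg (t - u)]
    have h2 : u * (t - u) ≤ r ^ 2 / n := by
      have : 2 * r ^ 2 / n = 2 * (r ^ 2 / n) := by ring
      linarith
    have h3 : r ^ 2 ≤ 1 := by nlinarith
    have h4 : (r ^ 2 - 1 / 2) * (u * (t - u)) ≤ (1 / 2) * (r ^ 2 / n) := by
      have h5 : 0 ≤ r ^ 2 / n := by positivity
      nlinarith
    have h6 : r ^ 2 / 4 * (1 + 2 / n) = r ^ 2 / 4 + 1 / 2 * (r ^ 2 / n) := by ring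
    rw [h6]
    have h7 : u ^ 2 = 1 - r ^ 2 := by linarith
    nlinarith
  have hw2pos : 0 < ‖w‖ ^ 2 := by
    rw [hw2]
    have h1 : 0 ≤ (r ^ 2 - 1 / 2) * u * t := by
      have : 0 ≤ t := hu.trans hxu
      positivity
    rcases hu.eq_or_lt with h | h
    · have h2 : r ^ 2 = 1 := by rw [← h] at hur; linarith
      rw [h2]
      nlinarith [sq_nonneg (u / 2)]
    · positivity
  have hwpos : 0 < ‖w‖ := by
    rcases (norm_nonneg w).eq_or_lt with h | h
    · rw [← h] at hw2pos; simp at hw2pos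
    · exact h
  set c : ℝ := 1 / (4 * √(r ^ 2 / 4 * (1 + 2 / n))) with hc
  have hq : 0 < r ^ 2 / 4 * (1 + 2 / n) := by positivity
  have hc0 : 0 < c := by positivity
  have hc2 : c ^ 2 = 1 / (4 * r ^ 2 * (1 + 2 / n)) := by
    rw [hc, div_pow, mul_pow, Real.sq_sqrt hq.le]
    field_simp
  have hle : ‖w‖ ≤ √(r ^ 2 / 4 * (1 + 2 / n)) := Real.le_sqrt_of_sq_le hw2le
  have hsub : {y | 1 / 2 < ⟪y, x⟫} ∩ S ⊆ {y : E n | c ≤ ⟪y, ‖w‖⁻¹ • w⟫} := by
    rintro y ⟨hy1, hy2⟩
    rw [mem_ofPred_eq] at hy1 ⊢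
    have h1 := hS y hy2
    have h2 : ⟪y, w⟫ = (r ^ 2 - 1 / 2) * ⟪y, x⟫ + (u / 2) * ⟪y, p⟫ := by
      rw [hw, inner_add_right, real_inner_smul_right, real_inner_smul_right]
    have h3 : 1 / 4 ≤ ⟪y, w⟫ := by
      rw [h2]
      nlinarith [mul_le_mul_of_nonneg_left hy1.le hα,
        mul_le_mul_of_nonneg_left h1 (show 0 ≤ u / 2 by positivity)]
    rw [real_inner_smul_right, inv_mul_eq_div, le_div_iff₀ hwpos]
    refine le_trans ?_ h3
    calc c * ‖w‖ ≤ c * √(r ^ 2 / 4 * (1 + 2 / n)) := mul_le_mul_of_nonneg_left hle hc0.le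
      _ = 1 / 4 := by
        rw [hc]
        have : √(r ^ 2 / 4 * (1 + 2 / n)) ≠ 0 := (Real.sqrt_pos.2 hq).ne'
        field_simp
  refine (measureReal_mono hsub (measure_lt_top _ _).ne).trans ?_
  have hnw : ‖(‖w‖⁻¹ • w)‖ = 1 := by
    rw [norm_smul, norm_inv, norm_norm, inv_mul_cancel₀ hwpos.ne']
  have h4 : 1 / (4 * r ^ 2) - 1 / n ≤ c ^ 2 := by
    rw [hc2]
    have h5 : 1 / (4 * r ^ 2) ≤ 1 / 2 := by
      apply one_div_le_one_div_of_le (by norm_num); linarith
    have h6 : 1 / (4 * r ^ 2 * (1 + 2 / n)) = 1 / (4 * r ^ 2) * (1 / (1 + 2 / n)) := by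
      rw [one_div_mul_one_div]
    have h7 : 1 - 2 / n ≤ 1 / (1 + 2 / (n : ℝ)) := by
      rw [le_div_iff₀ (by positivity)]
      nlinarith [sq_nonneg (2 / (n : ℝ))]
    rw [h6]
    have h8 : 0 ≤ 1 / (4 * r ^ 2) := by positivity
    have h9 := mul_le_mul_of_nonneg_left h7 h8
    have h10 : 1 / (4 * r ^ 2) * (2 / n) ≤ 1 / 2 * (2 / n) :=
      mul_le_mul_of_nonneg_right h5 (by positivity)
    have h11 : 1 / 2 * (2 / (n : ℝ)) = 1 / n := by ring
    rw [h11] at h10
    linarith [mul_sub (1 / (4 * r ^ 2)) 1 (2 / (n : ℝ))]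
  have h5 : c ^ 2 ≤ 1 / 2 := by
    rw [hc2]
    apply one_div_le_one_div_of_le (by norm_num)
    have : 0 ≤ 2 / (n : ℝ) := by positivity
    nlinarith
  have h6 : 0 ≤ 1 - 1 / (4 * r ^ 2) + 1 / n := by
    have h5 : 1 / (4 * r ^ 2) ≤ 1 / 2 := by
      apply one_div_le_one_div_of_le (by norm_num); linarith
    have : 0 ≤ 1 / (n : ℝ) := by positivity
    linarith
  refine cap_upper hn hnw hc0.le h5 (Real.sqrt_nonneg _) ?_
  rw [Real.sq_sqrt h6]
  linarith

end Pool.Agent.R760.KN
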