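import Pool.Agent.R760.KN3

/-! MP_b5f63d_co: bounds for density functions supported in caps. -/

set_option autoImplicit false

open MeasureTheory Metric Set Filter Topology

open scoped RealInnerProductSpace ENNReal

namespace Pool.Agent.R760.KN

variable {n : ℕ}

lemma h_num {n : ℕ} (hn : 0 < n) {h : ℝ} (h0 : 0 ≤ h) (h2 : 1 / 2 ≤ h ^ 2) {y : ℝ}
    (hy : y ≤ h ^ 2 + 1 / n) : √y ^ n ≤ Real.exp 1 * h ^ n := by
  have hn' : (1 : ℝ) ≤ n := by exact_mod_cast hn
  have h3 : √y ≤ h * Real.exp (1 / n) := by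
    apply Real.sqrt_le_iff.2
    refine ⟨by positivity, hy.trans ?_⟩
    rw [mul_pow, ← Real.exp_nat_mul]
    have h4 := Real.add_one_le_exp ((2 : ℕ) * (1 / (n : ℝ)))
    have h5 : h ^ 2 * ((2 : ℕ) * (1 / (n : ℝ)) + 1) ≤ h ^ 2 * Real.exp ((2 : ℕ) * (1 / (n : ℝ))) :=
      mul_le_mul_of_nonneg_left h4 (by positivity)
    refine le_trans ?_ h5
    push_cast
    have h7 : 0 < 1 / (n : ℝ) := by positivity
    nlinarith
  calc √y ^ n ≤ (h * Real.exp (1 / n)) ^ n := pow_le_pow_left₀ (Real.sqrt_nonneg _) h3 n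
    _ = Real.exp 1 * h ^ n := by
      rw [mul_pow, ← Real.exp_nat_mul, mul_comm]
      congr 2
      field_simp

lemma q_num {n : ℕ} (hn : 0 < n) : 1 - (1 / (1 + 1 / (n : ℝ))) ^ 2 ≤ 2 / n := by
  have hn' : (1 : ℝ) ≤ n := by exact_mod_cast hn
  have h1 : 1 / (1 + 1 / (n : ℝ)) = 1 - 1 / (n + 1) := by field_simp; ring
  rw [h1]
  have h2 : 1 / ((n : ℝ) + 1) ≤ 1 / n := one_div_le_one_div_of_le (by linarith) (by linarith)
  have h3 : (2 / n : ℝ) = 2 * (1 / n) := by ring
  rw [h3]
  nlinarith [sq_nonneg (1 / ((n : ℝ) + 1))]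

/-- the part of the sphere in the cap -/
def capS (p : E n) (a : ℝ) : Set (E n) := {x | ‖x‖ = 1 ∧ a ≤ ⟪x, p⟫}

lemma capS_meas (p : E n) (a : ℝ) : MeasurableSet (capS p a) :=
  ((isClosed_eq continuous_norm continuous_const).inter (cap_closed a p)).measurableSet

lemma capS_anti (p : E n) {a b : ℝ} (h : a ≤ b) : capS p b ⊆ capS p a :=
  fun _ hx => ⟨hx.1, h.trans hx.2⟩

/-- **The barrier** for density functions of angular radius `R`. -/
theorem local_upper (hn : 0 < n) {R : ℝ} (hR1 : Real.pi / 4 ≤ R) (hR2 : R ≤ Real.pi / 2)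
    {p : E n} (hp : ‖p‖ = 1) {f : E n → ℝ} (hf : IsLocal R p f) :
    ∫ x, f x ∂(unif n) ≤ Real.exp 1 * (n + 2) * √(1 - 1 / (4 * Real.sin R ^ 2)) ^ n := by
  have : NeZero n := ⟨hn.ne'⟩
  have hn' : (1 : ℝ) ≤ n := by exact_mod_cast hn
  have hpi := Real.pi_pos
  set s := Real.sin R with hs
  have hs0 : 0 < s := Real.sin_pos_of_pos_of_lt_pi (by linarith) (by linarith)
  have hs1 : s ≤ 1 := Real.sin_le_one R
  have hsin4 : √2 / 2 ≤ s := by
    rw [← Real.sin_pi_div_four]
    exact Real.sin_le_sin_of_le_of_le_pi_div_two (by linarith) hR2 hR1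
  have h22 : √(2 : ℝ) ^ 2 = 2 := Real.sq_sqrt (by norm_num)
  have hs2 : 1 / 2 ≤ s ^ 2 := by
    have := pow_le_pow_left₀ (by positivity) hsin4 2
    rw [div_pow, h22] at this
    linarith
  have hcos : 0 ≤ Real.cos R := Real.cos_nonneg_of_mem_Icc ⟨by linarith, hR2⟩
  have hsc : s ^ 2 + Real.cos R ^ 2 = 1 := Real.sin_sq_add_cos_sq R
  set h : ℝ := √(1 - 1 / (4 * s ^ 2)) with hh
  have h4s : 1 / (4 * s ^ 2) ≤ 1 / 2 := by
    apply one_div_le_one_div_of_le (by norm_num); linarith
  have hh2 : h ^ 2 = 1 - 1 / (4 * s ^ 2) := Real.sq_sqrt (by linarith)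
  have hh0 : 0 ≤ h := Real.sqrt_nonneg _
  have hh12 : 1 / 2 ≤ h ^ 2 := by rw [hh2]; linarith
  have hg : Integrable (fun x => max (f x) 0) (unif n) := hf.int.pos_part
  set q : ℝ := 1 + 1 / n with hq
  have hq1 : 1 < q := by rw [hq]; have : (0 : ℝ) < 1 / n := by positivity
                         linarith
  have hq0 : 0 < q := by linarith
  set r : ℕ → ℝ := fun j => s / q ^ j with hr
  have hr0 : ∀ j, 0 < r j := fun j => by simp only [hr]; positivity
  have hrs' : ∀ j, r j ≤ s := fun j => div_le_self hs0.le (one_le_pow₀ hq1.le)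
  have hrs : ∀ j, r (j + 1) = r j / q := fun j => by simp only [hr]; rw [pow_succ]; field_simp
  have hr21 : ∀ j, 0 ≤ 1 - r j ^ 2 := fun j => by
    have := pow_le_pow_left₀ (hr0 j).le ((hrs' j).trans hs1) 2
    linarith
  set u : ℕ → ℝ := fun j => √(1 - r j ^ 2) with hu
  have hu0 : ∀ j, 0 ≤ u j := fun j => Real.sqrt_nonneg _
  have hu2 : ∀ j, u j ^ 2 = 1 - r j ^ 2 := fun j => Real.sq_sqrt (hr21 j)
  have huR : u 0 = Real.cos R := by
    simp only [hu, hr, pow_zero, div_one]
    rw [show 1 - s ^ 2 = Real.cos R ^ 2 by linarith, Real.sqrt_sq hcos]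
  have hmono : ∀ j, u j ≤ u (j + 1) := by
    intro j
    apply Real.sqrt_le_sqrt
    have : r (j + 1) ≤ r j := by rw [hrs]; exact div_le_self (hr0 j).le hq1.le
    have := pow_le_pow_left₀ (hr0 (j + 1)).le this 2
    linarith
  set M : ℝ := Real.exp 1 * h ^ n with hM
  have hM0 : 0 ≤ M := by positivity
  -- one shell
  have hshell : ∀ j, 1 / 2 ≤ r j ^ 2 →
      ∫ x in capS p (u j) \ capS p (u (j + 1)), max (f x) 0 ∂(unif n) ≤ M := by
    intro j hj
    apply greedy' hn hf.int hf.sum_le hM0 ((capS_meas _ _).diff (capS_meas _ _))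
      (fun x hx => hx.1.1)
    rintro x ⟨⟨hx1, hx2⟩, hx3⟩
    have hx4 : ⟪x, p⟫ < u (j + 1) := by
      by_contra hcon
      exact hx3 ⟨hx1, not_lt.1 hcon⟩
    have hx0 : 0 ≤ ⟪x, p⟫ := (hu0 j).trans hx2
    have h1 := lens hn hp hx1 (hu0 j) (by rw [hu2]; ring) (hr0 j) hj hx2 (by
      have h2 := pow_le_pow_left₀ hx0 hx4.le 2
      rw [hu2] at h2
      rw [hu2]
      have h3 : r (j + 1) ^ 2 = r j ^ 2 * (1 / q) ^ 2 := by rw [hrs]; field_simp
      have h4 := q_num hn
      rw [← hq] at h4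
      have h5 := mul_le_mul_of_nonneg_left h4 (sq_nonneg (r j))
      have h6 : 2 * r j ^ 2 / n = r j ^ 2 * (2 / n) := by ring
      rw [h6]
      linarith) (S := capS p (u j) \ capS p (u (j + 1))) (fun y hy => hy.1.2)
    refine h1.trans ?_
    rw [hM]
    apply h_num hn hh0 hh12
    rw [hh2]
    have h2 : 1 / (4 * s ^ 2) ≤ 1 / (4 * r j ^ 2) := by
      apply one_div_le_one_div_of_le
      · have := hr0 j; positivity
      · have := pow_le_pow_left₀ (hr0 j).le (hrs' j) 2
        linarith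
    linarith
  -- telescoping
  have htel : ∀ J : ℕ, (∀ j < J, 1 / 2 ≤ r j ^ 2) →
      ∫ x in capS p (u 0), max (f x) 0 ∂(unif n) ≤
        (∫ x in capS p (u J), max (f x) 0 ∂(unif n)) + J * M := by
    intro J
    induction J with
    | zero => intro _; simp
    | succ J ih =>
      intro hJ
      have h1 := ih (fun j hj => hJ j (hj.trans (Nat.lt_succ_self J)))
      have h2 := hshell J (hJ J (Nat.lt_succ_self J))
      have h3 : ∫ x in capS p (u J), max (f x) 0 ∂(unif n) =
          (∫ x in capS p (u J) ∩ capS p (u (J + 1)), max (f x) 0 ∂(unif n)) +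
            ∫ x in capS p (u J) \ capS p (u (J + 1)), max (f x) 0 ∂(unif n) :=
        (integral_inter_add_sdiff (capS_meas _ _) hg.integrableOn).symm
      rw [inter_eq_right.2 (capS_anti p (hmono J))] at h3
      push_cast
      linarith
  -- the number of shells
  have hex : ∃ j, r j ^ 2 < 1 / 2 := by
    have h1 : Tendsto (fun j : ℕ => q ^ j) atTop atTop := tendsto_pow_atTop_atTop_of_one_lt hq1
    obtain ⟨j, hj⟩ := (h1.eventually (eventually_gt_atTop 2)).exists
    refine ⟨j, ?_⟩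
    have h2 : r j < 1 / 2 := by
      simp only [hr]; rw [div_lt_iff₀ (by positivity)]; linarith
    have := hr0 j
    nlinarith
  set J := Nat.find hex with hJ
  have hJ1 : r J ^ 2 < 1 / 2 := Nat.find_spec hex
  have hJ2 : ∀ j < J, 1 / 2 ≤ r j ^ 2 := fun j hj => not_lt.1 (Nat.find_min hex hj)
  have hJle : (J : ℝ) ≤ n + 1 := by
    rcases Nat.eq_zero_or_pos J with h0 | h0
    · rw [h0]; push_cast; positivity
    · obtain ⟨i, hi⟩ : ∃ i, J = i + 1 := ⟨J - 1, by omega⟩
      have h1 := hJ2 i (by omega)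
      have h3 : (q ^ i) ^ 2 ≤ 2 := by
        simp only [hr] at h1
        rw [div_pow, le_div_iff₀ (by positivity)] at h1
        nlinarith
      have h4 := one_add_mul_le_pow (show (-2 : ℝ) ≤ 1 / n by
        have : (0 : ℝ) < 1 / n := by positivity
        linarith) i
      rw [← hq] at h4
      have h5 : (0 : ℝ) ≤ i * (1 / n) := by positivity
      have h6 : (i : ℝ) * (1 / n) ≤ 1 := by nlinarith
      rw [mul_one_div, div_le_one (by linarith)] at h6
      rw [hi]; push_cast; linarith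
  -- the inner cap
  have hf1 : ∀ x, ‖x‖ = 1 → max (f x) 0 ≤ 1 := by
    intro x hx
    apply max_le _ zero_le_one
    have := hf.sum_le {x} (isKissing_singleton hx)
    simpa using this
  have hinner : ∫ x in capS p (u J), max (f x) 0 ∂(unif n) ≤ h ^ n := by
    have h1 : ∫ x in capS p (u J), max (f x) 0 ∂(unif n) ≤
        ∫ _x in capS p (u J), (1 : ℝ) ∂(unif n) := by
      apply setIntegral_mono_on hg.integrableOn
        (integrableOn_const (measure_lt_top _ _).ne) (capS_meas _ _)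
      intro x hx
      exact hf1 x hx.1
    rw [setIntegral_const, smul_eq_mul, mul_one] at h1
    refine h1.trans ?_
    have h2 : capS p (u J) ⊆ {x : E n | √2 / 2 ≤ ⟪x, p⟫} := by
      rintro x ⟨-, hx⟩
      refine le_trans ?_ hx
      apply Real.le_sqrt_of_sq_le
      rw [div_pow, h22]
      linarith
    refine (measureReal_mono h2 (measure_lt_top _ _).ne).trans ?_
    apply cap_upper hn hp (by positivity) _ hh0
    · rw [div_pow, h22]; linarith
    · rw [div_pow, h22]; norm_num
  have hfg : ∫ x, f x ∂(unif n) ≤ ∫ x, max (f x) 0 ∂(unif n) :=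
    integral_mono hf.int hg (fun x => le_max_left _ _)
  have hset : ∫ x in capS p (u 0), max (f x) 0 ∂(unif n) = ∫ x, max (f x) 0 ∂(unif n) := by
    apply setIntegral_eq_integral_of_ae_compl_eq_zero
    filter_upwards [unif_ae' hn] with x hx hx2
    have h1 : ⟪x, p⟫ < Real.cos R := by
      rw [← huR]
      by_contra hcon
      exact hx2 ⟨hx, not_lt.1 hcon⟩
    rw [hf.supp x hx h1, max_self]
  rw [← hset] at hfg
  have h1 := hfg.trans (htel J hJ2)
  have h2 : (J : ℝ) * M ≤ (n + 1) * M := mul_le_mul_of_nonneg_right hJle hM0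
  have h3 : h ^ n ≤ M := by
    rw [hM]
    have h4 : 0 ≤ h ^ n := by positivity
    have h5 : 1 ≤ Real.exp 1 := Real.one_le_exp (by norm_num)
    nlinarith
  calc ∫ x, f x ∂(unif n) ≤ _ := h1
    _ ≤ M + (n + 1) * M := by linarith
    _ = _ := by rw [hM]; ring

/-- **Soundness**: every density function gives an upper bound for the kissing number. -/
theorem sound (hn : 0 < n) {R : ℝ} {p : E n} {f : E n → ℝ} (hf : IsLocal R p f) :
    tau n * ∫ x, f x ∂(unif n) ≤ 1 := by
  classical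
  obtain ⟨C, hC, hCt⟩ := exists_tau n
  rw [← hCt]
  refine avg hn hf.int hC.1 fun g => ?_
  have h1 := hf.sum_le _ (isKissing_image hC (iso g))
  rwa [Finset.sum_image (iso g).injective.injOn] at h1

lemma tau_pos (hn : 0 < n) : 0 < tau n := by
  have : NeZero n := ⟨hn.ne'⟩
  obtain ⟨x, hx⟩ := exists_norm_eq (E n) zero_le_one
  have := le_tau (isKissing_singleton hx)
  rw [Finset.card_singleton] at this
  omega

/-- the indicator of a cap -/
theorem complete (hn : 0 < n) (R : ℝ) {p : E n} :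
    IsLocal R p ((capS p (Real.cos R)).indicator fun _ => (1 : ℝ) / tau n) ∧
    ∫ x, (capS p (Real.cos R)).indicator (fun _ => (1 : ℝ) / tau n) x ∂(unif n) =
      (unif n).real {x : E n | Real.cos R ≤ ⟪x, p⟫} / tau n := by
  classical
  have : NeZero n := ⟨hn.ne'⟩
  have ht : (0 : ℝ) < tau n := by exact_mod_cast tau_pos hn
  refine ⟨⟨?_, ?_, ?_⟩, ?_⟩
  · exact (integrable_const _).indicator (capS_meas _ _)
  · intro x _ hx2
    apply indicator_of_notMem
    rintro ⟨-, h⟩
    linarith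
  · intro X hX
    have h1 : ∑ x ∈ X, (capS p (Real.cos R)).indicator (fun _ => (1 : ℝ) / tau n) x ≤
        ∑ _x ∈ X, (1 : ℝ) / tau n := by
      apply Finset.sum_le_sum
      intro x _
      exact indicator_le_self' (fun _ _ => by positivity) x
    refine h1.trans ?_
    rw [Finset.sum_const, nsmul_eq_mul, mul_one_div, div_le_one ht]
    exact_mod_cast le_tau hX
  · rw [integral_indicator_const _ (capS_meas _ _), smul_eq_mul, mul_one_div]
    congr 1
    rw [measureReal_def, measureReal_def]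
    congr 1
    apply measure_congr
    filter_upwards [unif_ae' hn] with x hx
    apply propext
    exact ⟨fun h => h.2, fun h => ⟨hx, h⟩⟩

end Pool.Agent.R760.KN
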