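import Pool.Agent.R760.KN4

/-! MP_b5f63d_co: the best bounds given by density functions supported in caps. -/

set_option autoImplicit false

open MeasureTheory Metric Set Filter Topology

open scoped RealInnerProductSpace ENNReal

namespace Pool.Agent.R760.KN

variable {n : ℕ}

lemma half_lower (hn : 0 < n) (p : E n) : 1 / 2 ≤ (unif n).real {x : E n | 0 ≤ ⟪x, p⟫} := by
  have : NeZero n := ⟨hn.ne'⟩
  rw [unif_real hn (cap_meas 0 p), le_div_iff₀ (vb_pos hn)]
  set A : Set (E n) := {z : E n | ‖z‖⁻¹ • z ∈ {x : E n | 0 ≤ ⟪x, p⟫}} ∩ ball 0 1 with hA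
  have hfin : volume A < ∞ := (measure_mono inter_subset_right).trans_lt measure_ball_lt_top
  have h1 : ball (0 : E n) 1 ⊆ A ∪ (fun y => -y) ⁻¹' A := by
    intro z hz
    rcases le_total 0 ⟪‖z‖⁻¹ • z, p⟫ with h | h
    · exact Or.inl ⟨h, hz⟩
    · refine Or.inr ⟨?_, ?_⟩
      · rw [mem_ofPred_eq, mem_ofPred_eq, norm_neg, smul_neg, inner_neg_left]
        linarith
      · rw [mem_ball_zero_iff, norm_neg]
        exact mem_ball_zero_iff.1 hz
  have h6 : volume ((fun y : E n => -y) ⁻¹' A) = volume A := Measure.measure_preimage_neg _ _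
  have h7 : volume.real ((fun y : E n => -y) ⁻¹' A) = volume.real A := by
    rw [measureReal_def, h6, measureReal_def]
  have h2 : vb n ≤ volume.real A + volume.real ((fun y : E n => -y) ⁻¹' A) := by
    refine (measureReal_mono h1 ?_).trans (measureReal_union_le _ _)
    refine (measure_union_lt_top hfin ?_).ne
    rw [h6]; exact hfin
  rw [h7] at h2
  linarith

/-- **Rankin's function** -/
theorem rankin (hn : 10 ≤ n) {p : E n} (hp : ‖p‖ = 1) : ∃ f : E n → ℝ,
    IsLocal (Real.pi / 4) p f ∧ 1 / (1024 * (n : ℝ) ^ 2 * √2 ^ n) ≤ ∫ x, f x ∂(unif n) := by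
  classical
  have hn0 : 0 < n := by omega
  have : NeZero n := ⟨hn0.ne'⟩
  have hn' : (10 : ℝ) ≤ n := by exact_mod_cast hn
  have h22 : √(2 : ℝ) ^ 2 = 2 := Real.sq_sqrt (by norm_num)
  have hs20 : 0 < √(2 : ℝ) := Real.sqrt_pos.2 (by norm_num)
  set f : E n → ℝ := fun x => max (2 * √2 * ⟪x, p⟫ - 2) 0 with hf
  have hcont : Continuous f := by
    rw [hf]
    fun_prop
  have hint : Integrable f (unif n) := by
    refine Integrable.of_bound hcont.aestronglyMeasurable (2 * √2) ?_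
    filter_upwards [unif_ae' hn0] with x hx
    have h1 : ⟪x, p⟫ ≤ 1 := by
      have := real_inner_le_norm x p
      rwa [hx, hp, one_mul] at this
    rw [Real.norm_eq_abs, abs_of_nonneg (le_max_right _ _)]
    apply max_le
    · nlinarith
    · positivity
  refine ⟨f, ⟨hint, ?_, ?_⟩, ?_⟩
  · intro x _ hx
    rw [Real.cos_pi_div_four] at hx
    simp only [hf]
    apply max_eq_right
    nlinarith
  · intro X hX
    set Y := X.filter (fun x => √2 / 2 < ⟪x, p⟫) with hY
    have hYk : IsKissing Y := hX.subset (Finset.filter_subset _ _)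
    have h1 : ∑ x ∈ X, f x = ∑ x ∈ Y, (2 * √2 * ⟪x, p⟫ - 2) := by
      rw [hY, Finset.sum_filter]
      apply Finset.sum_congr rfl
      intro x _
      simp only [hf]
      split_ifs with h
      · exact max_eq_left (by nlinarith)
      · exact max_eq_right (by nlinarith)
    rw [h1, Finset.sum_sub_distrib, ← Finset.mul_sum, Finset.sum_const, nsmul_eq_mul]
    set m : ℝ := (Y.card : ℝ) with hm
    have hm0 : 0 ≤ m := Nat.cast_nonneg _
    set t : ℝ := ∑ x ∈ Y, ⟪x, p⟫ with ht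
    have h2 : t ^ 2 ≤ ‖∑ x ∈ Y, x‖ ^ 2 := by
      have h3 : t = ⟪∑ x ∈ Y, x, p⟫ := by rw [sum_inner]
      rw [h3]
      have := abs_real_inner_le_norm (∑ x ∈ Y, x) p
      rw [hp, mul_one] at this
      rw [← sq_abs]
      exact pow_le_pow_left₀ (abs_nonneg _) this 2
    have h3 : ‖∑ x ∈ Y, x‖ ^ 2 ≤ m * ((m + 1) / 2) := by
      rw [← real_inner_self_eq_norm_sq, sum_inner]
      have h4 : ∀ x ∈ Y, ⟪x, ∑ y ∈ Y, y⟫ ≤ (m + 1) / 2 := by
        intro x hx
        rw [inner_sum, ← Finset.sum_erase_add _ _ hx, real_inner_self_eq_norm_sq, hYk.1 x hx]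
        have h5 : ∑ y ∈ Y.erase x, ⟪x, y⟫ ≤ ∑ _y ∈ Y.erase x, (1 / 2 : ℝ) := by
          apply Finset.sum_le_sum
          intro y hy
          exact hYk.2 x hx y (Finset.mem_of_mem_erase hy) (Finset.ne_of_mem_erase hy).symm
        rw [Finset.sum_const, Finset.card_erase_of_mem hx, nsmul_eq_mul,
          Nat.cast_sub (Finset.card_pos.2 ⟨x, hx⟩)] at h5
        push_cast at h5
        linarith
      refine (Finset.sum_le_sum h4).trans (le_of_eq ?_)
      rw [Finset.sum_const, nsmul_eq_mul]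
    have h4 : 2 * √2 * t ≤ 2 * m + 1 := by
      apply le_of_sq_le_sq _ (by positivity)
      nlinarith
    linarith
  · -- the integral
    set c : ℝ := (1 + 1 / n) * (√2 / 2) with hc
    have hc0 : 0 < c := by positivity
    have hc2 : c ^ 2 = (1 + 1 / n) ^ 2 / 2 := by
      rw [hc, mul_pow, div_pow, h22]; ring
    have hn1 : (1 : ℝ) / n ≤ 1 / 10 := one_div_le_one_div_of_le (by norm_num) hn'
    have hn10 : (0 : ℝ) < 1 / n := by positivity
    set s : ℝ := √(1 - c ^ 2) with hs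
    have hs2 : s ^ 2 = 1 - c ^ 2 := Real.sq_sqrt (by rw [hc2]; nlinarith)
    have hs0 : 0 < s := Real.sqrt_pos.2 (by rw [hc2]; nlinarith)
    have h1 := cap_lower hn0 hp (lam := 2) hc0.le hs0 (by rw [hs2]; ring) (by
      apply le_of_sq_le_sq _ (by positivity)
      rw [hc2, mul_pow, hs2, hc2]
      nlinarith) (by linarith)
    have h2 : √2 / 2 * (1 - 5 / n) ≤ s * (1 - 2 / n) := by
      have h3 : √2 / 2 * (1 - 3 / n) ≤ s := by
        apply Real.le_sqrt_of_sq_le
        rw [mul_pow, div_pow, h22, hc2]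
        have h4 : (3 : ℝ) / n = 3 * (1 / n) := by ring
        rw [h4]
        nlinarith
      have h4 : (0 : ℝ) ≤ 1 - 2 / n := by
        have : (2 : ℝ) / n = 2 * (1 / n) := by ring
        rw [this]; linarith
      refine le_trans ?_ (mul_le_mul_of_nonneg_right h3 h4)
      rw [mul_assoc]
      apply mul_le_mul_of_nonneg_left _ (by positivity)
      have h5 : (1 - 3 / (n : ℝ)) * (1 - 2 / n) = 1 - 5 / n + 6 * (1 / n) ^ 2 := by ring
      rw [h5]
      nlinarith
    have h3 : 0 ≤ √2 / 2 * (1 - 5 / n) := by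
      have : (5 : ℝ) / n = 5 * (1 / n) := by ring
      rw [this]
      apply mul_nonneg (by positivity)
      linarith
    have h4 := pow_le_pow_left₀ h3 h2 n
    rw [mul_pow] at h4
    have h5 := VC.pow_low hn
    have h6 : (√2 / 2) ^ n = 1 / √2 ^ n := by
      have : √2 / 2 = 1 / √2 := by
        rw [div_eq_div_iff (by norm_num) hs20.ne']; nlinarith
      rw [this, div_pow, one_pow]
    rw [h6] at h4
    have h7 : 1 / √2 ^ n * (1 / 1024) ≤ (s * (1 - 2 / n)) ^ n :=
      (mul_le_mul_of_nonneg_left h5 (by positivity)).trans h4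
    have h8 : ∫ x, ({x : E n | c ≤ ⟪x, p⟫}).indicator (fun _ => (2 : ℝ) / n) x ∂(unif n) ≤
        ∫ x, f x ∂(unif n) := by
      apply integral_mono ((integrable_const _).indicator (cap_meas _ _)) hint
      intro x
      by_cases hx : x ∈ {x : E n | c ≤ ⟪x, p⟫}
      · rw [indicator_of_mem hx]
        rw [mem_ofPred_eq] at hx
        simp only [hf]
        apply le_max_of_le_left
        have h9 := mul_le_mul_of_nonneg_left hx (show 0 ≤ 2 * √2 by positivity)
        have h10 : 2 * √2 * c = 2 + 2 / n := by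
          rw [hc]
          calc 2 * √2 * ((1 + 1 / n) * (√2 / 2)) = √2 ^ 2 * (1 + 1 / n) := by ring
            _ = _ := by rw [h22]; ring
        linarith
      · rw [indicator_of_notMem hx]
        exact le_max_right _ _
    rw [integral_indicator_const _ (cap_meas _ _), smul_eq_mul] at h8
    refine le_trans ?_ h8
    refine le_trans ?_ (mul_le_mul_of_nonneg_right h1 (by positivity))
    calc 1 / (1024 * (n : ℝ) ^ 2 * √2 ^ n) =
          (1 / √2 ^ n * (1 / 1024)) / (2 * n) * (2 / n) := by field_simp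
      _ ≤ _ := by
        apply mul_le_mul_of_nonneg_right _ (by positivity)
        exact div_le_div_of_nonneg_right h7 (by positivity)

/-- The best upper bound for the kissing number of `ℝ^n` given by the density functions of angular
radius `R`: the infimum of `1 / ∫ f`, the integral with respect to the uniform probability measure
of the sphere. -/
noncomputable def localBound (n : ℕ) (R : ℝ) : ℝ :=
  sInf {β : ℝ | ∃ (p : E n) (f : E n → ℝ), ‖p‖ = 1 ∧ IsLocal R p f ∧ 0 < ∫ x, f x ∂(unif n) ∧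
    β = 1 / ∫ x, f x ∂(unif n)}

lemma mem_ge (hn : 0 < n) {R : ℝ} {β : ℝ}
    (hβ : ∃ (p : E n) (f : E n → ℝ), ‖p‖ = 1 ∧ IsLocal R p f ∧ 0 < ∫ x, f x ∂(unif n) ∧
    β = 1 / ∫ x, f x ∂(unif n)) : (tau n : ℝ) ≤ β := by
  obtain ⟨p, f, -, hf, hI, rfl⟩ := hβ
  rw [le_div_iff₀ hI]
  exact sound hn hf

lemma localBound_le (hn : 0 < n) {R : ℝ} {p : E n} (hp : ‖p‖ = 1) {f : E n → ℝ}
    (hf : IsLocal R p f) (hI : 0 < ∫ x, f x ∂(unif n)) :
    localBound n R ≤ 1 / ∫ x, f x ∂(unif n) :=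
  csInf_le ⟨tau n, fun _ h => mem_ge hn h⟩ ⟨p, f, hp, hf, hI, rfl⟩

lemma exists_pole (hn : 0 < n) : ∃ p : E n, ‖p‖ = 1 := by
  have : NeZero n := ⟨hn.ne'⟩
  exact exists_norm_eq (E n) zero_le_one

/-- the cap of radius `R` has positive measure -/
lemma cap_pos (hn : 0 < n) {R : ℝ} (hR : 0 < R) (hR2 : R ≤ Real.pi) {p : E n} (hp : ‖p‖ = 1) :
    0 < (unif n).real {x : E n | Real.cos R ≤ ⟪x, p⟫} := by
  have : NeZero n := ⟨hn.ne'⟩
  have hcos : Real.cos R < 1 := by
    have := Real.strictAntiOn_cos (left_mem_Icc.2 Real.pi_pos.le) ⟨hR.le, hR2⟩ hR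
    rwa [Real.cos_zero] at this
  rw [unif_real hn (cap_meas _ p)]
  refine div_pos ?_ (vb_pos hn)
  have hfin : volume ({z : E n | ‖z‖⁻¹ • z ∈ {x : E n | Real.cos R ≤ ⟪x, p⟫}} ∩ ball 0 1) ≠ ∞ :=
    ((measure_mono inter_subset_right).trans_lt measure_ball_lt_top).ne
  refine ENNReal.toReal_pos (fun h0 => ?_) hfin
  -- an open subset
  set U : Set (E n) := {z : E n | Real.cos R * ‖z‖ < ⟪z, p⟫} ∩ ball 0 1 with hU
  have hUo : IsOpen U := (isOpen_lt (by fun_prop) (by fun_prop)).inter isOpen_ball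
  have hUne : U.Nonempty := by
    refine ⟨(1 / 2 : ℝ) • p, ?_, ?_⟩
    · rw [mem_ofPred_eq, norm_smul, hp, real_inner_smul_left, real_inner_self_eq_norm_sq, hp]
      norm_num
      linarith
    · rw [mem_ball_zero_iff, norm_smul, hp]
      norm_num
  have h1 : U ⊆ {z : E n | ‖z‖⁻¹ • z ∈ {x : E n | Real.cos R ≤ ⟪x, p⟫}} ∩ ball 0 1 := by
    rintro z ⟨hz1, hz2⟩
    refine ⟨?_, hz2⟩
    have hz : z ≠ 0 := by
      rintro rfl
      simp at hz1
    rw [mem_ofPred_eq, mem_ofPred_eq, dir_inner hz]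
    exact (mem_ofPred_eq ▸ hz1).le
  exact (hUo.measure_pos volume hUne).ne' (measure_mono_null h1 h0)

lemma nonempty (hn : 0 < n) {R : ℝ} (hR : 0 < R) (hR2 : R ≤ Real.pi) :
    {β : ℝ | ∃ (p : E n) (f : E n → ℝ), ‖p‖ = 1 ∧ IsLocal R p f ∧ 0 < ∫ x, f x ∂(unif n) ∧
    β = 1 / ∫ x, f x ∂(unif n)}.Nonempty := by
  obtain ⟨p, hp⟩ := exists_pole hn
  have ht : (0 : ℝ) < tau n := by exact_mod_cast tau_pos hn
  refine ⟨_, p, _, hp, (complete hn R (p := p)).1, ?_, rfl⟩
  rw [(complete hn R (p := p)).2]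
  exact div_pos (cap_pos hn hR hR2 hp) ht

theorem tau_le (hn : 0 < n) {R : ℝ} (hR : 0 < R) (hR2 : R ≤ Real.pi) :
    (tau n : ℝ) ≤ localBound n R :=
  le_csInf (nonempty hn hR hR2) fun _ h => mem_ge hn h

theorem le_tau_div (hn : 0 < n) {R : ℝ} (hR : 0 < R) (hR2 : R ≤ Real.pi) {p : E n}
    (hp : ‖p‖ = 1) :
    localBound n R ≤ tau n / (unif n).real {x : E n | Real.cos R ≤ ⟪x, p⟫} := by
  have ht : (0 : ℝ) < tau n := by exact_mod_cast tau_pos hn
  have h1 := complete hn R (p := p)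
  have h2 : 0 < ∫ x, (capS p (Real.cos R)).indicator (fun _ => (1 : ℝ) / tau n) x ∂(unif n) := by
    rw [h1.2]
    exact div_pos (cap_pos hn hR hR2 hp) ht
  refine (localBound_le hn hp h1.1 h2).trans (le_of_eq ?_)
  rw [h1.2, one_div_div]

theorem half (hn : 0 < n) {R : ℝ} (hR : Real.pi / 2 ≤ R) (hR2 : R ≤ Real.pi) :
    localBound n R ≤ 2 * tau n := by
  have : NeZero n := ⟨hn.ne'⟩
  obtain ⟨p, hp⟩ := exists_pole hn
  have hpi := Real.pi_pos
  refine (le_tau_div hn (by linarith) hR2 hp).trans ?_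
  have h1 : 1 / 2 ≤ (unif n).real {x : E n | Real.cos R ≤ ⟪x, p⟫} := by
    refine (half_lower hn p).trans (measureReal_mono ?_ (measure_lt_top _ _).ne)
    intro x hx
    rw [mem_ofPred_eq] at hx ⊢
    exact (Real.cos_nonpos_of_pi_div_two_le_of_le hR (by linarith)).trans hx
  rw [div_le_iff₀ (by linarith)]
  have ht : (0 : ℝ) ≤ tau n := Nat.cast_nonneg _
  nlinarith

theorem ge (hn : 0 < n) {R : ℝ} (hR1 : Real.pi / 4 ≤ R) (hR2 : R ≤ Real.pi / 2) :
    1 / (Real.exp 1 * (n + 2) * √(1 - 1 / (4 * Real.sin R ^ 2)) ^ n) ≤ localBound n R := by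
  have hpi := Real.pi_pos
  apply le_csInf (nonempty hn (by linarith) (by linarith))
  rintro β ⟨p, f, hp, hf, hI, rfl⟩
  have h := local_upper hn hR1 hR2 hp hf
  exact one_div_le_one_div_of_le hI h

theorem rankin_bound (hn : 10 ≤ n) :
    localBound n (Real.pi / 4) ≤ 1024 * (n : ℝ) ^ 2 * √2 ^ n := by
  have hn0 : 0 < n := by omega
  have hn' : (10 : ℝ) ≤ n := by exact_mod_cast hn
  obtain ⟨p, hp⟩ := exists_pole hn0
  obtain ⟨f, hf, hI⟩ := rankin hn hp
  have hs20 : 0 < √(2 : ℝ) := Real.sqrt_pos.2 (by norm_num)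
  have h0 : 0 < 1 / (1024 * (n : ℝ) ^ 2 * √2 ^ n) := by positivity
  refine (localBound_le hn0 hp hf (h0.trans_le hI)).trans ?_
  have := one_div_le_one_div_of_le h0 hI
  rwa [one_div_one_div] at this

end Pool.Agent.R760.KN
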