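import Pool.Agent.R760.KN5

/-! MP_b5f63d_co: the scale of the density functions. -/

set_option autoImplicit false

open MeasureTheory Metric Set Filter Topology

open scoped RealInnerProductSpace ENNReal

namespace Pool.Agent.R760.KN

lemma log_three {n : ℕ} (hn : 3 ≤ n) : 1 ≤ Real.log n := by
  have hn' : (3 : ℝ) ≤ n := by exact_mod_cast hn
  rw [Real.le_log_iff_exp_le (by linarith)]
  exact (Real.exp_one_lt_d9.le.trans (by norm_num)).trans hn'

lemma root_bound {δ : ℝ} (h0 : 0 ≤ δ) (h1 : δ ≤ Real.pi / 4) :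
    √(1 - 1 / (4 * Real.sin (Real.pi / 2 - δ) ^ 2)) ≤ √3 / 2 * Real.exp (-(δ ^ 2 / 6)) := by
  have hpi := Real.pi_pos
  rw [Real.sin_pi_div_two_sub]
  have hc0 : 0 < Real.cos δ := Real.cos_pos_of_mem_Ioo ⟨by linarith, by linarith⟩
  have h2 : 1 + δ ^ 2 ≤ 1 / Real.cos δ ^ 2 := by
    have h3 : δ ≤ Real.tan δ := Real.le_tan h0 (by linarith)
    have h4 := Real.inv_one_add_tan_sq hc0.ne'
    have h5 : 1 / Real.cos δ ^ 2 = 1 + Real.tan δ ^ 2 := by
      rw [← h4, one_div, inv_inv]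
    rw [h5]
    nlinarith
  apply Real.sqrt_le_iff.2
  refine ⟨by positivity, ?_⟩
  rw [mul_pow, div_pow, Real.sq_sqrt (by norm_num), ← Real.exp_nat_mul]
  have h3 : ((2 : ℕ) : ℝ) * -(δ ^ 2 / 6) = -(δ ^ 2 / 3) := by push_cast; ring
  rw [h3]
  have h4 := Real.one_sub_le_exp_neg (δ ^ 2 / 3)
  have h5 : 1 / (4 * Real.cos δ ^ 2) = 1 / 4 * (1 / Real.cos δ ^ 2) := by ring
  rw [h5]
  linarith

lemma two_div_sqrt : (2 : ℝ) / √3 = (√3 / 2)⁻¹ := by rw [inv_div]

/-- the scale of the density functions -/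
theorem scale (A : ℕ) : ∃ c : ℝ, 0 < c ∧ ∀ᶠ n : ℕ in atTop, ∀ R : ℝ, Real.pi / 4 ≤ R →
    R ≤ Real.pi / 2 - c * √(Real.log n / n) →
    (n : ℝ) ^ A * (2 / √3) ^ n < localBound n R := by
  have hpi := Real.pi_pos
  set c : ℝ := √(6 * (A + 3)) with hc
  have hc0 : 0 < c := by positivity
  have hc2 : c ^ 2 = 6 * (A + 3) := Real.sq_sqrt (by positivity)
  refine ⟨c, hc0, ?_⟩
  filter_upwards [eventually_ge_atTop 3] with n hn R hR1 hR2
  have hn' : (3 : ℝ) ≤ n := by exact_mod_cast hn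
  have hl1 := log_three hn
  have hln : 0 ≤ √(Real.log n / n) := Real.sqrt_nonneg _
  have hs30 : 0 < √(3 : ℝ) := Real.sqrt_pos.2 (by norm_num)
  obtain ⟨δ, hδ⟩ : ∃ δ, δ = Real.pi / 2 - R := ⟨_, rfl⟩
  have hRδ : R = Real.pi / 2 - δ := by linarith
  have hδ1 : c * √(Real.log n / n) ≤ δ := by linarith
  have hδ0 : 0 ≤ δ := (by positivity : (0 : ℝ) ≤ c * √(Real.log n / n)).trans hδ1
  have hδ2 : δ ≤ Real.pi / 4 := by linarith
  have h1 := root_bound hδ0 hδ2
  rw [← hRδ] at h1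
  have h2 := ge (n := n) (by omega) hR1 (by linarith)
  refine lt_of_lt_of_le ?_ h2
  have hsin : 1 / 2 ≤ Real.sin R ^ 2 := by
    have h22 : √(2 : ℝ) ^ 2 = 2 := Real.sq_sqrt (by norm_num)
    have hsin4 : √2 / 2 ≤ Real.sin R := by
      rw [← Real.sin_pi_div_four]
      exact Real.sin_le_sin_of_le_of_le_pi_div_two (by linarith) (by linarith) hR1
    have := pow_le_pow_left₀ (by positivity) hsin4 2
    rw [div_pow, h22] at this
    linarith
  have hpos : 0 < √(1 - 1 / (4 * Real.sin R ^ 2)) := by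
    apply Real.sqrt_pos.2
    have : 1 / (4 * Real.sin R ^ 2) ≤ 1 / 2 := by
      apply one_div_le_one_div_of_le (by norm_num); linarith
    linarith
  have h3 := pow_le_pow_left₀ hpos.le h1 n
  have h4 : (√3 / 2 * Real.exp (-(δ ^ 2 / 6))) ^ n ≤ (√3 / 2) ^ n / n ^ (A + 3) := by
    rw [mul_pow, div_eq_mul_inv ((√3 / 2) ^ n)]
    apply mul_le_mul_of_nonneg_left _ (by positivity)
    rw [← Real.exp_nat_mul]
    have h5 : ((n : ℝ) ^ (A + 3))⁻¹ = Real.exp (-(((A + 3 : ℕ) : ℝ) * Real.log n)) := by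
      rw [Real.exp_neg, Real.exp_nat_mul, Real.exp_log (by linarith)]
    rw [h5]
    apply Real.exp_le_exp.2
    have h6 : (c * √(Real.log n / n)) ^ 2 ≤ δ ^ 2 := pow_le_pow_left₀ (by positivity) hδ1 2
    rw [mul_pow, hc2, Real.sq_sqrt (by positivity)] at h6
    have h7 : n * (6 * (A + 3) * (Real.log n / n)) ≤ n * δ ^ 2 :=
      mul_le_mul_of_nonneg_left h6 (by linarith)
    have h8 : (n : ℝ) * (6 * (A + 3) * (Real.log n / n)) = 6 * (A + 3) * Real.log n := by
      field_simp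
    rw [h8] at h7
    push_cast
    linarith
  have h5 := h3.trans h4
  have he : Real.exp 1 ≤ 3 := Real.exp_one_lt_d9.le.trans (by norm_num)
  have h6 : Real.exp 1 * (n + 2) ≤ n ^ 2 * 2 := by
    calc Real.exp 1 * (n + 2) ≤ 3 * (n + 2) := mul_le_mul_of_nonneg_right he (by linarith)
      _ ≤ (n : ℝ) ^ 2 * 2 := by nlinarith
  rw [lt_div_iff₀ (by positivity)]
  have h7 : Real.exp 1 * (n + 2) * √(1 - 1 / (4 * Real.sin R ^ 2)) ^ n ≤
      n ^ 2 * 2 * ((√3 / 2) ^ n / n ^ (A + 3)) :=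
    mul_le_mul h6 h5 (by positivity) (by positivity)
  calc (n : ℝ) ^ A * (2 / √3) ^ n *
        (Real.exp 1 * (n + 2) * √(1 - 1 / (4 * Real.sin R ^ 2)) ^ n) ≤
        (n : ℝ) ^ A * (2 / √3) ^ n * (n ^ 2 * 2 * ((√3 / 2) ^ n / n ^ (A + 3))) :=
        mul_le_mul_of_nonneg_left h7 (by positivity)
    _ = 2 / n := by
        rw [two_div_sqrt, inv_pow, pow_add]
        field_simp
    _ < 1 := by rw [div_lt_one (by linarith)]; linarith

/-- near the half sphere the method is complete up to a power of `n` -/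
theorem near {c : ℝ} (hc : 0 < c) : ∀ᶠ n : ℕ in atTop, ∀ R : ℝ,
    Real.pi / 2 - c * √(Real.log n / n) ≤ R → R ≤ Real.pi / 2 →
    localBound n R ≤ 8 * (n : ℝ) ^ (1 + c ^ 2) * tau n := by
  have hpi := Real.pi_pos
  have hlim : Tendsto (fun n : ℕ => Real.log n / n) atTop (𝓝 0) := by
    have h1 : Tendsto (fun x : ℝ => Real.log x / x) atTop (𝓝 0) := by
      simpa using Real.tendsto_pow_log_div_mul_add_atTop 1 0 1 one_ne_zero
    exact h1.comp tendsto_natCast_atTop_atTop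
  filter_upwards [eventually_ge_atTop 4,
    hlim.eventually (gt_mem_nhds (show (0 : ℝ) < 1 / (4 * c ^ 2) by positivity))] with
    n hn hlog R hR1 hR2
  have hn0 : 0 < n := by omega
  have : NeZero n := ⟨hn0.ne'⟩
  have hn' : (4 : ℝ) ≤ n := by exact_mod_cast hn
  have hl1 := log_three (show 3 ≤ n by omega)
  have ht : (0 : ℝ) < tau n := by exact_mod_cast tau_pos hn0
  obtain ⟨δ, hδ⟩ : ∃ δ, δ = Real.pi / 2 - R := ⟨_, rfl⟩
  have hRδ : R = Real.pi / 2 - δ := by linarith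
  have hδ0 : 0 ≤ δ := by linarith
  have hδ1 : δ ≤ c * √(Real.log n / n) := by linarith
  have hδsq : δ ^ 2 ≤ c ^ 2 * (Real.log n / n) := by
    have := pow_le_pow_left₀ hδ0 hδ1 2
    rwa [mul_pow, Real.sq_sqrt (by positivity)] at this
  have hδ2 : δ ≤ 1 / 2 := by
    have h1 : δ ^ 2 ≤ 1 / 4 := by
      refine hδsq.trans ?_
      have h2 := mul_le_mul_of_nonneg_left hlog.le (sq_nonneg c)
      have h3 : c ^ 2 * (1 / (4 * c ^ 2)) = 1 / 4 := by field_simp
      linarith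
    nlinarith
  have hδ3 : δ < Real.pi / 4 := by linarith [Real.pi_gt_three]
  obtain ⟨p, hp⟩ := exists_pole hn0
  refine (le_tau_div hn0 (by linarith) (by linarith) hp).trans ?_
  have hcosR : Real.cos R = Real.sin δ := by rw [hRδ, Real.cos_pi_div_two_sub]
  have hsin0 : 0 ≤ Real.sin δ := Real.sin_nonneg_of_nonneg_of_le_pi hδ0 (by linarith)
  have hcos0 : 0 < Real.cos δ := Real.cos_pos_of_mem_Ioo ⟨by linarith, by linarith⟩
  have hsc : Real.sin δ ≤ Real.cos δ := by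
    have h1 : Real.sin δ ≤ Real.sin (Real.pi / 4) :=
      Real.sin_le_sin_of_le_of_le_pi_div_two (by linarith) (by linarith) hδ3.le
    have h2 : Real.cos (Real.pi / 4) ≤ Real.cos δ :=
      Real.cos_le_cos_of_nonneg_of_le_pi hδ0 (by linarith) hδ3.le
    rw [Real.sin_pi_div_four] at h1
    rw [Real.cos_pi_div_four] at h2
    linarith
  rw [hcosR]
  have h1 := cap_lower hn0 hp (c := Real.sin δ) (s := Real.cos δ) (lam := 1) hsin0 hcos0
    (Real.sin_sq_add_cos_sq δ) (by rwa [one_mul]) (by linarith)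
  have h2 : (1 : ℝ) / 4 ≤ (1 - 1 / n) ^ n := by
    have h3 : (1 - 1 / (n : ℝ)) = (1 + 1 / ((n : ℝ) - 1))⁻¹ := by
      have h30 : (n : ℝ) - 1 ≠ 0 := by linarith
      have h31 : (n : ℝ) ≠ 0 := by linarith
      have h32 : 1 + 1 / ((n : ℝ) - 1) = n / (n - 1) := by field_simp; ring
      rw [h32, inv_div]
      field_simp
    have h4 : (1 - 1 / (n : ℝ)) ^ n = (1 - 1 / (n : ℝ)) ^ (n - 1) * (1 - 1 / n) := by
      rw [← pow_succ]; congr 1; omega
    rw [h4]
    have h5 : Real.exp (-1) ≤ (1 - 1 / (n : ℝ)) ^ (n - 1) := by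
      rw [h3, inv_pow, Real.exp_neg]
      apply inv_anti₀ (by
        have : (0 : ℝ) < (n : ℝ) - 1 := by linarith
        positivity)
      have h6 : 1 + 1 / ((n : ℝ) - 1) ≤ Real.exp (1 / ((n : ℝ) - 1)) := by
        have := Real.add_one_le_exp (1 / ((n : ℝ) - 1))
        linarith
      have h7 : (0 : ℝ) < (n : ℝ) - 1 := by linarith
      refine (pow_le_pow_left₀ (by positivity) h6 (n - 1)).trans (le_of_eq ?_)
      rw [← Real.exp_nat_mul]
      congr 1
      rw [Nat.cast_sub (by omega), Nat.cast_one]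
      field_simp
    have h6 : (1 : ℝ) / 3 ≤ Real.exp (-1) := by
      rw [Real.exp_neg]
      have := Real.exp_one_lt_d9
      rw [div_le_iff₀ (by norm_num), inv_mul_eq_div, le_div_iff₀ (Real.exp_pos _)]
      linarith
    have h7 : (3 : ℝ) / 4 ≤ 1 - 1 / n := by
      have : (1 : ℝ) / n ≤ 1 / 4 := one_div_le_one_div_of_le (by norm_num) hn'
      linarith
    calc (1 : ℝ) / 4 = 1 / 3 * (3 / 4) := by norm_num
      _ ≤ _ := mul_le_mul (h6.trans h5) h7 (by norm_num) (by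
        have : 0 < Real.exp (-1 : ℝ) := Real.exp_pos _
        exact (this.le.trans h5))
  have h3 : (n : ℝ) ^ (-c ^ 2) ≤ Real.cos δ ^ n := by
    have h4 : Real.exp (-δ ^ 2) ≤ Real.cos δ := by
      have h5 := Real.one_sub_sq_div_two_le_cos (x := δ)
      refine le_trans ?_ h5
      rw [Real.exp_neg]
      have h6 := Real.add_one_le_exp (δ ^ 2)
      have h7 : 0 < 1 + δ ^ 2 := by positivity
      have h8 : (Real.exp (δ ^ 2))⁻¹ ≤ (1 + δ ^ 2)⁻¹ := inv_anti₀ h7 (by linarith)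
      refine h8.trans ?_
      rw [inv_le_iff_one_le_mul₀ h7]
      have h9 : δ ^ 2 ≤ 1 := by nlinarith
      nlinarith [sq_nonneg δ, mul_nonneg (sq_nonneg δ) (sub_nonneg.2 h9)]
    refine le_trans ?_ (pow_le_pow_left₀ (Real.exp_pos _).le h4 n)
    rw [← Real.exp_nat_mul, Real.rpow_def_of_pos (by linarith)]
    apply Real.exp_le_exp.2
    have h5 : n * δ ^ 2 ≤ c ^ 2 * Real.log n := by
      have h6 := mul_le_mul_of_nonneg_left hδsq (show (0 : ℝ) ≤ n by linarith)
      have h7 : (n : ℝ) * (c ^ 2 * (Real.log n / n)) = c ^ 2 * Real.log n := by field_simp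
      linarith
    nlinarith
  have h4 : (n : ℝ) ^ (-c ^ 2) / (8 * n) ≤ (unif n).real {x : E n | Real.sin δ ≤ ⟪x, p⟫} := by
    refine le_trans ?_ h1
    rw [mul_pow]
    have h5 : (n : ℝ) ^ (-c ^ 2) * (1 / 4) ≤ Real.cos δ ^ n * (1 - 1 / n) ^ n :=
      mul_le_mul h3 h2 (by norm_num) (by positivity)
    calc (n : ℝ) ^ (-c ^ 2) / (8 * n) = (n : ℝ) ^ (-c ^ 2) * (1 / 4) / (2 * n) := by
          field_simp; norm_num
      _ ≤ _ := div_le_div_of_nonneg_right h5 (by positivity)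
  have h5 : 0 < (n : ℝ) ^ (-c ^ 2) / (8 * n) := by positivity
  calc (tau n : ℝ) / (unif n).real {x : E n | Real.sin δ ≤ ⟪x, p⟫} ≤
        tau n / ((n : ℝ) ^ (-c ^ 2) / (8 * n)) :=
        div_le_div_of_nonneg_left ht.le h5 h4
    _ = _ := by
      rw [Real.rpow_neg (by linarith), Real.rpow_add (by linarith), Real.rpow_one]
      field_simp

/-- density functions of angular radius at most `π / 4 + 0.08` -/
theorem small_radius : ∀ᶠ n : ℕ in atTop, ∀ R : ℝ, Real.pi / 4 ≤ R →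
    R ≤ Real.pi / 4 + 2 / 25 → (2 : ℝ) ^ (81 / 200 * n : ℝ) ≤ localBound n R := by
  have hpi := Real.pi_pos
  set b : ℝ := √(56897 / 100000) with hb
  have hb0 : 0 < b := Real.sqrt_pos.2 (by norm_num)
  have hb2 : b ^ 2 = 56897 / 100000 := Real.sq_sqrt (by norm_num)
  set a : ℝ := (2 : ℝ) ^ (81 / 200 : ℝ) with ha
  have ha0 : 0 < a := by positivity
  have ha5 : a ^ 200 = 2 ^ 81 := by
    rw [ha, ← Real.rpow_natCast, ← Real.rpow_mul (by norm_num)]
    have : (81 / 200 : ℝ) * ((200 : ℕ) : ℝ) = ((81 : ℕ) : ℝ) := by norm_num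
    rw [this, Real.rpow_natCast]
  have hab : a * b < 1 := by
    by_contra hcon
    rw [not_lt] at hcon
    have h1 := one_le_pow₀ hcon (n := 200)
    have h2 : (a * b) ^ 200 = a ^ 200 * (b ^ 2) ^ 100 := by ring
    rw [h2, ha5, hb2] at h1
    norm_num at h1
  have hlim : Tendsto (fun n : ℕ => Real.exp 1 * ((n : ℝ) * (a * b) ^ n + 2 * (a * b) ^ n))
      atTop (𝓝 (Real.exp 1 * (0 + 2 * 0))) := by
    apply Tendsto.const_mul
    apply Tendsto.add
    · exact tendsto_self_mul_const_pow_of_lt_one (by positivity) hab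
    · exact (tendsto_pow_atTop_nhds_zero_of_lt_one (by positivity) hab).const_mul _
  have h0 : Real.exp 1 * ((0 : ℝ) + 2 * 0) < 1 := by norm_num
  filter_upwards [eventually_ge_atTop 1, hlim.eventually (gt_mem_nhds h0)] with n hn hlt R hR1 hR2
  have hpi3 := Real.pi_gt_three
  have h1 := ge (n := n) (by omega) hR1 (by linarith)
  refine le_trans ?_ h1
  have hsin4 : √2 / 2 ≤ Real.sin R := by
    rw [← Real.sin_pi_div_four]
    exact Real.sin_le_sin_of_le_of_le_pi_div_two (by linarith) (by linarith) hR1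
  have h22 : √(2 : ℝ) ^ 2 = 2 := Real.sq_sqrt (by norm_num)
  have hsin : 1 / 2 ≤ Real.sin R ^ 2 := by
    have := pow_le_pow_left₀ (by positivity) hsin4 2
    rw [div_pow, h22] at this
    linarith
  have hsinle : Real.sin R ^ 2 ≤ 29 / 50 := by
    have h2 := Real.sin_sq_eq_half_sub R
    have h3 : Real.cos (2 * R) = -Real.sin (2 * R - Real.pi / 2) := by
      rw [Real.sin_sub_pi_div_two, neg_neg]
    have h4 : Real.sin (2 * R - Real.pi / 2) ≤ 2 * R - Real.pi / 2 :=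
      Real.sin_le (by linarith)
    rw [h2, h3]
    linarith
  have h2 : √(1 - 1 / (4 * Real.sin R ^ 2)) ≤ b := by
    apply Real.sqrt_le_sqrt
    have h3 : 1 / (4 * (29 / 50 : ℝ)) ≤ 1 / (4 * Real.sin R ^ 2) := by
      apply one_div_le_one_div_of_le (by linarith)
      linarith
    norm_num at h3 ⊢
    linarith
  have hpos : 0 < √(1 - 1 / (4 * Real.sin R ^ 2)) := by
    apply Real.sqrt_pos.2
    have : 1 / (4 * Real.sin R ^ 2) ≤ 1 / 2 := by
      apply one_div_le_one_div_of_le (by norm_num); linarith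
    linarith
  have h3 := pow_le_pow_left₀ hpos.le h2 n
  have h4 : (2 : ℝ) ^ (81 / 200 * n : ℝ) = a ^ n := by
    rw [ha, ← Real.rpow_natCast, ← Real.rpow_mul (by norm_num)]
  rw [h4, le_div_iff₀ (by positivity)]
  calc a ^ n * (Real.exp 1 * (n + 2) * √(1 - 1 / (4 * Real.sin R ^ 2)) ^ n) ≤
        a ^ n * (Real.exp 1 * (n + 2) * b ^ n) := by
        apply mul_le_mul_of_nonneg_left _ (by positivity)
        exact mul_le_mul_of_nonneg_left h3 (by positivity)
    _ = Real.exp 1 * ((n : ℝ) * (a * b) ^ n + 2 * (a * b) ^ n) := by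
        rw [mul_pow]; ring
    _ ≤ 1 := hlt.le

end Pool.Agent.R760.KN
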