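import Pool.Agent.R760.KN6
import Pool.Agent.W48.KS.Final

/-! MP_b5f63d_co: Voronoi cells of kissing configurations: caps and codes. -/

set_option autoImplicit false

open MeasureTheory Metric Set Filter Topology

open scoped RealInnerProductSpace ENNReal

namespace Pool.Agent.R760.KV

open Pool.Agent.R760.KN

variable {n : ℕ}

/-- measures of caps, general upper bound -/
lemma cap_upper2 (hn : 0 < n) {w : E n} (hw : ‖w‖ = 1) {c s : ℝ} (hc : 0 ≤ c) (hs : 0 < s)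
    (hcs : c ^ 2 + s ^ 2 = 1) : (unif n).real {x : E n | c ≤ ⟪x, w⟫} ≤ 4 * n / s * s ^ n := by
  have : NeZero n := ⟨hn.ne'⟩
  have hn' : (1 : ℝ) ≤ n := by exact_mod_cast hn
  have hs1 : s ≤ 1 := by nlinarith [sq_nonneg c]
  have hv := vb_pos hn
  rw [unif_real hn (cap_meas c w), div_le_iff₀ hv]
  set δ : ℝ := s / n with hδ
  have hδ0 : 0 < δ := by positivity
  set J : ℕ := ⌊1 / δ⌋₊ + 1 with hJ
  have hJle : (J : ℝ) ≤ 2 * n / s := by
    have h1 : (⌊1 / δ⌋₊ : ℝ) ≤ 1 / δ := Nat.floor_le (by positivity)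
    have h2 : 1 / δ = n / s := by rw [hδ]; field_simp
    have h3 : 1 ≤ n / s := by rw [le_div_iff₀ hs]; linarith
    rw [hJ]
    push_cast
    have h4 : 2 * n / s = n / s + n / s := by ring
    rw [h4]
    linarith
  set T : ℝ := √(s ^ 2 + δ ^ 2) with hT
  have hT0 : 0 ≤ T := Real.sqrt_nonneg _
  have hT2 : T ^ 2 = s ^ 2 + δ ^ 2 := Real.sq_sqrt (by positivity)
  have hTle : T ^ n ≤ 2 * s ^ n := by
    have h1 : T ≤ s * Real.exp (1 / (2 * n)) := by
      apply Real.sqrt_le_iff.2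
      refine ⟨by positivity, ?_⟩
      rw [mul_pow, ← Real.exp_nat_mul]
      have h2 : ((2 : ℕ) : ℝ) * (1 / (2 * n)) = 1 / n := by push_cast; field_simp
      rw [h2]
      have h3 := Real.add_one_le_exp (1 / (n : ℝ))
      have h4 : s ^ 2 + δ ^ 2 = s ^ 2 * (1 + 1 / n * (1 / n)) := by rw [hδ]; field_simp
      rw [h4]
      apply mul_le_mul_of_nonneg_left _ (by positivity)
      have h5 : 1 / (n : ℝ) ≤ 1 := by rw [div_le_one (by linarith)]; exact hn'
      have h6 : 0 < 1 / (n : ℝ) := by positivity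
      nlinarith
    calc T ^ n ≤ (s * Real.exp (1 / (2 * n))) ^ n := pow_le_pow_left₀ hT0 h1 n
      _ = s ^ n * Real.exp (1 / 2) := by
        rw [mul_pow, ← Real.exp_nat_mul]
        congr 2
        field_simp
      _ ≤ s ^ n * 2 := by
        apply mul_le_mul_of_nonneg_left _ (by positivity)
        have h2 : Real.exp (1 / 2) ^ 2 ≤ 2 ^ 2 := by
          rw [← Real.exp_nat_mul]
          have : ((2 : ℕ) : ℝ) * (1 / 2) = 1 := by norm_num
          rw [this]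
          exact Real.exp_one_lt_d9.le.trans (by norm_num)
        exact (pow_le_pow_iff_left₀ (Real.exp_pos _).le (by norm_num) (by norm_num)).1 h2
      _ = 2 * s ^ n := mul_comm _ _
  have hsub : {z : E n | ‖z‖⁻¹ • z ∈ {x : E n | c ≤ ⟪x, w⟫}} ∩ ball 0 1 ⊆
      ⋃ j ∈ Finset.range J, closedBall ((j * δ) • w) T := by
    rintro z ⟨hz, hz1⟩
    rw [mem_ball_zero_iff] at hz1
    have h0 : c * ‖z‖ ≤ ⟪z, w⟫ := by
      rcases eq_or_ne z 0 with h | h
      · rw [h]; simp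
      · exact (dir_inner h).1 hz
    have hh0 : 0 ≤ ⟪z, w⟫ := (mul_nonneg hc (norm_nonneg z)).trans h0
    have hh1 : ⟪z, w⟫ ≤ 1 := by
      have := real_inner_le_norm z w
      rw [hw, mul_one] at this
      linarith
    set j : ℕ := ⌊⟪z, w⟫ / δ⌋₊ with hj
    have hj1 : j * δ ≤ ⟪z, w⟫ := by
      have := Nat.floor_le (show 0 ≤ ⟪z, w⟫ / δ by positivity)
      rwa [le_div_iff₀ hδ0] at this
    have hj2 : ⟪z, w⟫ ≤ (j + 1) * δ := by
      have := (Nat.lt_floor_add_one (⟪z, w⟫ / δ)).le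
      rwa [div_le_iff₀ hδ0] at this
    have hjJ : j < J := by
      rw [hJ, Nat.lt_succ_iff]
      exact Nat.floor_le_floor (div_le_div_of_nonneg_right hh1 hδ0.le)
    simp only [mem_iUnion, Finset.mem_range]
    refine ⟨j, hjJ, ?_⟩
    rw [mem_closedBall, dist_eq_norm]
    refine (pow_le_pow_iff_left₀ (norm_nonneg _) hT0 (by norm_num : (2 : ℕ) ≠ 0)).1 ?_
    have h1 : ‖z - (j * δ) • w‖ ^ 2 = ‖z‖ ^ 2 - 2 * (j * δ) * ⟪z, w⟫ + (j * δ) ^ 2 := by
      rw [norm_sub_sq_real, norm_smul, hw, inner_smul_right, Real.norm_eq_abs, mul_one, sq_abs]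
      ring
    rw [h1, hT2]
    have h2 : ‖z‖ ^ 2 - ⟪z, w⟫ ^ 2 ≤ s ^ 2 := by
      have h3 := pow_le_pow_left₀ (mul_nonneg hc (norm_nonneg z)) h0 2
      rw [mul_pow] at h3
      have h4 : ‖z‖ ^ 2 ≤ 1 := by nlinarith [norm_nonneg z]
      nlinarith [sq_nonneg s]
    have h3 : (⟪z, w⟫ - j * δ) ^ 2 ≤ δ ^ 2 := by
      apply pow_le_pow_left₀ (by linarith)
      linarith
    nlinarith
  have hfin : volume (⋃ j ∈ Finset.range J, closedBall ((j * δ) • w) T) ≠ ∞ :=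
    (measure_biUnion_lt_top (Finset.finite_toSet _) fun j _ => measure_closedBall_lt_top).ne
  refine (measureReal_mono hsub hfin).trans ?_
  refine (measureReal_biUnion_finset_le _ _).trans ?_
  have h1 : ∀ j ∈ Finset.range J, volume.real (closedBall ((j * δ) • w) T) ≤ 2 * s ^ n * vb n := by
    intro j _
    rw [vol_cb hn _ hT0]
    exact mul_le_mul_of_nonneg_right hTle hv.le
  refine (Finset.sum_le_card_nsmul _ _ _ h1).trans ?_
  rw [Finset.card_range, nsmul_eq_mul]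
  calc (J : ℝ) * (2 * s ^ n * vb n) ≤ 2 * n / s * (2 * s ^ n * vb n) :=
        mul_le_mul_of_nonneg_right hJle (by positivity)
    _ = _ := by ring

/-- the Kabatiansky-Levenshtein exponent -/
noncomputable def g (ν : ℝ) : ℝ :=
  (ν + 1) / 2 * Real.log ((ν + 1) / 2) - (ν - 1) / 2 * Real.log ((ν - 1) / 2)

theorem gH_eq {ν : ℝ} (hν : 1 < ν) : Pool.Agent.W259.GP.gH ((ν ^ 2 - 1) / 2) = g ν := by
  have e1 : 0 < ν - 1 := by linarith
  have e2 : 0 < ν + 1 := by linarith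
  unfold Pool.Agent.W259.GP.gH Pool.Agent.W259.GP.rr g
  have h0 : √(1 + 2 * ((ν ^ 2 - 1) / 2)) = ν := by
    rw [show 1 + 2 * ((ν ^ 2 - 1) / 2) = ν ^ 2 by ring, Real.sqrt_sq (by linarith)]
  rw [h0]
  have h2 : 1 - (ν - 1) / (ν + 1) = 2 / (ν + 1) := by field_simp; ring
  rw [h2, Real.log_div two_ne_zero e2.ne', Real.log_div e1.ne' e2.ne',
    Real.log_div e2.ne' two_ne_zero, Real.log_div e1.ne' two_ne_zero]
  field_simp
  ring

open Pool.Agent.W48.KS Pool.Agent.W259.GP in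
/-- the Kabatiansky-Levenshtein bound for codes with inner products at most `s` -/
theorem KL_codes {ν s ε : ℝ} (hν : 1 < ν) (hs0 : 0 ≤ s) (hs : 1 < ν ^ 2 * (1 - s ^ 2))
    (hε : 0 < ε) : ∀ᶠ n : ℕ in atTop, ∀ C : Finset (E n), (∀ x ∈ C, ‖x‖ = 1) →
      (∀ x ∈ C, ∀ y ∈ C, x ≠ y → ⟪x, y⟫ ≤ s) → (C.card : ℝ) ≤ Real.exp (n * (g ν + ε)) := by
  have hν0 : 0 < ν ^ 2 := by positivity
  have hs1 : s < 1 := by
    by_contra hcon
    rw [not_lt] at hcon
    have : ν ^ 2 * (1 - s ^ 2) ≤ 0 :=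
      mul_nonpos_of_nonneg_of_nonpos hν0.le (by nlinarith)
    linarith
  have hc : 0 < (ν ^ 2 - 1) / 2 := by nlinarith
  have hsd : 0 < √(2 - 2 * s) := Real.sqrt_pos.mpr (by linarith)
  have hsq : s < √(2 * ((ν ^ 2 - 1) / 2) / (1 + 2 * ((ν ^ 2 - 1) / 2))) := by
    apply Real.lt_sqrt_of_sq_lt
    rw [lt_div_iff₀ (by linarith)]
    nlinarith
  have hE2 : ∑ j : Fin 1, (fun _ _ : Fin 1 => (1 : ℝ)) j 0 ^ 2 *
      eC ((fun _ : Fin 1 => (ν ^ 2 - 1) / 2) j) < 1 / 2 * √(2 - 2 * s) ^ 2 := by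
    rw [Real.sq_sqrt (by linarith)]
    simp only [Fin.sum_univ_one, one_pow, one_mul]
    unfold eC
    linarith
  obtain ⟨N0, hN0⟩ := code_gauss (n := 0) (O := fun _ _ : Fin 1 => (1 : ℝ))
    (c := fun _ : Fin 1 => (ν ^ 2 - 1) / 2) (O' := fun i _ => i.elim0) (c' := fun i => i.elim0)
    orth1 (fun i => i.elim0) (fun _ => hc) (fun i => i.elim0) (fun i => i.elim0) hsd hE2 hε
  filter_upwards [eventually_ge_atTop N0] with n hn C h1 h2
  have h3 := hN0 n hn C h1 (fun x hx y hy hxy => by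
    rw [dist_eq_norm]
    apply Real.sqrt_le_iff.mpr
    refine ⟨norm_nonneg _, ?_⟩
    rw [@norm_sub_sq_real, h1 x hx, h1 y hy]
    have := h2 x hx y hy hxy
    linarith)
  refine h3.trans (le_of_eq ?_)
  simp [gH_eq hν]

end Pool.Agent.R760.KV
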