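import Pool.Agent.R760.KV1

/-! MP_b5f63d_co: Voronoi cells of kissing configurations: the lower bound, bands. -/

set_option autoImplicit false

open MeasureTheory Metric Set Filter Topology

open scoped RealInnerProductSpace ENNReal

namespace Pool.Agent.R760.KV

open Pool.Agent.R760.KN

variable {n : ℕ}

/-- The Voronoi cell of `x` with respect to `X` on the sphere: the unit vectors `z` that are at
least as close to `x` as to the other points of `X`. -/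
def cell (X : Set (E n)) (x : E n) : Set (E n) := {z | ‖z‖ = 1 ∧ ∀ y ∈ X, ⟪z, y⟫ ≤ ⟪z, x⟫}

/-- the part of the cap about `x` that is closer to `y` -/
def bad (S : ℝ) (x y : E n) : Set (E n) := {z | √(1 - S) ≤ ⟪z, x⟫ ∧ ⟪z, x⟫ < ⟪z, y⟫}

lemma bad_meas (S : ℝ) (x y : E n) : MeasurableSet (bad S x y) :=
  ((cap_closed _ _).measurableSet).inter
    (isOpen_lt (f := fun z : E n => ⟪z, x⟫) (g := fun z : E n => ⟪z, y⟫)
      (by fun_prop) (by fun_prop)).measurableSet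

/-- the measure of the bad part -/
lemma bad_le (hn : 0 < n) {S b : ℝ} (hS : S < 1) (hb0 : 0 ≤ b) {x y : E n}
    (hx : ‖x‖ = 1) (hy : ‖y‖ = 1) (hxy : ⟪x, y⟫ ≤ b) (hs : 0 < 1 - 2 * (1 - S) / (1 + b)) :
    (unif n).real (bad S x y) ≤
      4 * n / √(1 - 2 * (1 - S) / (1 + b)) * √(1 - 2 * (1 - S) / (1 + b)) ^ n := by
  have : NeZero n := ⟨hn.ne'⟩
  have hC : 0 < 1 - S := by linarith
  have hC0 : 0 < √(1 - S) := Real.sqrt_pos.2 hC
  have hC2 : √(1 - S) ^ 2 = 1 - S := Real.sq_sqrt hC.le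
  have hs0 : 0 < √(1 - 2 * (1 - S) / (1 + b)) := Real.sqrt_pos.2 hs
  set c : ℝ := √(2 * (1 - S) / (1 + b)) with hc
  have hc0 : 0 ≤ c := Real.sqrt_nonneg _
  have hc2 : c ^ 2 = 2 * (1 - S) / (1 + b) := Real.sq_sqrt (by positivity)
  rcases eq_or_ne (x + y) 0 with h0 | h0
  · have hem : bad S x y = ∅ := by
      ext z
      simp only [mem_empty_iff_false, iff_false]
      rintro ⟨h1, h2⟩
      have h3 : ⟪z, x⟫ + ⟪z, y⟫ = 0 := by rw [← inner_add_right, h0, inner_zero_right]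
      linarith
    rw [hem]
    simp only [measureReal_empty]
    positivity
  have hw : 0 < ‖x + y‖ := norm_pos_iff.2 h0
  have hw2 : ‖x + y‖ ^ 2 = 2 + 2 * ⟪x, y⟫ := by
    rw [norm_add_sq_real, hx, hy]; ring
  have hle : c * ‖x + y‖ ≤ 2 * √(1 - S) := by
    refine (pow_le_pow_iff_left₀ (by positivity) (by positivity) (by norm_num : (2 : ℕ) ≠ 0)).1 ?_
    rw [mul_pow, mul_pow, hc2, hw2, hC2]
    have h1 : 2 * (1 - S) / (1 + b) * (2 + 2 * ⟪x, y⟫) ≤ 2 * (1 - S) / (1 + b) * (2 * (1 + b)) :=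
      mul_le_mul_of_nonneg_left (by linarith) (by positivity)
    refine h1.trans (le_of_eq ?_)
    field_simp
  have hsub : bad S x y ⊆ {z : E n | c ≤ ⟪z, ‖x + y‖⁻¹ • (x + y)⟫} := by
    rintro z ⟨h1, h2⟩
    rw [mem_ofPred_eq, real_inner_smul_right, inv_mul_eq_div, le_div_iff₀ hw, inner_add_right]
    linarith
  refine (measureReal_mono hsub (measure_lt_top _ _).ne).trans ?_
  have hnw : ‖(‖x + y‖⁻¹ • (x + y))‖ = 1 := by
    rw [norm_smul, norm_inv, norm_norm, inv_mul_cancel₀ hw.ne']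
  apply cap_upper2 hn hnw hc0 hs0
  rw [hc2, Real.sq_sqrt hs.le]
  ring

/-- the number of points in a band -/
lemma band_card {a b s M : ℝ} (ha : 0 ≤ a) (hb : b < 1) (hab : a ≤ b) (ha2 : a ^ 2 ≤ 1 / 2)
    (hs : s = (1 / 2 - a ^ 2) / (1 - b ^ 2)) (hs1 : s < 1)
    (hM : ∀ C : Finset (E n), (∀ x ∈ C, ‖x‖ = 1) →
      (∀ x ∈ C, ∀ y ∈ C, x ≠ y → ⟪x, y⟫ ≤ s) → (C.card : ℝ) ≤ M)
    {X : Finset (E n)} (hX : IsKissing X) {x : E n} (hx : ‖x‖ = 1)
    (h1 : ∀ y ∈ X, a ≤ ⟪x, y⟫) (h2 : ∀ y ∈ X, ⟪x, y⟫ ≤ b) : (X.card : ℝ) ≤ M := by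
  classical
  have hb2 : 0 < 1 - b ^ 2 := by nlinarith
  have hu : ∀ y ∈ X, 1 - b ^ 2 ≤ 1 - ⟪x, y⟫ ^ 2 := fun y hy => by
    have := pow_le_pow_left₀ (ha.trans (h1 y hy)) (h2 y hy) 2
    linarith
  have hu0 : ∀ y ∈ X, 0 < √(1 - ⟪x, y⟫ ^ 2) := fun y hy =>
    Real.sqrt_pos.2 (hb2.trans_le (hu y hy))
  set e : E n → E n := fun y => (√(1 - ⟪x, y⟫ ^ 2))⁻¹ • (y - ⟪x, y⟫ • x) with he
  have hin : ∀ y ∈ X, ∀ y' ∈ X, ⟪e y, e y'⟫ =
      (⟪y, y'⟫ - ⟪x, y⟫ * ⟪x, y'⟫) / (√(1 - ⟪x, y⟫ ^ 2) * √(1 - ⟪x, y'⟫ ^ 2)) := by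
    intro y _ y' _
    simp only [he]
    rw [real_inner_smul_left, real_inner_smul_right, inner_sub_left, inner_sub_right,
      inner_sub_right, real_inner_smul_left, real_inner_smul_left, real_inner_smul_right,
      real_inner_smul_right, real_inner_self_eq_norm_sq, hx, real_inner_comm x y]
    rw [div_eq_inv_mul, mul_inv]
    ring
  have hnorm : ∀ y ∈ X, ‖e y‖ = 1 := by
    intro y hy
    have h3 : ‖e y‖ ^ 2 = 1 := by
      rw [← real_inner_self_eq_norm_sq, hin y hy y hy, real_inner_self_eq_norm_sq, hX.1 y hy,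
        Real.mul_self_sqrt (hb2.le.trans (hu y hy))]
      rw [div_eq_one_iff_eq (hb2.trans_le (hu y hy)).ne']
      ring
    nlinarith [norm_nonneg (e y)]
  have hle : ∀ y ∈ X, ∀ y' ∈ X, y ≠ y' → ⟪e y, e y'⟫ ≤ s := by
    intro y hy y' hy' hyy
    rw [hin y hy y' hy', hs]
    have h3 : ⟪y, y'⟫ - ⟪x, y⟫ * ⟪x, y'⟫ ≤ 1 / 2 - a ^ 2 := by
      have h4 := hX.2 y hy y' hy' hyy
      have h5 := mul_le_mul (h1 y hy) (h1 y' hy') ha (ha.trans (h1 y hy))
      nlinarith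
    have h4 : 1 - b ^ 2 ≤ √(1 - ⟪x, y⟫ ^ 2) * √(1 - ⟪x, y'⟫ ^ 2) := by
      calc 1 - b ^ 2 = √(1 - b ^ 2) * √(1 - b ^ 2) := (Real.mul_self_sqrt hb2.le).symm
        _ ≤ _ := mul_le_mul (Real.sqrt_le_sqrt (hu y hy)) (Real.sqrt_le_sqrt (hu y' hy'))
          (Real.sqrt_nonneg _) (Real.sqrt_nonneg _)
    exact div_le_div₀ (by linarith) h3 hb2 h4
  have hinj : Set.InjOn e X := by
    intro y hy y' hy' h3
    by_contra hne
    have h4 := hle y hy y' hy' hne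
    rw [h3, real_inner_self_eq_norm_sq, hnorm y' hy'] at h4
    linarith
  have h3 := hM (X.image e) (by
    intro u hu
    obtain ⟨y, hy, rfl⟩ := Finset.mem_image.1 hu
    exact hnorm y hy) (by
    intro u hu v hv huv
    obtain ⟨y, hy, rfl⟩ := Finset.mem_image.1 hu
    obtain ⟨y', hy', rfl⟩ := Finset.mem_image.1 hv
    exact hle y hy y' hy' (fun h => huv (by rw [h])))
  rwa [Finset.card_image_of_injOn hinj] at h3

open Classical in
/-- the bad parts of the points `y` with `⟪x, y⟫ ≤ b` are negligible -/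
def T (S b : ℝ) : Prop := ∀ δ : ℝ, 0 < δ → ∀ᶠ n : ℕ in atTop, ∀ X : Finset (E n), IsKissing X →
  ∀ x : E n, ‖x‖ = 1 →
    ∑ y ∈ X.filter (fun y => ⟪x, y⟫ ≤ b), (unif n).real (bad S x y) ≤ δ * √S ^ n / n

lemma decay {q M : ℝ} (hq0 : 0 ≤ q) (hq : q < 1) {δ : ℝ} (hδ : 0 < δ) :
    ∀ᶠ n : ℕ in atTop, (n : ℝ) ^ 2 * M * q ^ n ≤ δ := by
  have h1 : Tendsto (fun n : ℕ => M * ((n : ℝ) ^ 2 * q ^ n)) atTop (𝓝 (M * 0)) :=
    (tendsto_pow_const_mul_const_pow_of_lt_one 2 hq0 hq).const_mul _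
  rw [mul_zero] at h1
  filter_upwards [h1.eventually (gt_mem_nhds hδ)] with n hn
  calc (n : ℝ) ^ 2 * M * q ^ n = M * ((n : ℝ) ^ 2 * q ^ n) := by ring
    _ ≤ δ := hn.le

open Classical in
/-- the general estimate for a set of points -/
lemma part_le {S b β : ℝ} (hS0 : 0 < S) (hS : S < 1) (hb0 : 0 ≤ b)
    (hs : 0 < 1 - 2 * (1 - S) / (1 + b)) (hβ : Real.exp β * √(1 - 2 * (1 - S) / (1 + b)) < √S)
    {δ : ℝ} (hδ : 0 < δ) : ∀ᶠ n : ℕ in atTop, ∀ Y : Finset (E n), (∀ y ∈ Y, ‖y‖ = 1) →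
      (Y.card : ℝ) ≤ Real.exp (n * β) → ∀ x : E n, ‖x‖ = 1 → (∀ y ∈ Y, ⟪x, y⟫ ≤ b) →
      ∑ y ∈ Y, (unif n).real (bad S x y) ≤ δ * √S ^ n / n := by
  have hS0' : 0 < √S := Real.sqrt_pos.2 hS0
  set s : ℝ := √(1 - 2 * (1 - S) / (1 + b)) with hsdef
  have hs0 : 0 < s := Real.sqrt_pos.2 hs
  have h1 := decay (q := Real.exp β * s / √S) (M := 4 / s) (by positivity)
    (by rwa [div_lt_one hS0']) hδ
  filter_upwards [h1, eventually_gt_atTop 0] with n h2 hn Y hY1 hYc x hx hYb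
  have hn' : (0 : ℝ) < n := by exact_mod_cast hn
  have h3 : ∀ y ∈ Y, (unif n).real (bad S x y) ≤ 4 * n / s * s ^ n :=
    fun y hy => bad_le hn hS hb0 hx (hY1 y hy) (hYb y hy) hs
  refine (Finset.sum_le_card_nsmul _ _ _ h3).trans ?_
  rw [nsmul_eq_mul]
  have h4 : (Y.card : ℝ) * (4 * n / s * s ^ n) ≤ Real.exp (n * β) * (4 * n / s * s ^ n) :=
    mul_le_mul_of_nonneg_right hYc (by positivity)
  refine h4.trans ?_
  rw [Real.exp_nat_mul, le_div_iff₀ hn']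
  rw [div_pow, mul_pow, mul_div_assoc', div_le_iff₀ (by positivity)] at h2
  calc Real.exp β ^ n * (4 * n / s * s ^ n) * n =
        (n : ℝ) ^ 2 * (4 / s) * (Real.exp β ^ n * s ^ n) := by ring
    _ ≤ δ * √S ^ n := h2

/-- the first part -/
lemma T_base {S b : ℝ} (hS0 : 0 < S) (hS : S < 1) (hb0 : 0 ≤ b)
    (hs : 0 < 1 - 2 * (1 - S) / (1 + b))
    (h : (2 : ℝ) ^ (39663 / 100000 : ℝ) * √(1 - 2 * (1 - S) / (1 + b)) < √S) : T S b := by
  classical
  intro δ hδ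
  have hβ : Real.exp (39663 / 100000 * Real.log 2) = (2 : ℝ) ^ (39663 / 100000 : ℝ) := by
    rw [Real.rpow_def_of_pos two_pos, mul_comm]
  rw [← hβ] at h
  filter_upwards [part_le hS0 hS hb0 hs h hδ, Pool.Agent.W48.KS.codes_kiss] with n h1 h2 X hX x hx
  refine h1 _ (fun y hy => hX.1 y (Finset.mem_filter.1 hy).1) ?_ x hx
    (fun y hy => (Finset.mem_filter.1 hy).2)
  have h3 := h2 X hX.1 hX.dist
  have h4 : ((X.filter (fun y => ⟪x, y⟫ ≤ b)).card : ℝ) ≤ X.card := by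
    exact_mod_cast Finset.card_filter_le _ _
  refine (h4.trans h3).trans (le_of_eq ?_)
  rw [Real.rpow_def_of_pos two_pos]
  congr 1
  ring

/-- the numerical condition -/
lemma exp_g_lt {ν R : ℝ} (hν : 1 < ν) (hR : 0 < R) {N p r : ℕ} (hN : 0 < N)
    (hp : N * (ν + 1) = p) (hr : N * (ν - 1) = r)
    (h : ((ν + 1) / 2) ^ p < R ^ N * ((ν - 1) / 2) ^ r) : Real.exp (2 * g ν) < R := by
  have hN' : (0 : ℝ) < N := by exact_mod_cast hN
  have h1 : 0 < (ν + 1) / 2 := by linarith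
  have h2 : 0 < (ν - 1) / 2 := by linarith
  rw [← Real.lt_log_iff_exp_lt hR]
  have h3 := Real.log_lt_log (by positivity) h
  rw [Real.log_mul (by positivity) (by positivity), Real.log_pow, Real.log_pow, Real.log_pow,
    ← hp, ← hr] at h3
  have h4 : N * (2 * g ν) = N * (ν + 1) * Real.log ((ν + 1) / 2) -
      N * (ν - 1) * Real.log ((ν - 1) / 2) := by
    unfold g; ring
  have h5 : N * (2 * g ν) < N * Real.log R := by rw [h4]; linarith
  exact lt_of_mul_lt_mul_left h5 hN'.le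

/-- one band -/
lemma T_step {S a b ν : ℝ} (hT : T S a) (hS0 : 0 < S) (hS : S < 1) (ha : 0 ≤ a) (hab : a ≤ b)
    (hb : b ≤ 1 / 2) (hν : 1 < ν)
    (hs : 0 < 1 - 2 * (1 - S) / (1 + b))
    (hs2 : 1 < ν ^ 2 * (1 - ((1 / 2 - a ^ 2) / (1 - b ^ 2)) ^ 2))
    {N p r : ℕ} (hN : 0 < N) (hp : N * (ν + 1) = p) (hr : N * (ν - 1) = r)
    (h : ((ν + 1) / 2) ^ p < (S / (1 - 2 * (1 - S) / (1 + b))) ^ N * ((ν - 1) / 2) ^ r) :
    T S b := by
  classical
  have hS0' : 0 < √S := Real.sqrt_pos.2 hS0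
  have hg := exp_g_lt hν (by positivity) hN hp hr h
  set x2 : ℝ := 1 - 2 * (1 - S) / (1 + b) with hx2
  have ha2 : a ^ 2 ≤ 1 / 4 := by nlinarith
  have hb2 : 0 < 1 - b ^ 2 := by nlinarith
  -- a small epsilon
  have hlt : Real.exp (g ν) * √x2 < √S := by
    apply lt_of_pow_lt_pow_left₀ 2 hS0'.le
    rw [mul_pow, Real.sq_sqrt hs.le, Real.sq_sqrt hS0.le, ← Real.exp_nat_mul]
    rw [lt_div_iff₀ hs] at hg
    exact_mod_cast hg
  have hcont : Tendsto (fun ε : ℝ => Real.exp (g ν + ε) * √x2) (𝓝[>] 0)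
      (𝓝 (Real.exp (g ν + 0) * √x2)) := by
    apply Tendsto.mono_left _ nhdsWithin_le_nhds
    have : Continuous fun ε : ℝ => Real.exp (g ν + ε) * √x2 := by fun_prop
    exact this.tendsto 0
  rw [add_zero] at hcont
  obtain ⟨ε, hε1, hε2⟩ := ((hcont.eventually (gt_mem_nhds hlt)).and self_mem_nhdsWithin).exists
  have hε0 : 0 < ε := hε2
  have hs0 : 0 ≤ (1 / 2 - a ^ 2) / (1 - b ^ 2) := div_nonneg (by linarith) hb2.le
  have hs1 : (1 / 2 - a ^ 2) / (1 - b ^ 2) < 1 := by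
    rw [div_lt_one hb2]
    nlinarith
  intro δ hδ
  filter_upwards [hT (δ / 2) (by positivity),
    part_le hS0 hS (ha.trans hab) hs hε1 (δ := δ / 2) (by positivity),
    KL_codes hν hs0 hs2 hε0, eventually_gt_atTop 0] with n h1 h2 h3 hn X hX x hx
  have hsub : X.filter (fun y => ⟪x, y⟫ ≤ b) ⊆
      X.filter (fun y => ⟪x, y⟫ ≤ a) ∪ X.filter (fun y => a ≤ ⟪x, y⟫ ∧ ⟪x, y⟫ ≤ b) := by
    intro y hy
    rw [Finset.mem_filter] at hy
    rw [Finset.mem_union, Finset.mem_filter, Finset.mem_filter]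
    rcases le_total ⟪x, y⟫ a with h4 | h4
    · exact Or.inl ⟨hy.1, h4⟩
    · exact Or.inr ⟨hy.1, h4, hy.2⟩
  have h4 : ∑ y ∈ X.filter (fun y => ⟪x, y⟫ ≤ b), (unif n).real (bad S x y) ≤
      ∑ y ∈ X.filter (fun y => ⟪x, y⟫ ≤ a), (unif n).real (bad S x y) +
        ∑ y ∈ X.filter (fun y => a ≤ ⟪x, y⟫ ∧ ⟪x, y⟫ ≤ b), (unif n).real (bad S x y) := by
    refine (Finset.sum_le_sum_of_subset_of_nonneg hsub fun _ _ _ => measureReal_nonneg).trans ?_
    rw [← Finset.sum_union_inter]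
    have : 0 ≤ ∑ y ∈ X.filter (fun y => ⟪x, y⟫ ≤ a) ∩
        X.filter (fun y => a ≤ ⟪x, y⟫ ∧ ⟪x, y⟫ ≤ b), (unif n).real (bad S x y) :=
      Finset.sum_nonneg fun _ _ => measureReal_nonneg
    linarith
  have h5 := h1 X hX x hx
  have h6 := h2 (X.filter (fun y => a ≤ ⟪x, y⟫ ∧ ⟪x, y⟫ ≤ b))
    (fun y hy => hX.1 y (Finset.mem_filter.1 hy).1)
    (band_card ha (by linarith) hab (by linarith) rfl hs1 h3
      (hX.subset (Finset.filter_subset _ _)) hx (fun y hy => (Finset.mem_filter.1 hy).2.1)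
      (fun y hy => (Finset.mem_filter.1 hy).2.2)) x hx (fun y hy => (Finset.mem_filter.1 hy).2.2)
  calc _ ≤ _ := h4
    _ ≤ δ / 2 * √S ^ n / n + δ / 2 * √S ^ n / n := add_le_add h5 h6
    _ = δ * √S ^ n / n := by ring

/-- from the negligible bad parts to the cells -/
lemma cell_of_T {S : ℝ} (hS : 1 / 2 < S) (hS1 : S < 1) (hT : T S (1 / 2)) {q : ℝ} (hq0 : 0 < q)
    (hq : q < √S) : ∀ᶠ n : ℕ in atTop, ∀ X : Finset (E n), IsKissing X → ∀ x ∈ X,
      q ^ n ≤ (unif n).real (cell (X : Set (E n)) x) := by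
  classical
  have hS0' : 0 < √S := Real.sqrt_pos.2 (by linarith)
  have hS2 : √S ^ 2 = S := Real.sq_sqrt (by linarith)
  have hC0 : 0 ≤ √(1 - S) := Real.sqrt_nonneg _
  have hC2 : √(1 - S) ^ 2 = 1 - S := Real.sq_sqrt (by linarith)
  have hdec := decay (q := q / √S) (M := 16) (by positivity)
    (by rwa [div_lt_one hS0']) one_pos
  filter_upwards [hT (1 / 16) (by norm_num), hdec, eventually_ge_atTop 4] with n h1 h2 hn4 X hX x hx
  have hn : 0 < n := by omega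
  have : NeZero n := ⟨hn.ne'⟩
  have hn' : (4 : ℝ) ≤ n := by exact_mod_cast hn4
  have hx1 := hX.1 x hx
  -- the cap
  have hcap := cap_lower hn hx1 (c := √(1 - S)) (s := √S) (lam := 1) hC0 hS0'
    (by rw [hC2, hS2]; ring) (by
      rw [one_mul]
      exact Real.sqrt_le_sqrt (by linarith)) (by linarith)
  have h14 : (1 : ℝ) / 4 ≤ (1 - 1 / n) ^ n := by
    have h3 := one_add_mul_le_pow (show (-2 : ℝ) ≤ -(2 / n) by
      have : (2 : ℝ) / n ≤ 2 := by rw [div_le_iff₀ (by linarith)]; linarith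
      linarith) 0
    have h30 : (n : ℝ) ≠ 0 := by linarith
    have h31 : (n : ℝ) - 1 ≠ 0 := by linarith
    have h5 : Real.exp (-1) ≤ (1 - 1 / (n : ℝ)) ^ (n - 1) := by
      have h33 : (1 - 1 / (n : ℝ)) = (1 + 1 / ((n : ℝ) - 1))⁻¹ := by
        have h32 : 1 + 1 / ((n : ℝ) - 1) = n / (n - 1) := by field_simp; ring
        rw [h32, inv_div]
        field_simp
      rw [h33, inv_pow, Real.exp_neg]
      apply inv_anti₀ (by
        have : (0 : ℝ) < (n : ℝ) - 1 := by linarith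
        positivity)
      have h6 : 1 + 1 / ((n : ℝ) - 1) ≤ Real.exp (1 / ((n : ℝ) - 1)) := by
        have := Real.add_one_le_exp (1 / ((n : ℝ) - 1))
        linarith
      have h7 : (0 : ℝ) < (n : ℝ) - 1 := by linarith
      refine (pow_le_pow_left₀ (by positivity) h6 (n - 1)).trans (le_of_eq ?_)
      rw [← Real.exp_nat_mul]
      congr 1
      rw [Nat.cast_sub (by omega), Nat.cast_one]
      field_simp
    have h6 : (1 : ℝ) / 3 ≤ Real.exp (-1) := by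
      rw [Real.exp_neg]
      have := Real.exp_one_lt_d9
      rw [div_le_iff₀ (by norm_num), inv_mul_eq_div, le_div_iff₀ (Real.exp_pos _)]
      linarith
    have h7 : (3 : ℝ) / 4 ≤ 1 - 1 / n := by
      have : (1 : ℝ) / n ≤ 1 / 4 := one_div_le_one_div_of_le (by norm_num) hn'
      linarith
    have h4 : (1 - 1 / (n : ℝ)) ^ n = (1 - 1 / (n : ℝ)) ^ (n - 1) * (1 - 1 / n) := by
      rw [← pow_succ]; congr 1; omega
    rw [h4]
    calc (1 : ℝ) / 4 = 1 / 3 * (3 / 4) := by norm_num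
      _ ≤ _ := mul_le_mul (h6.trans h5) h7 (by norm_num) (by
        have : 0 < Real.exp (-1 : ℝ) := Real.exp_pos _
        exact (this.le.trans h5))
  have hcap2 : √S ^ n / (8 * n) ≤ (unif n).real {z : E n | √(1 - S) ≤ ⟪z, x⟫} := by
    refine le_trans ?_ hcap
    rw [mul_pow]
    calc √S ^ n / (8 * n) = √S ^ n * (1 / 4) / (2 * n) := by field_simp; norm_num
      _ ≤ _ := by
        apply div_le_div_of_nonneg_right _ (by positivity)
        exact mul_le_mul_of_nonneg_left h14 (by positivity)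
  -- the cover
  have hcover : {z : E n | √(1 - S) ≤ ⟪z, x⟫} ⊆ (cell (X : Set (E n)) x ∪
      ⋃ y ∈ X.filter (fun y => ⟪x, y⟫ ≤ 1 / 2), bad S x y) ∪ {z : E n | ¬ ‖z‖ = 1} := by
    intro z hz
    by_cases hz1 : ‖z‖ = 1
    · left
      by_cases hc : ∀ y ∈ X, ⟪z, y⟫ ≤ ⟪z, x⟫
      · exact Or.inl ⟨hz1, hc⟩
      · right
        push Not at hc
        obtain ⟨y, hy, hyz⟩ := hc
        simp only [mem_iUnion, Finset.mem_filter]
        refine ⟨y, ⟨hy, ?_⟩, hz, hyz⟩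
        rw [real_inner_comm]
        apply hX.2 y hy x hx
        rintro rfl
        exact lt_irrefl _ hyz
    · exact Or.inr hz1
  have hnull : (unif n).real {z : E n | ¬ ‖z‖ = 1} = 0 := by
    rw [measureReal_def]
    have := unif_ae' hn
    rw [ae_iff] at this
    rw [this]
    rfl
  have h3 : (unif n).real {z : E n | √(1 - S) ≤ ⟪z, x⟫} ≤
      (unif n).real (cell (X : Set (E n)) x) +
        ∑ y ∈ X.filter (fun y => ⟪x, y⟫ ≤ 1 / 2), (unif n).real (bad S x y) := by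
    refine (measureReal_mono hcover (measure_lt_top _ _).ne).trans ?_
    refine (measureReal_union_le _ _).trans ?_
    rw [hnull, add_zero]
    refine (measureReal_union_le _ _).trans ?_
    exact add_le_add le_rfl (measureReal_biUnion_finset_le _ _)
  have h4 := h1 X hX x hx1
  have h5 : √S ^ n / (8 * n) - 1 / 16 * √S ^ n / n = √S ^ n / (16 * n) := by
    field_simp; norm_num
  have h6 : √S ^ n / (16 * n) ≤ (unif n).real (cell (X : Set (E n)) x) := by linarith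
  refine le_trans ?_ h6
  rw [div_pow, mul_div_assoc', div_le_one (by positivity)] at h2
  rw [le_div_iff₀ (by positivity)]
  have h7 : q ^ n * (16 * n) ≤ (n : ℝ) ^ 2 * 16 * q ^ n := by
    have h8 : (n : ℝ) ≤ n ^ 2 := by nlinarith
    have h9 : 0 < q ^ n := by positivity
    nlinarith
  exact h7.trans h2

end Pool.Agent.R760.KV
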