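import Pool.Agent.R760.KV2

/-! MP_b5f63d_co: Voronoi cells of kissing configurations: numerical verification of the bands. -/

set_option autoImplicit false
set_option exponentiation.threshold 5000

namespace Pool.Agent.R760.KV

lemma two_pow_bound {x S : ℝ} (hx : 0 ≤ x) (hS : 0 ≤ S) (h : 16 * x ^ 5 < S ^ 5) :
    (2 : ℝ) ^ (39663 / 100000 : ℝ) * √x < √S := by
  have h1 : (2 : ℝ) ^ (39663 / 100000 : ℝ) ≤ (2 : ℝ) ^ (2 / 5 : ℝ) :=
    Real.rpow_le_rpow_of_exponent_le (by norm_num) (by norm_num)
  have h2 : ((2 : ℝ) ^ (2 / 5 : ℝ)) ^ 5 = 4 := by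
    rw [← Real.rpow_natCast, ← Real.rpow_mul (by norm_num)]
    norm_num
  refine (mul_le_mul_of_nonneg_right h1 (Real.sqrt_nonneg _)).trans_lt ?_
  apply lt_of_pow_lt_pow_left₀ 10 (Real.sqrt_nonneg _)
  have h3 : ((2 : ℝ) ^ (2 / 5 : ℝ) * √x) ^ 10 = (((2 : ℝ) ^ (2 / 5 : ℝ)) ^ 5) ^ 2 * (√x ^ 2) ^ 5 := by
    ring
  have h4 : √S ^ 10 = (√S ^ 2) ^ 5 := by ring
  rw [h3, h4, h2, Real.sq_sqrt hx, Real.sq_sqrt hS]
  norm_num
  exact h

lemma T0 : T (563 / 1000) (107 / 500) := by
  apply T_base (by norm_num) (by norm_num) (by norm_num) (by norm_num)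
  apply two_pow_bound (by norm_num) (by norm_num)
  norm_num

lemma T1 : T (563 / 1000) (293 / 1000) :=
  T_step (a := 107 / 500) (ν := 461 / 400) T0 (by norm_num) (by norm_num) (by norm_num)
    (by norm_num) (by norm_num) (by norm_num) (by norm_num) (by norm_num) (N := 400) (p := 861)
    (r := 61) (by norm_num) (by norm_num) (by norm_num) (by norm_num)

lemma T2 : T (563 / 1000) (83 / 250) :=
  T_step (a := 293 / 1000) (ν := 113 / 100) T1 (by norm_num) (by norm_num) (by norm_num)
    (by norm_num) (by norm_num) (by norm_num) (by norm_num) (by norm_num) (N := 100) (p := 213)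
    (r := 13) (by norm_num) (by norm_num) (by norm_num) (by norm_num)

lemma T3 : T (563 / 1000) (89 / 250) :=
  T_step (a := 83 / 250) (ν := 447 / 400) T2 (by norm_num) (by norm_num) (by norm_num)
    (by norm_num) (by norm_num) (by norm_num) (by norm_num) (by norm_num) (N := 400) (p := 847)
    (r := 47) (by norm_num) (by norm_num) (by norm_num) (by norm_num)

lemma T4 : T (563 / 1000) (373 / 1000) :=
  T_step (a := 89 / 250) (ν := 111 / 100) T3 (by norm_num) (by norm_num) (by norm_num)
    (by norm_num) (by norm_num) (by norm_num) (by norm_num) (by norm_num) (N := 100) (p := 211)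
    (r := 11) (by norm_num) (by norm_num) (by norm_num) (by norm_num)

lemma T5 : T (563 / 1000) (389 / 1000) :=
  T_step (a := 373 / 1000) (ν := 221 / 200) T4 (by norm_num) (by norm_num) (by norm_num)
    (by norm_num) (by norm_num) (by norm_num) (by norm_num) (by norm_num) (N := 200) (p := 421)
    (r := 21) (by norm_num) (by norm_num) (by norm_num) (by norm_num)

lemma T6 : T (563 / 1000) (201 / 500) :=
  T_step (a := 389 / 1000) (ν := 11 / 10) T5 (by norm_num) (by norm_num) (by norm_num)
    (by norm_num) (by norm_num) (by norm_num) (by norm_num) (by norm_num) (N := 20) (p := 42)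
    (r := 2) (by norm_num) (by norm_num) (by norm_num) (by norm_num)

lemma T7 : T (563 / 1000) (41 / 100) :=
  T_step (a := 201 / 500) (ν := 219 / 200) T6 (by norm_num) (by norm_num) (by norm_num)
    (by norm_num) (by norm_num) (by norm_num) (by norm_num) (by norm_num) (N := 200) (p := 419)
    (r := 19) (by norm_num) (by norm_num) (by norm_num) (by norm_num)

lemma T8 : T (563 / 1000) (209 / 500) :=
  T_step (a := 41 / 100) (ν := 82 / 75) T7 (by norm_num) (by norm_num) (by norm_num)
    (by norm_num) (by norm_num) (by norm_num) (by norm_num) (by norm_num) (N := 150) (p := 314)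
    (r := 14) (by norm_num) (by norm_num) (by norm_num) (by norm_num)

lemma T9 : T (563 / 1000) (213 / 500) :=
  T_step (a := 209 / 500) (ν := 109 / 100) T8 (by norm_num) (by norm_num) (by norm_num)
    (by norm_num) (by norm_num) (by norm_num) (by norm_num) (by norm_num) (N := 100) (p := 209)
    (r := 9) (by norm_num) (by norm_num) (by norm_num) (by norm_num)

lemma T10 : T (563 / 1000) (433 / 1000) :=
  T_step (a := 213 / 500) (ν := 87 / 80) T9 (by norm_num) (by norm_num) (by norm_num)
    (by norm_num) (by norm_num) (by norm_num) (by norm_num) (by norm_num) (N := 80) (p := 167)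
    (r := 7) (by norm_num) (by norm_num) (by norm_num) (by norm_num)

lemma T11 : T (563 / 1000) (441 / 1000) :=
  T_step (a := 433 / 1000) (ν := 217 / 200) T10 (by norm_num) (by norm_num) (by norm_num)
    (by norm_num) (by norm_num) (by norm_num) (by norm_num) (by norm_num) (N := 200) (p := 417)
    (r := 17) (by norm_num) (by norm_num) (by norm_num) (by norm_num)

lemma T12 : T (563 / 1000) (449 / 1000) :=
  T_step (a := 441 / 1000) (ν := 379 / 350) T11 (by norm_num) (by norm_num) (by norm_num)
    (by norm_num) (by norm_num) (by norm_num) (by norm_num) (by norm_num) (N := 350) (p := 729)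
    (r := 29) (by norm_num) (by norm_num) (by norm_num) (by norm_num)

lemma T13 : T (563 / 1000) (57 / 125) :=
  T_step (a := 449 / 1000) (ν := 27 / 25) T12 (by norm_num) (by norm_num) (by norm_num)
    (by norm_num) (by norm_num) (by norm_num) (by norm_num) (by norm_num) (N := 50) (p := 104)
    (r := 4) (by norm_num) (by norm_num) (by norm_num) (by norm_num)

lemma T14 : T (563 / 1000) (58 / 125) :=
  T_step (a := 57 / 125) (ν := 431 / 400) T13 (by norm_num) (by norm_num) (by norm_num)
    (by norm_num) (by norm_num) (by norm_num) (by norm_num) (by norm_num) (N := 400) (p := 831)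
    (r := 31) (by norm_num) (by norm_num) (by norm_num) (by norm_num)

lemma T15 : T (563 / 1000) (471 / 1000) :=
  T_step (a := 58 / 125) (ν := 43 / 40) T14 (by norm_num) (by norm_num) (by norm_num)
    (by norm_num) (by norm_num) (by norm_num) (by norm_num) (by norm_num) (N := 40) (p := 83)
    (r := 3) (by norm_num) (by norm_num) (by norm_num) (by norm_num)

lemma T16 : T (563 / 1000) (479 / 1000) :=
  T_step (a := 471 / 1000) (ν := 161 / 150) T15 (by norm_num) (by norm_num) (by norm_num)
    (by norm_num) (by norm_num) (by norm_num) (by norm_num) (by norm_num) (N := 150) (p := 311)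
    (r := 11) (by norm_num) (by norm_num) (by norm_num) (by norm_num)

lemma T17 : T (563 / 1000) (61 / 125) :=
  T_step (a := 479 / 1000) (ν := 107 / 100) T16 (by norm_num) (by norm_num) (by norm_num)
    (by norm_num) (by norm_num) (by norm_num) (by norm_num) (by norm_num) (N := 100) (p := 207)
    (r := 7) (by norm_num) (by norm_num) (by norm_num) (by norm_num)

lemma T18 : T (563 / 1000) (1 / 2) :=
  T_step (a := 61 / 125) (ν := 267 / 250) T17 (by norm_num) (by norm_num) (by norm_num)
    (by norm_num) (by norm_num) (by norm_num) (by norm_num) (by norm_num) (N := 250) (p := 517)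
    (r := 17) (by norm_num) (by norm_num) (by norm_num) (by norm_num)

/-- every cell has measure at least `(3 / 4) ^ n` -/
theorem cells_large : ∀ᶠ n : ℕ in Filter.atTop, ∀ X : Finset (KN.E n), KN.IsKissing X → ∀ x ∈ X,
    (3 / 4 : ℝ) ^ n ≤ (KN.unif n).real (cell (X : Set (KN.E n)) x) := by
  apply cell_of_T (S := 563 / 1000) (by norm_num) (by norm_num) T18 (by norm_num)
  apply Real.lt_sqrt_of_sq_lt
  norm_num

end Pool.Agent.R760.KV
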