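import Pool.Agent.R760.KV3

/-! MP_b5f63d_co: Voronoi cells of kissing configurations: small cells. -/

set_option autoImplicit false

open MeasureTheory Metric Set Filter Topology

open scoped RealInnerProductSpace ENNReal

namespace Pool.Agent.R760.KV

open Pool.Agent.R760.KN

variable {n : ℕ}

/-- a unit vector orthogonal to `x` -/
lemma exists_perp (hn : 2 ≤ n) (x : E n) : ∃ e : E n, ‖e‖ = 1 ∧ ⟪e, x⟫ = 0 := by
  have hfr : Module.finrank ℝ (E n) = n := finrank_euclideanSpace_fin
  obtain ⟨v, hv, hv0⟩ : ∃ v ∈ (ℝ ∙ x)ᗮ, v ≠ 0 := by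
    by_contra h
    push Not at h
    have h1 : (ℝ ∙ x)ᗮ = ⊥ := (Submodule.eq_bot_iff _).2 h
    have h2 := Submodule.finrank_add_finrank_orthogonal (ℝ ∙ x)
    rw [h1, finrank_bot, add_zero, hfr] at h2
    have h3 := finrank_span_le_card (R := ℝ) ({x} : Set (E n))
    simp at h3
    omega
  have hv1 : 0 < ‖v‖ := norm_pos_iff.2 hv0
  refine ⟨‖v‖⁻¹ • v, ?_, ?_⟩
  · rw [norm_smul, norm_inv, norm_norm, inv_mul_cancel₀ hv1.ne']
  · rw [real_inner_smul_left, real_inner_comm,
      (Submodule.mem_orthogonal_singleton_iff_inner_right).1 hv, mul_zero]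

/-- a kissing configuration with a small cell -/
theorem small_cell (hn : 2 ≤ n) : ∃ F : Finset (E n), IsKissing F ∧ ∃ x ∈ F,
    ∀ X : Set (E n), (F : Set (E n)) ⊆ X → (unif n).real (cell X x) ≤ (17 / 20 : ℝ) ^ n := by
  classical
  have hn0 : 0 < n := by omega
  have : NeZero n := ⟨hn0.ne'⟩
  obtain ⟨x, hx⟩ := exists_pole hn0
  have hxx : ⟪x, x⟫ = 1 := by rw [real_inner_self_eq_norm_sq, hx]; norm_num
  set r : ℝ := √(544 / 625) with hr
  have hr2 : r ^ 2 = 544 / 625 := Real.sq_sqrt (by norm_num)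
  have hr0 : 0 < r := Real.sqrt_pos.2 (by norm_num)
  set P : Finset (E n) → Prop := fun C => (∀ e ∈ C, ‖e‖ = 1 ∧ ⟪e, x⟫ = 0) ∧
    ∀ e ∈ C, ∀ e' ∈ C, e ≠ e' → ⟪e, e'⟫ ≤ 463 / 1088 with hP
  set emb : E n → E n := fun e => (9 / 25 : ℝ) • x + r • e with hemb
  have hinj : Function.Injective emb := by
    intro e e' h
    have h1 : r • e = r • e' := add_left_cancel h
    exact smul_right_injective _ hr0.ne' h1
  have hin : ∀ e e' : E n, ⟪e, x⟫ = 0 → ⟪e', x⟫ = 0 →
      ⟪emb e, emb e'⟫ = 81 / 625 + 544 / 625 * ⟪e, e'⟫ := by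
    intro e e' h1 h2
    simp only [hemb]
    rw [inner_add_left, inner_add_right, inner_add_right, real_inner_smul_left,
      real_inner_smul_left, real_inner_smul_left, real_inner_smul_left, real_inner_smul_right,
      real_inner_smul_right, real_inner_smul_right, real_inner_smul_right, hxx, h1,
      real_inner_comm, h2, ← hr2]
    ring
  have hinx : ∀ e : E n, ⟪e, x⟫ = 0 → ⟪emb e, x⟫ = 9 / 25 := by
    intro e h1
    simp only [hemb]
    rw [inner_add_left, real_inner_smul_left, real_inner_smul_left, hxx, h1]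
    ring
  have hkiss : ∀ C, P C → x ∉ C.image emb ∧ IsKissing (insert x (C.image emb)) := by
    rintro C ⟨h1, h2⟩
    refine ⟨?_, ?_, ?_⟩
    · intro h
      obtain ⟨e, he, h3⟩ := Finset.mem_image.1 h
      have h4 := hinx e (h1 e he).2
      rw [h3, hxx] at h4
      norm_num at h4
    · intro y hy
      rcases Finset.mem_insert.1 hy with rfl | hy
      · exact hx
      · obtain ⟨e, he, rfl⟩ := Finset.mem_image.1 hy
        have h3 : ‖emb e‖ ^ 2 = 1 := by
          rw [← real_inner_self_eq_norm_sq, hin e e (h1 e he).2 (h1 e he).2,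
            real_inner_self_eq_norm_sq, (h1 e he).1]
          norm_num
        nlinarith [norm_nonneg (emb e)]
    · intro y hy y' hy' hyy
      rcases Finset.mem_insert.1 hy with rfl | hy <;> rcases Finset.mem_insert.1 hy' with rfl | hy'
      · exact absurd rfl hyy
      · obtain ⟨e, he, rfl⟩ := Finset.mem_image.1 hy'
        rw [real_inner_comm, hinx e (h1 e he).2]
        norm_num
      · obtain ⟨e, he, rfl⟩ := Finset.mem_image.1 hy
        rw [hinx e (h1 e he).2]
        norm_num
      · obtain ⟨e, he, rfl⟩ := Finset.mem_image.1 hy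
        obtain ⟨e', he', rfl⟩ := Finset.mem_image.1 hy'
        rw [hin e e' (h1 e he).2 (h1 e' he').2]
        have h3 := h2 e he e' he' (fun h => hyy (by rw [h]))
        linarith
  -- a maximal code
  obtain ⟨N, hN⟩ := exists_bdd n
  have hbd : BddAbove {k | ∃ C, P C ∧ C.card = k} := by
    refine ⟨N, ?_⟩
    rintro _ ⟨C, hC, rfl⟩
    obtain ⟨h1, h2⟩ := hkiss C hC
    have h3 := hN _ h2
    rw [Finset.card_insert_of_notMem h1, Finset.card_image_of_injective _ hinj] at h3
    omega
  obtain ⟨C, hC, hCc⟩ := Nat.sSup_mem (s := {k | ∃ C, P C ∧ C.card = k})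
    ⟨0, ∅, ⟨by simp, by simp⟩, rfl⟩ hbd
  have hmax : ∀ C', P C' → C'.card ≤ C.card := fun C' hC' => by
    rw [hCc]; exact le_csSup hbd ⟨C', hC', rfl⟩
  have hsat : ∀ e : E n, ‖e‖ = 1 → ⟪e, x⟫ = 0 → ∃ e' ∈ C, 463 / 1088 < ⟪e, e'⟫ := by
    intro e he hex
    by_contra hcon
    push Not at hcon
    have hnot : e ∉ C := by
      intro h
      have := hcon e h
      rw [real_inner_self_eq_norm_sq, he] at this
      norm_num at this
    have h1 : P (insert e C) := by
      refine ⟨?_, ?_⟩
      · intro f hf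
        rcases Finset.mem_insert.1 hf with rfl | hf
        · exact ⟨he, hex⟩
        · exact hC.1 f hf
      · intro f hf f' hf' hff
        rcases Finset.mem_insert.1 hf with h3 | h3 <;> rcases Finset.mem_insert.1 hf' with h4 | h4
        · exact absurd (h3.trans h4.symm) hff
        · rw [h3]; exact hcon f' h4
        · rw [h4, real_inner_comm]; exact hcon f h3
        · exact hC.2 f h3 f' h4 hff
    have h2 := hmax _ h1
    rw [Finset.card_insert_of_notMem hnot] at h2
    omega
  obtain ⟨h1, h2⟩ := hkiss C hC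
  refine ⟨insert x (C.image emb), h2, x, Finset.mem_insert_self _ _, fun X hX => ?_⟩
  have hmem : ∀ e ∈ C, emb e ∈ X := fun e he =>
    hX (Finset.mem_coe.2 (Finset.mem_insert_of_mem (Finset.mem_image_of_mem _ he)))
  have hsub : cell X x ⊆ {z : E n | √(111 / 400) ≤ ⟪z, x⟫} := by
    rintro z ⟨hz1, hz⟩
    rw [mem_ofPred_eq]
    set a : ℝ := ⟪z, x⟫ with ha
    set v : E n := z - a • x with hv
    have hvx : ⟪v, x⟫ = 0 := by
      rw [hv, inner_sub_left, real_inner_smul_left, hxx, ← ha]; ring
    have hv2 : ‖v‖ ^ 2 = 1 - a ^ 2 := by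
      rw [hv, norm_sub_sq_real, hz1, norm_smul, hx, inner_smul_right, ← ha, Real.norm_eq_abs,
        mul_one, sq_abs]
      ring
    have hzv : ∀ e : E n, ⟪e, x⟫ = 0 → ⟪z, emb e⟫ = 9 / 25 * a + r * ⟪v, e⟫ := by
      intro e he
      have h3 : ⟪z, e⟫ = ⟪v, e⟫ := by
        rw [hv, inner_sub_left, real_inner_smul_left, real_inner_comm, real_inner_comm e x, he]
        ring
      simp only [hemb]
      rw [inner_add_right, real_inner_smul_right, real_inner_smul_right, h3, ← ha]
    rcases eq_or_ne v 0 with h0 | h0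
    · rw [h0, norm_zero] at hv2
      have h3 : a ^ 2 = 1 := by linarith
      have h4 : a = 1 ∨ a = -1 := by
        have h5 : (a - 1) * (a + 1) = 0 := by nlinarith
        rcases mul_eq_zero.1 h5 with h | h
        · left; linarith
        · right; linarith
      rcases h4 with h4 | h4
      · rw [h4]
        exact Real.sqrt_le_one.2 (by norm_num)
      · exfalso
        obtain ⟨e, he, hex⟩ := exists_perp hn x
        obtain ⟨e', he', -⟩ := hsat e he hex
        have h5 := hz _ (hmem e' he')
        rw [hzv e' (hC.1 e' he').2, h0, inner_zero_left, h4] at h5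
        norm_num at h5
    · have hvp : 0 < ‖v‖ := norm_pos_iff.2 h0
      obtain ⟨e', he', h3⟩ := hsat (‖v‖⁻¹ • v) (by
        rw [norm_smul, norm_inv, norm_norm, inv_mul_cancel₀ hvp.ne']) (by
        rw [real_inner_smul_left, hvx, mul_zero])
      rw [real_inner_smul_left, inv_mul_eq_div, lt_div_iff₀ hvp] at h3
      have h5 := hz _ (hmem e' he')
      rw [hzv e' (hC.1 e' he').2] at h5
      have h6 : r * (463 / 1088 * ‖v‖) < 16 / 25 * a := by
        have := mul_lt_mul_of_pos_left h3 hr0
        linarith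
      have h7 : 0 < a := by
        have : 0 < r * (463 / 1088 * ‖v‖) := by positivity
        linarith
      have h8 := pow_lt_pow_left₀ h6 (by positivity) (n := 2) (by norm_num)
      rw [mul_pow, mul_pow, mul_pow, hr2, hv2] at h8
      apply Real.sqrt_le_iff.2
      refine ⟨h7.le, ?_⟩
      nlinarith
  refine (measureReal_mono hsub (measure_lt_top _ _).ne).trans ?_
  apply cap_upper hn0 hx (Real.sqrt_nonneg _) _ (by norm_num)
  · rw [Real.sq_sqrt (by norm_num)]
    norm_num
  · rw [Real.sq_sqrt (by norm_num)]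
    norm_num

end Pool.Agent.R760.KV
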