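import Mathlib
import Pool.Agent.Helper752.SquareLower2

/-!
Lower bound for the length of connected sets that meet eight small discs placed at the corners of
the square `[-1,1]²` and at the end points of short extensions of the end edges of the horizontal
Steiner tree of the square.
-/

set_option autoImplicit false

namespace Pool.Agent.R760.NS

open scoped ENNReal NNReal
open MeasureTheory Metric Pool.Agent.Helper752

/-- `gap` with the pair and the triple on different sides of `W`, in both orders. -/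
theorem gap2 {ι : Type*} [Fintype ι] [DecidableEq ι] {K : Set E2} {p : ι → E2} {B : ℝ}
    {M : Set (Finset ι)} (hM : Laminar M)
    (hB : ∀ φ : ι → E2 → ℝ, (∀ A ∈ M, LipOn K φ A) → (∀ x ∈ K, ∑ i, φ i x = 0) →
      ∑ i, φ i (p i) ≤ B)
    (W : Finset ι) (hW : W ∈ M) (a b c d e : ι)
    (hh : (a ∈ W ∧ b ∈ W ∧ c ∉ W ∧ d ∉ W ∧ e ∉ W) ∨ (a ∉ W ∧ b ∉ W ∧ c ∈ W ∧ d ∈ W ∧ e ∈ W))
    (gx gy cx cy dx dy ex ey : ℝ)
    (hg : gx ^ 2 + gy ^ 2 ≤ 1) (h1 : cx ^ 2 + cy ^ 2 ≤ 1) (h2 : dx ^ 2 + dy ^ 2 ≤ 1)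
    (h3 : ex ^ 2 + ey ^ 2 ≤ 1) (hsx : cx + dx + ex = 0) (hsy : cy + dy + ey = 0) :
    gx * (p a 0 - p b 0) + gy * (p a 1 - p b 1) + (cx * p c 0 + cy * p c 1)
      + (dx * p d 0 + dy * p d 1) + (ex * p e 0 + ey * p e 1) ≤ B := by
  let X : ι → ℝ := fun i => (if i = a then gx else 0) + (if i = b then -gx else 0)
    + (if i = c then cx else 0) + (if i = d then dx else 0) + (if i = e then ex else 0)
  let Y : ι → ℝ := fun i => (if i = a then gy else 0) + (if i = b then -gy else 0)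
    + (if i = c then cy else 0) + (if i = d then dy else 0) + (if i = e then ey else 0)
  have hX : ∀ A : Finset ι, ∑ i ∈ A, X i = (if a ∈ A then gx else 0) + (if b ∈ A then -gx else 0)
    + (if c ∈ A then cx else 0) + (if d ∈ A then dx else 0) + (if e ∈ A then ex else 0) := by
    intro A
    simp only [X, Finset.sum_add_distrib, Finset.sum_ite_eq']
  have hY : ∀ A : Finset ι, ∑ i ∈ A, Y i = (if a ∈ A then gy else 0) + (if b ∈ A then -gy else 0)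
    + (if c ∈ A then cy else 0) + (if d ∈ A then dy else 0) + (if e ∈ A then ey else 0) := by
    intro A
    simp only [Y, Finset.sum_add_distrib, Finset.sum_ite_eq']
  have key := hB (lin X Y) ?_ ?_
  · have hval : ∑ i, lin X Y i (p i) = gx * (p a 0 - p b 0) + gy * (p a 1 - p b 1)
        + (cx * p c 0 + cy * p c 1) + (dx * p d 0 + dy * p d 1) + (ex * p e 0 + ey * p e 1) := by
      simp only [lin, X, Y, add_mul, ite_mul, zero_mul, Finset.sum_add_distrib,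
        Finset.sum_ite_eq', Finset.mem_univ, if_true]
      ring
    rw [hval] at key
    exact key
  · intro A hA
    apply lin_lipOn
    rw [hX, hY]
    have hcases : (c ∉ A ∧ d ∉ A ∧ e ∉ A) ∨ (a ∉ A ∧ b ∉ A) ∨ (a ∈ A ∧ b ∈ A)
        ∨ (c ∈ A ∧ d ∈ A ∧ e ∈ A) := by
      rcases hh with ⟨ha, hb, hc, hd, he⟩ | ⟨ha, hb, hc, hd, he⟩
      · rcases hM A hA W hW with h | h | h
        · left
          exact ⟨fun h' => hc (h h'), fun h' => hd (h h'), fun h' => he (h h')⟩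
        · right; right; left
          exact ⟨h ha, h hb⟩
        · right; left
          exact ⟨fun h' => (Finset.disjoint_left.1 h h' ha),
            fun h' => (Finset.disjoint_left.1 h h' hb)⟩
      · rcases hM A hA W hW with h | h | h
        · right; left
          exact ⟨fun h' => ha (h h'), fun h' => hb (h h')⟩
        · right; right; right
          exact ⟨h hc, h hd, h he⟩
        · left
          exact ⟨fun h' => (Finset.disjoint_left.1 h h' hc),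
            fun h' => (Finset.disjoint_left.1 h h' hd),
            fun h' => (Finset.disjoint_left.1 h h' he)⟩
    have e1 : ex = -(cx + dx) := by linarith
    have e2 : ey = -(cy + dy) := by linarith
    rcases hcases with ⟨h4, h5, h6⟩ | ⟨h4, h5⟩ | ⟨h4, h5⟩ | ⟨h4, h5, h6⟩
    · rw [if_neg h4, if_neg h5, if_neg h6, if_neg h4, if_neg h5, if_neg h6]
      split_ifs <;> nlinarith
    · rw [if_neg h4, if_neg h5, if_neg h4, if_neg h5]
      subst e1 e2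
      split_ifs <;> nlinarith
    · rw [if_pos h4, if_pos h5, if_pos h4, if_pos h5]
      subst e1 e2
      split_ifs <;> nlinarith
    · rw [if_pos h4, if_pos h5, if_pos h6, if_pos h4, if_pos h5, if_pos h6]
      subst e1 e2
      split_ifs <;> nlinarith
  · intro x _
    have h4 : ∑ i, lin X Y i x = (∑ i, X i) * x 0 + (∑ i, Y i) * x 1 := by
      simp only [lin, Finset.sum_add_distrib, ← Finset.sum_mul]
    rw [h4, hX, hY]
    simp only [Finset.mem_univ, if_true]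
    have e1 : ex = -(cx + dx) := by linarith
    have e2 : ey = -(cy + dy) := by linarith
    subst e1 e2
    ring

/-- The corner of a label. -/
def cor (l : Fin 8) : Fin 4 := ⟨l % 4, by omega⟩

/-- Coordinates of the corners. -/
noncomputable def sX : Fin 4 → ℝ := ![-1, 1, 1, -1]
/-- Coordinates of the corners. -/
noncomputable def sY : Fin 4 → ℝ := ![1, 1, -1, -1]

theorem zx_cor (l : Fin 8) : zx l = sX (cor l) := by
  fin_cases l <;> rfl
theorem zy_cor (l : Fin 8) : zy l = sY (cor l) := by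
  fin_cases l <;> rfl

/-- Directions for the triples of corners: `TX k j` for the triple without the corner `k`. -/
noncomputable def TX : Fin 4 → Fin 4 → ℝ :=
  ![![0, 0.28, 0.68, -0.96], ![-0.28, 0, 0.96, -0.68], ![-0.68, 0.96, 0, -0.28],
    ![-0.96, 0.68, 0.28, 0]]
/-- Directions for the triples of corners. -/
noncomputable def TY : Fin 4 → Fin 4 → ℝ :=
  ![![0, 0.96, -0.68, -0.28], ![0.96, 0, -0.28, -0.68], ![0.68, 0.28, 0, -0.96],
    ![0.28, 0.68, -0.96, 0]]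
/-- Directions for the pairs of corners. -/
noncomputable def GX : Fin 4 → Fin 4 → ℝ :=
  ![![0, -1, -0.7, 0], ![1, 0, 0, 0.7], ![0.7, 0, 0, 1], ![0, -0.7, -1, 0]]
/-- Directions for the pairs of corners. -/
noncomputable def GY : Fin 4 → Fin 4 → ℝ :=
  ![![0, 0, 0.7, 1], ![0, 0, 1, 0.7], ![-0.7, -1, 0, 0], ![-1, -0.7, 0, 0]]

/-- The value of the certificate at the corners, for all orders of the corners. -/
theorem cert_val (i j k n : Fin 4) (hij : i ≠ j) (hik : i ≠ k) (hin : i ≠ n) (hjk : j ≠ k)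
    (hjn : j ≠ n) (hkn : k ≠ n) :
    GX i j ^ 2 + GY i j ^ 2 ≤ 1 ∧ TX j i ^ 2 + TY j i ^ 2 ≤ 1 ∧ TX j k ^ 2 + TY j k ^ 2 ≤ 1 ∧
    TX j n ^ 2 + TY j n ^ 2 ≤ 1 ∧ TX j i + TX j k + TX j n = 0 ∧ TY j i + TY j k + TY j n = 0 ∧
    5.8 ≤ GX i j * (sX i - sX j) + GY i j * (sY i - sY j) + (TX j i * sX i + TY j i * sY i)
      + (TX j k * sX k + TY j k * sY k) + (TX j n * sX n + TY j n * sY n) := by
  have key : ∀ i j k n : Fin 4, i ≠ j → i ≠ k → i ≠ n → j ≠ k → j ≠ n → k ≠ n →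
      (i, j, k, n) ∈ ([(0, 1, 2, 3), (0, 1, 3, 2), (0, 2, 1, 3), (0, 2, 3, 1), (0, 3, 1, 2), (0, 3, 2, 1), (1, 0, 2, 3), (1, 0, 3, 2), (1, 2, 0, 3), (1, 2, 3, 0), (1, 3, 0, 2), (1, 3, 2, 0), (2, 0, 1, 3), (2, 0, 3, 1), (2, 1, 0, 3), (2, 1, 3, 0), (2, 3, 0, 1), (2, 3, 1, 0), (3, 0, 1, 2), (3, 0, 2, 1), (3, 1, 0, 2), (3, 1, 2, 0), (3, 2, 0, 1), (3, 2, 1, 0)] : List (Fin 4 × Fin 4 × Fin 4 × Fin 4)) := by decide
  have h := key i j k n hij hik hin hjk hjn hkn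
  clear key hij hik hin hjk hjn hkn
  simp only [List.mem_cons, Prod.mk.injEq, List.not_mem_nil, or_false] at h
  rcases h with ⟨rfl, rfl, rfl, rfl⟩ | ⟨rfl, rfl, rfl, rfl⟩ | ⟨rfl, rfl, rfl, rfl⟩ | ⟨rfl, rfl, rfl, rfl⟩ | ⟨rfl, rfl, rfl, rfl⟩ | ⟨rfl, rfl, rfl, rfl⟩ | ⟨rfl, rfl, rfl, rfl⟩ | ⟨rfl, rfl, rfl, rfl⟩ | ⟨rfl, rfl, rfl, rfl⟩ | ⟨rfl, rfl, rfl, rfl⟩ | ⟨rfl, rfl, rfl, rfl⟩ | ⟨rfl, rfl, rfl, rfl⟩ | ⟨rfl, rfl, rfl, rfl⟩ | ⟨rfl, rfl, rfl, rfl⟩ | ⟨rfl, rfl, rfl, rfl⟩ | ⟨rfl, rfl, rfl, rfl⟩ | ⟨rfl, rfl, rfl, rfl⟩ | ⟨rfl, rfl, rfl, rfl⟩ | ⟨rfl, rfl, rfl, rfl⟩ | ⟨rfl, rfl, rfl, rfl⟩ | ⟨rfl, rfl, rfl, rfl⟩ | ⟨rfl, rfl, rfl, rfl⟩ | ⟨rfl, rfl, rfl, rfl⟩ | ⟨rfl, rfl, rfl, rfl⟩ <;>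
    simp [GX, GY, TX, TY, sX, sY] <;> norm_num

theorem coord_err (x y a b t : ℝ) (hx : |x - a| ≤ t) (hy : |y - b| ≤ t) (c d : ℝ)
    (h : c ^ 2 + d ^ 2 ≤ 1) : c * a + d * b - 3 / 2 * t ≤ c * x + d * y := by
  have hx' := abs_le.1 hx
  have hy' := abs_le.1 hy
  have ht : 0 ≤ t := (abs_nonneg _).trans hx
  have h1 : |c| + |d| ≤ 3 / 2 := by
    have := sq_abs c
    have := sq_abs d
    nlinarith [sq_nonneg (|c| - |d|), abs_nonneg c, abs_nonneg d]
  have h2 : |c * (x - a)| ≤ |c| * t := by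
    rw [abs_mul]; exact mul_le_mul_of_nonneg_left hx (abs_nonneg _)
  have h3 : |d * (y - b)| ≤ |d| * t := by
    rw [abs_mul]; exact mul_le_mul_of_nonneg_left hy (abs_nonneg _)
  have h4 := (abs_le.1 h2).1
  have h5 := (abs_le.1 h3).1
  nlinarith

theorem sep_bound {K : Set E2} {p : Fin 8 → E2} {B : ℝ}
    {M : Set (Finset (Fin 8))} (hM : Laminar M)
    (hB : ∀ φ : Fin 8 → E2 → ℝ, (∀ A ∈ M, LipOn K φ A) → (∀ x ∈ K, ∑ i, φ i x = 0) →
      ∑ i, φ i (p i) ≤ B)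
    (hx : ∀ l, |p l 0 - zx l| ≤ 1 / 40) (hy : ∀ l, |p l 1 - zy l| ≤ 1 / 40)
    (W : Finset (Fin 8)) (hW : W ∈ M) (s s' y z u : Fin 8) (hs : cor s = cor s')
    (h1 : cor s ≠ cor y) (h2 : cor s ≠ cor z) (h3 : cor s ≠ cor u) (h4 : cor y ≠ cor z)
    (h5 : cor y ≠ cor u) (h6 : cor z ≠ cor u)
    (hh : (s ∈ W ∧ y ∈ W ∧ s' ∉ W ∧ z ∉ W ∧ u ∉ W) ∨ (s ∉ W ∧ y ∉ W ∧ s' ∈ W ∧ z ∈ W ∧ u ∈ W)) :
    5.6 ≤ B := by
  obtain ⟨c1, c2, c3, c4, c5, c6, c7⟩ := cert_val _ _ _ _ h1 h2 h3 h4 h5 h6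
  have key := gap2 hM hB W hW s y s' z u hh _ _ _ _ _ _ _ _ c1 c2 c3 c4 c5 c6
  have hx' := fun l => (zx_cor l) ▸ hx l
  have hy' := fun l => (zy_cor l) ▸ hy l
  have k1 := coord_err _ _ _ _ _ (hx' s) (hy' s) _ _ c1
  have k2 := coord_err _ _ _ _ _ (hx' y) (hy' y) (-GX (cor s) (cor y)) (-GY (cor s) (cor y))
    (by simpa using c1)
  have k3 := coord_err _ _ _ _ _ (hx' s') (hy' s') _ _ c2
  have k4 := coord_err _ _ _ _ _ (hx' z) (hy' z) _ _ c3
  have k5 := coord_err _ _ _ _ _ (hx' u) (hy' u) _ _ c4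
  rw [← hs] at k3
  linarith

end Pool.Agent.R760.NS
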