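import Mathlib
import Pool.Agent.R760.NS1

set_option autoImplicit false

namespace Pool.Agent.R760.NS

open scoped ENNReal NNReal
open MeasureTheory Metric Pool.Agent.Helper752

/-- Either `W` does not separate the two labels of any corner in an essential way, or the length is
at least `5.6`. -/
theorem nonsep {K : Set E2} {p : Fin 8 → E2} {B : ℝ}
    {M : Set (Finset (Fin 8))} (hM : Laminar M)
    (hB : ∀ φ : Fin 8 → E2 → ℝ, (∀ A ∈ M, LipOn K φ A) → (∀ x ∈ K, ∑ i, φ i x = 0) →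
      ∑ i, φ i (p i) ≤ B)
    (hx : ∀ l, |p l 0 - zx l| ≤ 1 / 40) (hy : ∀ l, |p l 1 - zy l| ≤ 1 / 40)
    (hlt : B < 5.6)
    (W : Finset (Fin 8)) (hW : W ∈ M) (s s' y z : Fin 8) (hs : cor s = cor s')
    (h1 : cor s ≠ cor y) (h2 : cor s ≠ cor z) (hsW : s ∈ W) (hs'W : s' ∉ W) (hyW : y ∈ W)
    (hzW : z ∉ W) : False := by
  have key := @sep_bound K p B M hM hB hx hy W hW
  -- it suffices to find distinct corners
  have main : ∀ y z : Fin 8, cor s ≠ cor y → cor s ≠ cor z → cor y ≠ cor z → y ∈ W → z ∉ W →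
      False := by
    intro y z h1 h2 h4 hyW hzW
    have hex : ∀ a b c : Fin 4, ∃ u : Fin 8, a ≠ b → a ≠ c → b ≠ c →
        a ≠ cor u ∧ b ≠ cor u ∧ c ≠ cor u := by decide
    obtain ⟨u, hu⟩ := hex (cor s) (cor y) (cor z)
    obtain ⟨h3, h5, h6⟩ := hu h1 h2 h4
    by_cases huW : u ∈ W
    · have := key s' s z y u hs.symm (hs ▸ h2) (hs ▸ h1) (hs ▸ h3) h4.symm h6 h5
        (Or.inr ⟨hs'W, hzW, hsW, hyW, huW⟩)
      linarith
    · have := key s s' y z u hs h1 h2 h3 h4 h5 h6 (Or.inl ⟨hsW, hyW, hs'W, hzW, huW⟩)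
      linarith
  by_cases h4 : cor y = cor z
  · have hex : ∀ a b : Fin 4, ∃ m : Fin 8, a ≠ b → a ≠ cor m ∧ b ≠ cor m := by decide
    obtain ⟨m, hm⟩ := hex (cor s) (cor y)
    obtain ⟨h5, h6⟩ := hm h1
    by_cases hmW : m ∈ W
    · exact main m z h5 h2 (h4 ▸ h6.symm) hmW hzW
    · exact main y m h1 h5 h6 hyW hmW
  · exact main y z h1 h2 h4 hyW hzW

/-- A label and its partner (the other label of the same corner). -/
def par (l : Fin 8) : Fin 8 := l + 4

theorem sum_single (f : Fin 8 → ℝ) (A : Finset (Fin 8)) (l : Fin 8) (hl : l ∈ A)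
    (h : ∀ m, cor m ≠ cor l → m ∉ A) (hp : par l ∉ A) : ∑ i ∈ A, f i = f l := by
  have hA : A = {l} := by
    ext m
    simp only [Finset.mem_singleton]
    constructor
    · intro hm
      have h1 : cor m = cor l := by
        by_contra hne
        exact h m hne hm
      have h2 : ∀ m l : Fin 8, cor m = cor l → m = l ∨ m = par l := by decide
      rcases h2 m l h1 with h3 | h3
      · exact h3
      · rw [h3] at hm
        exact absurd hm hp
    · rintro rfl
      exact hl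
  rw [hA, Finset.sum_singleton]

theorem sum_compl_single (f : Fin 8 → ℝ) (A : Finset (Fin 8)) (l : Fin 8) (hl : l ∉ A)
    (h : ∀ m, cor m ≠ cor l → m ∈ A) (hp : par l ∈ A) (h0 : ∑ i, f i = 0) :
    ∑ i ∈ A, f i = -f l := by
  have hA : A = Finset.univ.erase l := by
    ext m
    simp only [Finset.mem_erase, Finset.mem_univ, and_true]
    constructor
    · rintro hm rfl
      exact hl hm
    · intro hne
      by_cases h1 : cor m = cor l
      · have h2 : ∀ m l : Fin 8, cor m = cor l → m = l ∨ m = par l := by decide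
        rcases h2 m l h1 with h3 | h3
        · exact absurd h3 hne
        · rw [h3]; exact hp
      · exact h m h1
  have := Finset.add_sum_erase Finset.univ f (Finset.mem_univ l)
  rw [hA]
  linarith

/-- abscissae of the directions of the vertical tree with extensions -/
noncomputable def VX : Fin 8 → ℝ :=
  ![-((√3 - 1) / 2), (√3 - 1) / 2, (√3 - 1) / 2, -((√3 - 1) / 2), -1 / 2, 1 / 2, 1 / 2, -1 / 2]
/-- ordinates of the directions of the vertical tree with extensions -/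
noncomputable def VY : Fin 8 → ℝ :=
  ![-((√3 - 1) / 2), -((√3 - 1) / 2), (√3 - 1) / 2, (√3 - 1) / 2,
    √3 / 2, √3 / 2, -(√3 / 2), -(√3 / 2)]

theorem VX_sum : ∑ i, VX i = 0 := by
  simp [VX, Fin.sum_univ_eight]
  ring
theorem VY_sum : ∑ i, VY i = 0 := by
  simp [VY, Fin.sum_univ_eight]
  ring

theorem V_norm (l : Fin 8) : VX l ^ 2 + VY l ^ 2 ≤ 1 := by
  have h := sq3
  have h' : (1.73 : ℝ) < √3 := by
    rw [Real.lt_sqrt (by norm_num)]; norm_num
  fin_cases l <;> simp [VX, VY] <;> nlinarith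

theorem lower8 {K : Set E2} {p : Fin 8 → E2} {B : ℝ}
    {M : Set (Finset (Fin 8))} (hM : Laminar M)
    (hB : ∀ φ : Fin 8 → E2 → ℝ, (∀ A ∈ M, LipOn K φ A) → (∀ x ∈ K, ∑ i, φ i x = 0) →
      ∑ i, φ i (p i) ≤ B)
    (hx : ∀ l, |p l 0 - zx l| ≤ 1 / 40) (hy : ∀ l, |p l 1 - zy l| ≤ 1 / 40)
    (hA : ∀ l : Fin 8, (l : ℕ) < 4 → 0 ≤ zx l * p l 0 - zy l * p l 1)
    (hE : ∀ l : Fin 8, 4 ≤ (l : ℕ) →
      1 / 2 + √3 / 2 + 1 / 50 ≤ 1 / 2 * (zx l * p l 0) + √3 / 2 * (zy l * p l 1)) :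
    2 + 2 * √3 + 4 / 50 ≤ B := by
  have hs3 := sq3_lt
  have hs3' := sq3
  have hs3'' := sq3_pos
  by_contra hcon
  push Not at hcon
  have hlt : B < 5.6 := by linarith
  have hns := @nonsep K p B M hM hB hx hy hlt
  have a0 := hA 0 (by decide)
  have a1 := hA 1 (by decide)
  have a2 := hA 2 (by decide)
  have a3 := hA 3 (by decide)
  have e4 := hE 4 (by decide)
  have e5 := hE 5 (by decide)
  have e6 := hE 6 (by decide)
  have e7 := hE 7 (by decide)
  simp [zx, zy] at a0 a1 a2 a3 e4 e5 e6 e7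
  by_cases h1 : ∀ A ∈ M, ¬ (4 ∈ A ∧ 5 ∈ A ∧ 6 ∉ A ∧ 7 ∉ A) ∧ ¬ (4 ∉ A ∧ 5 ∉ A ∧ 6 ∈ A ∧ 7 ∈ A)
  · -- horizontal tree
    let X : Fin 8 → ℝ := ![0, 0, 0, 0, -1 / 2, 1 / 2, 1 / 2, -1 / 2]
    let Y : Fin 8 → ℝ := ![0, 0, 0, 0, √3 / 2, √3 / 2, -(√3 / 2), -(√3 / 2)]
    have key := hB (lin X Y) ?_ ?_
    · simp only [lin, Fin.sum_univ_eight] at key
      simp [X, Y] at key
      linarith
    · intro A hA
      apply lin_lipOn
      rw [sum8, sum8]
      have h5 := h1 A hA
      by_cases b0 : (4 : Fin 8) ∈ A <;> by_cases b1 : (5 : Fin 8) ∈ A <;>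
        by_cases b2 : (6 : Fin 8) ∈ A <;> by_cases b3 : (7 : Fin 8) ∈ A <;>
        simp [X, Y, b0, b1, b2, b3] at h5 ⊢ <;> nlinarith
    · intro x _
      simp [lin, Fin.sum_univ_eight, X, Y]
      ring
  · -- vertical tree
    push Not at h1
    obtain ⟨S, hS, hS'⟩ := h1
    have hS'' : (4 ∈ S ∧ 5 ∈ S ∧ 6 ∉ S ∧ 7 ∉ S) ∨ (4 ∉ S ∧ 5 ∉ S ∧ 6 ∈ S ∧ 7 ∈ S) := by tauto
    clear hS'
    have key := hB (lin VX VY) ?_ ?_
    · simp only [lin, Fin.sum_univ_eight] at key
      simp [VX, VY] at key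
      have h5 : 0 ≤ (√3 - 1) / 2 := by
        have : (1.7 : ℝ) < √3 := by
          rw [Real.lt_sqrt (by norm_num)]; norm_num
        linarith
      have f0 := mul_nonneg h5 (show (0:ℝ) ≤ -p 0 0 - p 0 1 by linarith)
      have f1 := mul_nonneg h5 (show (0:ℝ) ≤ p 1 0 - p 1 1 by linarith)
      have f2 := mul_nonneg h5 (show (0:ℝ) ≤ p 2 0 + p 2 1 by linarith)
      have f3 := mul_nonneg h5 (show (0:ℝ) ≤ -p 3 0 + p 3 1 by linarith)
      linarith
    · intro A hAM
      apply lin_lipOn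
      by_cases hall : ∀ i : Fin 8, i ∈ A ↔ par i ∈ A
      · -- union of pairs
        have q0 : (0 : Fin 8) ∈ A ↔ 4 ∈ A := hall 0
        have q1 : (1 : Fin 8) ∈ A ↔ 5 ∈ A := hall 1
        have q2 : (2 : Fin 8) ∈ A ↔ 6 ∈ A := hall 2
        have q3 : (3 : Fin 8) ∈ A ↔ 7 ∈ A := hall 3
        have hnot : ¬ (4 ∈ A ∧ 7 ∈ A ∧ 5 ∉ A ∧ 6 ∉ A) ∧ ¬ (4 ∉ A ∧ 7 ∉ A ∧ 5 ∈ A ∧ 6 ∈ A) := by
          rcases hM A hAM S hS with h | h | h
          · constructor
            · rintro ⟨b4, b7, b5, b6⟩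
              rcases hS'' with ⟨c4, c5, c6, c7⟩ | ⟨c4, c5, c6, c7⟩
              · exact c7 (h b7)
              · exact c4 (h b4)
            · rintro ⟨b4, b7, b5, b6⟩
              rcases hS'' with ⟨c4, c5, c6, c7⟩ | ⟨c4, c5, c6, c7⟩
              · exact c6 (h b6)
              · exact c5 (h b5)
          · constructor
            · rintro ⟨b4, b7, b5, b6⟩
              rcases hS'' with ⟨c4, c5, c6, c7⟩ | ⟨c4, c5, c6, c7⟩
              · exact b5 (h c5)
              · exact b6 (h c6)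
            · rintro ⟨b4, b7, b5, b6⟩
              rcases hS'' with ⟨c4, c5, c6, c7⟩ | ⟨c4, c5, c6, c7⟩
              · exact b4 (h c4)
              · exact b7 (h c7)
          · rw [Finset.disjoint_left] at h
            constructor
            · rintro ⟨b4, b7, b5, b6⟩
              rcases hS'' with ⟨c4, c5, c6, c7⟩ | ⟨c4, c5, c6, c7⟩
              · exact h b4 c4
              · exact h b7 c7
            · rintro ⟨b4, b7, b5, b6⟩
              rcases hS'' with ⟨c4, c5, c6, c7⟩ | ⟨c4, c5, c6, c7⟩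
              · exact h b5 c5
              · exact h b6 c6
        rw [sum8, sum8]
        simp only [q0, q1, q2, q3]
        by_cases b0 : (4 : Fin 8) ∈ A <;> by_cases b1 : (5 : Fin 8) ∈ A <;>
          by_cases b2 : (6 : Fin 8) ∈ A <;> by_cases b3 : (7 : Fin 8) ∈ A <;>
          simp [VX, VY, b0, b1, b2, b3] at hnot ⊢ <;> nlinarith
      · push Not at hall
        obtain ⟨i, hi⟩ := hall
        -- choose the member of the separated pair
        obtain ⟨s, hsA, hs'A⟩ : ∃ s : Fin 8, s ∈ A ∧ par s ∉ A := by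
          have hpp : ∀ i : Fin 8, par (par i) = i := by decide
          rcases hi with ⟨h, h'⟩ | ⟨h, h'⟩
          · exact ⟨i, h, h'⟩
          · exact ⟨par i, h', by rw [hpp]; exact h⟩
        have hcs : ∀ s : Fin 8, cor s = cor (par s) := by decide
        by_cases hin : ∃ y, cor s ≠ cor y ∧ y ∈ A
        · obtain ⟨y, hy1, hy2⟩ := hin
          have hout : ∀ m, cor m ≠ cor (par s) → m ∈ A := by
            intro m hm
            by_contra hmA
            exact hns A hAM s (par s) y m (hcs s) hy1 (by rw [hcs s]; exact hm.symm) hsA hs'A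
              hy2 hmA
          have hpp : ∀ i : Fin 8, par (par i) = i := by decide
          rw [sum_compl_single VX A (par s) hs'A hout (by rw [hpp]; exact hsA) VX_sum,
            sum_compl_single VY A (par s) hs'A hout (by rw [hpp]; exact hsA) VY_sum]
          have := V_norm (par s)
          linarith [neg_sq (VX (par s)), neg_sq (VY (par s))]
        · push Not at hin
          rw [sum_single VX A s hsA (fun m hm => hin m hm.symm) hs'A,
            sum_single VY A s hsA (fun m hm => hin m hm.symm) hs'A]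
          exact V_norm s
    · intro x _
      have h4 : ∑ i, lin VX VY i x = (∑ i, VX i) * x 0 + (∑ i, VY i) * x 1 := by
        simp only [lin, Finset.sum_add_distrib, ← Finset.sum_mul]
      rw [h4, VX_sum, VY_sum]
      ring

/-- The lower bound for connected compact sets. -/
theorem lower_bound {K : Set E2} (hK : IsCompact K) (hc : IsConnected K) (p : Fin 8 → E2)
    (hp : ∀ i, p i ∈ K)
    (hx : ∀ l, |p l 0 - zx l| ≤ 1 / 40) (hy : ∀ l, |p l 1 - zy l| ≤ 1 / 40)
    (hA : ∀ l : Fin 8, (l : ℕ) < 4 → 0 ≤ zx l * p l 0 - zy l * p l 1)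
    (hE : ∀ l : Fin 8, 4 ≤ (l : ℕ) →
      1 / 2 + √3 / 2 + 1 / 50 ≤ 1 / 2 * (zx l * p l 0) + √3 / 2 * (zy l * p l 1)) :
    ENNReal.ofReal (2 + 2 * √3 + 4 / 50) ≤ μH[1] K := by
  by_contra hlt
  push Not at hlt
  have hfin : μH[1] K ≠ ∞ := ne_top_of_lt hlt
  set L := (μH[1] K).toReal with hL
  have hL0 : 0 ≤ L := ENNReal.toReal_nonneg
  have hLlt : L < 2 + 2 * √3 + 4 / 50 := by
    rw [hL]
    exact (ENNReal.lt_ofReal_iff_toReal_lt hfin).1 hlt
  obtain ⟨M, hM, _, hB⟩ := exists_laminar hK hc p hp L hL0 (by rw [hL, ENNReal.ofReal_toReal hfin])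
    ((2 + 2 * √3 + 4 / 50 - L) / 2) (by linarith)
  have := lower8 hM hB hx hy hA hE
  linarith

end Pool.Agent.R760.NS
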