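import Mathlib
import Pool.Agent.R760.NS2

set_option autoImplicit false

namespace Pool.Agent.R760.NS

open scoped ENNReal NNReal
open MeasureTheory Metric Pool.Agent.Helper752

/-- The horizontal Steiner tree of the square. -/
noncomputable def SA : Set E2 :=
  segment ℝ !₂[-1, 1] !₂[-(1 - √3 / 3), 0] ∪ segment ℝ !₂[-1, -1] !₂[-(1 - √3 / 3), 0]
    ∪ segment ℝ !₂[-(1 - √3 / 3), 0] !₂[1 - √3 / 3, 0]
    ∪ segment ℝ !₂[1 - √3 / 3, 0] !₂[1, 1] ∪ segment ℝ !₂[1 - √3 / 3, 0] !₂[1, -1]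

/-- The vertical Steiner tree of the square. -/
noncomputable def SB : Set E2 :=
  segment ℝ !₂[1, -1] !₂[0, -(1 - √3 / 3)] ∪ segment ℝ !₂[-1, -1] !₂[0, -(1 - √3 / 3)]
    ∪ segment ℝ !₂[0, -(1 - √3 / 3)] !₂[0, 1 - √3 / 3]
    ∪ segment ℝ !₂[0, 1 - √3 / 3] !₂[1, 1] ∪ segment ℝ !₂[0, 1 - √3 / 3] !₂[-1, 1]

/-- the factor of the abscissa of the outer point of a corner, at distance `t` from the corner -/
noncomputable def oX (t : ℝ) : ℝ := 1 + t / 2
/-- the factor of the ordinate of the outer point of a corner, at distance `t` from the corner -/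
noncomputable def oY (t : ℝ) : ℝ := 1 + t * (√3 / 2)

/-- The point `(sx u, sy v)` of the corner of `l`. -/
noncomputable def pt (l : Fin 8) (u v : ℝ) : E2 := !₂[zx l * u, zy l * v]

@[simp] theorem pt_zero (l : Fin 8) (u v : ℝ) : pt l u v 0 = zx l * u := by simp [pt]
@[simp] theorem pt_one (l : Fin 8) (u v : ℝ) : pt l u v 1 = zy l * v := by simp [pt]

theorem zx_sq (l : Fin 8) : zx l ^ 2 = 1 := by fin_cases l <;> simp [zx]
theorem zy_sq (l : Fin 8) : zy l ^ 2 = 1 := by fin_cases l <;> simp [zy]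

theorem zx_cases (l : Fin 8) : zx l = 1 ∨ zx l = -1 := by fin_cases l <;> simp [zx]
theorem zy_cases (l : Fin 8) : zy l = 1 ∨ zy l = -1 := by fin_cases l <;> simp [zy]

/-- The terminals. -/
noncomputable def term (l : Fin 8) : E2 :=
  if (l : ℕ) < 4 then pt l 1 1 else pt l (oX (1 / 50)) (oY (1 / 50))

/-- the radius -/
noncomputable def rr : ℝ := √2 * (1 / 1000)

/-- The points of `M`. -/
noncomputable def mpt (l : Fin 8) : E2 :=
  if (l : ℕ) < 4 then pt l (1 + 1 / 1000) (1 - 1 / 1000)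
    else pt l (oX (1 / 50 + rr)) (oY (1 / 50 + rr))

/-- The extensions. -/
noncomputable def ext (l : Fin 8) : Set E2 := segment ℝ (pt l 1 1) (pt l (oX (1 / 50)) (oY (1 / 50)))

/-- The first tree. -/
noncomputable def SS : Set E2 := SA ∪ (ext 0 ∪ ext 1 ∪ ext 2 ∪ ext 3)
/-- The second tree. -/
noncomputable def TT : Set E2 := SB ∪ (ext 0 ∪ ext 1 ∪ ext 2 ∪ ext 3)

theorem compact_segment (a b : E2) : IsCompact (segment ℝ a b) := by
  rw [segment_eq_image_lineMap]
  exact isCompact_Icc.image AffineMap.lineMap_continuous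

theorem SA_compact : IsCompact SA :=
  ((((compact_segment _ _).union (compact_segment _ _)).union (compact_segment _ _)).union
    (compact_segment _ _)).union (compact_segment _ _)

theorem SB_compact : IsCompact SB :=
  ((((compact_segment _ _).union (compact_segment _ _)).union (compact_segment _ _)).union
    (compact_segment _ _)).union (compact_segment _ _)

theorem ext_compact : IsCompact (ext 0 ∪ ext 1 ∪ ext 2 ∪ ext 3) :=
  (((compact_segment _ _).union (compact_segment _ _)).union (compact_segment _ _)).union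
    (compact_segment _ _)

theorem conn_segment (a b : E2) : IsConnected (segment ℝ a b) :=
  (convex_segment a b).isConnected ⟨a, left_mem_segment ℝ a b⟩

theorem conn_tree (a b c d e f : E2) :
    IsConnected (segment ℝ a e ∪ segment ℝ b e ∪ segment ℝ e f ∪ segment ℝ f c
      ∪ segment ℝ f d) := by
  refine IsConnected.union ⟨f, ?_, left_mem_segment ℝ f d⟩ (IsConnected.union
    ⟨f, ?_, left_mem_segment ℝ f c⟩ (IsConnected.union ⟨e, ?_, left_mem_segment ℝ e f⟩
    (IsConnected.union ⟨e, right_mem_segment ℝ a e, right_mem_segment ℝ b e⟩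
      (conn_segment _ _) (conn_segment _ _)) (conn_segment _ _)) (conn_segment _ _))
      (conn_segment _ _)
  · exact Or.inl (Or.inr (right_mem_segment ℝ e f))
  · exact Or.inr (right_mem_segment ℝ e f)
  · exact Or.inr (right_mem_segment ℝ b e)

theorem hseg (a b : E2) (ℓ : ℝ) (h : dist a b ≤ ℓ) : μH[1] (segment ℝ a b) ≤ ENNReal.ofReal ℓ := by
  rw [hausdorffMeasure_segment, edist_dist]
  exact ENNReal.ofReal_le_ofReal h

theorem len_tree (a b c d e f : E2) (ℓ m : ℝ) (hℓ : 0 ≤ ℓ) (hm : 0 ≤ m) (h1 : dist a e ≤ ℓ)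
    (h2 : dist b e ≤ ℓ) (h3 : dist e f ≤ m) (h4 : dist f c ≤ ℓ) (h5 : dist f d ≤ ℓ) :
    μH[1] (segment ℝ a e ∪ segment ℝ b e ∪ segment ℝ e f ∪ segment ℝ f c
      ∪ segment ℝ f d) ≤ ENNReal.ofReal (4 * ℓ + m) := by
  have e1 : 4 * ℓ + m = ((((ℓ + ℓ) + m) + ℓ) + ℓ) := by ring
  rw [e1, ENNReal.ofReal_add (by positivity) hℓ, ENNReal.ofReal_add (by positivity) hℓ,
    ENNReal.ofReal_add (by positivity) hm, ENNReal.ofReal_add hℓ hℓ]
  refine (measure_union_le _ _).trans (add_le_add ?_ (hseg _ _ _ h5))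
  refine (measure_union_le _ _).trans (add_le_add ?_ (hseg _ _ _ h4))
  refine (measure_union_le _ _).trans (add_le_add ?_ (hseg _ _ _ h3))
  exact (measure_union_le _ _).trans (add_le_add (hseg _ _ _ h1) (hseg _ _ _ h2))

theorem dist_le_of (a b c d ℓ : ℝ) (hℓ : 0 ≤ ℓ) (h : (a - c) ^ 2 + (b - d) ^ 2 ≤ ℓ ^ 2) :
    dist (!₂[a, b] : E2) !₂[c, d] ≤ ℓ := by
  rw [EuclideanSpace.dist_eq]
  apply Real.sqrt_le_iff.2 ⟨hℓ, _⟩
  simpa [Fin.sum_univ_two, Real.dist_eq, sq_abs] using h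

theorem sq3_gt : 1.732 < √3 := by
  rw [Real.lt_sqrt (by norm_num)]; norm_num

theorem SA_len : μH[1] SA ≤ ENNReal.ofReal (2 + 2 * √3) := by
  have h1 := sq3_gt
  have h2 := sq3_lt
  have h3 := sq3
  have h := len_tree !₂[-1, 1] !₂[-1, -1] !₂[1, 1] !₂[1, -1] !₂[-(1 - √3 / 3), 0] !₂[1 - √3 / 3, 0]
    (2 * √3 / 3) (2 - 2 * √3 / 3) (by positivity) (by linarith)
    (dist_le_of _ _ _ _ _ (by positivity) (by nlinarith))
    (dist_le_of _ _ _ _ _ (by positivity) (by nlinarith))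
    (dist_le_of _ _ _ _ _ (by linarith) (by nlinarith))
    (dist_le_of _ _ _ _ _ (by positivity) (by nlinarith))
    (dist_le_of _ _ _ _ _ (by positivity) (by nlinarith))
  have e : 4 * (2 * √3 / 3) + (2 - 2 * √3 / 3) = 2 + 2 * √3 := by ring
  rw [e] at h
  exact h

theorem SB_len : μH[1] SB ≤ ENNReal.ofReal (2 + 2 * √3) := by
  have h1 := sq3_gt
  have h2 := sq3_lt
  have h3 := sq3
  have h := len_tree !₂[1, -1] !₂[-1, -1] !₂[1, 1] !₂[-1, 1] !₂[0, -(1 - √3 / 3)] !₂[0, 1 - √3 / 3]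
    (2 * √3 / 3) (2 - 2 * √3 / 3) (by positivity) (by linarith)
    (dist_le_of _ _ _ _ _ (by positivity) (by nlinarith))
    (dist_le_of _ _ _ _ _ (by positivity) (by nlinarith))
    (dist_le_of _ _ _ _ _ (by linarith) (by nlinarith))
    (dist_le_of _ _ _ _ _ (by positivity) (by nlinarith))
    (dist_le_of _ _ _ _ _ (by positivity) (by nlinarith))
  have e : 4 * (2 * √3 / 3) + (2 - 2 * √3 / 3) = 2 + 2 * √3 := by ring
  rw [e] at h
  exact h

theorem dist_pt_le (l : Fin 8) (u v u' v' ℓ : ℝ) (hℓ : 0 ≤ ℓ)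
    (h : (u - u') ^ 2 + (v - v') ^ 2 ≤ ℓ ^ 2) : dist (pt l u v) (pt l u' v') ≤ ℓ := by
  apply dist_le_of _ _ _ _ _ hℓ
  have e : (zx l * u - zx l * u') ^ 2 + (zy l * v - zy l * v') ^ 2
      = zx l ^ 2 * (u - u') ^ 2 + zy l ^ 2 * (v - v') ^ 2 := by ring
  rw [e, zx_sq, zy_sq, one_mul, one_mul]
  exact h

theorem o_sq (t t' : ℝ) : (oX t - oX t') ^ 2 + (oY t - oY t') ^ 2 = (t - t') ^ 2 := by
  have h := sq3
  unfold oX oY
  have : (1 + t / 2 - (1 + t' / 2)) ^ 2 + (1 + t * (√3 / 2) - (1 + t' * (√3 / 2))) ^ 2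
      = (t - t') ^ 2 * (1 + √3 ^ 2) / 4 := by ring
  rw [this, h]; ring

theorem oX_zero : oX 0 = 1 := by simp [oX]
theorem oY_zero : oY 0 = 1 := by simp [oY]

theorem ext_len (l : Fin 8) : μH[1] (ext l) ≤ ENNReal.ofReal (1 / 50) := by
  apply hseg
  apply dist_pt_le _ _ _ _ _ _ (by norm_num)
  have h := o_sq 0 (1 / 50)
  rw [oX_zero, oY_zero] at h
  rw [h]; norm_num

theorem ext_total : μH[1] (ext 0 ∪ ext 1 ∪ ext 2 ∪ ext 3) ≤ ENNReal.ofReal (4 / 50) := by
  have e1 : (4 / 50 : ℝ) = ((1 / 50 + 1 / 50) + 1 / 50) + 1 / 50 := by norm_num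
  rw [e1, ENNReal.ofReal_add (by norm_num) (by norm_num),
    ENNReal.ofReal_add (by norm_num) (by norm_num), ENNReal.ofReal_add (by norm_num) (by norm_num)]
  refine (measure_union_le _ _).trans (add_le_add ?_ (ext_len _))
  refine (measure_union_le _ _).trans (add_le_add ?_ (ext_len _))
  exact (measure_union_le _ _).trans (add_le_add (ext_len _) (ext_len _))

theorem SS_len : μH[1] SS ≤ ENNReal.ofReal (2 + 2 * √3 + 4 / 50) := by
  rw [ENNReal.ofReal_add (by positivity) (by norm_num)]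
  exact (measure_union_le _ _).trans (add_le_add SA_len ext_total)

theorem TT_len : μH[1] TT ≤ ENNReal.ofReal (2 + 2 * √3 + 4 / 50) := by
  rw [ENNReal.ofReal_add (by positivity) (by norm_num)]
  exact (measure_union_le _ _).trans (add_le_add SB_len ext_total)

theorem SS_compact : IsCompact SS := SA_compact.union ext_compact
theorem TT_compact : IsCompact TT := SB_compact.union ext_compact

/-- The corners are in the vertical tree. -/
theorem corner_SB (l : Fin 8) : pt l 1 1 ∈ SB := by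
  have h : pt l 1 1 = !₂[1, 1] ∨ pt l 1 1 = !₂[-1, 1] ∨ pt l 1 1 = !₂[1, -1] ∨
      pt l 1 1 = !₂[-1, -1] := by
    unfold pt
    rcases zx_cases l with h | h <;> rcases zy_cases l with h' | h' <;> rw [h, h'] <;> simp
  unfold SB
  rcases h with h | h | h | h <;> rw [h]
  · exact Or.inl (Or.inr (right_mem_segment ℝ _ _))
  · exact Or.inr (right_mem_segment ℝ _ _)
  · exact Or.inl (Or.inl (Or.inl (Or.inl (left_mem_segment ℝ _ _))))
  · exact Or.inl (Or.inl (Or.inl (Or.inr (left_mem_segment ℝ _ _))))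

/-- The corners are in the horizontal tree. -/
theorem corner_SA (l : Fin 8) : pt l 1 1 ∈ SA := by
  have h : pt l 1 1 = !₂[1, 1] ∨ pt l 1 1 = !₂[-1, 1] ∨ pt l 1 1 = !₂[1, -1] ∨
      pt l 1 1 = !₂[-1, -1] := by
    unfold pt
    rcases zx_cases l with h | h <;> rcases zy_cases l with h' | h' <;> rw [h, h'] <;> simp
  unfold SA
  rcases h with h | h | h | h <;> rw [h]
  · exact Or.inl (Or.inr (right_mem_segment ℝ _ _))
  · exact Or.inl (Or.inl (Or.inl (Or.inl (left_mem_segment ℝ _ _))))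
  · exact Or.inr (right_mem_segment ℝ _ _)
  · exact Or.inl (Or.inl (Or.inl (Or.inr (left_mem_segment ℝ _ _))))

theorem add_ext_conn {S : Set E2} (hS : IsConnected S) (h : ∀ l, pt l 1 1 ∈ S) :
    IsConnected (S ∪ (ext 0 ∪ ext 1 ∪ ext 2 ∪ ext 3)) := by
  have e : S ∪ (ext 0 ∪ ext 1 ∪ ext 2 ∪ ext 3) = (((S ∪ ext 0) ∪ ext 1) ∪ ext 2) ∪ ext 3 := by
    simp only [Set.union_assoc]
  rw [e]
  refine IsConnected.union ⟨pt 3 1 1, ?_, left_mem_segment ℝ _ _⟩ (IsConnected.union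
    ⟨pt 2 1 1, ?_, left_mem_segment ℝ _ _⟩ (IsConnected.union
    ⟨pt 1 1 1, ?_, left_mem_segment ℝ _ _⟩ (IsConnected.union
    ⟨pt 0 1 1, ?_, left_mem_segment ℝ _ _⟩ hS (conn_segment _ _)) (conn_segment _ _))
    (conn_segment _ _)) (conn_segment _ _)
  · exact Or.inl (Or.inl (Or.inl (h _)))
  · exact Or.inl (Or.inl (h _))
  · exact Or.inl (h _)
  · exact h _

theorem SS_conn : IsConnected SS := add_ext_conn (conn_tree _ _ _ _ _ _) corner_SA
theorem TT_conn : IsConnected TT := add_ext_conn (conn_tree _ _ _ _ _ _) corner_SB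

theorem ext_mem (l : Fin 8) (hl : 4 ≤ (l : ℕ)) :
    pt l (oX (1 / 50)) (oY (1 / 50)) ∈ ext 0 ∪ ext 1 ∪ ext 2 ∪ ext 3 := by
  have h : ∀ l m : Fin 8, zx l = zx m → zy l = zy m → pt l (oX (1 / 50)) (oY (1 / 50)) ∈ ext m := by
    intro l m h1 h2
    unfold ext pt
    rw [h1, h2]
    exact right_mem_segment ℝ _ _
  fin_cases l
  · simp at hl
  · simp at hl
  · simp at hl
  · simp at hl
  · exact Or.inl (Or.inl (Or.inl (h _ 0 rfl rfl)))
  · exact Or.inl (Or.inl (Or.inr (h _ 1 rfl rfl)))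
  · exact Or.inl (Or.inr (h _ 2 rfl rfl))
  · exact Or.inr (h _ 3 rfl rfl)

theorem term_SS (l : Fin 8) : term l ∈ SS := by
  unfold term
  split_ifs with h
  · exact Or.inl (corner_SA l)
  · exact Or.inr (ext_mem l (by omega))

theorem term_TT (l : Fin 8) : term l ∈ TT := by
  unfold term
  split_ifs with h
  · exact Or.inl (corner_SB l)
  · exact Or.inr (ext_mem l (by omega))

theorem rr_pos : 0 < rr := by unfold rr; positivity

theorem sq2 : √2 ^ 2 = 2 := Real.sq_sqrt (by norm_num)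

theorem rr_lt : rr < 1 / 500 := by
  unfold rr
  have : √2 < 1.5 := by
    rw [Real.sqrt_lt' (by norm_num)]; norm_num
  linarith

theorem term_mpt (l : Fin 8) : dist (mpt l) (term l) ≤ rr := by
  unfold mpt term
  split_ifs with h
  · apply dist_pt_le _ _ _ _ _ _ rr_pos.le
    unfold rr
    rw [mul_pow, sq2]
    norm_num
  · apply dist_pt_le _ _ _ _ _ _ rr_pos.le
    rw [o_sq]
    apply le_of_eq; ring

/-- The lower bound for sets that meet all the discs. -/
theorem lower_discs {W : Set E2} (hW : IsCompact W) (hc : IsConnected W)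
    (h : ∀ l, infDist (mpt l) W ≤ rr) : ENNReal.ofReal (2 + 2 * √3 + 4 / 50) ≤ μH[1] W := by
  have hex : ∀ l, ∃ x ∈ W, dist (mpt l) x ≤ rr := by
    intro l
    obtain ⟨x, hx, hd⟩ := hW.exists_infDist_eq_dist hc.nonempty (mpt l)
    exact ⟨x, hx, hd ▸ h l⟩
  choose p hp hd using hex
  have hr := rr_lt
  have hr0 := rr_pos
  have h3 := sq3_lt
  have h3' := sq3_pos
  have h3'' := sq3
  have hsq : ∀ l, (mpt l 0 - p l 0) ^ 2 + (mpt l 1 - p l 1) ^ 2 ≤ rr ^ 2 := by
    intro l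
    have := hd l
    rw [EuclideanSpace.dist_eq, Real.sqrt_le_left hr0.le] at this
    simpa [Fin.sum_univ_two, Real.dist_eq, sq_abs] using this
  have hlin : ∀ (l : Fin 8) (c d : ℝ), c ^ 2 + d ^ 2 ≤ 1 →
      c * mpt l 0 + d * mpt l 1 - rr ≤ c * p l 0 + d * p l 1 := by
    intro l c d hcd
    have := lin_le c d hcd (mpt l) (p l)
    have := hd l
    linarith
  have hm0 : ∀ l, |mpt l 0 - zx l| ≤ 1 / 80 := by
    intro l
    unfold mpt
    split_ifs with hl
    · rw [pt_zero]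
      have : zx l * (1 + 1 / 1000) - zx l = zx l * (1 / 1000) := by ring
      rw [this, abs_mul]
      rcases zx_cases l with h | h <;> rw [h] <;> norm_num
    · rw [pt_zero]
      have : zx l * oX (1 / 50 + rr) - zx l = zx l * ((1 / 50 + rr) / 2) := by unfold oX; ring
      rw [this, abs_mul, abs_of_pos (a := (1 / 50 + rr) / 2) (by positivity)]
      rcases zx_cases l with h | h <;> rw [h] <;> norm_num <;> linarith
  have hm1 : ∀ l, |mpt l 1 - zy l| ≤ 1 / 50 := by
    intro l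
    unfold mpt
    split_ifs with hl
    · rw [pt_one]
      have : zy l * (1 - 1 / 1000) - zy l = zy l * (-(1 / 1000)) := by ring
      rw [this, abs_mul]
      rcases zy_cases l with h | h <;> rw [h] <;> norm_num
    · rw [pt_one]
      have : zy l * oY (1 / 50 + rr) - zy l = zy l * ((1 / 50 + rr) * (√3 / 2)) := by
        unfold oY; ring
      rw [this, abs_mul, abs_of_pos (a := (1 / 50 + rr) * (√3 / 2)) (by positivity)]
      have : (1 / 50 + rr) * (√3 / 2) ≤ 1 / 50 := by nlinarith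
      rcases zy_cases l with h | h <;> rw [h] <;> norm_num <;> linarith
  have hc0 : ∀ l, |p l 0 - mpt l 0| ≤ rr := by
    intro l
    rw [abs_sub_comm]
    exact abs_le_of_sq_le_sq (by nlinarith [hsq l, sq_nonneg (mpt l 1 - p l 1)]) hr0.le
  have hc1 : ∀ l, |p l 1 - mpt l 1| ≤ rr := by
    intro l
    rw [abs_sub_comm]
    exact abs_le_of_sq_le_sq (by nlinarith [hsq l, sq_nonneg (mpt l 0 - p l 0)]) hr0.le
  refine lower_bound hW hc p hp ?_ ?_ ?_ ?_
  · intro l
    have := abs_add_le (p l 0 - mpt l 0) (mpt l 0 - zx l)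
    rw [sub_add_sub_cancel] at this
    linarith [hc0 l, hm0 l]
  · intro l
    have := abs_add_le (p l 1 - mpt l 1) (mpt l 1 - zy l)
    rw [sub_add_sub_cancel] at this
    linarith [hc1 l, hm1 l]
  · intro l hl
    have h2 := sq2
    have h2' : 0 < √2 := Real.sqrt_pos.2 (by norm_num)
    have key := hlin l (zx l * (√2 / 2)) (-(zy l * (√2 / 2))) (by
      have : (zx l * (√2 / 2)) ^ 2 + (-(zy l * (√2 / 2))) ^ 2
        = (zx l ^ 2 + zy l ^ 2) * √2 ^ 2 / 4 := by ring
      rw [this, zx_sq, zy_sq, h2]; norm_num)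
    have e0 : mpt l 0 = zx l * (1 + 1 / 1000) := by
      unfold mpt; rw [if_pos hl, pt_zero]
    have e1 : mpt l 1 = zy l * (1 - 1 / 1000) := by
      unfold mpt; rw [if_pos hl, pt_one]
    rw [e0, e1] at key
    have e : zx l * (√2 / 2) * (zx l * (1 + 1 / 1000)) + -(zy l * (√2 / 2)) * (zy l * (1 - 1 / 1000))
        - rr = (zx l ^ 2 - zy l ^ 2) * (√2 / 2) + (zx l ^ 2 + zy l ^ 2) * (√2 / 2) * (1 / 1000) - rr := by
      ring
    rw [e, zx_sq, zy_sq] at key
    have e' : zx l * (√2 / 2) * p l 0 + -(zy l * (√2 / 2)) * p l 1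
        = (√2 / 2) * (zx l * p l 0 - zy l * p l 1) := by ring
    rw [e'] at key
    have e'' : (1 - 1) * (√2 / 2) + (1 + 1) * (√2 / 2) * (1 / 1000) - rr = 0 := by
      unfold rr; ring
    rw [e''] at key
    exact nonneg_of_mul_nonneg_right key (by positivity)
  · intro l hl
    have key := hlin l (zx l * (1 / 2)) (zy l * (√3 / 2)) (by
      have : (zx l * (1 / 2)) ^ 2 + (zy l * (√3 / 2)) ^ 2
        = (zx l ^ 2 + zy l ^ 2 * √3 ^ 2) / 4 := by ring
      rw [this, zx_sq, zy_sq, h3'']; norm_num)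
    have e0 : mpt l 0 = zx l * oX (1 / 50 + rr) := by
      unfold mpt; rw [if_neg (by omega), pt_zero]
    have e1 : mpt l 1 = zy l * oY (1 / 50 + rr) := by
      unfold mpt; rw [if_neg (by omega), pt_one]
    rw [e0, e1] at key
    have e : zx l * (1 / 2) * (zx l * oX (1 / 50 + rr)) + zy l * (√3 / 2) * (zy l * oY (1 / 50 + rr))
        - rr = zx l ^ 2 * (1 / 2) * oX (1 / 50 + rr) + zy l ^ 2 * (√3 / 2) * oY (1 / 50 + rr) - rr := by
      ring
    rw [e, zx_sq, zy_sq] at key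
    have e2 : 1 * (1 / 2) * oX (1 / 50 + rr) + 1 * (√3 / 2) * oY (1 / 50 + rr) - rr
        = 1 / 2 + √3 / 2 + (1 / 50 + rr) * (1 + √3 ^ 2) / 4 - rr := by
      unfold oX oY; ring
    rw [e2, h3''] at key
    have e3 : zx l * (1 / 2) * p l 0 + zy l * (√3 / 2) * p l 1
        = 1 / 2 * (zx l * p l 0) + √3 / 2 * (zy l * p l 1) := by ring
    rw [e3] at key
    linarith

end Pool.Agent.R760.NS
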