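import Mathlib
import Pool.Agent.R760.NS3

set_option autoImplicit false

namespace Pool.Agent.R760.NS

open scoped ENNReal NNReal
open MeasureTheory Metric Pool.Agent.Helper752

/-- A point at which a linear functional has a strict local minimum over `T` is not in the
relative interior of a segment contained in `T`. -/
theorem not_interior {T : Set E2} {c : E2} {u v δ : ℝ} (hδ : 0 < δ)
    (h : ∀ x ∈ T, dist x c < δ → x ≠ c → u * c 0 + v * c 1 < u * x 0 + v * x 1) :
    ¬ ∃ x y : E2, x ≠ y ∧ segment ℝ x y ⊆ T ∧ c ∈ openSegment ℝ x y := by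
  rintro ⟨x, y, hxy, hT, a, b, ha, hb, hab, hc⟩
  have hd : 0 < dist x y := dist_pos.2 hxy
  obtain ⟨t, ht0, hta, htb, htd⟩ : ∃ t : ℝ, 0 < t ∧ t ≤ a ∧ t ≤ b ∧ t * dist x y < δ := by
    refine ⟨min (min a b) (δ / (2 * dist x y)), by positivity, ?_, ?_, ?_⟩
    · exact (min_le_left _ _).trans (min_le_left _ _)
    · exact (min_le_left _ _).trans (min_le_right _ _)
    · calc min (min a b) (δ / (2 * dist x y)) * dist x y
          ≤ δ / (2 * dist x y) * dist x y :=
            mul_le_mul_of_nonneg_right (min_le_right _ _) hd.le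
        _ = δ / 2 := by field_simp
        _ < δ := by linarith
  have m1 : (a - t) • x + (b + t) • y ∈ T :=
    hT ⟨a - t, b + t, by linarith, by linarith, by linarith, rfl⟩
  have m2 : (a + t) • x + (b - t) • y ∈ T :=
    hT ⟨a + t, b - t, by linarith, by linarith, by linarith, rfl⟩
  have e1 : (a - t) • x + (b + t) • y - c = t • (y - x) := by
    rw [← hc]; module
  have e2 : (a + t) • x + (b - t) • y - c = t • (x - y) := by
    rw [← hc]; module
  have d1 : dist ((a - t) • x + (b + t) • y) c < δ := by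
    rw [dist_eq_norm, e1, norm_smul, Real.norm_of_nonneg ht0.le, ← dist_eq_norm, dist_comm y x]
    exact htd
  have d2 : dist ((a + t) • x + (b - t) • y) c < δ := by
    rw [dist_eq_norm, e2, norm_smul, Real.norm_of_nonneg ht0.le, ← dist_eq_norm]
    exact htd
  have n1 : (a - t) • x + (b + t) • y ≠ c := by
    intro h0
    rw [h0, sub_self] at e1
    have := smul_eq_zero.1 e1.symm
    rcases this with h | h
    · exact ht0.ne' h
    · exact hxy (sub_eq_zero.1 h).symm
  have n2 : (a + t) • x + (b - t) • y ≠ c := by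
    intro h0
    rw [h0, sub_self] at e2
    have := smul_eq_zero.1 e2.symm
    rcases this with h | h
    · exact ht0.ne' h
    · exact hxy (sub_eq_zero.1 h)
  have k1 := h _ m1 d1 n1
  have k2 := h _ m2 d2 n2
  rw [← hc] at k1 k2
  simp only [PiLp.add_apply, PiLp.smul_apply, smul_eq_mul] at k1 k2
  linarith

/-- Points of the extension of a corner. -/
theorem ext_param (l : Fin 8) (x : E2) (hx : x ∈ ext l) :
    ∃ t : ℝ, 0 ≤ t ∧ t ≤ 1 / 50 ∧ x = pt l (oX t) (oY t) := by
  obtain ⟨a, b, ha, hb, hab, rfl⟩ := hx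
  refine ⟨b * (1 / 50), by positivity, by nlinarith, ?_⟩
  ext i
  fin_cases i
  · simp [pt, oX]
    have : a = 1 - b := by linarith
    rw [this]; ring
  · simp [pt, oY]
    have : a = 1 - b := by linarith
    rw [this]; ring

/-- The product `sx x + sy y` on the first tree is largest at the outer points. -/
theorem SA_abs (x : E2) (hx : x ∈ SA) : |x 0| ≤ 1 ∧ |x 1| ≤ 1 := by
  have h1 := sq3_gt
  have h2 := sq3_lt
  have key : ∀ p q : E2, |p 0| ≤ 1 → |p 1| ≤ 1 → |q 0| ≤ 1 → |q 1| ≤ 1 → ∀ x ∈ segment ℝ p q,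
      |x 0| ≤ 1 ∧ |x 1| ≤ 1 := by
    rintro p q h1 h2 h3 h4 x ⟨a, b, ha, hb, hab, rfl⟩
    simp only [PiLp.add_apply, PiLp.smul_apply, smul_eq_mul]
    rw [abs_le] at h1 h2 h3 h4
    constructor <;> rw [abs_le] <;> constructor <;> nlinarith
  have hs : |1 - √3 / 3| ≤ 1 := by rw [abs_le]; constructor <;> linarith
  rcases hx with (((hx | hx) | hx) | hx) | hx <;>
    refine key _ _ ?_ ?_ ?_ ?_ _ hx <;> simp <;> (try exact hs) <;>
    (try (rw [abs_le]; constructor <;> linarith))

/-- A point of the vertical tree in the open quadrant of the corner of `l`. -/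
theorem SB_quad (l : Fin 8) (x : E2) (hx : x ∈ SB) (h0 : 0 < zx l * x 0) (h1 : 0 < zy l * x 1) :
    ∃ t : ℝ, 0 ≤ t ∧ t ≤ 1 ∧ x = pt l (1 - t) (1 - t * (√3 / 3)) := by
  have h3 := sq3_gt
  have h3' := sq3_lt
  have key : ∀ (p q : ℝ), (p = 1 ∨ p = -1) → (q = 1 ∨ q = -1) → ∀ a b : ℝ, 0 ≤ a → 0 ≤ b →
      a + b = 1 → x = a • (!₂[p, q] : E2) + b • (!₂[0, q * (1 - √3 / 3)] : E2) →
      ∃ t : ℝ, 0 ≤ t ∧ t ≤ 1 ∧ x = pt l (1 - t) (1 - t * (√3 / 3)) := by
    intro p q hp hq a b ha hb hab hx
    have e0 : x 0 = a * p := by rw [hx]; simp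
    have e1 : x 1 = a * q + b * (q * (1 - √3 / 3)) := by rw [hx]; simp
    have e1' : x 1 = q * (1 - b * (√3 / 3)) := by
      rw [e1]
      have : a = 1 - b := by linarith
      rw [this]; ring
    refine ⟨b, hb, by linarith, ?_⟩
    have hpl : p = zx l := by
      rw [e0] at h0
      rcases zx_cases l with h | h <;> rcases hp with rfl | rfl <;> rw [h] at h0 ⊢ <;>
        linarith
    have hql : q = zy l := by
      rw [e1'] at h1
      rcases zy_cases l with h | h <;> rcases hq with rfl | rfl <;> rw [h] at h1 ⊢ <;>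
        nlinarith
    ext i
    fin_cases i
    · simp only [pt]
      have : a = 1 - b := by linarith
      simp [e0, hpl, this]; ring
    · simp only [pt]
      simp [e1', hql]
  rcases hx with (((⟨a, b, ha, hb, hab, rfl⟩ | ⟨a, b, ha, hb, hab, rfl⟩) |
    ⟨a, b, ha, hb, hab, rfl⟩) | ⟨a, b, ha, hb, hab, rfl⟩) | ⟨a, b, ha, hb, hab, rfl⟩
  · exact key 1 (-1) (Or.inl rfl) (Or.inr rfl) a b ha hb hab (by congr 2; simp)
  · exact key (-1) (-1) (Or.inr rfl) (Or.inr rfl) a b ha hb hab (by congr 2; simp)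
  · simp at h0
  · refine key 1 1 (Or.inl rfl) (Or.inl rfl) b a hb ha (by linarith) ?_
    rw [add_comm]; congr 2; simp
  · refine key (-1) 1 (Or.inr rfl) (Or.inl rfl) b a hb ha (by linarith) ?_
    rw [add_comm]; congr 2; simp

theorem mem_exts {x : E2} (hx : x ∈ ext 0 ∪ ext 1 ∪ ext 2 ∪ ext 3) :
    ∃ (m : Fin 8) (t : ℝ), 0 ≤ t ∧ t ≤ 1 / 50 ∧ x = pt m (oX t) (oY t) := by
  rcases hx with ((hx | hx) | hx) | hx
  · exact ⟨0, ext_param _ _ hx⟩
  · exact ⟨1, ext_param _ _ hx⟩
  · exact ⟨2, ext_param _ _ hx⟩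
  · exact ⟨3, ext_param _ _ hx⟩

theorem oX_pos {t : ℝ} (ht : 0 ≤ t) : 0 < oX t := by unfold oX; positivity
theorem oY_pos {t : ℝ} (ht : 0 ≤ t) : 0 < oY t := by unfold oY; positivity

/-- The corners are not interior points of segments in `TT`. -/
theorem corner_TT (l : Fin 8) :
    ¬ ∃ x y : E2, x ≠ y ∧ segment ℝ x y ⊆ TT ∧ pt l 1 1 ∈ openSegment ℝ x y := by
  have h3 := sq3_gt
  refine not_interior (u := -zx l) (v := zy l) (δ := 1) one_pos ?_
  intro x hx hd hne
  have hc : -zx l * (pt l 1 1) 0 + zy l * (pt l 1 1) 1 = 0 := by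
    rw [pt_zero, pt_one]
    have := zx_sq l
    have := zy_sq l
    nlinarith
  rw [hc]
  have hsq : (x 0 - zx l) ^ 2 + (x 1 - zy l) ^ 2 < 1 := by
    rw [EuclideanSpace.dist_eq, Real.sqrt_lt' one_pos] at hd
    simpa [Fin.sum_univ_two, Real.dist_eq, sq_abs] using hd
  have hq0 : 0 < zx l * x 0 := by
    have := zx_sq l
    nlinarith [sq_nonneg (x 1 - zy l), sq_nonneg (x 0)]
  have hq1 : 0 < zy l * x 1 := by
    have := zy_sq l
    nlinarith [sq_nonneg (x 0 - zx l), sq_nonneg (x 1)]
  have ex := zx_sq l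
  have ey := zy_sq l
  rcases hx with hx | hx
  · obtain ⟨t, ht0, ht1, rfl⟩ := SB_quad l x hx hq0 hq1
    have htpos : 0 < t := by
      rcases eq_or_lt_of_le ht0 with h | h
      · exfalso; apply hne; rw [← h]; simp
      · exact h
    rw [pt_zero, pt_one]
    have e : -zx l * (zx l * (1 - t)) + zy l * (zy l * (1 - t * (√3 / 3)))
        = -(zx l ^ 2) * (1 - t) + zy l ^ 2 * (1 - t * (√3 / 3)) := by ring
    rw [e, ex, ey]
    have h4 := sq3_lt
    nlinarith
  · obtain ⟨m, t, ht0, ht1, rfl⟩ := mem_exts hx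
    rw [pt_zero] at hq0
    rw [pt_one] at hq1
    have hX := oX_pos ht0
    have hY := oY_pos ht0
    have e0 : zx l * zx m = 1 := by
      rcases zx_cases l with h | h <;> rcases zx_cases m with h' | h' <;> rw [h, h'] at hq0 ⊢ <;>
        first | (exfalso; linarith) | norm_num
    have e1 : zy l * zy m = 1 := by
      rcases zy_cases l with h | h <;> rcases zy_cases m with h' | h' <;> rw [h, h'] at hq1 ⊢ <;>
        first | (exfalso; linarith) | norm_num
    have f0 : zx m = zx l := by
      have : zx m = zx l ^ 2 * zx m := by rw [ex, one_mul]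
      rw [this, sq, mul_assoc, e0, mul_one]
    have f1 : zy m = zy l := by
      have : zy m = zy l ^ 2 * zy m := by rw [ey, one_mul]
      rw [this, sq, mul_assoc, e1, mul_one]
    have htpos : 0 < t := by
      rcases eq_or_lt_of_le ht0 with h | h
      · exfalso; apply hne; rw [← h, oX_zero, oY_zero]; unfold pt; rw [f0, f1]
      · exact h
    rw [pt_zero, pt_one, f0, f1]
    have e : -zx l * (zx l * oX t) + zy l * (zy l * oY t)
        = -(zx l ^ 2) * oX t + zy l ^ 2 * oY t := by ring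
    rw [e, ex, ey]
    unfold oX oY
    nlinarith

/-- The outer points are not interior points of segments in `SS`. -/
theorem outer_SS (l : Fin 8) :
    ¬ ∃ x y : E2, x ≠ y ∧ segment ℝ x y ⊆ SS ∧
      pt l (oX (1 / 50)) (oY (1 / 50)) ∈ openSegment ℝ x y := by
  have h3 := sq3_gt
  have h3' := sq3_lt
  refine not_interior (u := -zx l) (v := -zy l) (δ := 1) one_pos ?_
  intro x hx _ hne
  have ex := zx_sq l
  have ey := zy_sq l
  have hc : -zx l * (pt l (oX (1 / 50)) (oY (1 / 50))) 0
      + -zy l * (pt l (oX (1 / 50)) (oY (1 / 50))) 1 = -(oX (1 / 50) + oY (1 / 50)) := by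
    rw [pt_zero, pt_one]
    have e : -zx l * (zx l * oX (1 / 50)) + -zy l * (zy l * oY (1 / 50))
      = -(zx l ^ 2) * oX (1 / 50) - zy l ^ 2 * oY (1 / 50) := by ring
    rw [e, ex, ey]; ring
  rw [hc]
  have hbig : 2 < oX (1 / 50) + oY (1 / 50) := by unfold oX oY; linarith
  rcases hx with hx | hx
  · obtain ⟨h0, h1⟩ := SA_abs x hx
    rw [abs_le] at h0 h1
    rcases zx_cases l with h | h <;> rcases zy_cases l with h' | h' <;> rw [h, h'] <;> linarith
  · obtain ⟨m, t, ht0, ht1, rfl⟩ := mem_exts hx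
    rw [pt_zero, pt_one]
    have hX := oX_pos ht0
    have hY := oY_pos ht0
    have hXl : oX t ≤ oX (1 / 50) := by unfold oX; linarith
    have hYl : oY t ≤ oY (1 / 50) := by unfold oY; nlinarith
    have hX2 : oX t ≤ 1.1 := by unfold oX; linarith
    have hY2 : oY t ≤ 1.1 := by unfold oY; nlinarith
    by_cases e0 : zx m = zx l
    · by_cases e1 : zy m = zy l
      · have htl : t < 1 / 50 := by
          rcases eq_or_lt_of_le ht1 with h | h
          · exfalso; apply hne; rw [h]; unfold pt; rw [e0, e1]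
          · exact h
        have e : -zx l * (zx m * oX t) + -zy l * (zy m * oY t)
          = -(zx l ^ 2) * oX t - zy l ^ 2 * oY t := by rw [e0, e1]; ring
        rw [e, ex, ey]
        unfold oX oY
        nlinarith
      · have e2 : zy l * zy m = -1 := by
          rcases zy_cases l with h | h <;> rcases zy_cases m with h' | h' <;> rw [h, h'] at e1 ⊢ <;>
            first | (exact absurd rfl e1) | norm_num
        have e : -zx l * (zx m * oX t) + -zy l * (zy m * oY t)
          = -(zx l ^ 2) * oX t - (zy l * zy m) * oY t := by rw [e0]; ring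
        rw [e, ex, e2]
        linarith
    · have e2 : zx l * zx m = -1 := by
        rcases zx_cases l with h | h <;> rcases zx_cases m with h' | h' <;> rw [h, h'] at e0 ⊢ <;>
          first | (exact absurd rfl e0) | norm_num
      have e3 : -(zy l * zy m) * oY t ≥ -oY t := by
        rcases zy_cases l with h | h <;> rcases zy_cases m with h' | h' <;> rw [h, h'] <;> linarith
      have e : -zx l * (zx m * oX t) + -zy l * (zy m * oY t)
        = -(zx l * zx m) * oX t + -(zy l * zy m) * oY t := by ring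
      rw [e, e2]
      linarith

/-- The two trees are different. -/
theorem SS_ne_TT : SS ≠ TT := by
  intro h
  have h1 := sq3_gt
  have h2 := sq3_lt
  have hm : (!₂[1 - √3 / 3, 0] : E2) ∈ SS :=
    Or.inl (Or.inl (Or.inl (Or.inr (right_mem_segment ℝ _ _))))
  rw [h] at hm
  have hup : ∀ a b : E2, 0 < a 1 → 0 < b 1 → ∀ x ∈ segment ℝ a b, 0 < x 1 := by
    rintro a b ha hb x ⟨s, t, hs, ht, hst, rfl⟩
    simp only [PiLp.add_apply, PiLp.smul_apply, smul_eq_mul]
    rcases eq_or_lt_of_le hs with h0 | h0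
    · have : t = 1 := by linarith
      subst this; rw [← h0]; linarith
    · nlinarith
  have hdn : ∀ a b : E2, a 1 < 0 → b 1 < 0 → ∀ x ∈ segment ℝ a b, x 1 < 0 := by
    rintro a b ha hb x ⟨s, t, hs, ht, hst, rfl⟩
    simp only [PiLp.add_apply, PiLp.smul_apply, smul_eq_mul]
    rcases eq_or_lt_of_le hs with h0 | h0
    · have : t = 1 := by linarith
      subst this; rw [← h0]; linarith
    · nlinarith
  have hmid : ∀ a b : E2, a 0 = 0 → b 0 = 0 → ∀ x ∈ segment ℝ a b, x 0 = 0 := by
    rintro a b ha hb x ⟨s, t, hs, ht, hst, rfl⟩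
    simp only [PiLp.add_apply, PiLp.smul_apply, smul_eq_mul, ha, hb, mul_zero, add_zero]
  rcases hm with ((((hm | hm) | hm) | hm) | hm) | hm
  · have := hdn _ _ (by simp) (by simp; linarith) _ hm
    simp at this
  · have := hdn _ _ (by simp) (by simp; linarith) _ hm
    simp at this
  · have := hmid _ _ (by simp) (by simp) _ hm
    simp at this
    linarith
  · have := hup _ _ (by simp; linarith) (by simp) _ hm
    simp at this
  · have := hup _ _ (by simp; linarith) (by simp) _ hm
    simp at this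
  · obtain ⟨m, t, ht0, ht1, he⟩ := mem_exts hm
    have h4 : (!₂[1 - √3 / 3, 0] : E2) 1 = 0 := by simp
    rw [he, pt_one] at h4
    have := oY_pos ht0
    rcases zy_cases m with h5 | h5 <;> rw [h5] at h4 <;> linarith

/-- Points given by different factors are different. -/
theorem pt_inj {ua va ub vb : ℝ} (h1 : 0 < ua) (h2 : 0 < va) (h3 : 0 < ub) (h4 : 0 < vb)
    (hne : va ≠ vb) :
    Function.Injective (fun l : Fin 8 => if (l : ℕ) < 4 then pt l ua va else pt l ub vb) := by
  have hsx : ∀ (a b : ℝ) (l m : Fin 8), 0 < a → 0 < b → zx l * a = zx m * b → zx l = zx m := by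
    intro a b l m ha hb h
    rcases zx_cases l with h' | h' <;> rcases zx_cases m with h'' | h'' <;>
      rw [h', h''] at h ⊢ <;> linarith
  have hsy : ∀ (a b : ℝ) (l m : Fin 8), 0 < a → 0 < b → zy l * a = zy m * b →
      zy l = zy m ∧ a = b := by
    intro a b l m ha hb h
    rcases zy_cases l with h' | h' <;> rcases zy_cases m with h'' | h'' <;>
      rw [h', h''] at h ⊢ <;> constructor <;> linarith
  have hco : ∀ l m : Fin 8, zx l = zx m → zy l = zy m → cor l = cor m := by
    intro l m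
    fin_cases l <;> fin_cases m <;> simp [zx, zy, cor] <;> norm_num
  have hfin : ∀ l m : Fin 8, cor l = cor m → ((l : ℕ) < 4 ↔ (m : ℕ) < 4) → l = m := by decide
  intro l m h
  simp only at h
  have hpt : ∀ (l m : Fin 8) (u v u' v' : ℝ), pt l u v = pt m u' v' →
      zx l * u = zx m * u' ∧ zy l * v = zy m * v' := by
    intro l m u v u' v' h
    have h0 : pt l u v 0 = pt m u' v' 0 := by rw [h]
    have h1 : pt l u v 1 = pt m u' v' 1 := by rw [h]
    rw [pt_zero, pt_zero] at h0
    rw [pt_one, pt_one] at h1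
    exact ⟨h0, h1⟩
  split_ifs at h with hl hm hm
  · obtain ⟨e0, e1⟩ := hpt _ _ _ _ _ _ h
    exact hfin l m (hco l m (hsx _ _ _ _ h1 h1 e0) (hsy _ _ _ _ h2 h2 e1).1) (by simp [hl, hm])
  · obtain ⟨e0, e1⟩ := hpt _ _ _ _ _ _ h
    exact absurd (hsy _ _ _ _ h2 h4 e1).2 hne
  · obtain ⟨e0, e1⟩ := hpt _ _ _ _ _ _ h
    exact absurd (hsy _ _ _ _ h4 h2 e1).2.symm hne
  · obtain ⟨e0, e1⟩ := hpt _ _ _ _ _ _ h
    exact hfin l m (hco l m (hsx _ _ _ _ h3 h3 e0) (hsy _ _ _ _ h4 h4 e1).1) (by simp [hl, hm])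

theorem term_inj : Function.Injective term := by
  have h3 := sq3_gt
  exact pt_inj one_pos one_pos (oX_pos (by norm_num)) (oY_pos (by norm_num))
    (by unfold oY; nlinarith)

theorem mpt_inj : Function.Injective mpt := by
  have h3 := sq3_gt
  have hr := rr_pos
  refine pt_inj (by norm_num) (by norm_num) (oX_pos (by positivity)) (oY_pos (by positivity)) ?_
  have : 1 < oY (1 / 50 + rr) := by unfold oY; nlinarith [mul_pos hr (show 0 < √3 / 2 by positivity)]
  intro h
  rw [← h] at this
  norm_num at this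

end Pool.Agent.R760.NS
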