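import Mathlib

/-! Expansive maps of compact sets and the criterion for plasticity. -/

namespace Pool.Agent.R760.PL

open Set Metric Topology Filter

variable {Z : Type*} [MetricSpace Z]

/-- Among any `k + 1` points of `D` two are at distance at most `ε`. -/
def Thin (D : Set Z) (k : ℕ) (ε : ℝ) : Prop :=
  ∀ p : Fin (k + 1) → Z, (∀ i, p i ∈ D) → ∃ i j, i ≠ j ∧ dist (p i) (p j) ≤ ε

lemma Thin.image {S V : Set Z} {k : ℕ} {ε : ℝ} (h : Thin S k ε) (f : Z → Z)
    (hf : ∀ x y, dist (f x) (f y) ≤ dist x y) (hV : V ⊆ f '' S) : Thin V k ε := by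
  intro p hp
  choose q hq1 hq2 using fun i => hV (hp i)
  obtain ⟨i, j, hij, hd⟩ := h q hq1
  refine ⟨i, j, hij, ?_⟩
  rw [← hq2 i, ← hq2 j]
  exact (hf _ _).trans hd

/-- Recurrence: for a self map `g` of a compact set and two points there are arbitrarily close
returns after expansions. -/
lemma recur {K : Set Z} (hK : IsCompact K) (g : Z → Z) (hg : MapsTo g K K)
    (hexp : ∀ x ∈ K, ∀ y ∈ K, dist x y ≤ dist (g x) (g y)) {x y : Z} (hx : x ∈ K) (hy : y ∈ K)
    {ε : ℝ} (hε : 0 < ε) : ∃ k : ℕ, 1 ≤ k ∧ dist x (g^[k] x) < ε ∧ dist y (g^[k] y) < ε := by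
  have hit : ∀ n : ℕ, ∀ z ∈ K, g^[n] z ∈ K := fun n z hz => hg.iterate n hz
  have hexpn : ∀ n : ℕ, ∀ a ∈ K, ∀ b ∈ K, dist a b ≤ dist (g^[n] a) (g^[n] b) := by
    intro n
    induction n with
    | zero => intro a _ b _; simp
    | succ n ih =>
      intro a ha b hb
      rw [Function.iterate_succ_apply', Function.iterate_succ_apply']
      exact (ih a ha b hb).trans (hexp _ (hit n a ha) _ (hit n b hb))
  have hKK : IsCompact (K ×ˢ K) := hK.prod hK
  obtain ⟨⟨a, b⟩, -, φ, hφ, hlim⟩ := hKK.tendsto_subseq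
    (x := fun n : ℕ => ((g^[n] x, g^[n] y) : Z × Z)) (fun n => ⟨hit n x hx, hit n y hy⟩)
  have hcau := hlim.cauchySeq
  rw [Metric.cauchySeq_iff'] at hcau
  obtain ⟨N, hN⟩ := hcau ε hε
  have h1 := hN (N + 1) (by omega)
  have hlt : φ N < φ (N + 1) := hφ (by omega)
  obtain ⟨k, hk⟩ := Nat.exists_eq_add_of_lt hlt
  refine ⟨k + 1, by omega, ?_, ?_⟩
  · have h2 := hexpn (φ N) x hx (g^[k + 1] x) (hit _ _ hx)
    rw [← Function.iterate_add_apply] at h2
    have h3 : dist (g^[φ (N + 1)] x) (g^[φ N] x) < ε :=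
      lt_of_le_of_lt (le_max_left _ _) h1
    rw [dist_comm] at h3
    refine lt_of_le_of_lt h2 ?_
    rw [← add_assoc, ← hk]
    exact h3
  · have h2 := hexpn (φ N) y hy (g^[k + 1] y) (hit _ _ hy)
    rw [← Function.iterate_add_apply] at h2
    have h3 : dist (g^[φ (N + 1)] y) (g^[φ N] y) < ε :=
      lt_of_le_of_lt (le_max_right _ _) h1
    rw [dist_comm] at h3
    refine lt_of_le_of_lt h2 ?_
    rw [← add_assoc, ← hk]
    exact h3

/-- An expansive self map of a compact set preserves distances. -/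
lemma expansive_isometry {K : Set Z} (hK : IsCompact K) (g : Z → Z) (hg : MapsTo g K K)
    (hexp : ∀ x ∈ K, ∀ y ∈ K, dist x y ≤ dist (g x) (g y)) {x y : Z} (hx : x ∈ K) (hy : y ∈ K) :
    dist (g x) (g y) = dist x y := by
  apply le_antisymm _ (hexp x hx y hy)
  apply le_of_forall_pos_le_add
  intro ε hε
  obtain ⟨k, hk, h1, h2⟩ := recur hK g hg hexp hx hy (half_pos hε)
  have hit : ∀ n : ℕ, ∀ z ∈ K, g^[n] z ∈ K := fun n z hz => hg.iterate n hz
  have hmono : ∀ n : ℕ, dist (g x) (g y) ≤ dist (g^[n + 1] x) (g^[n + 1] y) := by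
    intro n
    induction n with
    | zero => simp
    | succ n ih =>
      rw [Function.iterate_succ_apply' g (n + 1), Function.iterate_succ_apply' g (n + 1)]
      exact ih.trans (hexp _ (hit _ x hx) _ (hit _ y hy))
  obtain ⟨m, rfl⟩ : ∃ m, k = m + 1 := ⟨k - 1, by omega⟩
  have h3 := hmono m
  have h4 : dist (g^[m + 1] x) (g^[m + 1] y) ≤
      dist x (g^[m + 1] x) + dist x y + dist y (g^[m + 1] y) := by
    have h5 := dist_triangle4 (g^[m + 1] x) x y (g^[m + 1] y)
    rw [dist_comm (g^[m + 1] x) x] at h5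
    exact h5
  linarith

/-- An expansive self map of a compact set is onto. -/
lemma expansive_surj {K : Set Z} (hK : IsCompact K) (g : Z → Z) (hg : MapsTo g K K)
    (hexp : ∀ x ∈ K, ∀ y ∈ K, dist x y ≤ dist (g x) (g y)) : K ⊆ g '' K := by
  have hiso : ∀ x ∈ K, ∀ y ∈ K, dist (g x) (g y) = dist x y :=
    fun x hx y hy => expansive_isometry hK g hg hexp hx hy
  have hcont : ContinuousOn g K := by
    rw [Metric.continuousOn_iff]
    intro b hb ε hε
    refine ⟨ε, hε, fun a ha hab => ?_⟩
    rw [hiso a ha b hb]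
    exact hab
  have hcl : IsClosed (g '' K) := (hK.image_of_continuousOn hcont).isClosed
  intro x hx
  rw [← hcl.closure_eq, Metric.mem_closure_iff]
  intro ε hε
  obtain ⟨k, hk, h1, -⟩ := recur hK g hg hexp hx hx hε
  obtain ⟨m, rfl⟩ : ∃ m, k = m + 1 := ⟨k - 1, by omega⟩
  refine ⟨g^[m + 1] x, ?_, h1⟩
  rw [Function.iterate_succ_apply']
  exact ⟨_, hg.iterate m hx, rfl⟩

/-- The criterion: a metric space which is the union of a sequence of pairwise disjoint compact
sets `C n`, such that `C m` is somewhere much thinner than any piece of `C n` when `n < m`. -/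
theorem criterion (C : ℕ → Set Z) (hC : ∀ n, IsCompact (C n))
    (hdisj : ∀ n m, n < m → Disjoint (C n) (C m)) (hcov : ∀ x, ∃ n, x ∈ C n)
    (hthin : ∀ n m, n < m → ∀ V : Set Z, IsOpen V → (V ∩ C n).Nonempty →
      ∃ k : ℕ, ∃ ε : ℝ, Thin (C m) k ε ∧ ¬ Thin (V ∩ C n) k ε)
    (f : Z → Z) (hf : Function.Bijective f) (hne : ∀ x y, dist (f x) (f y) ≤ dist x y) :
    ∀ x y, dist (f x) (f y) = dist x y := by
  have hfc : Continuous f := by
    rw [Metric.continuous_iff]
    intro b ε hε
    exact ⟨ε, hε, fun a hab => lt_of_le_of_lt (hne a b) hab⟩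
  obtain ⟨g, hgf, hfg⟩ := Function.bijective_iff_has_inverse.1 hf
  have hexp : ∀ x y, dist x y ≤ dist (g x) (g y) := by
    intro x y
    have := hne (g x) (g y)
    rwa [hfg x, hfg y] at this
  have huniq : ∀ x n m, x ∈ C n → x ∈ C m → n = m := by
    intro x n m hn hm
    rcases lt_trichotomy n m with h | h | h
    · exact absurd hm (Set.disjoint_left.1 (hdisj n m h) hn)
    · exact h
    · exact absurd hn (Set.disjoint_left.1 (hdisj m n h) hm)
  -- main claim: `g` maps each `C n` into itself and `f` too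
  have main : ∀ n, (∀ x ∈ C n, g x ∈ C n) ∧ (∀ x ∈ C n, f x ∈ C n) := by
    intro n
    induction n using Nat.strong_induction_on with
    | _ n ih =>
      have hsub : C n ⊆ f '' (C n) := by
        by_contra hcon
        -- Baire in the compact space `C n`
        have : CompactSpace (C n) := isCompact_iff_compactSpace.1 (hC n)
        let F : ℕ → Set (C n) := fun m => {z | (z : Z) ∈ f '' (C (n + 1 + m))}
        have hFc : ∀ m, IsClosed (F m) := fun m =>
          ((hC _).image hfc).isClosed.preimage continuous_subtype_val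
        have hFd : ∀ m, Dense ((F m)ᶜ) := by
          intro m
          rw [← interior_eq_empty_iff_dense_compl]
          by_contra hne'
          have hne'' : (interior (F m)).Nonempty := Set.nonempty_iff_ne_empty.2 hne'
          obtain ⟨V, hVo, hV⟩ := isOpen_induced_iff.1 (isOpen_interior (s := F m))
          have hVn : (V ∩ C n).Nonempty := by
            obtain ⟨z, hz⟩ := hne''
            rw [← hV] at hz
            exact ⟨z, hz, z.2⟩
          obtain ⟨k, ε, h1, h2⟩ := hthin n (n + 1 + m) (by omega) V hVo hVn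
          apply h2
          refine h1.image f hne ?_
          rintro x ⟨hxV, hxC⟩
          have : (⟨x, hxC⟩ : C n) ∈ interior (F m) := by
            rw [← hV]; exact hxV
          have h7 : (⟨x, hxC⟩ : C n) ∈ F m := interior_subset this
          exact h7
        have hdense : Dense (⋂ m, (F m)ᶜ) :=
          dense_iInter_of_isOpen (fun m => (hFc m).isOpen_compl) hFd
        have hWo : IsOpen {z : C n | (z : Z) ∉ f '' (C n)} :=
          (((hC n).image hfc).isClosed.preimage continuous_subtype_val).isOpen_compl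
        have hWn : {z : C n | (z : Z) ∉ f '' (C n)}.Nonempty := by
          rw [Set.not_subset] at hcon
          obtain ⟨x, hx, hx2⟩ := hcon
          exact ⟨⟨x, hx⟩, hx2⟩
        obtain ⟨z, hz1, hz2⟩ := hdense.inter_open_nonempty _ hWo hWn
        obtain ⟨y, hy⟩ := hf.2 (z : Z)
        obtain ⟨m, hm⟩ := hcov y
        rcases lt_trichotomy m n with h | h | h
        · have h3 := (ih m h).2 y hm
          rw [hy] at h3
          exact absurd (huniq _ _ _ h3 z.2) h.ne
        · subst h
          exact hz1 ⟨y, hm, hy⟩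
        · obtain ⟨j, rfl⟩ : ∃ j, m = n + 1 + j := ⟨m - (n + 1), by omega⟩
          have := Set.mem_iInter.1 hz2 j
          exact this ⟨y, hm, hy⟩
      have hg1 : MapsTo g (C n) (C n) := by
        intro x hx
        obtain ⟨y, hy, hyx⟩ := hsub hx
        rw [← hyx, hgf]
        exact hy
      have hsurj := expansive_surj (hC n) g hg1 (fun x _ y _ => hexp x y)
      refine ⟨fun x hx => hg1 hx, fun x hx => ?_⟩
      obtain ⟨y, hy, hyx⟩ := hsurj hx
      rw [← hyx, hfg]
      exact hy
  have giso : ∀ x y, dist (g x) (g y) = dist x y := by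
    intro x y
    obtain ⟨a, ha⟩ := hcov x
    obtain ⟨b, hb⟩ := hcov y
    have hK : IsCompact (C a ∪ C b) := (hC a).union (hC b)
    refine expansive_isometry hK g ?_ (fun u _ v _ => hexp u v) (Or.inl ha) (Or.inr hb)
    rintro u (hu | hu)
    · exact Or.inl ((main a).1 u hu)
    · exact Or.inr ((main b).1 u hu)
  intro x y
  have := giso (f x) (f y)
  rw [hgf, hgf] at this
  exact this.symm

end Pool.Agent.R760.PL
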