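import Pool.Agent.R760.PL1

/-! Thin Cantor sets. -/

namespace Pool.Agent.R760.PL

open Set Metric Topology Filter

section Cantor

variable {Y : Type*} [MetricSpace Y]

/-- Continuity on the Cantor space, in terms of initial segments. -/
lemma exists_agree (φ : (ℕ → Bool) → Y) (hφ : Continuous φ) {ε : ℝ} (hε : 0 < ε) :
    ∃ n : ℕ, ∀ x y : ℕ → Bool, (∀ i < n, x i = y i) → dist (φ x) (φ y) ≤ ε := by
  let W : ℕ → Set (ℕ → Bool) := fun n =>
    {x | ∀ y z : ℕ → Bool, y ∈ PiNat.cylinder x n → z ∈ PiNat.cylinder x n →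
      dist (φ y) (φ z) ≤ ε}
  have hWo : ∀ n, IsOpen (W n) := by
    intro n
    rw [isOpen_iff_forall_mem_open]
    intro x hx
    refine ⟨PiNat.cylinder x n, ?_, PiNat.isOpen_cylinder _ x n, PiNat.self_mem_cylinder x n⟩
    intro y hy u v hu hv
    rw [PiNat.mem_cylinder_iff_eq] at hy
    rw [hy] at hu hv
    exact hx u v hu hv
  have hmono : Monotone W := by
    intro n m hnm x hx y z hy hz
    exact hx y z (PiNat.cylinder_anti x hnm hy) (PiNat.cylinder_anti x hnm hz)
  have hcov : (univ : Set (ℕ → Bool)) ⊆ ⋃ n, W n := by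
    intro x _
    have ho : IsOpen (φ ⁻¹' (ball (φ x) (ε / 2))) := isOpen_ball.preimage hφ
    have hx : x ∈ φ ⁻¹' (ball (φ x) (ε / 2)) := mem_ball_self (half_pos hε)
    obtain ⟨U, ⟨z, n, rfl⟩, hxU, hU⟩ :=
      (PiNat.isTopologicalBasis_cylinders (fun _ : ℕ => Bool)).exists_subset_of_mem_open hx ho
    rw [PiNat.mem_cylinder_iff_eq] at hxU
    rw [mem_iUnion]
    refine ⟨n, ?_⟩
    intro u v hu hv
    rw [hxU] at hu hv
    have h1 := hU hu
    have h2 := hU hv
    rw [mem_preimage, mem_ball] at h1 h2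
    calc dist (φ u) (φ v) ≤ dist (φ u) (φ x) + dist (φ v) (φ x) := dist_triangle_right _ _ _
      _ ≤ ε := by linarith
  obtain ⟨n, hn⟩ := isCompact_univ.elim_directed_cover W hWo hcov hmono.directed_le
  refine ⟨n, fun x y hxy => ?_⟩
  exact hn (mem_univ x) x y (PiNat.self_mem_cylinder x n) (fun i hi => (hxy i hi).symm)

/-- A thin Cantor set in an uncountable compact set. -/
lemma exists_thin_param {K : Set Y} (hK : IsCompact K) (hunc : ¬ K.Countable) (ε : ℕ → ℝ)
    (hε : ∀ k, 0 < ε k) :
    ∃ g : (ℕ → Bool) → Y, Continuous g ∧ Function.Injective g ∧ range g ⊆ K ∧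
      ∀ k (x y : ℕ → Bool), (∀ i < k, x i = y i) → dist (g x) (g y) ≤ ε k := by
  have : CompactSpace K := isCompact_iff_compactSpace.1 hK
  have hunc' : ¬ (univ : Set K).Countable := by
    intro h
    apply hunc
    have := h.image (Subtype.val : K → Y)
    rwa [image_univ, Subtype.range_coe] at this
  obtain ⟨φ0, -, hφ0c, hφ0i⟩ := isClosed_univ.exists_nat_bool_injection_of_not_countable hunc'
  let φ : (ℕ → Bool) → Y := fun x => (φ0 x : Y)
  have hφc : Continuous φ := continuous_subtype_val.comp hφ0c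
  have hφi : Function.Injective φ := Subtype.val_injective.comp hφ0i
  choose N hN using fun k => exists_agree φ hφc (hε k)
  let n : ℕ → ℕ := fun k => ∑ j ∈ Finset.range (k + 1), (N j + 1)
  have hnsucc : ∀ k, n (k + 1) = n k + (N (k + 1) + 1) := fun k => Finset.sum_range_succ _ _
  have hnmono : StrictMono n := strictMono_nat_of_lt_succ (fun k => by rw [hnsucc]; omega)
  have hNn : ∀ k, N k ≤ n k := by
    intro k
    cases k with
    | zero => simp [n]
    | succ k => rw [hnsucc]; omega
  let ψ : (ℕ → Bool) → (ℕ → Bool) := fun x => Function.extend n x (fun _ => false)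
  have hψ1 : ∀ x j, ψ x (n j) = x j := fun x j => hnmono.injective.extend_apply _ _ _
  have hψ2 : ∀ x i, (¬ ∃ j, n j = i) → ψ x i = false := fun x i hi =>
    Function.extend_apply' _ _ _ hi
  have hψi : Function.Injective ψ := by
    intro x y hxy
    funext j
    rw [← hψ1 x j, ← hψ1 y j, hxy]
  have hψc : Continuous ψ := by
    refine continuous_pi fun i => ?_
    by_cases hi : ∃ j, n j = i
    · obtain ⟨j, rfl⟩ := hi
      simp only [hψ1]
      exact continuous_apply j
    · simp only [hψ2 _ i hi]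
      exact continuous_const
  refine ⟨φ ∘ ψ, hφc.comp hψc, hφi.comp hψi, ?_, ?_⟩
  · rintro _ ⟨x, rfl⟩
    exact (φ0 (ψ x)).2
  · intro k x y hxy
    apply hN k
    intro i hi
    by_cases hi' : ∃ j, n j = i
    · obtain ⟨j, rfl⟩ := hi'
      rw [hψ1, hψ1]
      apply hxy
      have : n j < n k := lt_of_lt_of_le hi (hNn k)
      exact hnmono.lt_iff_lt.1 this
    · rw [hψ2 _ i hi', hψ2 _ i hi']

lemma mk_nat_bool : Cardinal.mk (ℕ → Bool) = 2 ^ Cardinal.aleph0 := by simp

lemma not_countable_range (h : (ℕ → Bool) → Y) (hi : Function.Injective h) :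
    ¬ (range h).Countable := by
  intro hc
  have h1 : (univ : Set (ℕ → Bool)).Countable := by
    have := hc.preimage_of_injOn (f := h) hi.injOn
    rwa [preimage_range] at this
  have h2 : Countable (ℕ → Bool) := countable_univ_iff.1 h1
  have h3 : Cardinal.mk (ℕ → Bool) ≤ Cardinal.aleph0 := Cardinal.mk_le_aleph0_iff.2 h2
  rw [mk_nat_bool] at h3
  exact absurd (Cardinal.cantor Cardinal.aleph0) (not_lt.2 h3)

/-- Each nonempty relatively open piece of an embedded Cantor set contains an uncountable
compact set. -/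
lemma range_crowded (g : (ℕ → Bool) → Y) (hg : Continuous g) (hi : Function.Injective g)
    (V : Set Y) (hV : IsOpen V) (hne : (V ∩ range g).Nonempty) :
    ∃ K ⊆ V ∩ range g, IsCompact K ∧ ¬ K.Countable := by
  obtain ⟨_, hxV, x, rfl⟩ := hne
  obtain ⟨U, ⟨z, n, rfl⟩, hxU, hU⟩ :=
    (PiNat.isTopologicalBasis_cylinders (fun _ : ℕ => Bool)).exists_subset_of_mem_open
      (a := x) hxV (hV.preimage hg)
  let s : (ℕ → Bool) → (ℕ → Bool) := fun w i => if i < n then z i else w (i - n)
  have hsc : Continuous s := by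
    refine continuous_pi fun i => ?_
    by_cases h : i < n
    · simp only [s, h, if_true]
      exact continuous_const
    · simp only [s, h, if_false]
      exact continuous_apply _
  have hsi : Function.Injective s := by
    intro a b hab
    funext j
    have := congrFun hab (j + n)
    simpa [s] using this
  have hsm : ∀ w, s w ∈ PiNat.cylinder z n := by
    intro w i hi'
    simp only [s, hi', if_true]
  refine ⟨range (g ∘ s), ?_, isCompact_range (hg.comp hsc), not_countable_range _ (hi.comp hsi)⟩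
  rintro _ ⟨w, rfl⟩
  exact ⟨hU (hsm w), mem_range_self _⟩

lemma range_thin (g : (ℕ → Bool) → Y) (k : ℕ) (ε : ℝ)
    (h : ∀ (x y : ℕ → Bool), (∀ i < k, x i = y i) → dist (g x) (g y) ≤ ε) :
    Thin (range g) (2 ^ k) ε := by
  intro p hp
  choose x hx using hp
  have hcard : Fintype.card (Fin k → Bool) < Fintype.card (Fin (2 ^ k + 1)) := by
    simp
  obtain ⟨i, j, hij, hh⟩ := Fintype.exists_ne_map_eq_of_card_lt
    (fun i : Fin (2 ^ k + 1) => fun l : Fin k => x i l) hcard
  refine ⟨i, j, hij, ?_⟩
  rw [← hx i, ← hx j]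
  apply h
  intro l hl
  exact congrFun hh ⟨l, hl⟩

lemma not_thin_of_infinite {V : Set Y} (hV : V.Infinite) (k : ℕ) :
    ∃ ε : ℝ, 0 < ε ∧ ¬ Thin V k ε := by
  let p : Fin (k + 1) → Y := fun i => hV.natEmbedding V i
  have hp : ∀ i j : Fin (k + 1), i ≠ j → 0 < dist (p i) (p j) := by
    intro i j hij
    rw [dist_pos]
    intro h
    have h1 : hV.natEmbedding V (i : ℕ) = hV.natEmbedding V (j : ℕ) := Subtype.ext h
    have h2 := (hV.natEmbedding V).injective h1
    exact hij (Fin.ext h2)
  have hev : ∀ᶠ ε in 𝓝[>] (0 : ℝ), ∀ i j : Fin (k + 1), i ≠ j → ε < dist (p i) (p j) := by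
    rw [eventually_all]
    intro i
    rw [eventually_all]
    intro j
    by_cases hij : i = j
    · exact Eventually.of_forall fun ε h => absurd hij h
    · have : ∀ᶠ ε in 𝓝[>] (0 : ℝ), ε < dist (p i) (p j) :=
        mem_nhdsWithin_of_mem_nhds (Iio_mem_nhds (hp i j hij))
      exact this.mono fun ε h _ => h
  obtain ⟨ε, hε1, hε2⟩ := (hev.and self_mem_nhdsWithin).exists
  refine ⟨ε, hε2, ?_⟩
  intro hT
  obtain ⟨i, j, hij, hd⟩ := hT p (fun i => (hV.natEmbedding V i).2)
  exact absurd hd (not_le.2 (hε1 i j hij))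

end Cantor

/-- Course-of-values choice. -/
lemma strong_choice {α : Type*} [Inhabited α] (P : ℕ → (ℕ → α) → α → Prop)
    (hloc : ∀ m f g x, (∀ n < m, f n = g n) → P m f x → P m g x)
    (h : ∀ m f, (∀ n < m, P n f (f n)) → ∃ x, P m f x) : ∃ f : ℕ → α, ∀ m, P m f (f m) := by
  classical
  let F : (m : ℕ) → ((n : ℕ) → n < m → α) → α := fun m ih =>
    Classical.epsilon (P m (fun n => if h : n < m then ih n h else default))
  let f : ℕ → α := fun m => Nat.strongRecOn m F
  have hf : ∀ m, f m = F m (fun n _ => f n) := fun m => Nat.strongRecOn_eq _ _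
  refine ⟨f, fun m => ?_⟩
  induction m using Nat.strong_induction_on with
  | _ m ih =>
    let f' : ℕ → α := fun n => if n < m then f n else default
    have hag : ∀ n < m, f n = f' n := fun n hn => by simp [f', hn]
    have h1 : ∀ n < m, P n f' (f' n) := by
      intro n hn
      rw [← hag n hn]
      exact hloc n f f' (f n) (fun j hj => hag j (hj.trans hn)) (ih n hn)
    have hx := h m f' h1
    have h2 : f m = Classical.epsilon (P m f') := by
      rw [hf]
      have h3 : (fun n => if h : n < m then f n else default) = f' := by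
        funext n
        simp [f']
      change Classical.epsilon (P m (fun n => if h : n < m then f n else default)) = _
      rw [h3]
    rw [h2]
    exact hloc m f' f _ (fun n hn => (hag n hn).symm) (Classical.epsilon_spec hx)

end Pool.Agent.R760.PL
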