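import Pool.Agent.R760.PL2

/-! The construction of the sets `C m`. -/

namespace Pool.Agent.R760.PL

open Set Metric Topology Filter TopologicalSpace

variable {Y : Type*} [MetricSpace Y]

/-- What we require from the `m`-th compact set `D`, given the earlier sets `C n` for `n < m`. -/
structure Good (U : ℕ → Set Y) (m : ℕ) (C : ℕ → Set Y) (D : Set Y) : Prop where
  compact : IsCompact D
  crowded : ∀ V : Set Y, IsOpen V → (V ∩ D).Nonempty → ∃ K ⊆ V ∩ D, IsCompact K ∧ ¬ K.Countable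
  disj : ∀ n < m, Disjoint (C n) D
  sub : D ⊆ U m
  cov : D.Nonempty ∨ U m ⊆ ⋃ n ∈ Iio m, C n
  thin : ∀ n < m, ∀ V : Set Y, IsOpen V → (V ∩ C n).Nonempty →
      ∃ k : ℕ, ∃ ε : ℝ, Thin D k ε ∧ ¬ Thin (V ∩ C n) k ε

lemma exists_good (hY : ∀ U : Set Y, IsOpen U → U.Nonempty → ∃ K ⊆ U, IsCompact K ∧ ¬ K.Countable)
    (U : ℕ → Set Y) (hU : ∀ m, IsOpen (U m))
    (hbase : ∀ V : Set Y, IsOpen V → ∀ x ∈ V, ∃ m, x ∈ U m ∧ U m ⊆ V) :
    ∃ C : ℕ → Set Y, ∀ m, Good U m C (C m) := by
  apply strong_choice (fun m C D => Good U m C D)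
  · intro m f g D hfg h
    refine ⟨h.compact, h.crowded, ?_, h.sub, ?_, ?_⟩
    · intro n hn
      rw [← hfg n hn]
      exact h.disj n hn
    · rcases h.cov with h1 | h1
      · exact Or.inl h1
      · right
        intro x hx
        have := h1 hx
        simp only [mem_iUnion, mem_Iio, exists_prop] at this ⊢
        obtain ⟨n, hn, hxn⟩ := this
        exact ⟨n, hn, by rw [← hfg n hn]; exact hxn⟩
    · intro n hn
      rw [← hfg n hn]
      exact h.thin n hn
  · intro m C hC
    by_cases hO : (U m \ ⋃ n ∈ Iio m, C n).Nonempty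
    · have hcl : IsClosed (⋃ n ∈ Iio m, C n) := by
        refine (Set.finite_Iio m).isClosed_biUnion ?_
        intro n hn
        exact (hC n hn).compact.isClosed
      have hOo : IsOpen (U m \ ⋃ n ∈ Iio m, C n) := (hU m).sdiff hcl
      obtain ⟨K, hKU, hK, hKc⟩ := hY _ hOo hO
      -- the thresholds
      have hεex : ∀ k : ℕ, ∃ ε : ℝ, 0 < ε ∧ ((U k.unpair.1 ∩ C k.unpair.2).Infinite →
          ¬ Thin (U k.unpair.1 ∩ C k.unpair.2) (2 ^ k) ε) := by
        intro k
        by_cases hinf : (U k.unpair.1 ∩ C k.unpair.2).Infinite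
        · obtain ⟨ε, h1, h2⟩ := not_thin_of_infinite hinf (2 ^ k)
          exact ⟨ε, h1, fun _ => h2⟩
        · exact ⟨1, one_pos, fun h => absurd h hinf⟩
      choose ε hε hεT using hεex
      obtain ⟨g, hgc, hgi, hgK, hgt⟩ := exists_thin_param hK hKc ε hε
      have hsub : range g ⊆ U m \ ⋃ n ∈ Iio m, C n := hgK.trans hKU
      refine ⟨range g, isCompact_range hgc, range_crowded g hgc hgi, ?_, ?_, Or.inl ⟨g (fun _ => false), mem_range_self _⟩, ?_⟩
      · intro n hn
        rw [Set.disjoint_left]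
        intro x hx1 hx2
        exact (hsub hx2).2 (mem_biUnion (show n ∈ Iio m from hn) hx1)
      · exact fun x hx => (hsub hx).1
      · intro n hn V hV hVn
        obtain ⟨x, hxV, hxC⟩ := hVn
        obtain ⟨j, hxj, hj⟩ := hbase V hV x hxV
        obtain ⟨K', hK', hK'c, hK'u⟩ := (hC n hn).crowded (U j) (hU j) ⟨x, hxj, hxC⟩
        have hinf : (U j ∩ C n).Infinite := by
          intro hfin
          exact hK'u (hfin.countable.mono hK')
        refine ⟨2 ^ (Nat.pair j n), ε (Nat.pair j n), range_thin g _ _ (hgt _), ?_⟩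
        have h1 := hεT (Nat.pair j n)
        rw [Nat.unpair_pair] at h1
        have h2 := h1 hinf
        intro hT
        apply h2
        intro p hp
        exact hT p (fun i => ⟨hj (hp i).1, (hp i).2⟩)
    · refine ⟨∅, isCompact_empty, ?_, ?_, empty_subset _, Or.inr ?_, ?_⟩
      · intro V _ h
        simp at h
      · intro n _
        exact disjoint_empty _
      · rwa [Set.not_nonempty_iff_eq_empty, Set.sdiff_eq_empty] at hO
      · intro n _ V _ hVn
        obtain ⟨x, hx⟩ := hVn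
        refine ⟨0, 0, ?_, ?_⟩
        · intro p hp
          exact absurd (hp 0) (notMem_empty _)
        · intro hT
          obtain ⟨i, j, hij, -⟩ := hT (fun _ => x) (fun _ => hx)
          exact hij (Fin.ext (by omega))

/-- Countable base indexed by `ℕ`. -/
lemma exists_base [SeparableSpace Y] : ∃ U : ℕ → Set Y, (∀ m, IsOpen (U m)) ∧
    ∀ V : Set Y, IsOpen V → ∀ x ∈ V, ∃ m, x ∈ U m ∧ U m ⊆ V := by
  have : SecondCountableTopology Y := UniformSpace.secondCountable_of_separable Y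
  obtain ⟨b, hbc, -, hb⟩ := exists_countable_basis Y
  have hbc' : (insert ∅ b : Set (Set Y)).Countable := hbc.insert _
  obtain ⟨U, hU⟩ := hbc'.exists_eq_range ⟨∅, mem_insert _ _⟩
  refine ⟨U, ?_, ?_⟩
  · intro m
    have : U m ∈ insert ∅ b := by rw [hU]; exact mem_range_self m
    rcases this with h | h
    · rw [h]; exact isOpen_empty
    · exact hb.isOpen h
  · intro V hV x hx
    obtain ⟨W, hW, hxW, hWV⟩ := hb.exists_subset_of_mem_open hx hV
    have : W ∈ range U := by rw [← hU]; exact mem_insert_of_mem _ hW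
    obtain ⟨m, rfl⟩ := this
    exact ⟨m, hxW, hWV⟩

/-- The final assembly. -/
theorem main_sets [SeparableSpace Y]
    (hY : ∀ U : Set Y, IsOpen U → U.Nonempty → ∃ K ⊆ U, IsCompact K ∧ ¬ K.Countable) :
    ∃ X : Set Y, Dense X ∧ IsSigmaCompact X ∧
      (∀ U : Set X, IsOpen U → U.Nonempty → ∃ K ⊆ U, IsCompact K ∧ ¬ K.Countable) ∧
      (∀ f : X → X, Function.Bijective f → (∀ x y, dist (f x) (f y) ≤ dist x y) →
        ∀ x y, dist (f x) (f y) = dist x y) := by
  obtain ⟨U, hUo, hbase⟩ := exists_base (Y := Y)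
  obtain ⟨C, hC⟩ := exists_good hY U hUo hbase
  refine ⟨⋃ n, C n, ?_, isSigmaCompact_iUnion_of_isCompact _ (fun n => (hC n).compact), ?_, ?_⟩
  · rw [dense_iff_inter_open]
    intro V hV hVn
    obtain ⟨x, hx⟩ := hVn
    obtain ⟨m, hxm, hm⟩ := hbase V hV x hx
    rcases (hC m).cov with h | h
    · obtain ⟨y, hy⟩ := h
      exact ⟨y, hm ((hC m).sub hy), mem_iUnion.2 ⟨m, hy⟩⟩
    · have := h hxm
      simp only [mem_iUnion, mem_Iio, exists_prop] at this
      obtain ⟨n, -, hxn⟩ := this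
      exact ⟨x, hx, mem_iUnion.2 ⟨n, hxn⟩⟩
  · intro W hW hWn
    obtain ⟨V, hV, rfl⟩ := isOpen_induced_iff.1 hW
    obtain ⟨⟨x, hxX⟩, hxV⟩ := hWn
    obtain ⟨n, hn⟩ := mem_iUnion.1 hxX
    obtain ⟨K, hKs, hK, hKc⟩ := (hC n).crowded V hV ⟨x, hxV, hn⟩
    have hKX : K ⊆ ⋃ n, C n := fun y hy => mem_iUnion.2 ⟨n, (hKs hy).2⟩
    have himg : (Subtype.val '' (Subtype.val ⁻¹' K : Set (⋃ n, C n : Set Y))) = K := by
      rw [Subtype.image_preimage_coe]
      exact inter_eq_right.2 hKX
    refine ⟨Subtype.val ⁻¹' K, ?_, ?_, ?_⟩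
    · intro y hy
      exact (hKs hy).1
    · rw [Subtype.isCompact_iff, himg]
      exact hK
    · intro hcount
      have := hcount.image (Subtype.val)
      rw [himg] at this
      exact hKc this
  · intro f hf hne
    have himg : ∀ n, (Subtype.val '' (Subtype.val ⁻¹' (C n) : Set (⋃ n, C n : Set Y))) = C n := by
      intro n
      rw [Subtype.image_preimage_coe]
      exact inter_eq_right.2 (subset_iUnion C n)
    refine criterion (fun n => (Subtype.val ⁻¹' (C n) : Set (⋃ n, C n : Set Y))) ?_ ?_ ?_ ?_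
      f hf hne
    · intro n
      rw [Subtype.isCompact_iff, himg]
      exact (hC n).compact
    · intro n m hnm
      exact ((hC m).disj n hnm).preimage _
    · rintro ⟨x, hx⟩
      obtain ⟨n, hn⟩ := mem_iUnion.1 hx
      exact ⟨n, hn⟩
    · intro n m hnm W hW hWn
      obtain ⟨V, hV, rfl⟩ := isOpen_induced_iff.1 hW
      obtain ⟨⟨x, hxX⟩, hxV, hxn⟩ := hWn
      obtain ⟨k, ε, h1, h2⟩ := (hC m).thin n hnm V hV ⟨x, hxV, hxn⟩
      refine ⟨k, ε, ?_, ?_⟩
      · intro p hp
        exact h1 (fun i => (p i : Y)) hp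
      · intro hT
        apply h2
        intro p hp
        exact hT (fun i => ⟨p i, mem_iUnion.2 ⟨n, (hp i).2⟩⟩) hp

end Pool.Agent.R760.PL
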