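import Pool.Agent.R760.KN5
import Pool.Agent.H818R2.Kiss4

/-! MP_b5f63d_co: fourth moments of the coordinates, and rotations which make them small. -/

set_option autoImplicit false

open MeasureTheory Metric Set Filter Topology

open scoped RealInnerProductSpace ENNReal

namespace Pool.Agent.R760.PM

open Pool.Agent.R760.KN Pool.Agent.H818R2

variable {n : ℕ}

lemma unif_prob (hn : 0 < n) : IsProbabilityMeasure (unif n) := by
  obtain ⟨p, hp⟩ := exists_pole hn
  rw [← map_orbit hn hp]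
  exact Measure.isProbabilityMeasure_map
    (cont_act.comp (continuous_id.prodMk continuous_const)).measurable.aemeasurable

/-- the uniform measure is invariant under rotations -/
lemma unif_inv (hn : 0 < n) (g : G n) : (unif n).map (iso g) = unif n := by
  obtain ⟨p, hp⟩ := exists_pole hn
  have hmx : Measurable (fun g : G n => iso g p) :=
    (cont_act.comp (continuous_id.prodMk continuous_const)).measurable
  conv_lhs => rw [← map_orbit hn hp]
  rw [Measure.map_map (iso g).continuous.measurable hmx]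
  have h1 : (iso g : E n → E n) ∘ (fun h : G n => iso h p) =
      (fun h : G n => iso h p) ∘ fun h => g * h := by
    funext h
    simp only [Function.comp]
    rw [iso_mul]
  rw [h1, ← Measure.map_map hmx (by fun_prop), map_mul_left_eq_self, map_orbit hn hp]

lemma int4 (hn : 0 < n) (w : E n) : Integrable (fun z : E n => ⟪z, w⟫ ^ 4) (unif n) := by
  have := unif_prob hn
  refine Integrable.mono' (integrable_const (‖w‖ ^ 4)) ?_ ?_
  · exact (by fun_prop : Continuous fun z : E n => ⟪z, w⟫ ^ 4).aestronglyMeasurable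
  · filter_upwards [unif_ae' hn] with z hz
    rw [norm_pow]
    apply pow_le_pow_left₀ (norm_nonneg _)
    have := norm_inner_le_norm (𝕜 := ℝ) z w
    rw [hz, one_mul] at this
    exact this

/-- the fourth moment depends only on the length -/
lemma mom_eq (hn : 0 < n) {v w : E n} (h : ‖v‖ = ‖w‖) :
    ∫ z, ⟪z, v⟫ ^ 4 ∂(unif n) = ∫ z, ⟪z, w⟫ ^ 4 ∂(unif n) := by
  obtain ⟨g, hg⟩ := exists_iso h
  conv_rhs => rw [← unif_inv hn g]
  rw [integral_map (iso g).continuous.measurable.aemeasurable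
    (by fun_prop : Continuous fun z : E n => ⟪z, w⟫ ^ 4).aestronglyMeasurable]
  refine integral_congr_ae (Eventually.of_forall fun z => ?_)
  simp only
  rw [← hg, (iso g).inner_map_map]

/-- the fourth moment of a coordinate -/
noncomputable def mo (n : ℕ) (p : E n) : ℝ := ∫ z, ⟪z, p⟫ ^ 4 ∂(unif n)

lemma mom_scale (hn : 0 < n) {p w : E n} (hp : ‖p‖ = 1) :
    ∫ z, ⟪z, w⟫ ^ 4 ∂(unif n) = ‖w‖ ^ 4 * mo n p := by
  have h1 : ‖w‖ = ‖‖w‖ • p‖ := by rw [norm_smul, norm_norm, hp, mul_one]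
  rw [mom_eq hn h1, mo, ← integral_const_mul]
  refine integral_congr_ae (Eventually.of_forall fun z => ?_)
  simp only
  rw [inner_smul_right, mul_pow]

/-- the standard basis -/
noncomputable abbrev eb (i : Fin n) : E n := EuclideanSpace.single i (1 : ℝ)

lemma inner_eb (z : E n) (i : Fin n) : ⟪z, eb i⟫ = z i := by
  simp [eb, EuclideanSpace.inner_single_right]

lemma norm_eb (i : Fin n) : ‖(eb i : E n)‖ = 1 := by simp [eb]

lemma prod_mom (hn : 0 < n) {p : E n} (hp : ‖p‖ = 1) (i j : Fin n) :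
    ∫ z, (z i) ^ 2 * (z j) ^ 2 ∂(unif n) = if i = j then mo n p else mo n p / 3 := by
  have h1 : ∀ z : E n, (z i) ^ 2 * (z j) ^ 2 =
      (⟪z, eb i + eb j⟫ ^ 4 + ⟪z, eb i - eb j⟫ ^ 4 - 2 * ⟪z, eb i⟫ ^ 4 - 2 * ⟪z, eb j⟫ ^ 4) / 12 := by
    intro z
    rw [inner_add_right, inner_sub_right, inner_eb, inner_eb]
    ring
  have h2 : ∫ z, (z i) ^ 2 * (z j) ^ 2 ∂(unif n) =
      (∫ z, ⟪z, eb i + eb j⟫ ^ 4 ∂(unif n) + ∫ z, ⟪z, eb i - eb j⟫ ^ 4 ∂(unif n)
        - 2 * ∫ z, ⟪z, eb i⟫ ^ 4 ∂(unif n) - 2 * ∫ z, ⟪z, eb j⟫ ^ 4 ∂(unif n)) / 12 := by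
    have e1 := integral_add (int4 hn (eb i + eb j)) (int4 hn (eb i - eb j))
    have e2 := integral_sub (f := fun z : E n => ⟪z, eb i + eb j⟫ ^ 4 + ⟪z, eb i - eb j⟫ ^ 4)
      ((int4 hn (eb i + eb j)).add (int4 hn (eb i - eb j))) ((int4 hn (eb i)).const_mul 2)
    have e3 := integral_sub (f := fun z : E n => ⟪z, eb i + eb j⟫ ^ 4 + ⟪z, eb i - eb j⟫ ^ 4
        - 2 * ⟪z, eb i⟫ ^ 4)
      (((int4 hn (eb i + eb j)).add (int4 hn (eb i - eb j))).sub ((int4 hn (eb i)).const_mul 2))
      ((int4 hn (eb j)).const_mul 2)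
    rw [integral_const_mul] at e2 e3
    rw [← e1, ← e2, ← e3, ← integral_div]
    exact integral_congr_ae (Eventually.of_forall fun z => h1 z)
  rw [h2, mom_scale hn hp, mom_scale hn hp, mom_scale hn hp, mom_scale hn hp, norm_eb, norm_eb]
  split_ifs with hij
  · subst hij
    have h3 : ‖(eb i + eb i : E n)‖ ^ 4 = 16 := by
      rw [← two_smul ℝ, norm_smul, norm_eb]
      norm_num
    rw [h3, sub_self, norm_zero]
    ring
  · have h4 : ⟪(eb i : E n), eb j⟫ = 0 := by
      rw [inner_eb]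
      simp [eb, Ne.symm hij]
    have h5 : ‖(eb i + eb j : E n)‖ ^ 2 = 2 := by
      rw [norm_add_sq_real, h4, norm_eb, norm_eb]
      norm_num
    have h6 : ‖(eb i - eb j : E n)‖ ^ 2 = 2 := by
      rw [norm_sub_sq_real, h4, norm_eb, norm_eb]
      norm_num
    have h7 : ‖(eb i + eb j : E n)‖ ^ 4 = 4 := by
      rw [show (4 : ℕ) = 2 * 2 by norm_num, pow_mul, h5]; norm_num
    have h8 : ‖(eb i - eb j : E n)‖ ^ 4 = 4 := by
      rw [show (4 : ℕ) = 2 * 2 by norm_num, pow_mul, h6]; norm_num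
    rw [h7, h8]
    ring

lemma prod_int (hn : 0 < n) (i j : Fin n) :
    Integrable (fun z : E n => (z i) ^ 2 * (z j) ^ 2) (unif n) := by
  have := unif_prob hn
  refine Integrable.mono' (integrable_const (1 : ℝ)) ?_ ?_
  · exact (by fun_prop : Continuous fun z : E n => (z i) ^ 2 * (z j) ^ 2).aestronglyMeasurable
  · filter_upwards [unif_ae' hn] with z hz
    have h1 : ∀ k, (z k) ^ 2 ≤ 1 := by
      intro k
      have h2 := norm_inner_le_norm (𝕜 := ℝ) z (eb k)
      rw [hz, norm_eb, one_mul, inner_eb, Real.norm_eq_abs] at h2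
      exact (sq_le_one_iff_abs_le_one _).2 h2
    rw [Real.norm_eq_abs, abs_of_nonneg (by positivity)]
    nlinarith [h1 i, h1 j, sq_nonneg (z i), sq_nonneg (z j)]

/-- the value of the fourth moment -/
theorem mo_eq (hn : 0 < n) {p : E n} (hp : ‖p‖ = 1) : mo n p = 3 / (n * (n + 2)) := by
  have := unif_prob hn
  have hn' : (0 : ℝ) < n := by exact_mod_cast hn
  have h1 : ∫ _z : E n, (1 : ℝ) ∂(unif n) = ∑ i : Fin n, ∑ j : Fin n,
      ∫ z, (z i) ^ 2 * (z j) ^ 2 ∂(unif n) := by
    have e1 : ∀ i : Fin n, ∑ j : Fin n, ∫ z, (z i) ^ 2 * (z j) ^ 2 ∂(unif n) =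
        ∫ z, ∑ j : Fin n, (z i) ^ 2 * (z j) ^ 2 ∂(unif n) := fun i =>
      (integral_finsetSum _ fun j _ => prod_int hn i j).symm
    rw [Finset.sum_congr rfl fun i _ => e1 i,
      ← integral_finsetSum _ (fun i _ => integrable_finsetSum _ fun j _ => prod_int hn i j)]
    refine integral_congr_ae ?_
    filter_upwards [unif_ae' hn] with z hz
    have h2 : ∑ i : Fin n, (z i) ^ 2 = 1 := by
      have := EuclideanSpace.real_norm_sq_eq z
      rw [hz] at this
      simpa using this.symm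
    rw [← Finset.sum_mul_sum, h2, one_mul]
  have h2 : ∀ i : Fin n, ∑ j : Fin n, ∫ z, (z i) ^ 2 * (z j) ^ 2 ∂(unif n) =
      mo n p * ((n + 2) / 3) := by
    intro i
    rw [Finset.sum_congr rfl fun j _ => prod_mom hn hp i j]
    have h3 : ∀ j : Fin n, (if i = j then mo n p else mo n p / 3) =
        mo n p / 3 + if i = j then 2 * mo n p / 3 else 0 := by
      intro j
      split_ifs <;> ring
    rw [Finset.sum_congr rfl fun j _ => h3 j, Finset.sum_add_distrib, Finset.sum_const,
      Finset.card_univ, Fintype.card_fin, nsmul_eq_mul, Finset.sum_ite_eq]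
    simp only [Finset.mem_univ, if_true]
    ring
  rw [Finset.sum_congr rfl fun i _ => h2 i, Finset.sum_const, Finset.card_univ, Fintype.card_fin,
    nsmul_eq_mul] at h1
  simp only [integral_const, probReal_univ, smul_eq_mul, mul_one] at h1
  rw [eq_div_iff (by positivity)]
  linarith

/-- a rotation for which the fourth powers of the coordinates are small on average -/
theorem exists_rot (hn : 0 < n) {X : Finset (E n)} (hX : ∀ x ∈ X, ‖x‖ = 1) (hne : X.Nonempty) :
    ∃ g : G n, ∑ x ∈ X, ∑ i : Fin n, (iso g x i) ^ 4 ≤ X.card * (3 / n) := by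
  have hn' : (0 : ℝ) < n := by exact_mod_cast hn
  obtain ⟨p, hp⟩ := exists_pole hn
  by_contra hcon
  push Not at hcon
  have hint : ∀ i : Fin n, Integrable (fun z : E n => (z i) ^ 4) (unif n) := by
    intro i
    have := int4 hn (eb i)
    simpa only [inner_eb] using this
  have hval : ∀ i : Fin n, ∫ z : E n, (z i) ^ 4 ∂(unif n) = 3 / (n * (n + 2)) := by
    intro i
    rw [← mo_eq hn hp, mo, ← mom_eq hn ((norm_eb i).trans hp.symm)]
    simp only [inner_eb]
  have h1 := avg hn (f := fun z => -∑ i : Fin n, (z i) ^ 4)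
    (integrable_finsetSum _ fun i _ => hint i).neg hX (c := -(X.card * (3 / n))) (fun g => by
      rw [Finset.sum_neg_distrib]
      exact neg_le_neg (hcon g).le)
  rw [integral_neg, integral_finsetSum _ fun i _ => hint i, Finset.sum_congr rfl fun i _ => hval i,
    Finset.sum_const, Finset.card_univ, Fintype.card_fin, nsmul_eq_mul] at h1
  have hc : (0 : ℝ) < X.card := by exact_mod_cast hne.card_pos
  have h2 : (n : ℝ) * (3 / (n * (n + 2))) < 3 / n := by
    rw [mul_div_assoc', div_lt_div_iff₀ (by positivity) hn']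
    nlinarith
  nlinarith [mul_lt_mul_of_pos_left h2 hc]

end Pool.Agent.R760.PM
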