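import Pool.Agent.R760.PM1

/-! MP_b5f63d_co: integer vectors with bounded entries which are permutations of each other. -/

set_option autoImplicit false

open MeasureTheory Metric Set Filter Topology

open scoped RealInnerProductSpace ENNReal

namespace Pool.Agent.R760.PM

open Pool.Agent.R760.KN Pool.Agent.H818R2

variable {n : ℕ}

/-- `X` is a set of nonzero vectors of `ℤ^n` with entries in `[-M, M]`; any two of them differ by a
permutation of the coordinates inside the consecutive blocks of `m` coordinates, and have an inner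
product at most half of their common squared length (an angle at least `π / 3`). -/
def IsBlockCode (m M n : ℕ) (X : Finset (Fin n → ℤ)) : Prop :=
  (∀ x ∈ X, x ≠ 0 ∧ ∀ i, |x i| ≤ M) ∧
  (∀ x ∈ X, ∀ y ∈ X, ∃ σ : Equiv.Perm (Fin n),
    (∀ i, (σ i : ℕ) / m = (i : ℕ) / m) ∧ ∀ i, y i = x (σ i)) ∧
  ∀ x ∈ X, ∀ y ∈ X, x ≠ y → 2 * ∑ i, x i * y i ≤ ∑ i, x i ^ 2

/-- the largest size of such a set -/
noncomputable def blockMax (m M n : ℕ) : ℕ :=
  sSup {k | ∃ X : Finset (Fin n → ℤ), IsBlockCode m M n X ∧ X.card = k}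

/-- functions with fibres of the same sizes differ by a permutation -/
lemma exists_perm {α : Type*} [DecidableEq α] (f h : Fin n → α)
    (hc : ∀ a, (Finset.univ.filter fun i => f i = a).card =
      (Finset.univ.filter fun i => h i = a).card) :
    ∃ σ : Equiv.Perm (Fin n), ∀ i, h i = f (σ i) := by
  have he : ∀ a, Nonempty ({i // h i = a} ≃ {i // f i = a}) := by
    intro a
    refine ⟨Fintype.equivOfCardEq ?_⟩
    rw [Fintype.card_subtype, Fintype.card_subtype, hc a]
  have e : ∀ a, {i // h i = a} ≃ {i // f i = a} := fun a => Classical.choice (he a)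
  refine ⟨(Equiv.sigmaFiberEquiv h).symm.trans
    ((Equiv.sigmaCongrRight e).trans (Equiv.sigmaFiberEquiv f)), fun i => ?_⟩
  exact ((e (h i) ⟨i, rfl⟩).2).symm

/-- the number of coordinates with the value `v` in the block `b` -/
def cnt (m : ℕ) (x : Fin n → ℤ) (b : ℕ) (v : ℤ) : ℕ :=
  (Finset.univ.filter fun i : Fin n => ((i : ℕ) / m, x i) = (b, v)).card

lemma cnt_le {m : ℕ} (hm : 0 < m) (x : Fin n → ℤ) (b : ℕ) (v : ℤ) : cnt m x b v ≤ m := by
  have h1 : (Finset.univ.filter fun i : Fin n => ((i : ℕ) / m, x i) = (b, v)).card ≤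
      (Finset.range m).card := by
    apply Finset.card_le_card_of_injOn (fun i : Fin n => (i : ℕ) % m)
    · intro i _
      simp only [Finset.coe_range, mem_Iio]
      exact Nat.mod_lt _ hm
    · intro i hi j hj hij
      simp only [Finset.coe_filter, Finset.mem_univ, true_and, mem_ofPred_eq,
        Prod.mk.injEq] at hi hj hij
      apply Fin.ext
      rw [← Nat.div_add_mod (i : ℕ) m, ← Nat.div_add_mod (j : ℕ) m, hi.1, hj.1, hij]
  simpa [cnt] using h1

/-- the data of the pigeonhole principle -/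
def comp {m : ℕ} (hm : 0 < m) (M : ℕ) (x : Fin n → ℤ) :
    Fin (n / m + 1) × Fin (2 * M + 1) → Fin (m + 1) := fun p =>
  ⟨cnt m x p.1 ((p.2 : ℕ) - (M : ℤ)), Nat.lt_succ_of_le (cnt_le hm x _ _)⟩

lemma perm_of_comp {m : ℕ} (hm : 0 < m) {M : ℕ} {x y : Fin n → ℤ} (hx : ∀ i, |x i| ≤ M)
    (hy : ∀ i, |y i| ≤ M) (h : comp hm M x = comp hm M y) : ∃ σ : Equiv.Perm (Fin n),
    (∀ i, (σ i : ℕ) / m = (i : ℕ) / m) ∧ ∀ i, y i = x (σ i) := by
  obtain ⟨σ, hσ⟩ := exists_perm (fun i : Fin n => ((i : ℕ) / m, x i))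
    (fun i : Fin n => ((i : ℕ) / m, y i)) (by
    rintro ⟨b, v⟩
    by_cases hb : b < n / m + 1 ∧ |v| ≤ M
    · obtain ⟨hb1, hb2⟩ := hb
      rw [abs_le] at hb2
      have h1 := congrFun h (⟨b, hb1⟩, ⟨(v + M).toNat, by omega⟩)
      simp only [comp, Fin.mk.injEq] at h1
      have h2 : (((v + M).toNat : ℕ) : ℤ) - (M : ℤ) = v := by omega
      rw [h2] at h1
      exact h1
    · have h1 : ∀ w : Fin n → ℤ, (∀ i, |w i| ≤ M) →
          (Finset.univ.filter fun i : Fin n => ((i : ℕ) / m, w i) = (b, v)) = ∅ := by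
        intro w hw
        rw [Finset.filter_eq_empty_iff]
        intro i _ hi
        rw [Prod.mk.injEq] at hi
        apply hb
        refine ⟨?_, hi.2 ▸ hw i⟩
        rw [← hi.1]
        exact Nat.lt_succ_of_le (Nat.div_le_div_right i.2.le)
      rw [h1 x hx, h1 y hy])
  refine ⟨σ, fun i => ?_, fun i => ?_⟩
  · exact ((Prod.mk.injEq _ _ _ _).mp (hσ i)).1.symm
  · exact ((Prod.mk.injEq _ _ _ _).mp (hσ i)).2

/-- pigeonhole -/
lemma exists_class {m : ℕ} (hm : 0 < m) {M : ℕ} (Y : Finset (Fin n → ℤ)) :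
    ∃ Z ⊆ Y, (∀ x ∈ Z, ∀ y ∈ Z, comp hm M x = comp hm M y) ∧
      (Y.card : ℝ) ≤ ((m : ℝ) + 1) ^ ((n / m + 1) * (2 * M + 1)) * Z.card := by
  classical
  set N : ℝ := ((m : ℝ) + 1) ^ ((n / m + 1) * (2 * M + 1)) with hN
  have hN0 : 0 < N := by positivity
  have hcard : (((Finset.univ : Finset (Fin (n / m + 1) × Fin (2 * M + 1) → Fin (m + 1))).card :
      ℕ) : ℝ) = N := by
    rw [Finset.card_univ, Fintype.card_fun, Fintype.card_prod, Fintype.card_fin, Fintype.card_fin,
      Fintype.card_fin, hN]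
    push_cast
    ring
  obtain ⟨F, _, hF⟩ := Finset.exists_le_card_fiber_of_nsmul_le_card_of_maps_to
    (s := Y) (t := Finset.univ) (f := comp hm M) (b := (Y.card : ℝ) / N)
    (fun a _ => Finset.mem_univ _) Finset.univ_nonempty (by
      rw [nsmul_eq_mul, hcard, mul_div_cancel₀ _ hN0.ne'])
  refine ⟨Y.filter fun x => comp hm M x = F, Finset.filter_subset _ _, ?_, ?_⟩
  · intro x hx y hy
    rw [(Finset.mem_filter.1 hx).2, (Finset.mem_filter.1 hy).2]
  · rwa [div_le_iff₀' hN0] at hF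

/-- an integer vector as a point of the Euclidean space -/
noncomputable def vec (u : Fin n → ℤ) : E n := WithLp.toLp 2 fun i => (u i : ℝ)

lemma vec_inner (u v : Fin n → ℤ) : ⟪vec u, vec v⟫ = ((∑ i, u i * v i : ℤ) : ℝ) := by
  rw [PiLp.inner_apply]
  push_cast
  refine Finset.sum_congr rfl fun i _ => ?_
  simp only [vec, RCLike.inner_apply, conj_trivial]
  ring

lemma vec_norm (u : Fin n → ℤ) : ‖vec u‖ ^ 2 = ((∑ i, u i ^ 2 : ℤ) : ℝ) := by
  rw [← real_inner_self_eq_norm_sq, vec_inner]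
  congr 1
  exact Finset.sum_congr rfl fun i _ => by ring

lemma vec_inj : Function.Injective (vec : (Fin n → ℤ) → E n) := by
  intro u v h
  funext i
  have := congrArg (fun z : E n => z i) h
  simpa [vec] using this

/-- block codes are kissing configurations -/
lemma blockCode_kissing (hn : 0 < n) {m M : ℕ} {X : Finset (Fin n → ℤ)}
    (h : IsBlockCode m M n X) : X.card ≤ kissing n := by
  classical
  have : NeZero n := ⟨hn.ne'⟩
  have hpos : ∀ x ∈ X, 0 < ‖vec x‖ := by
    intro x hx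
    rw [norm_pos_iff]
    intro h0
    apply (h.1 x hx).1
    apply vec_inj
    rw [h0]
    ext i
    simp [vec]
  have hnorm : ∀ x ∈ X, ∀ y ∈ X, ‖vec x‖ = ‖vec y‖ := by
    intro x hx y hy
    obtain ⟨σ, -, hσ⟩ := h.2.1 x hx y hy
    have h1 : ‖vec x‖ ^ 2 = ‖vec y‖ ^ 2 := by
      rw [vec_norm, vec_norm]
      congr 1
      rw [← Equiv.sum_comp σ fun i => x i ^ 2]
      exact Finset.sum_congr rfl fun i _ => by rw [hσ i]
    exact (pow_left_inj₀ (norm_nonneg _) (norm_nonneg _) (by norm_num)).1 h1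
  set f : (Fin n → ℤ) → E n := fun x => ‖vec x‖⁻¹ • vec x with hf
  have hinj : Set.InjOn f X := by
    intro x hx y hy hxy
    simp only [hf] at hxy
    rw [hnorm x hx y hy] at hxy
    exact vec_inj (smul_right_injective _ (inv_ne_zero (hpos y hy).ne') hxy)
  have hcode : IsSphCode n (Real.pi / 3) (X.image f) := by
    constructor
    · intro z hz
      obtain ⟨x, hx, rfl⟩ := Finset.mem_image.1 hz
      rw [hf]
      simp only
      rw [norm_smul, norm_inv, norm_norm, inv_mul_cancel₀ (hpos x hx).ne']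
    · intro z hz w hw hzw
      obtain ⟨x, hx, rfl⟩ := Finset.mem_image.1 hz
      obtain ⟨y, hy, rfl⟩ := Finset.mem_image.1 hw
      have hxy : x ≠ y := fun h => hzw (by rw [h])
      have h1 := h.2.2 x hx y hy hxy
      have h2 : 2 * ⟪vec x, vec y⟫ ≤ ‖vec x‖ ^ 2 := by
        rw [vec_inner, vec_norm]
        exact_mod_cast h1
      rw [hf]
      simp only
      rw [inner_smul_left, inner_smul_right, ← hnorm x hx y hy, Real.cos_pi_div_three]
      simp only [conj_trivial]
      have h3 := hpos x hx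
      rw [← mul_assoc, ← mul_inv, inv_mul_le_iff₀ (by positivity)]
      nlinarith
  have h1 := le_sphMax (d := n) (θ := Real.pi / 3) (by
    rw [show Real.pi / 3 / 2 = Real.pi / 6 by ring, Real.sin_pi_div_six]; norm_num) hcode
  rwa [Finset.card_image_of_injOn hinj] at h1

lemma isBlockCode_empty (m M n : ℕ) : IsBlockCode m M n ∅ := ⟨by simp, by simp, by simp⟩

lemma block_bdd (hn : 0 < n) (m M : ℕ) :
    BddAbove {k | ∃ X : Finset (Fin n → ℤ), IsBlockCode m M n X ∧ X.card = k} := by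
  refine ⟨kissing n, ?_⟩
  rintro _ ⟨X, hX, rfl⟩
  exact blockCode_kissing hn hX

theorem blockMax_le (hn : 0 < n) (m M : ℕ) : blockMax m M n ≤ kissing n := by
  refine csSup_le (⟨0, ∅, isBlockCode_empty m M n, rfl⟩ : Set.Nonempty
    {k | ∃ X : Finset (Fin n → ℤ), IsBlockCode m M n X ∧ X.card = k}) ?_
  rintro _ ⟨X, hX, rfl⟩
  exact blockCode_kissing hn hX

theorem le_blockMax (hn : 0 < n) {m M : ℕ} {X : Finset (Fin n → ℤ)}
    (h : IsBlockCode m M n X) : X.card ≤ blockMax m M n :=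
  le_csSup (block_bdd hn m M) ⟨X, h, rfl⟩

end Pool.Agent.R760.PM
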