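import Pool.Agent.R760.PM2
import Pool.Agent.R760.KC3

/-! MP_b5f63d_co: quantization of spherical codes. -/

set_option autoImplicit false

open MeasureTheory Metric Set Filter Topology

open scoped RealInnerProductSpace ENNReal

namespace Pool.Agent.R760.PM

open Pool.Agent.R760.KN Pool.Agent.R760.KC Pool.Agent.H818R2

variable {n : ℕ}

/-- rounding of the coordinates to multiples of `δ / √n`, large coordinates are replaced by zero -/
noncomputable def quant (M : ℕ) (δ : ℝ) (z : E n) : Fin n → ℤ := fun i =>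
  if |z i| * √n ≤ M * δ then round (z i * √n / δ) else 0

lemma quant_abs {M : ℕ} {δ : ℝ} (hδ : 0 < δ) (z : E n) (i : Fin n) : |quant M δ z i| ≤ M := by
  unfold quant
  split_ifs with h
  · have h1 : |z i * √n / δ| ≤ M := by
      rw [abs_div, abs_mul, abs_of_nonneg (Real.sqrt_nonneg _), abs_of_pos hδ, div_le_iff₀ hδ]
      exact h
    have h2 := abs_sub_round (z i * √n / δ)
    rw [abs_le] at h1 h2 ⊢
    have h3 : ((round (z i * √n / δ) : ℤ) : ℝ) < ((M : ℤ) : ℝ) + 1 := by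
      push_cast
      linarith [h1.2, h2.1]
    have h4 : (-(M : ℤ) : ℝ) - 1 < ((round (z i * √n / δ) : ℤ) : ℝ) := by
      push_cast
      linarith [h1.1, h2.2]
    have h5 : round (z i * √n / δ) < (M : ℤ) + 1 := by exact_mod_cast h3
    have h6 : -(M : ℤ) - 1 < round (z i * √n / δ) := by exact_mod_cast h4
    omega
  · simp

lemma quant_err (hn : 0 < n) {M : ℕ} (hM : 0 < M) {δ : ℝ} (hδ : 0 < δ) (z : E n) :
    ‖z - (δ / √n) • vec (quant M δ z)‖ ^ 2 ≤
      δ ^ 2 / 4 + n / (M ^ 2 * δ ^ 2) * ∑ i, (z i) ^ 4 := by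
  have hn' : (0 : ℝ) < n := by exact_mod_cast hn
  have hM' : (0 : ℝ) < M := by exact_mod_cast hM
  have hsn : 0 < √(n : ℝ) := Real.sqrt_pos.2 hn'
  have hsn2 : √(n : ℝ) ^ 2 = n := Real.sq_sqrt hn'.le
  rw [EuclideanSpace.real_norm_sq_eq]
  have h1 : ∀ i, ((z - (δ / √n) • vec (quant M δ z)) i) ^ 2 ≤
      δ ^ 2 / 4 / n + n / (M ^ 2 * δ ^ 2) * (z i) ^ 4 := by
    intro i
    have h2 : (z - (δ / √n) • vec (quant M δ z)) i = z i - δ / √n * (quant M δ z i : ℝ) := by
      simp [vec]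
    rw [h2]
    unfold quant
    split_ifs with h
    · have h3 := abs_sub_round (z i * √n / δ)
      have h4 : z i - δ / √n * (round (z i * √n / δ) : ℝ) =
          δ / √n * (z i * √n / δ - round (z i * √n / δ)) := by
        field_simp
      have h5 : (z i * √n / δ - round (z i * √n / δ)) ^ 2 ≤ (1 / 2) ^ 2 := sq_le_sq' (by
        linarith [(abs_le.1 h3).1]) (by linarith [(abs_le.1 h3).2])
      rw [h4, mul_pow, div_pow, hsn2]
      have h6 : δ ^ 2 / n * (z i * √n / δ - round (z i * √n / δ)) ^ 2 ≤ δ ^ 2 / n * (1 / 2) ^ 2 :=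
        mul_le_mul_of_nonneg_left h5 (by positivity)
      have h7 : 0 ≤ n / ((M : ℝ) ^ 2 * δ ^ 2) * (z i) ^ 4 := by positivity
      calc _ ≤ δ ^ 2 / n * (1 / 2) ^ 2 := h6
        _ = δ ^ 2 / 4 / n := by ring
        _ ≤ _ := by linarith
    · push Not at h
      have h3 : M ^ 2 * δ ^ 2 ≤ (z i) ^ 2 * n := by
        have h4 := pow_le_pow_left₀ (by positivity) h.le 2
        rw [mul_pow, mul_pow, sq_abs, hsn2] at h4
        exact h4
      have h4 : (z i) ^ 2 ≤ n / (M ^ 2 * δ ^ 2) * (z i) ^ 4 := by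
        rw [div_mul_eq_mul_div, le_div_iff₀ (by positivity)]
        nlinarith [mul_le_mul_of_nonneg_left h3 (sq_nonneg (z i))]
      have h5 : 0 ≤ δ ^ 2 / 4 / n := by positivity
      simp only [Int.cast_zero, mul_zero, sub_zero]
      linarith
  refine (Finset.sum_le_sum fun i _ => h1 i).trans ?_
  rw [Finset.sum_add_distrib, Finset.sum_const, Finset.card_univ, Fintype.card_fin, nsmul_eq_mul,
    ← Finset.mul_sum]
  apply le_of_eq
  field_simp

/-- the step of the quantization -/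
noncomputable def dl (M : ℕ) : ℝ := 3 / (2 * √M)

lemma dl_pos {M : ℕ} (hM : 0 < M) : 0 < dl M := by
  have : (0 : ℝ) < M := by exact_mod_cast hM
  unfold dl
  positivity

lemma dl_sq {M : ℕ} (hM : 0 < M) : dl M ^ 2 = 9 / (4 * M) := by
  have : (0 : ℝ) < M := by exact_mod_cast hM
  unfold dl
  rw [div_pow, mul_pow, Real.sq_sqrt this.le]
  norm_num

/-- the error of the quantization -/
noncomputable def err (M : ℕ) (z : E n) : ℝ := ‖z - (dl M / √n) • vec (quant M (dl M) z)‖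

/-- in a suitable position at least one eighth of the points are well approximated -/
lemma exists_good (hn : 0 < n) {M : ℕ} (hM : 0 < M) {X : Finset (E n)} (hX : ∀ x ∈ X, ‖x‖ = 1) :
    ∃ g : G n, (X.card : ℝ) ≤ 8 * (X.filter fun x => err M (iso g x) ≤ dl M).card := by
  have hn' : (0 : ℝ) < n := by exact_mod_cast hn
  have hM' : (0 : ℝ) < M := by exact_mod_cast hM
  rcases X.eq_empty_or_nonempty with rfl | hne
  · exact ⟨1, by simp⟩
  obtain ⟨g, hg⟩ := exists_rot hn hX hne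
  refine ⟨g, ?_⟩
  have hd := dl_sq hM
  have hd0 := dl_pos hM
  have h1 : ∑ x ∈ X, err M (iso g x) ^ 2 ≤ X.card * (91 / (48 * M)) := by
    calc ∑ x ∈ X, err M (iso g x) ^ 2
        ≤ ∑ x ∈ X, (dl M ^ 2 / 4 + n / (M ^ 2 * dl M ^ 2) * ∑ i, (iso g x i) ^ 4) :=
          Finset.sum_le_sum fun x _ => quant_err hn hM hd0 _
      _ = X.card * (dl M ^ 2 / 4) + n / (M ^ 2 * dl M ^ 2) *
            ∑ x ∈ X, ∑ i, (iso g x i) ^ 4 := by
          rw [Finset.sum_add_distrib, Finset.sum_const, nsmul_eq_mul, ← Finset.mul_sum]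
      _ ≤ X.card * (dl M ^ 2 / 4) + n / (M ^ 2 * dl M ^ 2) * (X.card * (3 / n)) := by
          gcongr
      _ = X.card * (91 / (48 * M)) := by
          rw [hd]
          field_simp
          ring
  have h2 : ((X.filter fun x => ¬ err M (iso g x) ≤ dl M).card : ℝ) * dl M ^ 2 ≤
      ∑ x ∈ X, err M (iso g x) ^ 2 := by
    rw [← nsmul_eq_mul, ← Finset.sum_const]
    refine (Finset.sum_le_sum fun x hx => ?_).trans
      (Finset.sum_le_sum_of_subset_of_nonneg (Finset.filter_subset _ _) fun x _ _ => sq_nonneg _)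
    have h3 := (Finset.mem_filter.1 hx).2
    push Not at h3
    exact pow_le_pow_left₀ hd0.le h3.le 2
  have h3 : ((X.filter fun x => ¬ err M (iso g x) ≤ dl M).card : ℝ) ≤ X.card * (7 / 8) := by
    have h4 := h2.trans h1
    rw [hd] at h4
    have h5 : (X.card : ℝ) * (91 / (48 * M)) ≤ X.card * (7 / 8) * (9 / (4 * M)) := by
      rw [mul_assoc]
      apply mul_le_mul_of_nonneg_left _ (Nat.cast_nonneg _)
      rw [div_mul_div_comm, div_le_div_iff₀ (by positivity) (by positivity)]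
      nlinarith
    exact le_of_mul_le_mul_right (h4.trans h5) (by positivity)
  have h4 : ((X.filter fun x => err M (iso g x) ≤ dl M).card : ℝ) +
      (X.filter fun x => ¬ err M (iso g x) ≤ dl M).card = X.card := by
    exact_mod_cast Finset.card_filter_add_card_filter_not _
  linarith

lemma far_of_far {z w : E n} {a δ : ℝ} {u v : Fin n → ℤ} (hz : ‖z - a • vec u‖ ≤ δ)
    (hw : ‖w - a • vec v‖ ≤ δ) (hzw : 1 + 3 * δ ≤ ‖z - w‖) :
    1 + δ ≤ ‖a • vec u - a • vec v‖ := by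
  have h1 : z - w = (z - a • vec u) + (a • vec u - a • vec v) - (w - a • vec v) := by abel
  have h2 : ‖z - w‖ ≤ ‖z - a • vec u‖ + ‖a • vec u - a • vec v‖ + ‖w - a • vec v‖ := by
    rw [h1]
    exact (norm_sub_le _ _).trans (add_le_add_left (norm_add_le _ _) _)
  linarith

lemma kiss_of_far {z w : E n} {a δ : ℝ} (ha : 0 < a) {u v : Fin n → ℤ} (hz1 : ‖z‖ = 1)
    (hz : ‖z - a • vec u‖ ≤ δ) (hw : ‖w - a • vec v‖ ≤ δ) (hzw : 1 + 3 * δ ≤ ‖z - w‖)
    (huv : ‖vec u‖ = ‖vec v‖) : 2 * ∑ i, u i * v i ≤ ∑ i, u i ^ 2 := by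
  have h1 := far_of_far hz hw hzw
  have h2 : ‖a • vec u‖ ≤ 1 + δ := by
    have h3 : a • vec u = z - (z - a • vec u) := by abel
    rw [h3]
    exact (norm_sub_le _ _).trans (by linarith)
  have h3 : ‖a • vec u‖ ^ 2 ≤ ‖a • vec u - a • vec v‖ ^ 2 :=
    pow_le_pow_left₀ (norm_nonneg _) (h2.trans h1) 2
  rw [← smul_sub, norm_smul, norm_smul, mul_pow, mul_pow] at h3
  have h4 : ‖vec u‖ ^ 2 ≤ ‖vec u - vec v‖ ^ 2 :=
    le_of_mul_le_mul_left h3 (by rw [Real.norm_eq_abs, abs_of_pos ha]; positivity)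
  rw [norm_sub_sq_real, ← huv] at h4
  have h5 : 2 * ⟪vec u, vec v⟫ ≤ ‖vec u‖ ^ 2 := by linarith
  rw [vec_inner, vec_norm] at h5
  exact_mod_cast h5

/-- the angle of the codes that are quantized -/
noncomputable def ang (M : ℕ) : ℝ := 2 * Real.arcsin ((1 + 3 * dl M) / 2)

lemma dl_le {M : ℕ} (hM : 21 ≤ M) : 3 * dl M < 1 := by
  have hM' : (21 : ℝ) ≤ M := by exact_mod_cast hM
  have h1 : 4.5 < √(M : ℝ) := by
    rw [Real.lt_sqrt (by norm_num)]
    linarith
  unfold dl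
  rw [mul_div_assoc', div_lt_one (by positivity)]
  linarith

lemma sin_ang {M : ℕ} (hM : 21 ≤ M) : Real.sin (ang M / 2) = (1 + 3 * dl M) / 2 := by
  have h1 := dl_le hM
  have h2 := dl_pos (show 0 < M by omega)
  unfold ang
  rw [mul_div_cancel_left₀ _ (by norm_num)]
  exact Real.sin_arcsin (by linarith) (by linarith)

/-- quantization of spherical codes -/
theorem quantize (hn : 0 < n) {m M : ℕ} (hm : 0 < m) (hM : 21 ≤ M) :
    (sphMax n (ang M) : ℝ) ≤
      8 * (((m : ℝ) + 1) ^ ((n / m + 1) * (2 * M + 1)) * blockMax m M n) := by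
  classical
  have : NeZero n := ⟨hn.ne'⟩
  have hM0 : 0 < M := by omega
  have hd0 := dl_pos hM0
  have hd1 := dl_le hM
  have hs := sin_ang hM
  have hn' : (0 : ℝ) < n := by exact_mod_cast hn
  have ha : 0 < dl M / √n := div_pos hd0 (Real.sqrt_pos.2 hn')
  obtain ⟨X, hX, hXc⟩ := exists_code (n := n) (θ := ang M) (by rw [hs]; linarith)
  obtain ⟨g, hg⟩ := exists_good hn hM0 hX.1
  set W := X.filter fun x => err M (iso g x) ≤ dl M with hW
  set q : E n → (Fin n → ℤ) := fun x => quant M (dl M) (iso g x) with hq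
  have hWe : ∀ x ∈ W, ‖iso g x - (dl M / √n) • vec (q x)‖ ≤ dl M := fun x hx =>
    (Finset.mem_filter.1 hx).2
  have hWX : ∀ x ∈ W, x ∈ X := fun x hx => (Finset.mem_filter.1 hx).1
  have hfar : ∀ x ∈ W, ∀ y ∈ W, x ≠ y → 1 + 3 * dl M ≤ ‖iso g x - iso g y‖ := by
    intro x hx y hy hxy
    rw [← map_sub, (iso g).norm_map]
    have h1 := hX.2 x (hWX x hx) y (hWX y hy) hxy
    rw [Pool.Agent.H818R2.cos_eq, hs] at h1
    have h2 : (1 + 3 * dl M) ^ 2 ≤ ‖x - y‖ ^ 2 := by
      rw [norm_sub_sq_real, hX.1 x (hWX x hx), hX.1 y (hWX y hy)]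
      nlinarith
    exact (pow_le_pow_iff_left₀ (by linarith) (norm_nonneg _) (by norm_num)).1 h2
  have hinj : Set.InjOn q W := by
    intro x hx y hy hxy
    by_contra hne
    have h1 := far_of_far (hWe x hx) (hWe y hy) (hfar x hx y hy hne)
    rw [hxy, sub_self, norm_zero] at h1
    linarith
  obtain ⟨Z, hZ, hZc, hZn⟩ := exists_class (n := n) hm (M := M) (W.image q)
  rw [Finset.card_image_of_injOn hinj] at hZn
  have hZW : ∀ u ∈ Z, ∃ x ∈ W, q x = u := fun u hu => by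
    simpa using hZ hu
  have hZM : ∀ u ∈ Z, ∀ i, |u i| ≤ M := by
    intro u hu
    obtain ⟨x, -, rfl⟩ := hZW u hu
    exact fun i => quant_abs hd0 _ i
  have hperm : ∀ u ∈ Z, ∀ v ∈ Z, ∃ σ : Equiv.Perm (Fin n),
      (∀ i, (σ i : ℕ) / m = (i : ℕ) / m) ∧ ∀ i, v i = u (σ i) := fun u hu v hv =>
    perm_of_comp hm (hZM u hu) (hZM v hv) (hZc u hu v hv)
  have hblock : IsBlockCode m M n Z := by
    refine ⟨fun u hu => ⟨?_, hZM u hu⟩, hperm, ?_⟩
    · rintro rfl
      obtain ⟨x, hx, hxu⟩ := hZW _ hu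
      have h1 := hWe x hx
      rw [hxu] at h1
      have h2 : vec (0 : Fin n → ℤ) = (0 : E n) := by ext i; simp [vec]
      rw [h2, smul_zero, sub_zero, (iso g).norm_map, hX.1 x (hWX x hx)] at h1
      linarith
    · intro u hu v hv huv
      obtain ⟨σ, -, hσ⟩ := hperm u hu v hv
      have hnorm : ‖vec u‖ = ‖vec v‖ := by
        have h1 : ‖vec u‖ ^ 2 = ‖vec v‖ ^ 2 := by
          rw [vec_norm, vec_norm]
          congr 1
          rw [← Equiv.sum_comp σ fun i => u i ^ 2]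
          exact Finset.sum_congr rfl fun i _ => by rw [hσ i]
        exact (pow_left_inj₀ (norm_nonneg _) (norm_nonneg _) (by norm_num)).1 h1
      obtain ⟨x, hx, rfl⟩ := hZW u hu
      obtain ⟨y, hy, rfl⟩ := hZW v hv
      have hxy : x ≠ y := fun h => huv (by rw [h])
      exact kiss_of_far ha (by rw [(iso g).norm_map, hX.1 x (hWX x hx)]) (hWe x hx) (hWe y hy)
        (hfar x hx y hy hxy) hnorm
  have h1 : (Z.card : ℝ) ≤ blockMax m M n := by exact_mod_cast le_blockMax hn hblock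
  rw [← hXc]
  refine hg.trans (mul_le_mul_of_nonneg_left (hZn.trans ?_) (by norm_num))
  exact mul_le_mul_of_nonneg_left h1 (by positivity)

end Pool.Agent.R760.PM
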