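import Pool.Agent.R760.PM3

/-! MP_b5f63d_co: the exponents of block codes. -/

set_option autoImplicit false

open MeasureTheory Metric Set Filter Topology

open scoped RealInnerProductSpace ENNReal

namespace Pool.Agent.R760.PM

open Pool.Agent.R760.KN Pool.Agent.R760.KC Pool.Agent.H818R2

lemma ev_num {D κ lam C : ℝ} (hD : 0 < D) (h : D < κ) :
    ∀ᶠ n : ℕ in atTop, 0 < n ∧ lam < n ∧ C * n * D ^ n ≤ κ ^ n * (1 - lam / n) ^ n := by
  obtain ⟨q, hq1, hq2⟩ := exists_between h
  obtain ⟨r, hr1, hr2⟩ := exists_between hq1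
  have hκ : 0 < κ := hD.trans h
  have hr0 : 0 < r := hD.trans hr1
  have hlim1 : Tendsto (fun n : ℕ => κ * (1 - lam / n)) atTop (𝓝 (κ * (1 - 0))) := by
    apply Tendsto.const_mul
    exact tendsto_const_nhds.sub (tendsto_const_div_atTop_nhds_zero_nat _)
  rw [sub_zero, mul_one] at hlim1
  have hlim2 : Tendsto (fun n : ℕ => C * ((n : ℝ) * (D / q) ^ n)) atTop (𝓝 (C * 0)) := by
    apply Tendsto.const_mul
    apply tendsto_self_mul_const_pow_of_lt_one (by have := hr0.trans hr2; positivity)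
    rw [div_lt_one (hr0.trans hr2)]
    exact hq1
  rw [mul_zero] at hlim2
  filter_upwards [hlim1.eventually (lt_mem_nhds hq2), hlim2.eventually (gt_mem_nhds one_pos),
    eventually_gt_atTop 0, (tendsto_natCast_atTop_atTop (R := ℝ)).eventually
      (eventually_gt_atTop lam)] with n h1 h2 h3 h4
  have hq0 : 0 < q := hr0.trans hr2
  refine ⟨h3, h4, ?_⟩
  rw [← mul_pow]
  refine le_trans ?_ (pow_le_pow_left₀ hq0.le h1.le n)
  rw [div_pow, mul_div_assoc', mul_div_assoc', div_lt_one (by positivity)] at h2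
  linarith [h2]

/-- the loss in the exponent -/
noncomputable def loss (m M : ℕ) : ℝ := 5 / √M + (2 * M + 1) * Real.log (m + 1) / m

lemma loss_pos {m M : ℕ} (hm : 0 < m) (hM : 0 < M) : 0 < loss m M := by
  have h1 : (0 : ℝ) < m := by exact_mod_cast hm
  have h2 : (0 : ℝ) < M := by exact_mod_cast hM
  have h3 : 0 < Real.log (m + 1) := Real.log_pos (by linarith)
  unfold loss
  positivity

theorem main {m M : ℕ} (hm : 0 < m) (hM : 21 ≤ M) : ∀ᶠ n : ℕ in atTop,
    Real.exp (-(loss m M * n)) * kissing n ≤ blockMax m M n := by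
  have hm' : (0 : ℝ) < m := by exact_mod_cast hm
  have hM' : (0 : ℝ) < M := by exact_mod_cast (show 0 < M by omega)
  have hsM : 0 < √(M : ℝ) := Real.sqrt_pos.2 hM'
  set D : ℝ := 1 + 3 * dl M with hD
  have hd0 := dl_pos (show 0 < M by omega)
  have hd1 := dl_le hM
  have hD0 : 0 < D := by linarith
  have hDκ : D < Real.exp (5 / √M) := by
    have h1 := Real.add_one_le_exp (5 / √(M : ℝ))
    have h2 : 3 * dl M < 5 / √M := by
      unfold dl
      rw [mul_div_assoc', div_lt_div_iff₀ (by positivity) hsM]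
      nlinarith
    linarith
  set ρ : ℝ := 1 / D with hρ
  have hρ0 : 0 < ρ := by positivity
  have hρ1 : ρ < 1 := by rw [hρ, div_lt_one hD0]; linarith
  set c : ℝ := √(1 - ρ ^ 2) with hc
  have hc2 : c ^ 2 = 1 - ρ ^ 2 := Real.sq_sqrt (by nlinarith)
  have hc0 : 0 ≤ c := Real.sqrt_nonneg _
  set lam : ℝ := c / ρ with hlam
  set A : ℝ := ((m : ℝ) + 1) ^ (2 * M + 1) with hA
  have hA0 : 0 < A := by positivity
  have hev := ev_num (lam := lam) (C := 256 * A) hD0 hDκ
  rw [← Filter.map_add_atTop_eq_nat 1, Filter.eventually_map]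
  filter_upwards [hev, eventually_ge_atTop 4] with n h1 h4
  obtain ⟨h1, h2, h3⟩ := h1
  have hn' : (0 : ℝ) < n := by exact_mod_cast h1
  obtain ⟨p, hp⟩ := exists_pole h1
  have hsin6 : Real.sin (Real.pi / 3 / 2) = 1 / 2 := by
    rw [show Real.pi / 3 / 2 = Real.pi / 6 by ring, Real.sin_pi_div_six]
  have h6 := angle_le h1 (θ := Real.pi / 3) (φ := ang M) (c := c) (ρ := ρ)
    (by rw [hsin6]; norm_num) (by rw [sin_ang hM]; linarith) hc0 hρ0 (by rw [hc2]; ring)
    (by rw [sin_ang hM, hsin6, hρ]; apply le_of_eq; field_simp; exact hD.symm) hp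
  have h7 := cap_lower h1 hp (c := c) (s := ρ) (lam := lam) hc0 hρ0 (by rw [hc2]; ring)
    (by rw [hlam]; apply le_of_eq; field_simp) h2
  have h8 := quantize (n := n + 1) (Nat.succ_pos n) hm hM
  have h9 : (kissing (n + 1) : ℝ) ≤ 16 * kissing n := by exact_mod_cast kissing_succ_le h4
  set t : ℝ := 1 - lam / n with ht
  have ht0 : 0 < t := by rw [ht, sub_pos, div_lt_one hn']; exact h2
  set κ : ℝ := Real.exp (5 / √M) with hκ
  have hκ0 : 0 < κ := Real.exp_pos _
  have hκ1 : 1 ≤ κ := Real.one_le_exp (by positivity)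
  set B : ℝ := (blockMax m M (n + 1) : ℝ) with hB
  have hB0 : 0 ≤ B := Nat.cast_nonneg _
  set L : ℝ := (2 * M + 1) * Real.log (m + 1) / m * ((n + 1 : ℕ) : ℝ) with hL
  have h10 : ((m : ℝ) + 1) ^ (((n + 1) / m + 1) * (2 * M + 1)) ≤ A * Real.exp L := by
    have e1 : ((m : ℝ) + 1) ^ (((n + 1) / m + 1) * (2 * M + 1)) = A * A ^ ((n + 1) / m) := by
      rw [hA, mul_comm (((n + 1) / m + 1)) (2 * M + 1), pow_mul, pow_succ, mul_comm]
    rw [e1]
    apply mul_le_mul_of_nonneg_left _ hA0.le
    have e2 : A = Real.exp ((2 * M + 1) * Real.log (m + 1)) := by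
      rw [hA, ← Real.rpow_natCast, Real.rpow_def_of_pos (by positivity)]
      push_cast
      ring_nf
    have e3 : (((n + 1) / m : ℕ) : ℝ) ≤ ((n + 1 : ℕ) : ℝ) / m := Nat.cast_div_le
    rw [e2, ← Real.exp_nat_mul, hL]
    apply Real.exp_le_exp.2
    have e4 : 0 ≤ (2 * (M : ℝ) + 1) * Real.log (m + 1) :=
      mul_nonneg (by positivity) (Real.log_nonneg (by linarith))
    calc (((n + 1) / m : ℕ) : ℝ) * ((2 * M + 1) * Real.log (m + 1))
        ≤ ((n + 1 : ℕ) : ℝ) / m * ((2 * M + 1) * Real.log (m + 1)) :=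
          mul_le_mul_of_nonneg_right e3 e4
      _ = (2 * M + 1) * Real.log (m + 1) / m * ((n + 1 : ℕ) : ℝ) := by ring
  set K : ℝ := (kissing n : ℝ) with hK
  have hK0 : 0 ≤ K := Nat.cast_nonneg _
  have hKe : (sphMax n (Real.pi / 3) : ℝ) = K := rfl
  have h11 : K * ((ρ * t) ^ n / (2 * n)) ≤ 8 * (A * Real.exp L * B) := by
    calc K * ((ρ * t) ^ n / (2 * n)) ≤ K * (unif n).real {x : E n | c ≤ ⟪x, p⟫} :=
          mul_le_mul_of_nonneg_left h7 hK0
      _ ≤ sphMax (n + 1) (ang M) := h6
      _ ≤ _ := h8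
      _ ≤ 8 * (A * Real.exp L * B) := by gcongr
  have h12 : K * t ^ n ≤ 16 * n * (A * Real.exp L * B) * D ^ n := by
    have e1 : K * ((ρ * t) ^ n / (2 * n)) = K * t ^ n / (D ^ n * (2 * n)) := by
      rw [mul_pow, hρ, div_pow, one_pow]
      field_simp
    rw [e1, div_le_iff₀ (by positivity)] at h11
    linarith [h11]
  have h13 : K * t ^ n ≤ (κ ^ n / 16 * (Real.exp L * B)) * t ^ n := by
    have e1 : 0 ≤ Real.exp L * B / 16 := by positivity
    have e2 := mul_le_mul_of_nonneg_right h3 e1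
    calc K * t ^ n ≤ 16 * n * (A * Real.exp L * B) * D ^ n := h12
      _ = 256 * A * n * D ^ n * (Real.exp L * B / 16) := by ring
      _ ≤ κ ^ n * t ^ n * (Real.exp L * B / 16) := e2
      _ = _ := by ring
  have h14 : K ≤ κ ^ n / 16 * (Real.exp L * B) := le_of_mul_le_mul_right h13 (by positivity)
  have h15 : (kissing (n + 1) : ℝ) ≤ κ ^ (n + 1) * Real.exp L * B := by
    calc (kissing (n + 1) : ℝ) ≤ 16 * K := h9
      _ ≤ 16 * (κ ^ n / 16 * (Real.exp L * B)) := by linarith
      _ = κ ^ n * (Real.exp L * B) := by ring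
      _ ≤ κ ^ (n + 1) * (Real.exp L * B) := by
          apply mul_le_mul_of_nonneg_right (pow_le_pow_right₀ hκ1 (Nat.le_succ n)) (by positivity)
      _ = _ := by ring
  have h16 : Real.exp (-(loss m M * ((n + 1 : ℕ) : ℝ))) * (κ ^ (n + 1) * Real.exp L) = 1 := by
    rw [hκ, ← Real.exp_nat_mul, ← Real.exp_add, ← Real.exp_add, ← Real.exp_zero]
    congr 1
    rw [hL, loss]
    ring
  calc Real.exp (-(loss m M * ((n + 1 : ℕ) : ℝ))) * kissing (n + 1)
      ≤ Real.exp (-(loss m M * ((n + 1 : ℕ) : ℝ))) * (κ ^ (n + 1) * Real.exp L * B) :=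
        mul_le_mul_of_nonneg_left h15 (Real.exp_pos _).le
    _ = Real.exp (-(loss m M * ((n + 1 : ℕ) : ℝ))) * (κ ^ (n + 1) * Real.exp L) * B := by ring
    _ = B := by rw [h16, one_mul]

/-- `(1/n) log_2` of the largest size of a block code -/
noncomputable def blockRate (m M n : ℕ) : ℝ := Real.logb 2 (blockMax m M n) / n

lemma blockRate_nonneg (m M n : ℕ) : 0 ≤ blockRate m M n := by
  unfold blockRate
  rcases Nat.eq_zero_or_pos (blockMax m M n) with h0 | h0
  · rw [h0]; simp
  · exact div_nonneg (Real.logb_nonneg (by norm_num) (by exact_mod_cast h0)) (Nat.cast_nonneg n)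

lemma blockRate_le (m M : ℕ) {n : ℕ} (hn : 0 < n) :
    blockRate m M n ≤ codeRate (Real.pi / 3) n := by
  unfold blockRate codeRate
  apply div_le_div_of_nonneg_right _ (Nat.cast_nonneg n)
  rcases Nat.eq_zero_or_pos (blockMax m M n) with h0 | h0
  · rw [h0]
    simp only [Nat.cast_zero, Real.logb_zero]
    have h1 := codeRate_nonneg (Real.pi / 3) n
    unfold codeRate at h1
    have hn' : (0 : ℝ) < n := by exact_mod_cast hn
    have h2 := mul_nonneg h1 hn'.le
    rwa [div_mul_cancel₀ _ hn'.ne'] at h2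
  · exact Real.logb_le_logb_of_le (by norm_num) (by exact_mod_cast h0)
      (by exact_mod_cast blockMax_le hn m M)

lemma le_blockRate {m M : ℕ} (hm : 0 < m) (hM : 21 ≤ M) : ∀ᶠ n : ℕ in atTop,
    codeRate (Real.pi / 3) n - loss m M / Real.log 2 ≤ blockRate m M n := by
  filter_upwards [main hm hM, eventually_gt_atTop 0] with n h1 h2
  have hn' : (0 : ℝ) < n := by exact_mod_cast h2
  have hlog : 0 < Real.log 2 := Real.log_pos (by norm_num)
  have hk : (0 : ℝ) < kissing n := by
    have : NeZero n := ⟨h2.ne'⟩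
    obtain ⟨p, hp⟩ := exists_pole h2
    have h3 : IsSphCode n (Real.pi / 3) {p} := by
      constructor
      · intro x hx
        rw [Finset.mem_singleton.1 hx, hp]
      · intro x hx y hy hxy
        exact absurd ((Finset.mem_singleton.1 hx).trans (Finset.mem_singleton.1 hy).symm) hxy
    have h4 := le_sphMax sin_third h3
    rw [Finset.card_singleton] at h4
    exact_mod_cast (lt_of_lt_of_le Nat.zero_lt_one h4)
  have h3 : 0 < Real.exp (-(loss m M * n)) * kissing n := by positivity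
  have h4 := Real.log_le_log h3 h1
  rw [Real.log_mul (Real.exp_pos _).ne' hk.ne', Real.log_exp] at h4
  unfold codeRate blockRate Real.logb
  change Real.log (kissing n) / Real.log 2 / n - _ ≤ _
  rw [sub_le_iff_le_add, div_le_iff₀ hn', div_le_iff₀ hlog]
  have h5 : (Real.log (blockMax m M n) / Real.log 2 / n + loss m M / Real.log 2) * n *
      Real.log 2 = Real.log (blockMax m M n) + loss m M * n := by
    field_simp
  rw [h5]
  linarith

lemma exists_loss {ε : ℝ} (hε : 0 < ε) : ∃ m M : ℕ, 0 < m ∧ 21 ≤ M ∧ loss m M < ε := by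
  have h1 : Tendsto (fun M : ℕ => 5 / √(M : ℝ)) atTop (𝓝 0) :=
    Tendsto.const_div_atTop (Real.tendsto_sqrt_atTop.comp tendsto_natCast_atTop_atTop) _
  obtain ⟨M, hM1, hM2⟩ := ((h1.eventually (gt_mem_nhds (half_pos hε))).and
    (eventually_ge_atTop 21)).exists
  have h2 : Tendsto (fun m : ℕ => (2 * M + 1) * (Real.log (m + 1) / m)) atTop
      (𝓝 ((2 * (M : ℝ) + 1) * 0)) := by
    apply Tendsto.const_mul
    have h3 := (Real.tendsto_pow_log_div_mul_add_atTop 1 (-1) 1 one_ne_zero).comp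
      (tendsto_atTop_add_const_right atTop (1 : ℝ) (tendsto_natCast_atTop_atTop (R := ℝ)))
    refine h3.congr fun m => ?_
    simp
  rw [mul_zero] at h2
  obtain ⟨m, hm1, hm2⟩ := ((h2.eventually (gt_mem_nhds (half_pos hε))).and
    (eventually_gt_atTop 0)).exists
  refine ⟨m, M, hm2, hM2, ?_⟩
  unfold loss
  rw [mul_div_assoc]
  linarith

lemma block_bdd_below (m M : ℕ) : IsBoundedUnder (· ≥ ·) atTop (blockRate m M) :=
  ⟨0, eventually_map.2 (Eventually.of_forall fun d => blockRate_nonneg m M d)⟩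

lemma block_bdd_above (m M : ℕ) : IsBoundedUnder (· ≤ ·) atTop (blockRate m M) := by
  obtain ⟨b, hb⟩ := rate_bdd_above
  rw [eventually_map] at hb
  refine ⟨b, eventually_map.2 ?_⟩
  filter_upwards [hb, eventually_gt_atTop 0] with n h1 h2
  exact (blockRate_le m M h2).trans h1

theorem liminf_lub : IsLUB (range fun p : ℕ × ℕ => liminf (blockRate p.1 p.2) atTop)
    (liminf (codeRate (Real.pi / 3)) atTop) := by
  constructor
  · rintro _ ⟨p, rfl⟩
    refine liminf_le_liminf ?_ (block_bdd_below _ _) rate_bdd_above.isCoboundedUnder_ge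
    filter_upwards [eventually_gt_atTop 0] with n hn
    exact blockRate_le _ _ hn
  · intro b hb
    by_contra hcon
    push Not at hcon
    obtain ⟨a, ha1, ha2⟩ := exists_between hcon
    have hlog : 0 < Real.log 2 := Real.log_pos (by norm_num)
    obtain ⟨m, M, hm, hM, hl⟩ := exists_loss (mul_pos (sub_pos.2 ha1) hlog)
    have h1 := hb ⟨(m, M), rfl⟩
    have h2 := eventually_lt_of_lt_liminf ha2 rate_bdd_below
    have h3 : a - loss m M / Real.log 2 ≤ liminf (blockRate m M) atTop := by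
      refine le_liminf_of_le (block_bdd_above m M).isCoboundedUnder_ge ?_
      filter_upwards [h2, le_blockRate hm hM] with n h4 h5
      linarith
    have h4 : loss m M / Real.log 2 < a - b := by rwa [div_lt_iff₀ hlog]
    simp only at h1
    linarith

theorem limsup_lub : IsLUB (range fun p : ℕ × ℕ => limsup (blockRate p.1 p.2) atTop)
    (limsup (codeRate (Real.pi / 3)) atTop) := by
  constructor
  · rintro _ ⟨p, rfl⟩
    refine limsup_le_limsup ?_ (block_bdd_below _ _).isCoboundedUnder_le rate_bdd_above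
    filter_upwards [eventually_gt_atTop 0] with n hn
    exact blockRate_le _ _ hn
  · intro b hb
    by_contra hcon
    push Not at hcon
    obtain ⟨a, ha1, ha2⟩ := exists_between hcon
    have hlog : 0 < Real.log 2 := Real.log_pos (by norm_num)
    obtain ⟨m, M, hm, hM, hl⟩ := exists_loss (mul_pos (sub_pos.2 ha1) hlog)
    have h1 := hb ⟨(m, M), rfl⟩
    have h2 := frequently_lt_of_lt_limsup rate_bdd_below.isCoboundedUnder_le ha2
    have h3 : a - loss m M / Real.log 2 ≤ limsup (blockRate m M) atTop := by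
      refine le_limsup_of_frequently_le ?_ (block_bdd_above m M)
      refine (h2.and_eventually (le_blockRate hm hM)).mono fun n h => ?_
      linarith [h.1, h.2]
    have h4 : loss m M / Real.log 2 < a - b := by rwa [div_lt_iff₀ hlog]
    simp only at h1
    linarith

end Pool.Agent.R760.PM
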