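import Pool.Agent.H818R2.Sph
import Pool.Agent.H818R2.Rankin

/-! MP_dbfdb2_gt: volumes of lenses and the number of points of a packing in a thin shell. -/

open MeasureTheory Metric Filter Set
open scoped Topology InnerProductSpace

set_option linter.unusedSectionVars false

namespace Pool.Agent.R760.VC
open Pool.Agent.H818R2

lemma pow_low {n : ℕ} (hn : 10 ≤ n) : (1 : ℝ) / 1024 ≤ (1 - 5 / n) ^ n := by
  have hn' : (10 : ℝ) ≤ n := by exact_mod_cast hn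
  have h0 : (0 : ℝ) < n := by linarith
  have hw : (0 : ℝ) ≤ 1 - 5 / n := by
    rw [sub_nonneg, div_le_one h0]; linarith
  have h1 := one_add_mul_self_le_rpow_one_add (s := -(5 / (n : ℝ))) (by linarith)
    (p := (n : ℝ) / 10) (by linarith)
  have h2 : 1 + (n : ℝ) / 10 * -(5 / (n : ℝ)) = 1 / 2 := by field_simp; norm_num
  rw [h2, ← sub_eq_add_neg] at h1
  have h3 : ((1 - 5 / (n : ℝ)) ^ ((n : ℝ) / 10)) ^ 10 = (1 - 5 / (n : ℝ)) ^ n := by
    rw [← Real.rpow_natCast, ← Real.rpow_mul hw, ← Real.rpow_natCast]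
    congr 1
    push_cast
    ring
  rw [← h3]
  calc (1 : ℝ) / 1024 = (1 / 2) ^ 10 := by norm_num
    _ ≤ _ := pow_le_pow_left₀ (by norm_num) h1 10

lemma pow_up {n : ℕ} (hn : 1 ≤ n) : (1 + 1 / (2 * n) : ℝ) ^ n ≤ 2 := by
  have h0 : (0 : ℝ) < n := by exact_mod_cast hn
  have h1 : (1 + 1 / (2 * n) : ℝ) ≤ Real.exp (1 / (2 * n)) := by
    have := Real.add_one_le_exp (1 / (2 * (n : ℝ)))
    linarith
  have h2 : (1 + 1 / (2 * n) : ℝ) ^ n ≤ Real.exp (1 / (2 * n)) ^ n :=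
    pow_le_pow_left₀ (by positivity) h1 n
  rw [← Real.exp_nat_mul] at h2
  have h3 : (n : ℝ) * (1 / (2 * n)) = 1 / 2 := by field_simp
  rw [h3] at h2
  have h4 : Real.exp (1 / 2) ≤ 2 := by
    have h5 := Real.exp_one_lt_d9
    have h6 : Real.exp (1 / 2) ^ 2 = Real.exp 1 := by
      rw [← Real.exp_nat_mul]; norm_num
    nlinarith [Real.exp_pos (1 / 2)]
  linarith

/-- the numerical part of the volume of a lens -/
lemma lens_num {i ρ r a : ℝ} (hi0 : 0 < i) (hi1 : i ≤ 1 / 10) (hρ2 : 2 ≤ ρ) (hρ4 : ρ ≤ 4)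
    (hx1 : ρ ≤ r) (hx2 : r ≤ ρ + i) (ha : 0 < a) (ha2 : a ^ 2 = ρ ^ 2 - 4 + i) :
    ∃ c B : ℝ, 2 * r * c = r ^ 2 + a ^ 2 - 4 ∧ B = a ^ 2 - c ^ 2 ∧
      (2 * a / r) ^ 2 * (1 - 4 * i) ≤ B ∧ 0 < B ∧ i ^ 2 / 72 ≤ r - c ∧
      2 * |c| * (i ^ 2 / 72) + (i ^ 2 / 72) ^ 2 ≤ i * B := by
  have hr0 : 0 < r := by linarith
  have hr4 : r ≤ 41 / 10 := by linarith
  obtain ⟨e, he⟩ : ∃ e : ℝ, e = a ^ 2 + 4 - r ^ 2 := ⟨_, rfl⟩
  have he1 : e ≤ i := by
    have : ρ ^ 2 ≤ r ^ 2 := pow_le_pow_left₀ (by linarith) hx1 2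
    rw [he, ha2]; linarith
  have he2 : -(8 * i) ≤ e := by
    have h1 : r ^ 2 ≤ (ρ + i) ^ 2 := pow_le_pow_left₀ hr0.le hx2 2
    have h2 : (ρ + i) ^ 2 = ρ ^ 2 + 2 * ρ * i + i ^ 2 := by ring
    have h3 : ρ * i ≤ 4 * i := mul_le_mul_of_nonneg_right hρ4 hi0.le
    have h4 : i ^ 2 ≤ i := by nlinarith
    rw [he, ha2]; linarith
  have hesq : e ^ 2 ≤ 64 * i ^ 2 := by
    have : (8 * i) ^ 2 = 64 * i ^ 2 := by ring
    rw [← this]
    exact sq_le_sq' he2 (by linarith)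
  have hai : i ≤ a ^ 2 := by
    have : 2 ^ 2 ≤ ρ ^ 2 := pow_le_pow_left₀ (by norm_num) hρ2 2
    rw [ha2]; linarith
  obtain ⟨c, hc⟩ : ∃ c : ℝ, c = (r ^ 2 + a ^ 2 - 4) / (2 * r) := ⟨_, rfl⟩
  have hc2 : 2 * r * c = r ^ 2 + a ^ 2 - 4 := by rw [hc]; field_simp
  obtain ⟨B, hB⟩ : ∃ B : ℝ, B = a ^ 2 - c ^ 2 := ⟨_, rfl⟩
  have hB2 : 4 * r ^ 2 * B = 16 * a ^ 2 - e ^ 2 := by
    have : 4 * r ^ 2 * B = 4 * r ^ 2 * a ^ 2 - (2 * r * c) ^ 2 := by rw [hB]; ring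
    rw [this, hc2, he]; ring
  have hia : i * i ≤ a ^ 2 * i := mul_le_mul_of_nonneg_right hai hi0.le
  have hBlow : (2 * a / r) ^ 2 * (1 - 4 * i) ≤ B := by
    have h1 : (2 * a / r) ^ 2 * (1 - 4 * i) = (16 * a ^ 2 * (1 - 4 * i)) / (4 * r ^ 2) := by
      field_simp
      ring
    rw [h1, div_le_iff₀ (by positivity)]
    have h2 : B * (4 * r ^ 2) = 16 * a ^ 2 - e ^ 2 := by linarith
    rw [h2]
    have h3 : 16 * a ^ 2 * (1 - 4 * i) = 16 * a ^ 2 - 64 * (a ^ 2 * i) := by ring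
    have h4 : i ^ 2 = i * i := by ring
    rw [h3]
    linarith
  have hr2 : r ^ 2 ≤ 1681 / 100 := by
    have := pow_le_pow_left₀ hr0.le hr4 2
    linarith
  have hBi : i / 8 ≤ B := by
    have h0 : (0 : ℝ) < 4 * r ^ 2 := by positivity
    have h1 : (i / 8) * (4 * r ^ 2) ≤ B * (4 * r ^ 2) := by
      have h2 : B * (4 * r ^ 2) = 16 * a ^ 2 - e ^ 2 := by linarith
      rw [h2]
      have h3 : i * r ^ 2 ≤ i * (1681 / 100) := mul_le_mul_of_nonneg_left hr2 hi0.le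
      have h4 : i * i ≤ i * (1 / 10) := mul_le_mul_of_nonneg_left hi1 hi0.le
      have h5 : i ^ 2 = i * i := by ring
      linarith
    exact le_of_mul_le_mul_right h1 h0
  have hB0 : 0 < B := by linarith [div_pos hi0 (show (0 : ℝ) < 8 by norm_num)]
  have ha4 : a ≤ 4 := by
    have : a ^ 2 ≤ 4 ^ 2 := by
      have := pow_le_pow_left₀ (by linarith) hρ4 2
      rw [ha2]; linarith
    exact le_of_sq_le_sq this (by norm_num)
  have hcabs : |c| ≤ a := by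
    rw [← Real.sqrt_sq ha.le, ← Real.sqrt_sq_eq_abs]
    exact Real.sqrt_le_sqrt (by linarith)
  have hi2 : i ^ 2 / 72 ≤ 1 / 7200 := by
    have := pow_le_pow_left₀ hi0.le hi1 2
    linarith
  have hi20 : 0 < i ^ 2 / 72 := by positivity
  refine ⟨c, B, hc2, hB, hBlow, hB0, ?_, ?_⟩
  · have h7 : 2 * r * (r - c) = 8 - e := by
      have : 2 * r * (r - c) = 2 * r ^ 2 - 2 * r * c := by ring
      rw [this, hc2, he]; ring
    by_contra hcon
    rw [not_le] at hcon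
    have h8 : 2 * r * (r - c) ≤ 2 * r * (1 / 7200) :=
      mul_le_mul_of_nonneg_left (hcon.le.trans hi2) (by positivity)
    linarith
  · have h1 : i * (i / 8) ≤ i * B := mul_le_mul_of_nonneg_left hBi hi0.le
    have h2 : |c| * (i ^ 2 / 72) ≤ 4 * (i ^ 2 / 72) :=
      mul_le_mul_of_nonneg_right (hcabs.trans ha4) hi20.le
    have h3 : (i ^ 2 / 72) * (i ^ 2 / 72) ≤ (1 / 7200) * (i ^ 2 / 72) :=
      mul_le_mul_of_nonneg_right hi2 hi20.le
    have h4 : (i ^ 2 / 72) ^ 2 = (i ^ 2 / 72) * (i ^ 2 / 72) := by ring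
    have h5 : i * (i / 8) = 9 * (i ^ 2 / 72) := by ring
    rw [h4]
    linarith

section
variable {E : Type*} [NormedAddCommGroup E] [InnerProductSpace ℝ E] [FiniteDimensional ℝ E]
  [MeasurableSpace E] [BorelSpace E]

/-- the volume of a lens -/
lemma lens_vol {n : ℕ} (hfr : Module.finrank ℝ E = n) (hn : 10 ≤ n) {ρ : ℝ} (hρ2 : 2 ≤ ρ)
    (hρ4 : ρ ≤ 4) {x : E} (hx1 : ρ ≤ ‖x‖) (hx2 : ‖x‖ ≤ ρ + 1 / n) {a : ℝ} (ha : 0 < a)
    (ha2 : a ^ 2 = ρ ^ 2 - 4 + 1 / n) :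
    (2 * a / ρ) ^ n * vb E ≤
      18432 * (n : ℝ) ^ 2 * volume.real (closedBall x 2 ∩ closedBall 0 a) := by
  have hn' : (10 : ℝ) ≤ n := by exact_mod_cast hn
  have hn0 : (0 : ℝ) < n := by linarith
  have hv := vb_pos (E := E)
  obtain ⟨i, hi, hi0, hi1⟩ : ∃ i : ℝ, i = 1 / (n : ℝ) ∧ 0 < i ∧ i ≤ 1 / 10 := by
    refine ⟨1 / n, rfl, by positivity, ?_⟩
    exact one_div_le_one_div_of_le (by norm_num) hn'
  obtain ⟨r, hr⟩ : ∃ r : ℝ, r = ‖x‖ := ⟨_, rfl⟩
  rw [← hr, ← hi] at hx2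
  rw [← hr] at hx1
  rw [← hi] at ha2
  have hr0 : 0 < r := by linarith
  obtain ⟨c, B, hc2, hB, hBlow, hB0, hrc, hkey⟩ := lens_num hi0 hi1 hρ2 hρ4 hx1 hx2 ha ha2
  obtain ⟨δ, hδ⟩ : ∃ δ : ℝ, δ = i ^ 2 / 72 := ⟨_, rfl⟩
  rw [← hδ] at hrc hkey
  have hδ0 : 0 < δ := by rw [hδ]; positivity
  have hBi : B * (1 - i) ≤ B := by
    have := mul_pos hB0 hi0
    linarith
  have hBi0 : 0 ≤ B * (1 - i) := mul_nonneg hB0.le (by linarith)
  obtain ⟨R, hR⟩ : ∃ R : ℝ, R = √(B * (1 - i)) := ⟨_, rfl⟩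
  have hR0 : 0 ≤ R := by rw [hR]; exact Real.sqrt_nonneg _
  have hRsq : R ^ 2 = B * (1 - i) := by rw [hR, Real.sq_sqrt hBi0]
  obtain ⟨u, hu⟩ : ∃ u : E, u = r⁻¹ • x := ⟨_, rfl⟩
  have hu1 : ‖u‖ = 1 := by
    rw [hu, norm_smul, norm_inv, Real.norm_of_nonneg hr0.le, ← hr, inv_mul_cancel₀ hr0.ne']
  have hxu : x = r • u := by rw [hu, smul_smul, mul_inv_cancel₀ hr0.ne', one_smul]
  -- the cylinder lies in the lens
  have hsub : {z : E | (c ≤ ⟪u, z⟫_ℝ ∧ ⟪u, z⟫_ℝ ≤ c + δ) ∧ ‖z‖ ^ 2 - ⟪u, z⟫_ℝ ^ 2 ≤ R ^ 2} ⊆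
      closedBall x 2 ∩ closedBall 0 a := by
    rintro z ⟨⟨h1, h2⟩, h3⟩
    obtain ⟨s, hs⟩ : ∃ s : ℝ, s = ⟪u, z⟫_ℝ := ⟨_, rfl⟩
    rw [← hs] at h1 h2 h3
    rw [hRsq] at h3
    have hs2 : s ^ 2 ≤ c ^ 2 + 2 * |c| * δ + δ ^ 2 := by
      have h4 : |s| ≤ |c| + δ := by
        rw [abs_le]
        constructor
        · linarith [neg_abs_le c]
        · linarith [le_abs_self c]
      have h5 := pow_le_pow_left₀ (abs_nonneg s) h4 2
      rw [sq_abs, add_sq, sq_abs] at h5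
      linarith
    constructor
    · rw [mem_closedBall, dist_eq_norm]
      apply le_of_sq_le_sq _ (by norm_num)
      rw [norm_sub_sq_real, hxu, inner_smul_right, norm_smul, Real.norm_of_nonneg hr0.le, hu1,
        mul_one, real_inner_comm, ← hs]
      have h9 : (r - s) ^ 2 ≤ (r - c) ^ 2 := by
        apply pow_le_pow_left₀ (by linarith)
        linarith
      have h10 : (r - s) ^ 2 = r ^ 2 - 2 * (r * s) + s ^ 2 := by ring
      have h11 : (r - c) ^ 2 = r ^ 2 - 2 * r * c + c ^ 2 := by ring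
      rw [h10, h11, hc2] at h9
      linarith
    · rw [mem_closedBall_zero_iff]
      apply le_of_sq_le_sq _ ha.le
      have h12 : B * (1 - i) = B - i * B := by ring
      rw [h12] at h3
      linarith
  have hcyl := cyl_vol (E := E) hu1 (a := c) (b := c + δ) (by linarith) hR0
  have hmono := measureReal_mono (μ := volume) hsub
    ((measure_mono inter_subset_left).trans_lt measure_closedBall_lt_top).ne
  have h1 := hcyl.trans hmono
  rw [add_sub_cancel_left, hfr] at h1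
  -- the radius of the cylinder
  have hRlow : 2 * a / r * √(1 - 5 * i) ≤ R := by
    rw [hR]
    apply Real.le_sqrt_of_sq_le
    rw [mul_pow, Real.sq_sqrt (by linarith)]
    have h2 : (2 * a / r) ^ 2 * (1 - 5 * i) ≤ (2 * a / r) ^ 2 * (1 - 4 * i) * (1 - i) := by
      rw [mul_assoc]
      apply mul_le_mul_of_nonneg_left _ (by positivity)
      have : 0 ≤ i * i := by positivity
      linarith
    exact h2.trans (mul_le_mul_of_nonneg_right hBlow (by linarith))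
  have hsq1 : √(1 - 5 * i) ≤ 1 := Real.sqrt_le_one.2 (by linarith)
  have hw : 1 / 32 ≤ √(1 - 5 * i) ^ (n - 1) := by
    have h2 : √(1 - 5 * i) ^ n ≤ √(1 - 5 * i) ^ (n - 1) :=
      pow_le_pow_of_le_one (Real.sqrt_nonneg _) hsq1 (by omega)
    refine le_trans ?_ h2
    apply le_of_sq_le_sq _ (by positivity)
    rw [← pow_mul, mul_comm n 2, pow_mul, Real.sq_sqrt (by linarith)]
    have := pow_low hn
    rw [hi, mul_one_div]
    linarith
  have har : 2 * a / r ≤ 2 := by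
    rw [div_le_iff₀ hr0]
    have : a ≤ r := by
      apply le_of_sq_le_sq _ hr0.le
      have := pow_le_pow_left₀ (by linarith) hx1 2
      linarith
    linarith
  have har0 : 0 < 2 * a / r := by positivity
  have hRpow : (2 * a / r) ^ n / 64 ≤ R ^ (n - 1) := by
    have h2 : (2 * a / r * √(1 - 5 * i)) ^ (n - 1) ≤ R ^ (n - 1) :=
      pow_le_pow_left₀ (by positivity) hRlow _
    rw [mul_pow] at h2
    have h3 : (2 * a / r) ^ n ≤ 2 * (2 * a / r) ^ (n - 1) := by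
      obtain ⟨m, rfl⟩ : ∃ m, n = m + 1 := ⟨n - 1, by omega⟩
      rw [Nat.add_sub_cancel, pow_succ']
      exact mul_le_mul_of_nonneg_right har (by positivity)
    have h4 : 0 ≤ (2 * a / r) ^ (n - 1) := by positivity
    calc (2 * a / r) ^ n / 64 ≤ (2 * a / r) ^ (n - 1) * (1 / 32) := by linarith
      _ ≤ (2 * a / r) ^ (n - 1) * √(1 - 5 * i) ^ (n - 1) := mul_le_mul_of_nonneg_left hw h4
      _ ≤ _ := h2
  have hρpow : (2 * a / ρ) ^ n ≤ 2 * (2 * a / r) ^ n := by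
    have h2 : 2 * a / ρ ≤ (1 + 1 / (2 * n)) * (2 * a / r) := by
      have h3 : r ≤ (1 + 1 / (2 * n)) * ρ := by
        have h4 : i * 2 ≤ i * ρ := mul_le_mul_of_nonneg_left hρ2 hi0.le
        have h5 : (1 + 1 / (2 * (n : ℝ))) * ρ = ρ + i * ρ / 2 := by
          rw [hi]; field_simp
        linarith
      rw [← mul_div_assoc, div_le_div_iff₀ (by linarith) hr0]
      have h4 : 2 * a * r ≤ 2 * a * ((1 + 1 / (2 * n)) * ρ) :=
        mul_le_mul_of_nonneg_left h3 (by positivity)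
      linarith
    have h3 := pow_le_pow_left₀ (by positivity) h2 n
    rw [mul_pow] at h3
    exact h3.trans (mul_le_mul_of_nonneg_right (pow_up (by omega)) (by positivity))
  have h2 : δ * ((2 * a / r) ^ n / 64) * (vb E / 2) ≤ volume.real (closedBall x 2 ∩ closedBall 0 a) := by
    refine le_trans ?_ h1
    apply mul_le_mul_of_nonneg_right _ (by positivity)
    exact mul_le_mul_of_nonneg_left hRpow hδ0.le
  have h3 : 18432 * (n : ℝ) ^ 2 * (δ * ((2 * a / r) ^ n / 64) * (vb E / 2)) =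
      2 * (2 * a / r) ^ n * vb E := by
    rw [hδ, hi]
    field_simp
    ring
  calc (2 * a / ρ) ^ n * vb E ≤ 2 * (2 * a / r) ^ n * vb E :=
        mul_le_mul_of_nonneg_right hρpow hv.le
    _ = _ := h3.symm
    _ ≤ _ := mul_le_mul_of_nonneg_left h2 (by positivity)

/-- counting the points of a separated set with balls of radius two centred in a ball -/
lemma lens_count {M : ℕ}
    (hM : ∀ (y : E) (Q : Finset E), Sep 2 Q → (∀ q ∈ Q, dist q y ≤ 2) → Q.card ≤ M)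
    {P : Finset E} (hP : Sep 2 P) {a : ℝ} (ha : 0 ≤ a) :
    ∑ p ∈ P, volume.real (closedBall p 2 ∩ closedBall 0 a) ≤
      M * (a ^ Module.finrank ℝ E * vb E) := by
  classical
  have hint : ∀ p ∈ P, IntegrableOn (indicator (closedBall p (2 : ℝ)) (fun _ => (1 : ℝ)))
      (closedBall 0 a) volume := by
    intro p _
    apply Integrable.indicator _ measurableSet_closedBall
    exact integrableOn_const measure_closedBall_lt_top.ne
  have h1 : ∀ p ∈ P, volume.real (closedBall p 2 ∩ closedBall 0 a) =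
      ∫ y in closedBall (0 : E) a, indicator (closedBall p 2) (fun _ => (1 : ℝ)) y := by
    intro p _
    rw [integral_indicator_const (1 : ℝ) measurableSet_closedBall, smul_eq_mul, mul_one,
      measureReal_restrict_apply measurableSet_closedBall]
  rw [Finset.sum_congr rfl h1, ← integral_finsetSum _ hint]
  have h2 : ∫ y in closedBall (0 : E) a, ∑ p ∈ P, indicator (closedBall p 2) (fun _ => (1 : ℝ)) y ≤
      ∫ y in closedBall (0 : E) a, (M : ℝ) := by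
    apply setIntegral_mono_on
    · exact integrable_finsetSum _ hint
    · exact integrableOn_const measure_closedBall_lt_top.ne
    · exact measurableSet_closedBall
    · intro y _
      have e1 : ∑ p ∈ P, indicator (closedBall p 2) (fun _ => (1 : ℝ)) y =
          ((P.filter (fun p => y ∈ closedBall p 2)).card : ℝ) := by
        rw [Finset.card_filter, Nat.cast_sum]
        apply Finset.sum_congr rfl
        intro p _
        by_cases h : y ∈ closedBall p 2 <;> simp [indicator, h, -mem_closedBall]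
      rw [e1]
      have := hM y (P.filter (fun p => y ∈ closedBall p 2)) (hP.mono (Finset.filter_subset _ _))
        (fun q hq => by
          have := (Finset.mem_filter.1 hq).2
          rwa [mem_closedBall, dist_comm] at this)
      exact_mod_cast this
  refine h2.trans (le_of_eq ?_)
  rw [setIntegral_const, vol_closedBall _ ha, smul_eq_mul]
  ring

/-- the number of points in a thin shell -/
lemma shell_card {n : ℕ} (hfr : Module.finrank ℝ E = n) (hn : 10 ≤ n) {M : ℕ}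
    (hM : ∀ (y : E) (Q : Finset E), Sep 2 Q → (∀ q ∈ Q, dist q y ≤ 2) → Q.card ≤ M)
    {P : Finset E} (hP : Sep 2 P) {ρ : ℝ} (hρ2 : 2 ≤ ρ) (hρ4 : ρ ≤ 4)
    (h1 : ∀ p ∈ P, ρ ≤ ‖p‖) (h2 : ∀ p ∈ P, ‖p‖ ≤ ρ + 1 / n) :
    (P.card : ℝ) ≤ 18432 * (n : ℝ) ^ 2 * M * (ρ / 2) ^ n := by
  have hn' : (10 : ℝ) ≤ n := by exact_mod_cast hn
  have hv := vb_pos (E := E)
  have h0 : 0 < ρ ^ 2 - 4 + 1 / (n : ℝ) := by
    have : 0 < 1 / (n : ℝ) := by positivity
    nlinarith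
  obtain ⟨a, ha, ha2⟩ : ∃ a : ℝ, 0 < a ∧ a ^ 2 = ρ ^ 2 - 4 + 1 / n :=
    ⟨√(ρ ^ 2 - 4 + 1 / n), Real.sqrt_pos.2 h0, Real.sq_sqrt h0.le⟩
  have h3 := lens_count hM hP ha.le
  rw [hfr] at h3
  have h4 : (P.card : ℝ) * ((2 * a / ρ) ^ n * vb E) ≤
      18432 * (n : ℝ) ^ 2 * (M * (a ^ n * vb E)) := by
    calc (P.card : ℝ) * ((2 * a / ρ) ^ n * vb E) = ∑ p ∈ P, (2 * a / ρ) ^ n * vb E := by
          rw [Finset.sum_const, nsmul_eq_mul]
      _ ≤ ∑ p ∈ P, 18432 * (n : ℝ) ^ 2 * volume.real (closedBall p 2 ∩ closedBall 0 a) :=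
          Finset.sum_le_sum fun p hp => lens_vol hfr hn hρ2 hρ4 (h1 p hp) (h2 p hp) ha ha2
      _ = 18432 * (n : ℝ) ^ 2 * ∑ p ∈ P, volume.real (closedBall p 2 ∩ closedBall 0 a) := by
          rw [Finset.mul_sum]
      _ ≤ _ := mul_le_mul_of_nonneg_left h3 (by positivity)
  have h5 : (2 * a / ρ) ^ n = a ^ n / (ρ / 2) ^ n := by
    rw [← div_pow]
    congr 1
    field_simp
  rw [h5] at h4
  have h6 : 0 < (ρ / 2) ^ n := by positivity
  have h7 : 0 < a ^ n * vb E := by positivity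
  have h8 : (P.card : ℝ) * (a ^ n * vb E) ≤
      (18432 * (n : ℝ) ^ 2 * M * (ρ / 2) ^ n) * (a ^ n * vb E) := by
    have h9 := mul_le_mul_of_nonneg_right h4 h6.le
    calc (P.card : ℝ) * (a ^ n * vb E) =
        (P.card : ℝ) * (a ^ n / (ρ / 2) ^ n * vb E) * (ρ / 2) ^ n := by field_simp
      _ ≤ _ := h9
      _ = _ := by ring
  exact le_of_mul_le_mul_right h8 h7

/-- the weighted inequality -/
lemma weighted {n : ℕ} (hfr : Module.finrank ℝ E = n) (hn : 10 ≤ n) {M : ℕ}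
    (hM : ∀ (y : E) (Q : Finset E), Sep 2 Q → (∀ q ∈ Q, dist q y ≤ 2) → Q.card ≤ M)
    {P : Finset E} (hP : Sep 2 P) (h2 : ∀ p ∈ P, 2 ≤ ‖p‖) {t : ℝ} (ht : 0 < t) (ht2 : t ≤ 2) :
    ∑ p ∈ P, √(1 - ‖p‖ ^ 2 / (4 * t ^ 2)) ^ n ≤ 36864 * (n : ℝ) ^ 3 * M * (t / 2) ^ n := by
  classical
  have hn' : (10 : ℝ) ≤ n := by exact_mod_cast hn
  have hn0 : (0 : ℝ) < n := by linarith
  set P' := P.filter (fun p => ‖p‖ < 4) with hP'
  have e1 : ∑ p ∈ P, √(1 - ‖p‖ ^ 2 / (4 * t ^ 2)) ^ n =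
      ∑ p ∈ P', √(1 - ‖p‖ ^ 2 / (4 * t ^ 2)) ^ n := by
    rw [hP', Finset.sum_filter]
    apply Finset.sum_congr rfl
    intro p _
    split_ifs with h
    · rfl
    · rw [Real.sqrt_eq_zero_of_nonpos, zero_pow (by omega)]
      rw [not_lt] at h
      have h3 : 4 * t ^ 2 ≤ ‖p‖ ^ 2 := by nlinarith
      rw [sub_nonpos, le_div_iff₀ (by positivity)]
      linarith
  set J : E → ℕ := fun p => ⌊(‖p‖ - 2) * n⌋₊ with hJ
  have hJr : ∀ p ∈ P', J p ∈ Finset.range (2 * n) := by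
    intro p hp
    rw [hP', Finset.mem_filter] at hp
    rw [Finset.mem_range, hJ]
    simp only
    rw [Nat.floor_lt (mul_nonneg (by linarith [h2 p hp.1]) hn0.le)]
    push_cast
    nlinarith [hp.2]
  rw [e1, ← Finset.sum_fiberwise_of_maps_to hJr]
  have h3 : ∀ j ∈ Finset.range (2 * n), ∑ p ∈ P' with J p = j,
      √(1 - ‖p‖ ^ 2 / (4 * t ^ 2)) ^ n ≤ 18432 * (n : ℝ) ^ 2 * M * (t / 2) ^ n := by
    intro j hj
    rw [Finset.mem_range] at hj
    have hj' : (j : ℝ) ≤ 2 * n := by exact_mod_cast hj.le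
    set ρ : ℝ := 2 + j / n with hρ
    have hρ2 : 2 ≤ ρ := by rw [hρ]; linarith [show (0 : ℝ) ≤ j / n by positivity]
    have hρ4 : ρ ≤ 4 := by
      rw [hρ]
      have : (j : ℝ) / n ≤ 2 := by rw [div_le_iff₀ hn0]; linarith
      linarith
    have hlow : ∀ p ∈ P'.filter (fun p => J p = j), ρ ≤ ‖p‖ := by
      intro p hp
      rw [Finset.mem_filter, hP', Finset.mem_filter] at hp
      have h4 : (j : ℝ) ≤ (‖p‖ - 2) * n := by
        rw [← hp.2]
        exact Nat.floor_le (mul_nonneg (by linarith [h2 p hp.1.1]) hn0.le)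
      rw [hρ]
      have : (j : ℝ) / n ≤ ‖p‖ - 2 := by rw [div_le_iff₀ hn0]; exact h4
      linarith
    have hup : ∀ p ∈ P'.filter (fun p => J p = j), ‖p‖ ≤ ρ + 1 / n := by
      intro p hp
      rw [Finset.mem_filter] at hp
      have h4 : (‖p‖ - 2) * n < j + 1 := by
        rw [← hp.2]
        exact Nat.lt_floor_add_one _
      rw [hρ]
      have : ‖p‖ - 2 ≤ (j + 1) / n := by rw [le_div_iff₀ hn0]; exact h4.le
      rw [add_div] at this
      linarith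
    have hcard := shell_card hfr hn hM (P := P'.filter (fun p => J p = j))
      (hP.mono ((Finset.filter_subset _ _).trans (Finset.filter_subset _ _))) hρ2 hρ4 hlow hup
    have hterm : ∀ p ∈ P'.filter (fun p => J p = j), √(1 - ‖p‖ ^ 2 / (4 * t ^ 2)) ^ n ≤
        √(1 - ρ ^ 2 / (4 * t ^ 2)) ^ n := by
      intro p hp
      apply pow_le_pow_left₀ (Real.sqrt_nonneg _)
      apply Real.sqrt_le_sqrt
      have h4 := hlow p hp
      have h5 : ρ ^ 2 ≤ ‖p‖ ^ 2 := by nlinarith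
      have h6 : ρ ^ 2 / (4 * t ^ 2) ≤ ‖p‖ ^ 2 / (4 * t ^ 2) :=
        div_le_div_of_nonneg_right h5 (by positivity)
      linarith
    have hmax : (ρ / 2) * √(1 - ρ ^ 2 / (4 * t ^ 2)) ≤ t / 2 := by
      by_cases hneg : 1 - ρ ^ 2 / (4 * t ^ 2) ≤ 0
      · rw [Real.sqrt_eq_zero_of_nonpos hneg, mul_zero]; positivity
      rw [not_le] at hneg
      apply le_of_sq_le_sq _ (by positivity)
      rw [mul_pow, Real.sq_sqrt hneg.le]
      have h4 : (t / 2) ^ 2 - (ρ / 2) ^ 2 * (1 - ρ ^ 2 / (4 * t ^ 2)) =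
          (t / 2 - ρ ^ 2 / (4 * t)) ^ 2 := by
        field_simp
        ring
      nlinarith [sq_nonneg (t / 2 - ρ ^ 2 / (4 * t))]
    calc ∑ p ∈ P' with J p = j, √(1 - ‖p‖ ^ 2 / (4 * t ^ 2)) ^ n
        ≤ ∑ p ∈ P' with J p = j, √(1 - ρ ^ 2 / (4 * t ^ 2)) ^ n := Finset.sum_le_sum hterm
      _ = (P'.filter (fun p => J p = j)).card * √(1 - ρ ^ 2 / (4 * t ^ 2)) ^ n := by
          rw [Finset.sum_const, nsmul_eq_mul]
      _ ≤ (18432 * (n : ℝ) ^ 2 * M * (ρ / 2) ^ n) * √(1 - ρ ^ 2 / (4 * t ^ 2)) ^ n :=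
          mul_le_mul_of_nonneg_right hcard (pow_nonneg (Real.sqrt_nonneg _) _)
      _ = 18432 * (n : ℝ) ^ 2 * M * ((ρ / 2) * √(1 - ρ ^ 2 / (4 * t ^ 2))) ^ n := by
          rw [mul_pow]; ring
      _ ≤ _ := by
          apply mul_le_mul_of_nonneg_left _ (by positivity)
          exact pow_le_pow_left₀ (by positivity) hmax n
  calc _ ≤ ∑ j ∈ Finset.range (2 * n), 18432 * (n : ℝ) ^ 2 * M * (t / 2) ^ n :=
        Finset.sum_le_sum h3
    _ = _ := by
        rw [Finset.sum_const, Finset.card_range, nsmul_eq_mul]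
        push_cast
        ring

end

end Pool.Agent.R760.VC
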