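import Pool.Agent.R760.VC1

/-! MP_dbfdb2_gt: volumes of Voronoi cells. -/

open MeasureTheory Metric Filter Set
open scoped Topology InnerProductSpace

set_option linter.unusedSectionVars false

namespace Pool.Agent.R760.VC
open Pool.Agent.H818R2

section
variable {E : Type*} [NormedAddCommGroup E] [InnerProductSpace ℝ E] [FiniteDimensional ℝ E]
  [MeasurableSpace E] [BorelSpace E]

/-- the Voronoi cell of `x` -/
def cell (X : Set E) (x : E) : Set E := {z | ∀ y ∈ X, dist z x ≤ dist z y}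

open Classical in
lemma cell_lower {n : ℕ} (hfr : Module.finrank ℝ E = n) (hn : 10 ≤ n) {M : ℕ}
    (hM : ∀ (y : E) (Q : Finset E), Sep 2 Q → (∀ q ∈ Q, dist q y ≤ 2) → Q.card ≤ M)
    {X : Set E} (hX : IsPacking X 1) {x₀ : E} (hx₀ : x₀ ∈ X) {t : ℝ} (ht : 0 < t) (ht2 : t ≤ 2) :
    t ^ n * vb E * (1 - 36864 * (n : ℝ) ^ 3 * M * (t / 2) ^ n) ≤
      volume.real (cell X x₀ ∩ ball x₀ t) := by
  have hv := vb_pos (E := E)
  set F : Finset E := (finite_inter hX (‖x₀‖ + 2 * t)).toFinset.filter (fun y => y ≠ x₀) with hF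
  have hFX : ∀ y ∈ F, y ∈ X ∧ y ≠ x₀ := by
    intro y hy
    rw [hF, Finset.mem_filter, Finite.mem_toFinset] at hy
    exact ⟨hy.1.1, hy.2⟩
  set P : Finset E := F.image (fun y => y - x₀) with hP
  have hinj : Set.InjOn (fun y : E => y - x₀) F := fun a _ b _ h => sub_left_injective h
  have hPs : Sep 2 P := by
    intro p hp q hq hpq
    obtain ⟨y, hy, rfl⟩ := Finset.mem_image.1 hp
    obtain ⟨z, hz, rfl⟩ := Finset.mem_image.1 hq
    rw [dist_sub_right]
    exact sep_of_packing hX (hFX y hy).1 (hFX z hz).1 (fun h => hpq (by rw [h]))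
  have hP2 : ∀ p ∈ P, 2 ≤ ‖p‖ := by
    intro p hp
    obtain ⟨y, hy, rfl⟩ := Finset.mem_image.1 hp
    rw [← dist_eq_norm]
    exact sep_of_packing hX (hFX y hy).1 hx₀ (hFX y hy).2
  have hw := weighted hfr hn hM hPs hP2 ht ht2
  rw [hP, Finset.sum_image hinj] at hw
  have hcov : ball x₀ t ⊆ (cell X x₀ ∩ ball x₀ t) ∪
      ⋃ y ∈ F, closedBall ((1 / 2 : ℝ) • (x₀ + y)) (√(t ^ 2 - dist x₀ y ^ 2 / 4)) := by
    intro z hz
    by_cases hc : z ∈ cell X x₀
    · exact Or.inl ⟨hc, hz⟩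
    right
    simp only [cell, mem_ofPred_eq, not_forall, not_le] at hc
    obtain ⟨y, hy, hyz⟩ := hc
    rw [mem_ball] at hz
    rw [mem_iUnion₂]
    refine ⟨y, ?_, inter_sub x₀ y ht.le le_rfl ⟨mem_closedBall.2 hz.le,
      mem_closedBall.2 (hyz.trans hz).le⟩⟩
    rw [hF, Finset.mem_filter, Finite.mem_toFinset]
    refine ⟨⟨hy, ?_⟩, ?_⟩
    · rw [mem_closedBall, dist_zero_right]
      have h1 : dist y x₀ ≤ 2 * t := by
        have := dist_triangle y z x₀
        rw [dist_comm y z] at this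
        linarith
      have h2 : ‖y‖ ≤ ‖y - x₀‖ + ‖x₀‖ := by
        calc ‖y‖ = ‖(y - x₀) + x₀‖ := by rw [sub_add_cancel]
          _ ≤ _ := norm_add_le _ _
      rw [dist_eq_norm] at h1
      linarith
    · rintro rfl
      exact lt_irrefl _ hyz
  have h1 := measureReal_mono (μ := volume) hcov (by
    refine (measure_union_lt_top ((measure_mono inter_subset_right).trans_lt measure_ball_lt_top)
      ?_).ne
    apply measure_biUnion_lt_top (Finset.finite_toSet _)
    intro i _; exact measure_closedBall_lt_top)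
  have h2 := (h1.trans (measureReal_union_le _ _)).trans
    (add_le_add le_rfl (measureReal_biUnion_finset_le _ _))
  rw [vol_ball x₀ ht, Finset.sum_congr rfl (fun y _ => vol_closedBall _ (Real.sqrt_nonneg _)),
    hfr] at h2
  have h3 : ∑ y ∈ F, √(t ^ 2 - dist x₀ y ^ 2 / 4) ^ n * vb E =
      t ^ n * vb E * ∑ y ∈ F, √(1 - ‖y - x₀‖ ^ 2 / (4 * t ^ 2)) ^ n := by
    rw [Finset.mul_sum]
    apply Finset.sum_congr rfl
    intro y _
    have e1 : t ^ 2 - dist x₀ y ^ 2 / 4 = t ^ 2 * (1 - ‖y - x₀‖ ^ 2 / (4 * t ^ 2)) := by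
      rw [dist_comm, dist_eq_norm]
      field_simp
    rw [e1, Real.sqrt_mul (by positivity), Real.sqrt_sq ht.le, mul_pow]
    ring
  rw [h3] at h2
  have h4 : t ^ n * vb E * ∑ y ∈ F, √(1 - ‖y - x₀‖ ^ 2 / (4 * t ^ 2)) ^ n ≤
      t ^ n * vb E * (36864 * (n : ℝ) ^ 3 * M * (t / 2) ^ n) :=
    mul_le_mul_of_nonneg_left hw (by positivity)
  linarith

/-- **The volume of a Voronoi cell of a packing of unit balls.** -/
theorem cell_vol {n : ℕ} (hfr : Module.finrank ℝ E = n) (hn : 10 ≤ n) {M : ℕ}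
    (hM : ∀ (y : E) (Q : Finset E), Sep 2 Q → (∀ q ∈ Q, dist q y ≤ 2) → Q.card ≤ M)
    {X : Set E} (hX : IsPacking X 1) {x₀ : E} (hx₀ : x₀ ∈ X) :
    ENNReal.ofReal (2 ^ n / (147456 * (n : ℝ) ^ 3 * M)) * volume (ball (0 : E) 1) ≤
      volume (cell X x₀) := by
  have hM1 : 1 ≤ M := by
    have := hM 0 {0} (by intro x hx y hy hxy; simp at hx hy; rw [hx, hy] at hxy; exact absurd rfl hxy)
      (by intro q hq; simp at hq; rw [hq]; simp)
    simpa using this
  have hM1' : (1 : ℝ) ≤ M := by exact_mod_cast hM1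
  have hn' : (10 : ℝ) ≤ n := by exact_mod_cast hn
  have hn3 : (1 : ℝ) ≤ (n : ℝ) ^ 3 := one_le_pow₀ (by linarith)
  have hv := vb_pos (E := E)
  set K : ℝ := 73728 * (n : ℝ) ^ 3 * M with hK
  have hK1 : 1 ≤ K := by
    have : 1 ≤ (n : ℝ) ^ 3 * M := by nlinarith
    rw [hK]; linarith
  have hK0 : 0 < K := by linarith
  obtain ⟨w, hw0, hw1, hwn⟩ : ∃ w : ℝ, 0 < w ∧ w ≤ 1 ∧ w ^ n = 1 / K := by
    refine ⟨(1 / K) ^ ((1 : ℝ) / n), by positivity, ?_, ?_⟩
    · apply Real.rpow_le_one (by positivity) _ (by positivity)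
      rw [div_le_one hK0]; exact hK1
    · rw [← Real.rpow_natCast, ← Real.rpow_mul (by positivity), one_div_mul_cancel (by linarith),
        Real.rpow_one]
  have h1 := cell_lower hfr hn hM hX hx₀ (t := 2 * w) (by positivity) (by linarith)
  have h2 : (2 * w / 2) ^ n = 1 / K := by rw [mul_div_cancel_left₀ _ (by norm_num), hwn]
  have h3 : 36864 * (n : ℝ) ^ 3 * M * (1 / K) = 1 / 2 := by
    rw [hK]; field_simp; norm_num
  rw [h2, h3, mul_pow, hwn] at h1
  have h4 : 2 ^ n * (1 / K) * vb E * (1 - 1 / 2) = 2 ^ n / (147456 * (n : ℝ) ^ 3 * M) * vb E := by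
    rw [hK]; field_simp; ring
  rw [h4] at h1
  calc ENNReal.ofReal (2 ^ n / (147456 * (n : ℝ) ^ 3 * M)) * volume (ball (0 : E) 1)
      = ENNReal.ofReal (2 ^ n / (147456 * (n : ℝ) ^ 3 * M) * vb E) := by
        rw [ENNReal.ofReal_mul (by positivity), vb, measureReal_def,
          ENNReal.ofReal_toReal measure_ball_lt_top.ne]
    _ ≤ ENNReal.ofReal (volume.real (cell X x₀ ∩ ball x₀ (2 * w))) := ENNReal.ofReal_le_ofReal h1
    _ = volume (cell X x₀ ∩ ball x₀ (2 * w)) := by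
        rw [measureReal_def, ENNReal.ofReal_toReal]
        exact ((measure_mono inter_subset_right).trans_lt measure_ball_lt_top).ne
    _ ≤ _ := measure_mono inter_subset_left

/-- **A small Voronoi cell.** -/
theorem small_cell [Nontrivial E] : ∃ F : Finset E, (0 : E) ∈ F ∧ Sep 2 F ∧
    cell (F : Set E) 0 ⊆ ball 0 (√(27 / 8)) := by
  classical
  obtain ⟨P, hP, hPG, hmax⟩ := exists_max (E := E) (G := sphere 0 (√6)) (a := √6)
    (Real.sqrt_nonneg _) sphere_subset_closedBall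
  have h6 : √6 ^ 2 = (6 : ℝ) := Real.sq_sqrt (by norm_num)
  have h60 : 0 < √(6 : ℝ) := Real.sqrt_pos.2 (by norm_num)
  have hPn : ∀ p ∈ P, ‖p‖ = √6 := fun p hp => mem_sphere_zero_iff_norm.1 (hPG hp)
  have hnear : ∀ u : E, ‖u‖ = √6 → ∃ p ∈ P, dist p u < 2 := by
    intro u hu
    by_contra hcon
    push Not at hcon
    have huP : u ∉ P := fun h => by
      have := hcon u h
      rw [dist_self] at this; norm_num at this
    have h2 := hmax (insert u P) ?_ ?_
    · rw [Finset.card_insert_of_notMem huP] at h2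
      omega
    · intro x hx y hy hxy
      rw [Finset.mem_insert] at hx hy
      rcases hx with rfl | hx <;> rcases hy with rfl | hy
      · exact absurd rfl hxy
      · rw [dist_comm]; exact hcon y hy
      · exact hcon x hx
      · exact hP x hx y hy hxy
    · rw [Finset.coe_insert]
      exact insert_subset (mem_sphere_zero_iff_norm.2 hu) hPG
  refine ⟨insert 0 P, Finset.mem_insert_self _ _, ?_, ?_⟩
  · have h2 : ∀ p ∈ P, 2 ≤ ‖p‖ := by
      intro p hp
      rw [hPn p hp]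
      exact Real.le_sqrt_of_sq_le (by norm_num)
    intro x hx y hy hxy
    rw [Finset.mem_insert] at hx hy
    rcases hx with rfl | hx <;> rcases hy with rfl | hy
    · exact absurd rfl hxy
    · rw [dist_comm, dist_zero_right]; exact h2 y hy
    · rw [dist_zero_right]; exact h2 x hx
    · exact hP x hx y hy hxy
  · intro z hz
    rw [mem_ball_zero_iff]
    by_cases hz0 : z = 0
    · rw [hz0, norm_zero]; positivity
    have hzn : 0 < ‖z‖ := norm_pos_iff.2 hz0
    obtain ⟨p, hp, hpu⟩ := hnear ((√6 / ‖z‖) • z) (by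
      rw [norm_smul, Real.norm_of_nonneg (by positivity)]
      field_simp)
    have h1 := hz p (Finset.mem_coe.2 (Finset.mem_insert_of_mem hp))
    rw [dist_zero_right, dist_eq_norm] at h1
    have h2 : ‖z‖ ^ 2 ≤ ‖z - p‖ ^ 2 := pow_le_pow_left₀ (norm_nonneg _) h1 2
    rw [norm_sub_sq_real, hPn p hp, h6] at h2
    have h3 : dist p ((√6 / ‖z‖) • z) ^ 2 < 2 ^ 2 := pow_lt_pow_left₀ hpu dist_nonneg (by norm_num)
    rw [dist_comm, dist_eq_norm, norm_sub_sq_real, norm_smul,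
      Real.norm_of_nonneg (by positivity), hPn p hp, h6, inner_smul_left,
      div_mul_cancel₀ _ hzn.ne', h6] at h3
    simp only [conj_trivial] at h3
    have h4 : 4 < √6 / ‖z‖ * ⟪z, p⟫_ℝ := by linarith
    have h5 : √6 / ‖z‖ * ⟪z, p⟫_ℝ ≤ √6 / ‖z‖ * 3 :=
      mul_le_mul_of_nonneg_left (by linarith) (by positivity)
    have h7 : 4 < √6 / ‖z‖ * 3 := lt_of_lt_of_le h4 h5
    rw [div_mul_eq_mul_div, lt_div_iff₀ hzn] at h7
    apply Real.lt_sqrt_of_sq_lt
    nlinarith

end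

end Pool.Agent.R760.VC
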